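import Pool.Agent.MP_f7f40d_pr.HD.Defs

set_option autoImplicit false

namespace Pool.Agent.MP_f7f40d_pr.HD

/-- The one-dimensional barrier with centre `c`, curvature `-8d` on `[c - D, c + D]` and kinks at
the positions `c ± q`, `q ∈ qs`. -/
noncomputable def theta (d : ℕ) (c : ℤ) (D : ℕ) (qs : Finset ℕ) (t : ℤ) : ℤ :=
  (∑ q ∈ qs, max (q : ℤ) |t - c|) - 4 * d * ∑ s ∈ Finset.Icc (-(D : ℤ)) D, |t - c - s|

theorem hb1_max (q : ℕ) (hq : 1 ≤ q) (u : ℤ) :
    max (q : ℤ) |u + 1| + max (q : ℤ) |u - 1| - 2 * max (q : ℤ) |u| =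
      if |u|.toNat = q then 1 else 0 := by
  have hq' : (1 : ℤ) ≤ q := by exact_mod_cast hq
  simp only [abs_eq_max_neg]
  split_ifs with h
  · omega
  · omega

theorem hb1_abs (u s : ℤ) :
    |u + 1 - s| + |u - 1 - s| - 2 * |u - s| = if u = s then 2 else 0 := by
  simp only [abs_eq_max_neg]
  split_ifs with h
  · omega
  · omega

theorem hb1_sum_id (D : ℕ) : ∑ s ∈ Finset.Icc (-(D : ℤ)) D, s = 0 := by
  have h : ∑ s ∈ Finset.Icc (-(D : ℤ)) D, s = ∑ s ∈ Finset.Icc (-(D : ℤ)) D, -s := by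
    refine Finset.sum_equiv (Equiv.neg ℤ) ?_ ?_
    · intro s
      simp only [Finset.mem_Icc, Equiv.neg_apply]
      constructor
      · rintro ⟨h1, h2⟩
        constructor <;> linarith
      · rintro ⟨h1, h2⟩
        constructor <;> linarith
    · intro s _
      simp
  rw [Finset.sum_neg_distrib] at h
  linarith

theorem hb1_card (D : ℕ) : ((Finset.Icc (-(D : ℤ)) D).card : ℤ) = 2 * D + 1 := by
  rw [Int.card_Icc]
  omega

/-- The sum of the distances from a far point. -/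
theorem hb1_sum_abs (D : ℕ) (u : ℤ) (hu : (D : ℤ) ≤ |u|) :
    ∑ s ∈ Finset.Icc (-(D : ℤ)) D, |u - s| = (2 * D + 1) * |u| := by
  rcases le_total 0 u with h0 | h0
  · have hu' : (D : ℤ) ≤ u := by rwa [abs_of_nonneg h0] at hu
    have h1 : ∀ s ∈ Finset.Icc (-(D : ℤ)) D, |u - s| = u - s := by
      intro s hs
      rw [Finset.mem_Icc] at hs
      exact abs_of_nonneg (by linarith [hs.2])
    rw [Finset.sum_congr rfl h1, Finset.sum_sub_distrib, hb1_sum_id, Finset.sum_const,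
      nsmul_eq_mul, hb1_card, abs_of_nonneg h0]
    ring
  · have hu' : (D : ℤ) ≤ -u := by rwa [abs_of_nonpos h0] at hu
    have h1 : ∀ s ∈ Finset.Icc (-(D : ℤ)) D, |u - s| = s - u := by
      intro s hs
      rw [Finset.mem_Icc] at hs
      rw [abs_of_nonpos (by linarith [hs.1])]
      ring
    rw [Finset.sum_congr rfl h1, Finset.sum_sub_distrib, hb1_sum_id, Finset.sum_const,
      nsmul_eq_mul, hb1_card, abs_of_nonpos h0]
    ring

/-- The barrier at a far point. -/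
theorem hb1_theta_far (d : ℕ) (c : ℤ) (D : ℕ) (qs : Finset ℕ)
    (hcard : qs.card = 4 * d * (2 * D + 1)) (t : ℤ) (hu : (D : ℤ) ≤ |t - c|) :
    theta d c D qs t = ∑ q ∈ qs, (max (q : ℤ) |t - c| - |t - c|) := by
  have hc : ((qs.card : ℕ) : ℤ) = 4 * d * (2 * D + 1) := by
    rw [hcard]
    push_cast
    ring
  unfold theta
  rw [hb1_sum_abs D (t - c) hu, Finset.sum_sub_distrib, Finset.sum_const, nsmul_eq_mul, hc]
  ring

/-- **[HD-B1a]** Second difference of the barrier.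

PROOF. Put `u = t - c`.  `|u + 1| + |u - 1| - 2|u| = 2·[u = 0]`; for `q ≥ 1`:
`max q |u+1| + max q |u-1| - 2 max q |u| = [|u| = q]` (cases `|u| < q`, `|u| = q`, `|u| > q`);
for `s`: `|u + 1 - s| + |u - 1 - s| - 2|u - s| = 2·[u = s]`.  Sum: `∑_{q∈qs} [|u| = q]` is
`1` or `0` according to `|u|.toNat ∈ qs`, `∑_{s} 2[u = s] = 2·[|u| ≤ D]`, times `4d`. -/
theorem theta_second (d : ℕ) (c : ℤ) (D : ℕ) (qs : Finset ℕ) (hq : ∀ q ∈ qs, 1 ≤ q) (t : ℤ) :
    theta d c D qs (t + 1) + theta d c D qs (t - 1) - 2 * theta d c D qs t =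
      ind (|t - c|.toNat ∈ qs) - 8 * d * ind (|t - c| ≤ D) := by
  obtain ⟨u, hu⟩ : ∃ u, u = t - c := ⟨_, rfl⟩
  have e1 : t + 1 - c = u + 1 := by rw [hu]; ring
  have e2 : t - 1 - c = u - 1 := by rw [hu]; ring
  have h1 : ∑ q ∈ qs, (max (q : ℤ) |u + 1| + max (q : ℤ) |u - 1| - 2 * max (q : ℤ) |u|) =
      ind (|u|.toNat ∈ qs) := by
    rw [Finset.sum_congr rfl fun q hq' => hb1_max q (hq q hq') u, Finset.sum_ite_eq]
    by_cases h : |u|.toNat ∈ qs
    · rw [if_pos h, ind_true h, Nat.cast_one]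
    · rw [if_neg h, ind_false h, Nat.cast_zero]
  have h2 : ∑ s ∈ Finset.Icc (-(D : ℤ)) D, (|u + 1 - s| + |u - 1 - s| - 2 * |u - s|) =
      2 * ind (|u| ≤ D) := by
    rw [Finset.sum_congr rfl fun s _ => hb1_abs u s, Finset.sum_ite_eq]
    by_cases h : |u| ≤ (D : ℤ)
    · rw [if_pos (Finset.mem_Icc.mpr (abs_le.mp h)), ind_true h]
      norm_num
    · rw [if_neg (fun h' => h (abs_le.mpr (Finset.mem_Icc.mp h'))), ind_false h]
      norm_num
  unfold theta
  rw [e1, e2, ← hu, ← h1]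
  have h3 : (8 * (d : ℤ) * (ind (|u| ≤ D) : ℤ)) =
      4 * d * ∑ s ∈ Finset.Icc (-(D : ℤ)) D, (|u + 1 - s| + |u - 1 - s| - 2 * |u - s|) := by
    rw [h2]
    ring
  rw [h3]
  simp only [Finset.sum_add_distrib, Finset.sum_sub_distrib, ← Finset.mul_sum]
  ring

/-- **[HD-B1b]** The barrier is non-negative.

PROOF. `u = t - c`.  If `|u| ≥ D` then `∑_{s=-D}^{D} |u - s| = (2D+1)|u|` (all terms have the same
sign; pair `s`, `-s`, or `Finset.sum_sub_distrib` and `∑ s = 0`), so, with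
`qs.card = 4d(2D+1)`, `theta = ∑_q (max q |u| - |u|) ≥ 0`.  If `|u| < D` every `|u - s| ≤ 2D`, so
`4d ∑ ≤ 4d (2D+1) 2D = qs.card · 2D ≤ ∑_q q ≤ ∑_q max q |u|`. -/
theorem theta_nonneg (d : ℕ) (c : ℤ) (D : ℕ) (qs : Finset ℕ)
    (hcard : qs.card = 4 * d * (2 * D + 1)) (hq : ∀ q ∈ qs, 2 * D + 1 ≤ q) (t : ℤ) :
    0 ≤ theta d c D qs t := by
  have hc : ((qs.card : ℕ) : ℤ) = 4 * d * (2 * D + 1) := by
    rw [hcard]
    push_cast
    ring
  rcases le_or_gt (D : ℤ) |t - c| with hu | hu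
  · rw [hb1_theta_far d c D qs hcard t hu]
    exact Finset.sum_nonneg fun q _ => sub_nonneg.mpr (le_max_right _ _)
  · have h1 : ∑ s ∈ Finset.Icc (-(D : ℤ)) D, |t - c - s| ≤ (2 * D + 1) * (2 * D) := by
      have h : ∀ s ∈ Finset.Icc (-(D : ℤ)) D, |t - c - s| ≤ 2 * (D : ℤ) := by
        intro s hs
        rw [Finset.mem_Icc] at hs
        rw [abs_le]
        rw [abs_lt] at hu
        constructor <;> linarith [hs.1, hs.2, hu.1, hu.2]
      refine (Finset.sum_le_card_nsmul _ _ _ h).trans (le_of_eq ?_)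
      rw [nsmul_eq_mul, hb1_card]
    have h2 : (4 * (d : ℤ) * (2 * D + 1)) * (2 * D) ≤ ∑ q ∈ qs, max (q : ℤ) |t - c| := by
      rw [← hc, ← nsmul_eq_mul]
      refine Finset.card_nsmul_le_sum _ _ _ fun q hq' => ?_
      have h3 : ((2 * D + 1 : ℕ) : ℤ) ≤ q := by exact_mod_cast hq q hq'
      push_cast at h3
      exact le_trans (by linarith) (le_max_left _ _)
    have h3 : 4 * (d : ℤ) * ∑ s ∈ Finset.Icc (-(D : ℤ)) D, |t - c - s| ≤
        4 * d * ((2 * D + 1) * (2 * D)) := mul_le_mul_of_nonneg_left h1 (by positivity)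
    have h4 : (4 * (d : ℤ) * (2 * D + 1)) * (2 * D) = 4 * d * ((2 * D + 1) * (2 * D)) := by ring
    unfold theta
    linarith

/-- **[HD-B1c]** The barrier vanishes outside the kinks (for `1 ≤ d` there is at least one kink).

PROOF. Contrapositive: if `q ≤ |u|` for all `q ∈ qs` then `|u| ≥ 2D + 1 ≥ D` (`qs ≠ ∅`) and, as in
[HD-B1b], `theta = ∑_q (max q |u| - |u|) = 0`. -/
theorem theta_pos (d : ℕ) (hd : 1 ≤ d) (c : ℤ) (D : ℕ) (qs : Finset ℕ)
    (hcard : qs.card = 4 * d * (2 * D + 1)) (hq : ∀ q ∈ qs, 2 * D + 1 ≤ q) (t : ℤ)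
    (ht : 1 ≤ theta d c D qs t) : ∃ q ∈ qs, |t - c| < q := by
  by_contra hcon
  push Not at hcon
  have hne : qs.Nonempty := by
    rw [← Finset.card_pos, hcard]
    positivity
  obtain ⟨q0, hq0⟩ := hne
  have h1 : ((2 * D + 1 : ℕ) : ℤ) ≤ q0 := by exact_mod_cast hq q0 hq0
  push_cast at h1
  have hu : (D : ℤ) ≤ |t - c| := by linarith [hcon q0 hq0]
  have h0 : theta d c D qs t = 0 := by
    rw [hb1_theta_far d c D qs hcard t hu]
    refine Finset.sum_eq_zero fun q hq' => ?_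
    rw [max_eq_right (hcon q hq'), sub_self]
  rw [h0] at ht
  exact absurd ht (by norm_num)

end Pool.Agent.MP_f7f40d_pr.HD
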