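import Pool.Agent.MP_f7f40d_pr.HD.Defs

set_option autoImplicit false

namespace Pool.Agent.MP_f7f40d_pr.HD

theorem hb2_pair (Lg : ℤ) (Γ : Set ℤ)
    (hΓ : ∀ p ∈ Γ, ∀ q ∈ Γ, p ≠ q → 9 * Lg ≤ |p - q|) {p p' x x' : ℤ} (hp : p ∈ Γ) (hp' : p' ∈ Γ)
    (h : |x - p| < Lg) (h' : |x' - p'| < Lg) (h1 : x + 2 * Lg ≤ x') (h2 : x' ≤ x + 7 * Lg) : False := by
  rw [abs_lt] at h h'
  by_cases hpp : p = p'
  · subst hpp
    omega
  · have h3 := hΓ p hp p' hp' hpp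
    rcases le_abs.1 h3 with h4 | h4 <;> omega

theorem hb2_one (c : ℤ) (Lg : ℤ) (hL : 1 ≤ Lg) (b : ℤ) (Γ : Set ℤ)
    (hΓ : ∀ p ∈ Γ, ∀ q ∈ Γ, p ≠ q → 9 * Lg ≤ |p - q|) :
    ∃ r : ℤ, b + Lg ≤ r ∧ r ≤ b + 5 * Lg ∧ ∀ p ∈ Γ, Lg ≤ |c + r - p| ∧ Lg ≤ |c - r - p| := by
  by_contra hcon
  push Not at hcon
  obtain ⟨p1, hp1, h1⟩ := hcon (b + Lg) (by omega) (by omega)
  obtain ⟨p3, hp3, h3⟩ := hcon (b + 3 * Lg) (by omega) (by omega)
  obtain ⟨p5, hp5, h5⟩ := hcon (b + 5 * Lg) (by omega) (by omega)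
  rcases lt_or_ge (|c + (b + Lg) - p1|) Lg with g1 | g1 <;>
  rcases lt_or_ge (|c + (b + 3 * Lg) - p3|) Lg with g3 | g3 <;>
  rcases lt_or_ge (|c + (b + 5 * Lg) - p5|) Lg with g5 | g5
  · exact hb2_pair Lg Γ hΓ hp1 hp3 g1 g3 (by omega) (by omega)
  · exact hb2_pair Lg Γ hΓ hp1 hp3 g1 g3 (by omega) (by omega)
  · exact hb2_pair Lg Γ hΓ hp1 hp5 g1 g5 (by omega) (by omega)
  · exact hb2_pair Lg Γ hΓ hp5 hp3 (h5 g5) (h3 g3) (by omega) (by omega)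
  · exact hb2_pair Lg Γ hΓ hp3 hp5 g3 g5 (by omega) (by omega)
  · exact hb2_pair Lg Γ hΓ hp5 hp1 (h5 g5) (h1 g1) (by omega) (by omega)
  · exact hb2_pair Lg Γ hΓ hp3 hp1 (h3 g3) (h1 g1) (by omega) (by omega)
  · exact hb2_pair Lg Γ hΓ hp3 hp1 (h3 g3) (h1 g1) (by omega) (by omega)

/-- **[HD-B2]** Choice of the kinks.

PROOF. For `j < a` let the candidates of group `j` be `r_{j,e} = 2D + 10·Lg·j + Lg·e`,
`e = 1, …, 8`.  A candidate `r` is blocked by `p ∈ Γ` if `|c + r - p| < Lg` or `|c - r - p| < Lg`.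
If `|c + r_{j,e} - p| < Lg` for some `e ∈ [1,8]` then `2D + 10Lg j < p - c < 2D + 10 Lg j + 9Lg`: two
such `p` differ by less than `9 Lg`, so there is at most one such `p`, and it blocks at most two
values of `e` (those with `|Lg e - const| < Lg`).  Similarly at most one `p` blocks through
`|c - r - p| < Lg`, at most two values of `e`.  So at most `4 < 8` values of `e` are blocked: choose a
free `e(j)` in `[1,8]` and let `q_j = r_{j,e(j)}`, `qs = image of q`.  For `j < j'`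
`q_{j'} - q_j ≥ 10 Lg - 7 Lg ≥ Lg > 0`, so `q` is injective, `qs.card = a`, and the separation holds.
`2D + 1 ≤ 2D + Lg ≤ q_j ≤ 2D + 10 Lg (a-1) + 8 Lg ≤ 2D + 10 Lg a`. -/
theorem kinks (c : ℤ) (D Lg a : ℕ) (hL : 1 ≤ Lg) (Γ : Set ℤ)
    (hΓ : ∀ p ∈ Γ, ∀ q ∈ Γ, p ≠ q → (9 * Lg : ℤ) ≤ |p - q|) :
    ∃ qs : Finset ℕ, qs.card = a ∧
      (∀ q ∈ qs, 2 * D + 1 ≤ q ∧ Lg ≤ q ∧ q ≤ 2 * D + 10 * Lg * a) ∧
      (∀ q ∈ qs, ∀ q' ∈ qs, q ≠ q' → (Lg : ℤ) ≤ |(q : ℤ) - q'|) ∧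
      (∀ q ∈ qs, ∀ p ∈ Γ, (Lg : ℤ) ≤ |c + q - p| ∧ (Lg : ℤ) ≤ |c - q - p|) := by
  classical
  have key : ∀ j : ℕ, ∃ r : ℕ, 2 * D + 10 * (Lg * j) + Lg ≤ r ∧ r ≤ 2 * D + 10 * (Lg * j) + 5 * Lg ∧
      ∀ p ∈ Γ, (Lg : ℤ) ≤ |c + r - p| ∧ (Lg : ℤ) ≤ |c - r - p| := by
    intro j
    obtain ⟨r, h1, h2, h3⟩ := hb2_one c (Lg : ℤ) (by exact_mod_cast hL)
      ((2 * D + 10 * (Lg * j) : ℕ) : ℤ) Γ hΓ
    obtain ⟨s, rfl⟩ := Int.eq_ofNat_of_zero_le (show 0 ≤ r by omega)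
    refine ⟨s, ?_, ?_, h3⟩
    · omega
    · omega
  choose f hf1 hf2 hf3 using key
  have hsep : ∀ j j' : ℕ, j < j' → f j + Lg ≤ f j' := by
    intro j j' h
    have h1 : Lg * (j + 1) ≤ Lg * j' := Nat.mul_le_mul_left _ h
    rw [Nat.mul_succ] at h1
    have h2 := hf2 j
    have h3 := hf1 j'
    omega
  have hinj : Function.Injective f := by
    intro j j' h
    rcases lt_trichotomy j j' with h1 | h1 | h1
    · have := hsep j j' h1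
      omega
    · exact h1
    · have := hsep j' j h1
      omega
  refine ⟨(Finset.range a).image f, ?_, ?_, ?_, ?_⟩
  · rw [Finset.card_image_of_injective _ hinj, Finset.card_range]
  · intro q hq
    obtain ⟨j, hj, rfl⟩ := Finset.mem_image.1 hq
    have h1 := hf1 j
    have h2 := hf2 j
    have h3 : Lg * (j + 1) ≤ Lg * a := Nat.mul_le_mul_left _ (Finset.mem_range.1 hj)
    rw [Nat.mul_succ] at h3
    have h4 : 10 * Lg * a = 10 * (Lg * a) := Nat.mul_assoc _ _ _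
    rw [h4]
    refine ⟨by omega, by omega, by omega⟩
  · intro q hq q' hq' hne
    obtain ⟨j, hj, rfl⟩ := Finset.mem_image.1 hq
    obtain ⟨j', hj', rfl⟩ := Finset.mem_image.1 hq'
    rw [le_abs]
    rcases lt_trichotomy j j' with h1 | h1 | h1
    · have := hsep j j' h1
      right
      omega
    · exact absurd (by rw [h1]) hne
    · have := hsep j' j h1
      left
      omega
  · intro q hq p hp
    obtain ⟨j, hj, rfl⟩ := Finset.mem_image.1 hq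
    exact hf3 j p hp

end Pool.Agent.MP_f7f40d_pr.HD
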