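import Pool.Agent.MP_f7f40d_pr.HD.Defs

set_option autoImplicit false

namespace Pool.Agent.MP_f7f40d_pr.HD

variable {d : ℕ}

/-- **[HD-B3b]** Subtracting a barrier.

PROOF. `g y := max (h y - ψ y) 0`; `g x = h x - ψ x` and `g y ≥ h y - ψ y` for all `y`; sum over the
neighbours (`lapZ_eq`). -/
theorem lapZ_sub_le (h ψ : (Fin d → ℤ) → ℤ) (x : Fin d → ℤ) (hx : 1 ≤ h x - ψ x) :
    lapZ (fun y => max (h y - ψ y) 0) x ≤ lapZ h x - lapZ ψ x := by
  have hg : ∀ y, h y - ψ y ≤ max (h y - ψ y) 0 := fun y => le_max_left _ _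
  have hgx : max (h x - ψ x) 0 = h x - ψ x := max_eq_left (by omega)
  simp only [lapZ_eq]
  rw [← Finset.sum_sub_distrib]
  refine Finset.sum_le_sum fun i _ => ?_
  have h1 := hg (stp x i 1)
  have h2 := hg (stp x i (-1))
  rw [hgx]
  linarith

/-- **[HD-B3c]** Localisation: `F = {x | m ≤ h x}`, `Q` is a set such that `F ∩ Q` is closed under
adjacency in `F`; `hK = h - m + 1` on `F ∩ Q` and `0` elsewhere.

PROOF. For a neighbour `w = stp x i s` of `x ∈ F ∩ Q`: if `w ∈ F` then `w ∈ Q` and the difference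
`hK x - hK w = h x - h w`; if `w ∉ F` then `h w ≤ m - 1`, `hK w = 0`,
`hK x - hK w = h x - m + 1 ≤ h x - h w`.  Sum over the neighbours. -/
theorem lapZ_local (h : (Fin d → ℤ) → ℤ) (m : ℤ) (Q : Set (Fin d → ℤ))
    (hQ : ∀ x ∈ Q, m ≤ h x → ∀ i s, Sg s → m ≤ h (stp x i s) → stp x i s ∈ Q)
    (hK : (Fin d → ℤ) → ℤ) (h1 : ∀ x, x ∈ Q → m ≤ h x → hK x = h x - m + 1)
    (h2 : ∀ x, ¬ (x ∈ Q ∧ m ≤ h x) → hK x = 0) (x : Fin d → ℤ) (hx : x ∈ Q) (hm : m ≤ h x) :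
    lapZ hK x ≤ lapZ h x := by
  have hx' := h1 x hx hm
  have key : ∀ i s, Sg s → hK x - hK (stp x i s) ≤ h x - h (stp x i s) := by
    intro i s hs
    by_cases hw : m ≤ h (stp x i s)
    · rw [hx', h1 _ (hQ x hx hm i s hs hw) hw]
      omega
    · rw [hx', h2 _ (fun h' => hw h'.2)]
      omega
  simp only [lapZ_eq]
  refine Finset.sum_le_sum fun i _ => ?_
  have e1 := key i 1 (Or.inl rfl)
  have e2 := key i (-1) (Or.inr rfl)
  linarith

end Pool.Agent.MP_f7f40d_pr.HD
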