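import Pool.Agent.MP_f7f40d_pr.HD.B1

set_option autoImplicit false

namespace Pool.Agent.MP_f7f40d_pr.HD

variable {d : ℕ}

/-- The lower bound for the Laplacian of the minimum at a point where the index `i` is minimal. -/
theorem hb3a_lap (c : Fin d → ℤ) (D : ℕ) (qs : Fin d → Finset ℕ)
    (hne : (Finset.univ : Finset (Fin d)).Nonempty) (hq : ∀ i, ∀ q ∈ qs i, 2 * D + 1 ≤ q)
    (x : Fin d → ℤ) :
    ∃ i, 8 * (d : ℤ) * ind (|x i - c i| ≤ D) - ind (|x i - c i|.toNat ∈ qs i) ≤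
      lapZ (fun x => Finset.univ.inf' hne (fun i => theta d (c i) D (qs i) (x i))) x := by
  obtain ⟨i, _, hi⟩ := Finset.exists_mem_eq_inf' hne (fun i => theta d (c i) D (qs i) (x i))
  refine ⟨i, ?_⟩
  rw [lapZ_eq]
  have hle : ∀ y : Fin d → ℤ, Finset.univ.inf' hne (fun i => theta d (c i) D (qs i) (y i)) ≤
      theta d (c i) D (qs i) (y i) := fun y => Finset.inf'_le _ (Finset.mem_univ i)
  have hsum : ∑ j, (2 * theta d (c i) D (qs i) (x i) - theta d (c i) D (qs i) (stp x j 1 i) -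
      theta d (c i) D (qs i) (stp x j (-1) i)) ≤
      ∑ j, (2 * Finset.univ.inf' hne (fun i => theta d (c i) D (qs i) (x i)) -
        Finset.univ.inf' hne (fun i => theta d (c i) D (qs i) (stp x j 1 i)) -
        Finset.univ.inf' hne (fun i => theta d (c i) D (qs i) (stp x j (-1) i))) := by
    refine Finset.sum_le_sum fun j _ => ?_
    have h1 := hle (stp x j 1)
    have h2 := hle (stp x j (-1))
    rw [hi]
    linarith
  refine le_trans (le_of_eq ?_) hsum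
  rw [Finset.sum_eq_single i]
  · have h := theta_second d (c i) D (qs i) (fun q hq' => by have := hq i q hq'; omega) (x i)
    rw [stp_same, stp_same, ← sub_eq_add_neg]
    linarith
  · intro j _ hj
    rw [stp_ne x 1 (Ne.symm hj), stp_ne x (-1) (Ne.symm hj)]
    ring
  · intro h
    exact absurd (Finset.mem_univ i) h

/-- **[HD-B3a]** The barrier `ψ(x) = min_i θ_i(x_i)`.

PROOF. `ψ x := Finset.univ.inf' _ (fun i => theta d (c i) D (qs i) (x i))` (`univ` is non-empty as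
`1 ≤ d`).  Non-negativity: `theta_nonneg`.  If `1 ≤ ψ x` then `1 ≤ theta … (x i)` for all `i`: use
`theta_pos`.  Let `x` be given and `i₀` an index with `ψ x = θ_{i₀}(x_{i₀})`
(`Finset.exists_mem_eq_inf'`).  For every `y`: `ψ y ≤ θ_{i₀}(y_{i₀})`.  Hence, with `lapZ_eq`,
`lapZ ψ x = ∑_i (2 ψ x - ψ (stp x i 1) - ψ (stp x i (-1)))
 ≥ ∑_i (2 θ_{i₀}(x_{i₀}) - θ_{i₀}((stp x i 1)_{i₀}) - θ_{i₀}((stp x i (-1))_{i₀}))`; the terms with
`i ≠ i₀` vanish, the term `i = i₀` is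
`2θ(x_{i₀}) - θ(x_{i₀}+1) - θ(x_{i₀}-1) = 8d [|x_{i₀} - c_{i₀}| ≤ D] - [|x_{i₀} - c_{i₀}| ∈ qs i₀]`
(`theta_second`).  So `lapZ ψ x ≥ - ind (∃ i, …)`, and if `Nr D x c`: the first bracket is `1` and
the second is `0` because `q ≥ 2D + 1 > D`. -/
theorem barrier (hd : 1 ≤ d) (c : Fin d → ℤ) (D : ℕ) (qs : Fin d → Finset ℕ)
    (hcard : ∀ i, (qs i).card = 4 * d * (2 * D + 1)) (hq : ∀ i, ∀ q ∈ qs i, 2 * D + 1 ≤ q) :
    ∃ ψ : (Fin d → ℤ) → ℤ, (∀ x, 0 ≤ ψ x) ∧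
      (∀ x, 1 ≤ ψ x → ∀ i, ∃ q ∈ qs i, |x i - c i| < q) ∧
      (∀ x, -(ind (∃ i, ∃ q ∈ qs i, x i = c i + q ∨ x i = c i - q) : ℤ) ≤ lapZ ψ x) ∧
      ∀ x, Nr D x c → 8 * (d : ℤ) ≤ lapZ ψ x := by
  have hne : (Finset.univ : Finset (Fin d)).Nonempty := ⟨⟨0, hd⟩, Finset.mem_univ _⟩
  refine ⟨fun x => Finset.univ.inf' hne (fun i => theta d (c i) D (qs i) (x i)), ?_, ?_, ?_, ?_⟩
  · intro x
    exact Finset.le_inf' _ _ fun i _ => theta_nonneg d (c i) D (qs i) (hcard i) (hq i) (x i)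
  · intro x hx i
    refine theta_pos d hd (c i) D (qs i) (hcard i) (hq i) (x i) (hx.trans ?_)
    exact Finset.inf'_le _ (Finset.mem_univ i)
  · intro x
    obtain ⟨i, hi⟩ := hb3a_lap c D qs hne hq x
    refine le_trans ?_ hi
    have h1 : ind (|x i - c i|.toNat ∈ qs i) ≤
        ind (∃ i, ∃ q ∈ qs i, x i = c i + q ∨ x i = c i - q) := by
      refine ind_mono fun h => ⟨i, |x i - c i|.toNat, h, ?_⟩
      have h2 : ((|x i - c i|.toNat : ℕ) : ℤ) = |x i - c i| := Int.toNat_of_nonneg (abs_nonneg _)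
      rw [h2]
      rcases abs_cases (x i - c i) with h3 | h3 <;> omega
    have h3 : ((ind (|x i - c i|.toNat ∈ qs i) : ℕ) : ℤ) ≤
        ((ind (∃ i, ∃ q ∈ qs i, x i = c i + q ∨ x i = c i - q) : ℕ) : ℤ) := by exact_mod_cast h1
    have h4 : (0 : ℤ) ≤ 8 * d * ind (|x i - c i| ≤ D) := by positivity
    linarith
  · intro x hx
    obtain ⟨i, hi⟩ := hb3a_lap c D qs hne hq x
    refine le_trans ?_ hi
    have h1 : |x i - c i| ≤ D := hx i
    have h2 : ¬ |x i - c i|.toNat ∈ qs i := by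
      intro h
      have h3 := hq i _ h
      have h4 : ((|x i - c i|.toNat : ℕ) : ℤ) = |x i - c i| := Int.toNat_of_nonneg (abs_nonneg _)
      omega
    rw [ind_true h1, ind_false h2]
    simp

end Pool.Agent.MP_f7f40d_pr.HD
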