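import Pool.Agent.MP_f7f40d_pr.Dyn

set_option autoImplicit false

/-!
# [HD] `λ_c(ℤ^d) ≤ d + C √(d log d)`: definitions

Sites are functions `Fin d → ℤ`; all distances are sup-distances.
-/

namespace Pool.Agent.MP_f7f40d_pr.HD

variable {d : ℕ}

/-! ### Geometry -/

/-- `x` and `y` are at sup-distance at most `r`. -/
def Nr (r : ℕ) (x y : Fin d → ℤ) : Prop := ∀ i, |x i - y i| ≤ r

/-- The neighbour of `x` in the direction `i` with sign `s` (always used with `s = ±1`). -/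
def stp (x : Fin d → ℤ) (i : Fin d) (s : ℤ) : Fin d → ℤ := Function.update x i (x i + s)

/-- `s` is a sign. -/
def Sg (s : ℤ) : Prop := s = 1 ∨ s = -1

open Classical in
/-- Indicator of a proposition, as a natural number. -/
noncomputable def ind (p : Prop) : ℕ := if p then 1 else 0

/-- The number of the `2d` neighbours of `x` which belong to `S`. -/
noncomputable def cnt (S : Set (Fin d → ℤ)) (x : Fin d → ℤ) : ℕ :=
  ∑ i, (ind (stp x i 1 ∈ S) + ind (stp x i (-1) ∈ S))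

theorem Nr.symm {r : ℕ} {x y : Fin d → ℤ} (h : Nr r x y) : Nr r y x := fun i => by
  have := h i
  rwa [abs_sub_comm]

theorem Nr.refl (r : ℕ) (x : Fin d → ℤ) : Nr r x x := fun i => by simp

theorem Nr.mono {r s : ℕ} {x y : Fin d → ℤ} (h : Nr r x y) (hrs : r ≤ s) : Nr s x y := fun i =>
  (h i).trans (by exact_mod_cast hrs)

theorem Nr.trans {r s : ℕ} {x y z : Fin d → ℤ} (h : Nr r x y) (h' : Nr s y z) :
    Nr (r + s) x z := fun i => by
  have h1 := h i
  have h2 := h' i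
  have h3 := abs_sub_le (x i) (y i) (z i)
  push_cast
  omega

theorem stp_same (x : Fin d → ℤ) (i : Fin d) (s : ℤ) : stp x i s i = x i + s := by
  unfold stp; rw [Function.update_self]

theorem stp_ne (x : Fin d → ℤ) {i j : Fin d} (s : ℤ) (h : j ≠ i) : stp x i s j = x j := by
  unfold stp; rw [Function.update_of_ne h]

theorem stp_stp (x : Fin d → ℤ) (i : Fin d) (s : ℤ) : stp (stp x i s) i (-s) = x := by
  funext j
  by_cases h : j = i
  · rw [h, stp_same, stp_same]; ring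
  · rw [stp_ne _ _ h, stp_ne _ _ h]

theorem Nr_stp (x : Fin d → ℤ) (i : Fin d) {s : ℤ} (hs : Sg s) : Nr 1 (stp x i s) x := by
  intro j
  by_cases h : j = i
  · rw [h, stp_same]
    rcases hs with rfl | rfl <;> simp
  · rw [stp_ne _ _ h]; simp

theorem add_single (x : Fin d → ℤ) (i : Fin d) : x + Pi.single i 1 = stp x i 1 := by
  funext j
  by_cases h : j = i
  · rw [h, stp_same, Pi.add_apply, Pi.single_eq_same]
  · rw [stp_ne _ _ h, Pi.add_apply, Pi.single_eq_of_ne h, add_zero]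

theorem sub_single (x : Fin d → ℤ) (i : Fin d) : x - Pi.single i 1 = stp x i (-1) := by
  funext j
  by_cases h : j = i
  · rw [h, stp_same, Pi.sub_apply, Pi.single_eq_same]; ring
  · rw [stp_ne _ _ h, Pi.sub_apply, Pi.single_eq_of_ne h, sub_zero]

theorem lapZ_eq (w : (Fin d → ℤ) → ℤ) (x : Fin d → ℤ) :
    lapZ w x = ∑ i, (2 * w x - w (stp x i 1) - w (stp x i (-1))) := by
  unfold lapZ
  refine Finset.sum_congr rfl fun i _ => ?_
  rw [add_single, sub_single]

theorem ind_true {p : Prop} (h : p) : ind p = 1 := by unfold ind; rw [if_pos h]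

theorem ind_false {p : Prop} (h : ¬ p) : ind p = 0 := by unfold ind; rw [if_neg h]

theorem ind_le_one (p : Prop) : ind p ≤ 1 := by unfold ind; split_ifs <;> omega

theorem ind_mono {p q : Prop} (h : p → q) : ind p ≤ ind q := by
  by_cases hp : p
  · rw [ind_true hp, ind_true (h hp)]
  · rw [ind_false hp]; exact Nat.zero_le _

theorem cnt_mono {S S' : Set (Fin d → ℤ)} (h : S ⊆ S') (x : Fin d → ℤ) : cnt S x ≤ cnt S' x :=
  Finset.sum_le_sum fun i _ => add_le_add (ind_mono fun h1 => h h1) (ind_mono fun h1 => h h1)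

theorem cnt_add_compl (S : Set (Fin d → ℤ)) (x : Fin d → ℤ) : cnt S x + cnt Sᶜ x = 2 * d := by
  unfold cnt
  rw [← Finset.sum_add_distrib]
  have h : ∀ i : Fin d, ind (stp x i 1 ∈ S) + ind (stp x i (-1) ∈ S) +
      (ind (stp x i 1 ∈ Sᶜ) + ind (stp x i (-1) ∈ Sᶜ)) = 2 := by
    intro i
    have key : ∀ y : Fin d → ℤ, ind (y ∈ S) + ind (y ∈ Sᶜ) = 1 := by
      intro y
      by_cases hy : y ∈ S
      · rw [ind_true hy, ind_false (fun h => h hy)]
      · rw [ind_false hy, ind_true (show y ∈ Sᶜ from hy)]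
    have h1 := key (stp x i 1)
    have h2 := key (stp x i (-1))
    omega
  rw [Finset.sum_congr rfl fun i _ => h i]
  simp [mul_comm]

/-! ### Data for the path lemma -/

/-- Data on the axes: the special positions `T i` on the axis `i`; `two i = true` means that at a
special position both signs are allowed, otherwise only the sign `σ i` is allowed there. -/
structure Ax (d : ℕ) where
  /-- special positions -/
  T : Fin d → Finset ℤ
  /-- two-sided axes -/
  two : Fin d → Bool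
  /-- sign allowed at special positions of the other axes -/
  σ : Fin d → ℤ

/-- The number of allowed neighbours of `x` in `F`, for the choice `ε` of signs at the
non-special positions. -/
noncomputable def acnt (a : Ax d) (F : Set (Fin d → ℤ)) (ε : Fin d → ℤ) (x : Fin d → ℤ) : ℕ :=
  ∑ i, if x i ∈ a.T i then
      (if a.two i = true then ind (stp x i 1 ∈ F) + ind (stp x i (-1) ∈ F)
        else ind (stp x i (a.σ i) ∈ F))
    else ind (stp x i (ε i) ∈ F)

/-- Well-formed axis data: `σ` consists of signs and two-sided axes have at most one special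
position. -/
def Ax.Ok (a : Ax d) : Prop :=
  (∀ i, Sg (a.σ i)) ∧ ∀ i, a.two i = true → (a.T i).card ≤ 1

/-- The condition `at least three allowed neighbours off `O``. -/
def Three (a : Ax d) (F O : Set (Fin d → ℤ)) : Prop :=
  ∀ x ∈ F, x ∉ O → ∀ ε : Fin d → ℤ, (∀ i, Sg (ε i)) → 3 ≤ acnt a F ε x

/-- The block map with block size `β` and offset `p`. -/
def blk (β : ℕ) (p : Fin d → ℤ) (x : Fin d → ℤ) : Fin d → ℤ := fun i => (x i - p i) / (β : ℤ)

/-- Image of the axis data under the block map. -/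
def Ax.map (a : Ax d) (β : ℕ) (p : Fin d → ℤ) : Ax d where
  T := fun i => (a.T i).image fun t => (t - p i) / (β : ℤ)
  two := a.two
  σ := a.σ

/-! ### Parameters -/

/-- The scales: `D n` radius of a cluster of level `n`, `R n` radius of its zone of influence,
`b n` block sizes, `ρ n` separation, `T n` bounds the diameter of islands of levels `< n`,
`r n` dependence radius. -/
structure Par (d : ℕ) where
  /-- cluster radius -/
  D : ℕ → ℕ
  /-- zone radius -/
  R : ℕ → ℕ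
  /-- block size -/
  b : ℕ → ℕ
  /-- separation -/
  ρ : ℕ → ℕ
  /-- island diameter -/
  T : ℕ → ℕ
  /-- dependence radius -/
  r : ℕ → ℕ
  b0 : b 0 = 1
  bdvd : ∀ n, b n ∣ b (n + 1)
  hb : ∀ n, (32 * d + 16) * (R n + D n + 1 + b n) ≤ b (n + 1)
  hρ : ∀ n, 4 * (R n + D n + 1 + b (n + 1)) ≤ ρ n
  T0 : T 0 = 0
  hT : ∀ n, 2 * (R n + 2 * D n + 1 + b n + T n + 1) ≤ T (n + 1)
  hρT : ∀ n, 2 * (R n + 2 * D n + 1 + b n) + 2 * T n + 3 ≤ ρ n
  hT9 : ∀ n, 9 * (T n + 1) ≤ T (n + 1)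
  hR : ∀ n, 2 * D n + 10 * (T (n - 1) + 1) * (4 * d * (2 * D n + 1)) ≤ R n
  r0 : r 0 = 2
  hr : ∀ n, r (n + 1) = r n + ρ n
  hD : ∀ n, 2 * r n < D n
  hDρ : ∀ n, 2 * D n ≤ ρ n

/-- Obstacle radius for the path lemma. -/
def Par.Rb (P : Par d) (n : ℕ) : ℕ := P.R n + P.D n + 1

/-- Radius of the conclusion of the path lemma. -/
def Par.R1 (P : Par d) (n : ℕ) : ℕ := P.R n + P.D n + 1 + P.b n

/-- Radius for the islands. -/
def Par.R2 (P : Par d) (n : ℕ) : ℕ := P.R n + 2 * P.D n + 1 + P.b n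

/-- Union of the cubes of radius `f n` around the points of `N n`, for the levels `n < l`. -/
def zone (N : ℕ → Set (Fin d → ℤ)) (f : ℕ → ℕ) (l : ℕ) : Set (Fin d → ℤ) :=
  {x | ∃ n, n < l ∧ ∃ y ∈ N n, Nr (f n) x y}

/-- Union of the cubes of radius `f n` around the points of `X n`, for all levels. -/
def zoneA (X : ℕ → Set (Fin d → ℤ)) (f : ℕ → ℕ) : Set (Fin d → ℤ) :=
  {x | ∃ n, ∃ y ∈ X n, Nr (f n) x y}

/-- Distinct points of `N n` are at distance larger than `ρ n`. -/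
def Sepa (N : ℕ → Set (Fin d → ℤ)) (ρ : ℕ → ℕ) : Prop :=
  ∀ n, ∀ x ∈ N n, ∀ y ∈ N n, Nr (ρ n) x y → x = y

/-! ### The hierarchy -/

/-- The hierarchy of the bad set `B`: a point of level `≥ n` has level `≥ n + 1` if there is
another one at distance in `(D n, ρ n]`. -/
def XX (P : Par d) (B : Set (Fin d → ℤ)) : ℕ → Set (Fin d → ℤ)
  | 0 => B
  | n + 1 => {x | x ∈ XX P B n ∧ ∃ y ∈ XX P B n, ¬ Nr (P.D n) x y ∧ Nr (P.ρ n) x y}

/-- `N` is a system of centres for the decreasing sequence `X`. -/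
structure Centres (P : Par d) (X N : ℕ → Set (Fin d → ℤ)) : Prop where
  anti : ∀ n, X (n + 1) ⊆ X n
  sub : ∀ n, N n ⊆ X n
  sepa : Sepa N P.ρ
  cover : ∀ n, ∀ x ∈ X n, x ∉ X (n + 1) → ∃ y ∈ N n, Nr (P.D n) x y

/-! ### Growth -/

/-- The obstacles. -/
def Obs (P : Par d) (X : ℕ → Set (Fin d → ℤ)) : Set (Fin d → ℤ) := zoneA X fun n => P.R n + 1

/-- The part which may never be filled. -/
def Vz (P : Par d) (X : ℕ → Set (Fin d → ℤ)) : Set (Fin d → ℤ) := zoneA X P.R1

/-- `S` is a stable (never filled) subset of `W`, for the threshold `d - 4`, the seeds `Sd` and the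
obstacles of `X`; everything outside `W` is regarded as not filled. -/
def Stb (P : Par d) (Sd : Set (Fin d → ℤ)) (X : ℕ → Set (Fin d → ℤ))
    (W S : Set (Fin d → ℤ)) : Prop :=
  S ⊆ W ∧ ∀ x ∈ S, x ∉ Obs P X → x ∉ Sd ∧ d + 5 ≤ cnt S x + cnt Wᶜ x

/-- `W` is filled: all its stable subsets are contained in `Vz`. -/
def Fil (P : Par d) (Sd : Set (Fin d → ℤ)) (X : ℕ → Set (Fin d → ℤ))
    (W : Set (Fin d → ℤ)) : Prop :=
  ∀ S, Stb P Sd X W S → S ⊆ Vz P X

/-- All zones of `X` which touch the neighbourhood of radius `6m` of the box are small compared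
with `m`. -/
def Small (P : Par d) (X : ℕ → Set (Fin d → ℤ)) (a b : Fin d → ℤ) (m : ℕ) : Prop :=
  ∀ n, ∀ y ∈ X n, (∃ x ∈ Set.Icc a b, Nr (6 * m + 2 * P.T (n + 1)) x y) → 10 * P.T (n + 1) ≤ m

/-- `Gr K a b`: the box `[a, b]`, which is flat in the directions outside `K`, can be filled from
seeds, as soon as it is supported from outside in all directions not in `K`. -/
inductive Gr (P : Par d) (Sd : Set (Fin d → ℤ)) (X : ℕ → Set (Fin d → ℤ)) :
    Finset (Fin d) → (Fin d → ℤ) → (Fin d → ℤ) → Prop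
  | seed (K : Finset (Fin d)) (a b : Fin d → ℤ) (hab : a ≤ b) (hoff : ∀ i ∉ K, a i = b i)
      (hS : ∀ x ∈ Set.Icc a b, x ∈ Sd ∧ x ∉ Obs P X) : Gr P Sd X K a b
  | pt (a : Fin d → ℤ) : Gr P Sd X ∅ a a
  | up (K : Finset (Fin d)) (a b : Fin d → ℤ) (i : Fin d) (m : ℕ) (hi : i ∈ K)
      (hm : ∀ j ∈ K, (m : ℤ) ≤ b j - a j) (h1 : Gr P Sd X K a b)
      (h2 : Gr P Sd X (K.erase i) (Function.update a i (b i + 1)) (Function.update b i (b i + 1)))
      (hs : Small P X (Function.update a i (b i + 1)) (Function.update b i (b i + 1)) m) :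
      Gr P Sd X K a (Function.update b i (b i + 1))
  | dn (K : Finset (Fin d)) (a b : Fin d → ℤ) (i : Fin d) (m : ℕ) (hi : i ∈ K)
      (hm : ∀ j ∈ K, (m : ℤ) ≤ b j - a j) (h1 : Gr P Sd X K a b)
      (h2 : Gr P Sd X (K.erase i) (Function.update a i (a i - 1)) (Function.update b i (a i - 1)))
      (hs : Small P X (Function.update a i (a i - 1)) (Function.update b i (a i - 1)) m) :
      Gr P Sd X K (Function.update a i (a i - 1)) b

/-- The context in which a box `[a, b]`, flat outside `K`, is filled: near the box (distance `r`)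
the filled region `W` supports the box from the side `-τ i` for `i ∉ K`, it is convex
in the directions of `K` relative to the box, and its boundary positions are in `T`. -/
structure Ctx (W : Set (Fin d → ℤ)) (K : Finset (Fin d)) (a b : Fin d → ℤ) (τ : Fin d → ℤ)
    (T : Fin d → Finset ℤ) (r : ℕ) : Prop where
  sg : ∀ i, Sg (τ i)
  off : ∀ y ∈ W, (∀ j, a j - r ≤ y j ∧ y j ≤ b j + r) → ∀ i ∉ K,
    stp y i (-τ i) ∈ W ∧ (stp y i (τ i) ∈ W ∨ y i ∈ T i)
  onUp : ∀ y ∈ W, (∀ j, a j - r ≤ y j ∧ y j ≤ b j + r) → ∀ i ∈ K,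
    (y i < b i ∨ y i ∉ T i) → stp y i 1 ∈ W
  onDn : ∀ y ∈ W, (∀ j, a j - r ≤ y j ∧ y j ≤ b j + r) → ∀ i ∈ K,
    (a i < y i ∨ y i ∉ T i) → stp y i (-1) ∈ W
  supp : ∀ y ∈ Set.Icc a b, ∀ i ∉ K, stp y i (-τ i) ∈ W
  flat : ∀ i ∉ K, a i = b i ∧ a i ∈ T i ∧ a i - τ i ∈ T i

/-- Truncation of a sequence of sets. -/
def trunc (X : ℕ → Set (Fin d → ℤ)) (L : ℕ) : ℕ → Set (Fin d → ℤ) := fun n => {x | n < L ∧ x ∈ X n}

/-! ### The wells -/

/-- The bound for the (negative) Laplacian in the well lemma: `act` = active bad sites,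
`t` = sheets, `K`, `K2` = kinks of the two most recent barriers. -/
noncomputable def cost (t : Fin d → Option ℤ) (K K2 : Fin d → Set ℤ) (x : Fin d → ℤ) : ℕ :=
  (∑ i, ind (t i = some (x i))) + ind (∃ i, x i ∈ K i) + ind (∃ i, x i ∈ K2 i)

/-- Separation of the sheets and kinks. -/
def SepK (P : Par d) (n : ℕ) (t : Fin d → Option ℤ) (K K2 : Fin d → Set ℤ) : Prop :=
  (∀ i, ∀ p q, (t i = some p ∨ p ∈ K2 i) → (t i = some q ∨ q ∈ K2 i) → p ≠ q →
    (P.T n : ℤ) < |p - q|) ∧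
  (∀ i, ∀ p, t i = some p → p ∉ K2 i) ∧
  (∀ i, ∀ p ∈ K i, ∀ q ∈ K i, p ≠ q → (P.T (n - 1) : ℤ) < |p - q|) ∧
  (∀ i, ∀ p ∈ K i, ∀ q, (t i = some q ∨ q ∈ K2 i) → (P.T (n - 1) : ℤ) < |p - q|)

/-- The well lemma for the levels `< n`. -/
def Well (P : Par d) (N : ℕ → Set (Fin d → ℤ)) (n : ℕ) : Prop :=
  ∀ (h : (Fin d → ℤ) → ℤ) (act : Set (Fin d → ℤ)) (t : Fin d → Option ℤ) (K K2 : Fin d → Set ℤ),
    (∀ x, 0 ≤ h x) → {x | 1 ≤ h x}.Finite → act ⊆ zone N P.D n → (n = 0 ∨ SepK P n t K K2) →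
    (∀ x, 1 ≤ h x → x ∉ act → lapZ h x ≤ (d : ℤ) - 5 + cost t K K2 x) →
    (∀ x, 1 ≤ h x → lapZ h x ≤ 6 * (d : ℤ) + cost t K K2 x) →
    {x | 1 ≤ h x} ⊆ zone N P.R n

end Pool.Agent.MP_f7f40d_pr.HD
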