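import Pool.Agent.MP_f7f40d_pr.HD.E1a

set_option autoImplicit false

namespace Pool.Agent.MP_f7f40d_pr.HD

open MeasureTheory ProbabilityTheory Filter Topology
open scoped ENNReal NNReal

variable {d : ℕ}

theorem he1b_cnt_congr {S S' : Set (Fin d → ℤ)} {w w' : Fin d → ℤ}
    (h : ∀ i σ, Sg σ → (stp w i σ ∈ S ↔ stp w' i σ ∈ S')) : cnt S w = cnt S' w' := by
  unfold cnt
  refine Finset.sum_congr rfl fun i _ => ?_
  rw [propext (h i 1 (Or.inl rfl)), propext (h i (-1) (Or.inr rfl))]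

theorem he1b_loc (P : Par d) (m1 s n : ℕ) : ∀ (x : Fin d → ℤ) (A A' : Om d),
    (∀ v, Nr (P.r n) x v → A v = A' v) →
      (x ∈ XX P (badS m1 s A) n ↔ x ∈ XX P (badS m1 s A') n) := by
  induction n with
  | zero =>
    intro x A A' h
    rw [P.r0] at h
    have hlow : ∀ w, Nr 2 x w → (w ∈ lowS m1 A ↔ w ∈ lowS m1 A') := by
      intro w hw
      unfold lowS
      rw [Set.mem_setOf_eq, Set.mem_setOf_eq, h w hw]
    have hmany : ∀ w, Nr 1 x w →
        (w ∈ manyS (2 * s) (lowS m1 A) ↔ w ∈ manyS (2 * s) (lowS m1 A')) := by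
      intro w hw
      unfold manyS
      rw [Set.mem_setOf_eq, Set.mem_setOf_eq]
      rw [he1b_cnt_congr fun i σ hσ => hlow _ (hw.trans (Nr_stp w i hσ).symm)]
    change s < cnt (manyS (2 * s) (lowS m1 A)) x ↔ s < cnt (manyS (2 * s) (lowS m1 A')) x
    rw [he1b_cnt_congr fun i σ hσ => hmany _ (Nr_stp x i hσ).symm]
  | succ n ih =>
    intro x A A' h
    rw [P.hr n] at h
    have hx := ih x A A' fun v hv => h v (hv.mono (Nat.le_add_right _ _))
    have hy : ∀ y, Nr (P.ρ n) x y →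
        (y ∈ XX P (badS m1 s A) n ↔ y ∈ XX P (badS m1 s A') n) := fun y hxy =>
      ih y A A' fun v hv => h v ((hxy.trans hv).mono (by omega))
    constructor
    · rintro ⟨h1, y, h2, h3, h4⟩
      exact ⟨hx.1 h1, y, (hy y h4).1 h2, h3, h4⟩
    · rintro ⟨h1, y, h2, h3, h4⟩
      exact ⟨hx.2 h1, y, (hy y h4).2 h2, h3, h4⟩

theorem he1b_stp (v a : Fin d → ℤ) (i : Fin d) (σ : ℤ) : stp (v + a) i σ = stp v i σ + a := by
  funext j
  by_cases h : j = i
  · rw [h, stp_same, Pi.add_apply, Pi.add_apply, stp_same]; ring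
  · rw [stp_ne _ _ h, Pi.add_apply, Pi.add_apply, stp_ne _ _ h]

theorem he1b_Nr (r : ℕ) (x y a : Fin d → ℤ) : Nr r (x + a) (y + a) ↔ Nr r x y := by
  unfold Nr
  refine forall_congr' fun i => ?_
  rw [Pi.add_apply, Pi.add_apply, add_sub_add_right_eq_sub]

/-- **[HD-E1d]** The event `x ∈ X_n` depends on the heights in the cube of radius `r n` around `x`.

PROOF. Induction on `n`.  `n = 0`: `x ∈ badS m1 s A` depends on `A` at distance `≤ 2` (`r 0 = 2`): if `A`,
`A'` agree on the cube then `lowS` agrees on it, so `manyS (2 * s) (lowS …)` agrees at distance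
`≤ 1` of `x`, and `badS` agrees at `x`.  `n + 1`: `x ∈ X_n` and the `y ∈ X_n` with `Nr (ρ n) x y`
matter; the cube of radius `r n` around such a `y` is contained in the cube of radius
`r n + ρ n = r (n+1)` around `x`. -/
theorem depOn_XX (P : Par d) (m1 s n : ℕ) (x : Fin d → ℤ) :
    DepOn (Finset.Icc (fun i => x i - P.r n) (fun i => x i + P.r n))
      {A : Om d | x ∈ XX P (badS m1 s A) n} := by
  intro A A' h
  refine he1b_loc P m1 s n x A A' fun v hv => h v ?_
  rw [Finset.mem_Icc, Pi.le_def, Pi.le_def]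
  constructor <;> intro i <;> have h1 := abs_le.1 (hv i)
  · linarith [h1.2]
  · linarith [h1.1]

/-- **[HD-E1e]** Translation covariance.

PROOF. `stp (v + a) i s = stp v i s + a`, so `v ∈ lowS m1 (shf a A) ↔ v + a ∈ lowS m1 A`, the same for
`manyS`, `badS`, and by induction for `XX` (`Nr r (x + a) (y + a) ↔ Nr r x y`; substitute
`y ↦ y + a`). -/
theorem XX_shift (P : Par d) (m1 s n : ℕ) (a : Fin d → ℤ) (A : Om d) (x : Fin d → ℤ) :
    x ∈ XX P (badS m1 s (shf a A)) n ↔ x + a ∈ XX P (badS m1 s A) n := by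
  induction n generalizing x with
  | zero =>
    have hmany : ∀ w, w ∈ manyS (2 * s) (lowS m1 (shf a A)) ↔ w + a ∈ manyS (2 * s) (lowS m1 A) := by
      intro w
      change 2 * s < cnt (lowS m1 (shf a A)) w ↔ 2 * s < cnt (lowS m1 A) (w + a)
      rw [he1b_cnt_congr (S := lowS m1 (shf a A)) (S' := lowS m1 A) (w := w) (w' := w + a)
        fun i σ _ => by rw [he1b_stp]; rfl]
    change s < cnt (manyS (2 * s) (lowS m1 (shf a A))) x ↔ s < cnt (manyS (2 * s) (lowS m1 A)) (x + a)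
    rw [he1b_cnt_congr (S := manyS (2 * s) (lowS m1 (shf a A))) (S' := manyS (2 * s) (lowS m1 A)) (w := x)
      (w' := x + a) fun i σ _ => by rw [he1b_stp]; exact hmany _]
  | succ n ih =>
    constructor
    · rintro ⟨h1, y, h2, h3, h4⟩
      exact ⟨(ih x).1 h1, y + a, (ih y).1 h2, fun h => h3 ((he1b_Nr _ _ _ _).1 h),
        (he1b_Nr _ _ _ _).2 h4⟩
    · rintro ⟨h1, y, h2, h3, h4⟩
      have hy : y = (y - a) + a := by rw [sub_add_cancel]
      rw [hy] at h2 h3 h4
      exact ⟨(ih x).2 h1, y - a, (ih _).2 h2, fun h => h3 ((he1b_Nr _ _ _ _).2 h),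
        (he1b_Nr _ _ _ _).1 h4⟩

end Pool.Agent.MP_f7f40d_pr.HD
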