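import Pool.Agent.MP_f7f40d_pr.HD.W2a

set_option autoImplicit false

namespace Pool.Agent.MP_f7f40d_pr.HD

variable {d : ℕ}

/-- The new sheets: the (unique) old sheet or kink of `K2` on the axis `i` which is met by `Q`. -/
noncomputable def newT (t : Fin d → Option ℤ) (K2 : Fin d → Set ℤ) (Q : Set (Fin d → ℤ))
    (i : Fin d) : Option ℤ :=
  open Classical in
  if h : ∃ p, (t i = some p ∨ p ∈ K2 i) ∧ ∃ x ∈ Q, x i = p then some h.choose else none

/-- **[HD-W2b]** PROOF. First claim: `choose_spec`.  Second: let `x ∈ Q` and let `i` satisfy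
`t i = some (x i) ∨ x i ∈ K2 i`; then the condition in `newT` holds, the chosen `p` is `x' i` for
some `x' ∈ Q`, `|p - x i| ≤ T n`, so `p = x i` by the first clause of `SepK`: hence
`newT t K2 Q i = some (x i)`.  So `ind (t i = some (x i)) ≤ ind (newT … i = some (x i))` for all `i`,
and if some `i₀` has `x i₀ ∈ K2 i₀` then for `i₀` the left side is `0` (second clause of `SepK`) and
the right side is `1`; sum over `i` (`Finset.sum_lt_sum` or `Finset.add_sum_erase`). -/
theorem newT_spec (P : Par d) (n : ℕ) (t : Fin d → Option ℤ) (K K2 : Fin d → Set ℤ)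
    (Q : Set (Fin d → ℤ)) (hsep : SepK P n t K K2) (hQ : ∀ y ∈ Q, ∀ z ∈ Q, Nr (P.T n) y z) :
    (∀ i p, newT t K2 Q i = some p → t i = some p ∨ p ∈ K2 i) ∧
      ∀ x ∈ Q, (∑ i, ind (t i = some (x i))) + ind (∃ i, x i ∈ K2 i) ≤
        ∑ i, ind (newT t K2 Q i = some (x i)) := by
  classical
  refine ⟨?_, ?_⟩
  · intro i p hp
    unfold newT at hp
    split_ifs at hp with h
    have h1 := h.choose_spec.1
    rw [Option.some.inj hp] at h1
    exact h1
  · intro x hx
    have key : ∀ i, (t i = some (x i) ∨ x i ∈ K2 i) → newT t K2 Q i = some (x i) := by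
      intro i hi
      have h : ∃ p, (t i = some p ∨ p ∈ K2 i) ∧ ∃ x ∈ Q, x i = p := ⟨x i, hi, x, hx, rfl⟩
      unfold newT
      rw [dif_pos h]
      obtain ⟨h1, y, hy, hyp⟩ := h.choose_spec
      by_contra hne
      have hne' : h.choose ≠ x i := fun he => hne (by rw [he])
      have h2 := hsep.1 i _ _ h1 hi hne'
      have h3 := hQ y hy x hx i
      rw [hyp] at h3
      omega
    have hle : ∀ i, ind (t i = some (x i)) ≤ ind (newT t K2 Q i = some (x i)) :=
      fun i => ind_mono fun h => key i (Or.inl h)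
    by_cases hex : ∃ i, x i ∈ K2 i
    · rw [ind_true hex]
      obtain ⟨i0, hi0⟩ := hex
      have h0 : ind (t i0 = some (x i0)) = 0 := ind_false fun h => hsep.2.1 i0 _ h hi0
      have h1 : ind (newT t K2 Q i0 = some (x i0)) = 1 := ind_true (key i0 (Or.inr hi0))
      have h2 : (∑ i, ind (t i = some (x i))) < ∑ i, ind (newT t K2 Q i = some (x i)) :=
        Finset.sum_lt_sum (fun i _ => hle i) ⟨i0, Finset.mem_univ _, by rw [h0, h1]; exact one_pos⟩
      omega
    · rw [ind_false hex, add_zero]
      exact Finset.sum_le_sum fun i _ => hle i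

end Pool.Agent.MP_f7f40d_pr.HD
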