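import Pool.Agent.MP_f7f40d_pr.HD.W2b

set_option autoImplicit false

namespace Pool.Agent.MP_f7f40d_pr.HD

variable {d : ℕ}

/-- **[HD-W2c]** The new data are separated again.

PROOF. `P.T m ≤ P.T (n-1)` (`Par.mono_T`).
Clause 1 for `m` (points of `newT ∪ K`): two points of `K i`: third clause of `hsep`; a point of
`newT` is a point of `t` or `K2` (`newT_spec`-type property `h1`): fourth clause (use
`abs_sub_comm`); two values of `newT i` are equal.
Clause 2: `newT i = some p`, `p ∈ K i`: fourth clause with `q = p`: `T < |0|`, absurd.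
Clause 3: `p = c i ± q`, `q' …`: same sign: `|q - q'| ≥ Lg` (or `p = p'`); opposite signs:
`q + q' ≥ 2 Lg`; `Lg = T (m-1) + 1`.
Clause 4: last clause of `hqs`. -/
theorem new_sepK (P : Par d) (n m : ℕ) (t t' : Fin d → Option ℤ) (K K2 : Fin d → Set ℤ)
    (c : Fin d → ℤ) (qs : Fin d → Finset ℕ) (hmn : m < n) (hsep : SepK P n t K K2)
    (h1 : ∀ i p, t' i = some p → t i = some p ∨ p ∈ K2 i)
    (h2 : ∀ i, ∀ q ∈ qs i, P.T (m - 1) + 1 ≤ q)
    (h3 : ∀ i, ∀ q ∈ qs i, ∀ q' ∈ qs i, q ≠ q' → ((P.T (m - 1) + 1 : ℕ) : ℤ) ≤ |(q : ℤ) - q'|)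
    (h4 : ∀ i, ∀ q ∈ qs i, ∀ p, (t' i = some p ∨ p ∈ K i) →
      ((P.T (m - 1) + 1 : ℕ) : ℤ) ≤ |c i + q - p| ∧
      ((P.T (m - 1) + 1 : ℕ) : ℤ) ≤ |c i - q - p|) :
    SepK P m t' (fun i => {p | ∃ q ∈ qs i, p = c i + q ∨ p = c i - q}) K := by
  obtain ⟨_, _, s3, s4⟩ := hsep
  have hT : (P.T m : ℤ) ≤ P.T (n - 1) := by exact_mod_cast P.mono_T (show m ≤ n - 1 by omega)
  refine ⟨?_, ?_, ?_, ?_⟩
  · intro i p q hp hq hpq
    rcases hp with hp | hp <;> rcases hq with hq | hq
    · exact absurd (Option.some_injective _ (hp.symm.trans hq)) hpq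
    · have h := s4 i q hq p (h1 i p hp)
      rw [abs_sub_comm] at h
      exact lt_of_le_of_lt hT h
    · exact lt_of_le_of_lt hT (s4 i p hp q (h1 i q hq))
    · exact lt_of_le_of_lt hT (s3 i p hp q hq hpq)
  · intro i p hp hK
    have h := s4 i p hK p (h1 i p hp)
    rw [sub_self, abs_zero] at h
    have h0 : (0 : ℤ) ≤ P.T (n - 1) := by positivity
    omega
  · rintro i p ⟨q, hq, hp⟩ p' ⟨q', hq', hp'⟩ hne
    have e1 := h2 i q hq
    have e2 := h2 i q' hq'
    by_cases hqq : q = q'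
    · subst hqq
      rcases hp with hp | hp <;> rcases hp' with hp' | hp'
      · exact absurd (hp.trans hp'.symm) hne
      · rw [hp, hp']
        rcases abs_cases (c i + (q : ℤ) - (c i - (q : ℤ))) with h | h <;> omega
      · rw [hp, hp']
        rcases abs_cases (c i - (q : ℤ) - (c i + (q : ℤ))) with h | h <;> omega
      · exact absurd (hp.trans hp'.symm) hne
    · have e3 := h3 i q hq q' hq' hqq
      have e4 : (((P.T (m - 1) + 1 : ℕ) : ℤ)) = (P.T (m - 1) : ℤ) + 1 := by push_cast; ring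
      rw [e4] at e3
      rcases abs_cases ((q : ℤ) - q') with e5 | e5 <;>
        rcases hp with hp | hp <;> rcases hp' with hp' | hp' <;>
        rw [hp, hp'] <;>
        first
          | (rcases abs_cases (c i + (q : ℤ) - (c i + (q' : ℤ))) with h | h <;> omega)
          | (rcases abs_cases (c i + (q : ℤ) - (c i - (q' : ℤ))) with h | h <;> omega)
          | (rcases abs_cases (c i - (q : ℤ) - (c i + (q' : ℤ))) with h | h <;> omega)
          | (rcases abs_cases (c i - (q : ℤ) - (c i - (q' : ℤ))) with h | h <;> omega)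
  · rintro i p ⟨q, hq, hp⟩ p' hp'
    obtain ⟨g1, g2⟩ := h4 i q hq p' hp'
    have e4 : (((P.T (m - 1) + 1 : ℕ) : ℤ)) = (P.T (m - 1) : ℤ) + 1 := by push_cast; ring
    rw [e4] at g1 g2
    rcases hp with hp | hp
    · rw [hp]; linarith
    · rw [hp]; linarith

end Pool.Agent.MP_f7f40d_pr.HD
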