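import Pool.Agent.MP_f7f40d_pr.HD.S1
import Pool.Agent.MP_f7f40d_pr.HD.W2
import Pool.Agent.MP_f7f40d_pr.DuDep

set_option autoImplicit false

namespace Pool.Agent.MP_f7f40d_pr.HD

open MeasureTheory ProbabilityTheory Filter Topology
open scoped ENNReal NNReal

variable {d : ℕ}

/-- **[HD-E1a]** PROOF. Induction on `n`. -/
theorem XX_mono (P : Par d) {B B' : Set (Fin d → ℤ)} (h : B ⊆ B') (n : ℕ) :
    XX P B n ⊆ XX P B' n := by
  induction n with
  | zero => exact h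
  | succ n ih =>
    intro x hx
    obtain ⟨h1, y, hy, h2, h3⟩ := hx
    exact ⟨ih h1, y, ih hy, h2, h3⟩

/-- **[HD-E1b]** Only the heights `min (A v) (6 d)` matter.

PROOF. `lowS m1 A' ⊆ lowS m1 A`: `A' v < m1 ≤ 6 d` and `min (A v) (6 d) ≤ A' v` give `A v < m1`;
`manyS s` is monotone (`cnt_mono`, twice). -/
theorem badS_anti {m1 : ℕ} (hm : m1 ≤ 6 * d) (s : ℕ) {A A' : (Fin d → ℤ) → ℕ}
    (h : ∀ v, min (A v) (6 * d) ≤ A' v) : badS m1 s A' ⊆ badS m1 s A := by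
  have hlow : lowS m1 A' ⊆ lowS m1 A := by
    intro v hv
    have h1 := h v
    simp only [lowS, Set.mem_setOf_eq] at hv ⊢
    omega
  have hm1 : manyS (2 * s) (lowS m1 A') ⊆ manyS (2 * s) (lowS m1 A) := fun v hv =>
    lt_of_lt_of_le hv (cnt_mono hlow v)
  exact fun v hv => lt_of_lt_of_le hv (cnt_mono hm1 v)

theorem seedS_mono {A A' : (Fin d → ℤ) → ℕ} (h : ∀ v, min (A v) (6 * d) ≤ A' v) :
    seedS A ⊆ seedS A' := by
  intro v hv
  have h1 := h v
  simp only [seedS, Set.mem_setOf_eq] at hv ⊢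
  omega

theorem he1a_cnt_pos {S : Set (Fin d → ℤ)} {v : Fin d → ℤ} (h : 0 < cnt S v) :
    ∃ i s, Sg s ∧ stp v i s ∈ S := by
  by_contra hc
  push Not at hc
  have h0 : cnt S v = 0 := by
    unfold cnt
    apply Finset.sum_eq_zero
    intro i _
    rw [ind_false (hc i 1 (Or.inl rfl)), ind_false (hc i (-1) (Or.inr rfl)), add_zero]
  omega

/-- **[HD-E1c]** Near a bad site there is a poor site.

PROOF. `s < cnt (manyS (2 * s) (lowS m1 A)) v`, so the count is positive: some neighbour `w` of `v` is in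
`manyS`; again some neighbour `z` of `w` is in `lowS m1 A`; `Nr_stp` twice. -/
theorem badS_near (m1 s : ℕ) (A : (Fin d → ℤ) → ℕ) (v : Fin d → ℤ) (h : v ∈ badS m1 s A) :
    ∃ z, Nr 2 z v ∧ A z < m1 := by
  have h1 : s < cnt (manyS (2 * s) (lowS m1 A)) v := h
  obtain ⟨i, σ, hσ, hw⟩ := he1a_cnt_pos (lt_of_le_of_lt (Nat.zero_le _) h1)
  have h2 : 2 * s < cnt (lowS m1 A) (stp v i σ) := hw
  obtain ⟨j, τ, hτ, hz⟩ := he1a_cnt_pos (lt_of_le_of_lt (Nat.zero_le _) h2)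
  exact ⟨_, (Nr_stp (stp v i σ) j hτ).trans (Nr_stp v i hσ), hz⟩

end Pool.Agent.MP_f7f40d_pr.HD
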