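import Pool.Agent.MP_f7f40d_pr.HD.E1

set_option autoImplicit false

namespace Pool.Agent.MP_f7f40d_pr.HD

open MeasureTheory ProbabilityTheory Filter Topology
open scoped ENNReal NNReal

variable {d : ℕ}

/-- The bounds for the density of `X_n`. -/
noncomputable def qseq (P : Par d) (q0 : ℝ) : ℕ → ℝ
  | 0 => q0
  | n + 1 => ((2 * P.ρ n + 1 : ℕ) : ℝ) ^ d * qseq P q0 n ^ 2

/-- The cubes around two points at distance larger than `2 r` are disjoint. -/
theorem he2_disj {r D : ℕ} (hD : 2 * r < D) {x y : Fin d → ℤ} (h : ¬ Nr D x y) :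
    Disjoint (Finset.Icc (fun i => x i - (r : ℤ)) (fun i => x i + (r : ℤ)))
      (Finset.Icc (fun i => y i - (r : ℤ)) (fun i => y i + (r : ℤ))) := by
  unfold Nr at h
  push Not at h
  obtain ⟨i, hi⟩ := h
  rw [Finset.disjoint_left]
  intro z hz hz'
  rw [Finset.mem_Icc] at hz hz'
  have h1 := hz.1 i
  have h2 := hz.2 i
  have h3 := hz'.1 i
  have h4 := hz'.2 i
  simp only at h1 h2 h3 h4
  have h5 : |x i - y i| ≤ 2 * (r : ℤ) := by
    rw [abs_le]
    constructor <;> omega
  omega

/-- **[HD-E2]** The density recursion.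

PROOF. Induction on `n`.  Step: if `x ∈ X_{n+1}` there is `y` in the finite set
`Finset.Icc (x - ρ n) (x + ρ n)` with `¬ Nr (D n) x y`, `x ∈ X_n`, `y ∈ X_n`.  For such a `y` the
events `{x ∈ X_n}`, `{y ∈ X_n}` depend on disjoint cubes (`depOn_XX`; some coordinate satisfies
`|x i - y i| > D n > 2 r n`), so (`DepOn.indep`) the probability of the intersection is the product,
`≤ qseq n ^ 2` (both factors are `≤ qseq n` by the induction hypothesis, and `≥ 0`).  Union bound
(`measureReal_biUnion_finset_le`) with `(2 ρ n + 1)^d` points (`Pi.card_Icc`, `Int.card_Icc`). -/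
theorem prob_XX (P : Par d) (m1 s : ℕ) (lam : ℝ≥0) (q0 : ℝ)
    (h0 : ∀ x : Fin d → ℤ, (muP d lam).real {A : Om d | x ∈ badS m1 s A} ≤ q0) (n : ℕ)
    (x : Fin d → ℤ) :
    (muP d lam).real {A : Om d | x ∈ XX P (badS m1 s A) n} ≤ qseq P q0 n := by
  classical
  induction n generalizing x with
  | zero => exact h0 x
  | succ n ih =>
    set E : (Fin d → ℤ) → Set (Om d) := fun z => {A : Om d | z ∈ XX P (badS m1 s A) n} with hE
    set I : Finset (Fin d → ℤ) :=
      Finset.Icc (fun i => x i - (P.ρ n : ℤ)) (fun i => x i + (P.ρ n : ℤ)) with hI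
    set S : Finset (Fin d → ℤ) := I.filter fun y => ¬ Nr (P.D n) x y with hS
    have hsub : {A : Om d | x ∈ XX P (badS m1 s A) (n + 1)} ⊆ ⋃ y ∈ S, (E x ∩ E y) := by
      intro A hA
      obtain ⟨hx, y, hy, hD, hρ⟩ := hA
      rw [Set.mem_iUnion₂]
      refine ⟨y, ?_, hx, hy⟩
      rw [hS, Finset.mem_filter, hI, Finset.mem_Icc]
      refine ⟨⟨fun i => ?_, fun i => ?_⟩, hD⟩
      · have := abs_le.1 (hρ i)
        simp only
        omega
      · have := abs_le.1 (hρ i)
        simp only
        omega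
    have hcard : (S.card : ℝ) ≤ ((2 * P.ρ n + 1 : ℕ) : ℝ) ^ d := by
      have h1 : S.card ≤ I.card := Finset.card_filter_le _ _
      have h2 : I.card = (2 * P.ρ n + 1) ^ d := by
        rw [hI, Pi.card_Icc]
        have : ∀ i : Fin d, (Finset.Icc (x i - (P.ρ n : ℤ)) (x i + (P.ρ n : ℤ))).card =
            2 * P.ρ n + 1 := by
          intro i
          rw [Int.card_Icc]
          omega
        rw [Finset.prod_congr rfl fun i _ => this i]
        simp
      rw [h2] at h1
      exact_mod_cast h1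
    have hbd : ∀ y ∈ S, (muP d lam).real (E x ∩ E y) ≤ qseq P q0 n ^ 2 := by
      intro y hy
      rw [hS, Finset.mem_filter] at hy
      have h1 := (depOn_XX P m1 s n x).indep lam (depOn_XX P m1 s n y) (he2_disj (P.hD n) hy.2)
      have h2 : (muP d lam).real (E x ∩ E y) = (muP d lam).real (E x) * (muP d lam).real (E y) := by
        simp only [Measure.real]
        rw [← ENNReal.toReal_mul]
        exact congrArg _ h1
      rw [h2, sq]
      exact mul_le_mul (ih x) (ih y) measureReal_nonneg (measureReal_nonneg.trans (ih x))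
    calc (muP d lam).real {A : Om d | x ∈ XX P (badS m1 s A) (n + 1)}
        ≤ (muP d lam).real (⋃ y ∈ S, (E x ∩ E y)) := measureReal_mono hsub (measure_ne_top _ _)
      _ ≤ ∑ y ∈ S, (muP d lam).real (E x ∩ E y) := measureReal_biUnion_finset_le _ _
      _ ≤ ∑ _y ∈ S, qseq P q0 n ^ 2 := Finset.sum_le_sum hbd
      _ = (S.card : ℝ) * qseq P q0 n ^ 2 := by rw [Finset.sum_const, nsmul_eq_mul]
      _ ≤ ((2 * P.ρ n + 1 : ℕ) : ℝ) ^ d * qseq P q0 n ^ 2 :=
        mul_le_mul_of_nonneg_right hcard (sq_nonneg _)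
      _ = qseq P q0 (n + 1) := rfl

end Pool.Agent.MP_f7f40d_pr.HD
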