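import Pool.Agent.MP_f7f40d_pr.HD.E3a

set_option autoImplicit false

namespace Pool.Agent.MP_f7f40d_pr.HD

open MeasureTheory ProbabilityTheory Filter Topology
open scoped ENNReal NNReal Nat

variable {d : ℕ}

/-- A product event. -/
theorem hee3b_prob (lam : ℝ≥0) (m1 : ℕ) (Z : Finset (Fin d → ℤ)) :
    (muP d lam).real {A : Om d | ∀ z ∈ Z, A z < m1} =
      ((poissonMeasure lam).real {n | n < m1}) ^ Z.card := by
  have e : {A : Om d | ∀ z ∈ Z, A z < m1} =
      Set.pi (Z : Set (Fin d → ℤ)) fun _ => {n : ℕ | n < m1} := by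
    ext A
    simp [Set.mem_pi]
  rw [measureReal_def, e]
  unfold muP
  rw [Measure.infinitePi_pi _ fun _ _ => MeasurableSet.of_discrete, ENNReal.toReal_prod,
    Finset.prod_const]
  rfl

/-- The event of a pair `(T, U)`. -/
def hee3bEv (m1 : ℕ) (x : Fin d → ℤ) (T : Finset (Fin d × Bool))
    (U : Fin d × Bool → Finset (Fin d × Bool)) : Set (Om d) :=
  {A | (∀ e ∈ T, ∀ e' ∈ U e, ∀ f ∈ T, ∀ f' ∈ U f, st2 x e e' = st2 x f f' → e = f ∧ e' = f') ∧
    ∀ e ∈ T, ∀ e' ∈ U e, A (st2 x e e') < m1}

theorem hee3b_pair (m1 s : ℕ) (lam : ℝ≥0) (x : Fin d → ℤ) (T : Finset (Fin d × Bool))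
    (U : Fin d × Bool → Finset (Fin d × Bool)) (hT : T.card = s + 1)
    (hU : ∀ e ∈ T, (U e).card = s) :
    (muP d lam).real (hee3bEv m1 x T U) ≤
      ((poissonMeasure lam).real {n | n < m1}) ^ (s * (s + 1)) := by
  classical
  by_cases hinj : ∀ e ∈ T, ∀ e' ∈ U e, ∀ f ∈ T, ∀ f' ∈ U f,
      st2 x e e' = st2 x f f' → e = f ∧ e' = f'
  · set Z : Finset (Fin d → ℤ) := T.biUnion fun e => (U e).image (st2 x e) with hZ
    have hcard : Z.card = s * (s + 1) := by
      rw [hZ, Finset.card_biUnion]
      · rw [Finset.sum_congr rfl (g := fun _ => s) (fun e he => ?_), Finset.sum_const, hT,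
          smul_eq_mul, mul_comm]
        rw [Finset.card_image_of_injOn, hU e he]
        intro a ha b hb hab
        exact (hinj e he a ha e he b hb hab).2
      · intro e he f hf hef
        rw [Function.onFun, Finset.disjoint_left]
        intro z hz hz'
        rw [Finset.mem_image] at hz hz'
        obtain ⟨a, ha, rfl⟩ := hz
        obtain ⟨b, hb, hab⟩ := hz'
        exact hef (hinj e he a ha f hf b hb hab.symm).1
    rw [← hcard, ← hee3b_prob]
    refine measureReal_mono ?_
    rintro A ⟨_, hA⟩ z hz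
    rw [hZ, Finset.mem_biUnion] at hz
    obtain ⟨e, he, hz⟩ := hz
    rw [Finset.mem_image] at hz
    obtain ⟨e', he', rfl⟩ := hz
    exact hA e he e' he'
  · have h0 : hee3bEv m1 x T U = ∅ := by
      ext A
      simp only [Set.mem_empty_iff_false, iff_false]
      exact fun hA => hinj hA.1
    rw [h0, measureReal_empty]
    positivity

/-- **[HE-E3b]** Probability of a bad site.

PROOF. Let `p = (poissonMeasure lam).real {n | n < m1}`.  By `bad_count` the event is contained in the
union over the pairs `(T, U)`, `T ∈ Finset.powersetCard (s+1) univ`,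
`U ∈ Fintype.piFinset (fun e => if e ∈ T then Finset.powersetCard s univ else {∅})` such that
`(e, e') ↦ st2 x e e'` is injective on the pairs `e ∈ T`, `e' ∈ U e`, of the events
`{A | ∀ z ∈ Z, A z < m1}`, `Z = T.biUnion (fun e => (U e).image (st2 x e))`, which has exactly
`s (s + 1)` elements; such an event has probability `p ^ (s (s+1))` (product measure, exactly as
`prob_Nu` in `DuNuc.lean`: `Measure.infinitePi_pi`).  The number of pairs is at most
`(2d).choose (s+1) * ((2d).choose s)^(s+1)` (`Fintype.card_piFinset`, `Finset.prod_ite`; the cardinality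
of `Fin d × Bool` is `2 d`), and `(2d).choose (s+1) ≤ (2d)^(s+1)`, `(2d).choose s ≤ (2d)^s / s!`
(`Nat.choose_le_pow_div`).  So the probability is at most
`(2d)^(s+1) ((2d)^s / s!)^(s+1) p^(s (s+1))`, which is the right side. -/
theorem prob_bad (m1 s : ℕ) (lam : ℝ≥0) (x : Fin d → ℤ) :
    (muP d lam).real {A : Om d | x ∈ badS m1 s A} ≤
      (2 * (d : ℝ) * (2 * (d : ℝ) * (poissonMeasure lam).real {n | n < m1}) ^ s / (s ! : ℝ)) ^
        (s + 1) := by
  classical
  set p : ℝ := (poissonMeasure lam).real {n | n < m1} with hp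
  have hp0 : 0 ≤ p := measureReal_nonneg
  set G : Finset (Fin d × Bool) → Finset (Fin d × Bool → Finset (Fin d × Bool)) := fun T =>
    Fintype.piFinset fun e => if e ∈ T then Finset.powersetCard s Finset.univ else {∅} with hG
  have hcardU : Fintype.card (Fin d × Bool) = 2 * d := by
    rw [Fintype.card_prod, Fintype.card_fin, Fintype.card_bool, mul_comm]
  have hsub : {A : Om d | x ∈ badS m1 s A} ⊆
      ⋃ T ∈ Finset.powersetCard (s + 1) (Finset.univ : Finset (Fin d × Bool)),
        ⋃ U ∈ G T, hee3bEv m1 x T U := by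
    intro A hA
    obtain ⟨T, U, h1, h2, h3, h4, h5⟩ := bad_count m1 s A x hA
    simp only [Set.mem_iUnion]
    refine ⟨T, ?_, U, ?_, h4, h5⟩
    · rw [Finset.mem_powersetCard]
      exact ⟨Finset.subset_univ _, h1⟩
    · rw [hG, Fintype.mem_piFinset]
      intro e
      by_cases he : e ∈ T
      · rw [if_pos he, Finset.mem_powersetCard]
        exact ⟨Finset.subset_univ _, h2 e he⟩
      · rw [if_neg he, Finset.mem_singleton]
        exact h3 e he
  have hGcard : ∀ T ∈ Finset.powersetCard (s + 1) (Finset.univ : Finset (Fin d × Bool)),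
      (G T).card = ((2 * d).choose s) ^ (s + 1) := by
    intro T hT
    rw [Finset.mem_powersetCard] at hT
    rw [hG, Fintype.card_piFinset]
    have h1 : ∀ e : Fin d × Bool, (if e ∈ T then Finset.powersetCard s
        (Finset.univ : Finset (Fin d × Bool)) else {∅}).card =
        if e ∈ T then (2 * d).choose s else 1 := by
      intro e
      split_ifs
      · rw [Finset.card_powersetCard, Finset.card_univ, hcardU]
      · exact Finset.card_singleton _
    rw [Finset.prod_congr rfl fun e _ => h1 e, Finset.prod_ite_mem, Finset.univ_inter,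
      Finset.prod_const, hT.2]
  have hin : ∀ T ∈ Finset.powersetCard (s + 1) (Finset.univ : Finset (Fin d × Bool)),
      (muP d lam).real (⋃ U ∈ G T, hee3bEv m1 x T U) ≤
        (((2 * d).choose s : ℕ) : ℝ) ^ (s + 1) * p ^ (s * (s + 1)) := by
    intro T hT
    refine (measureReal_biUnion_finset_le _ _).trans ?_
    have h1 : ∀ U ∈ G T, (muP d lam).real (hee3bEv m1 x T U) ≤ p ^ (s * (s + 1)) := by
      intro U hU
      rw [Finset.mem_powersetCard] at hT
      refine hee3b_pair m1 s lam x T U hT.2 fun e he => ?_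
      rw [hG, Fintype.mem_piFinset] at hU
      have h2 := hU e
      rw [if_pos he, Finset.mem_powersetCard] at h2
      exact h2.2
    refine (Finset.sum_le_sum h1).trans (le_of_eq ?_)
    rw [Finset.sum_const, hGcard T hT, nsmul_eq_mul]
    push_cast
    ring
  have hall : (muP d lam).real {A : Om d | x ∈ badS m1 s A} ≤
      (((2 * d).choose (s + 1) : ℕ) : ℝ) *
        ((((2 * d).choose s : ℕ) : ℝ) ^ (s + 1) * p ^ (s * (s + 1))) := by
    refine (measureReal_mono hsub (measure_ne_top _ _)).trans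
      ((measureReal_biUnion_finset_le _ _).trans ?_)
    refine (Finset.sum_le_sum hin).trans (le_of_eq ?_)
    rw [Finset.sum_const, Finset.card_powersetCard, Finset.card_univ, hcardU, nsmul_eq_mul]
  refine hall.trans ?_
  have hb1 : (((2 * d).choose (s + 1) : ℕ) : ℝ) ≤ (2 * (d : ℝ)) ^ (s + 1) := by
    have h1 : (2 * d).choose (s + 1) ≤ (2 * d) ^ (s + 1) := Nat.choose_le_pow _ _
    calc (((2 * d).choose (s + 1) : ℕ) : ℝ) ≤ (((2 * d) ^ (s + 1) : ℕ) : ℝ) := by
          exact_mod_cast h1
      _ = (2 * (d : ℝ)) ^ (s + 1) := by push_cast; ring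
  have hb2 : (((2 * d).choose s : ℕ) : ℝ) ≤ (2 * (d : ℝ)) ^ s / (s ! : ℝ) := by
    have h1 := Nat.choose_le_pow_div (α := ℝ) s (2 * d)
    calc (((2 * d).choose s : ℕ) : ℝ) ≤ ((2 * d : ℕ) : ℝ) ^ s / (s ! : ℝ) := h1
      _ = (2 * (d : ℝ)) ^ s / (s ! : ℝ) := by push_cast; ring
  calc (((2 * d).choose (s + 1) : ℕ) : ℝ) *
        ((((2 * d).choose s : ℕ) : ℝ) ^ (s + 1) * p ^ (s * (s + 1)))
      ≤ (2 * (d : ℝ)) ^ (s + 1) *
        (((2 * (d : ℝ)) ^ s / (s ! : ℝ)) ^ (s + 1) * p ^ (s * (s + 1))) := by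
        refine mul_le_mul hb1 ?_ (by positivity) (by positivity)
        refine mul_le_mul_of_nonneg_right ?_ (by positivity)
        exact pow_le_pow_left₀ (by positivity) hb2 _
    _ = _ := by
        rw [pow_mul, mul_pow (2 * (d : ℝ)) p s, ← mul_pow, ← mul_pow]
        congr 1
        ring

end Pool.Agent.MP_f7f40d_pr.HD
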