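import Pool.Agent.MP_f7f40d_pr.HD.S1
import Pool.Agent.MP_f7f40d_pr.DuDep

set_option autoImplicit false

namespace Pool.Agent.MP_f7f40d_pr.HD

open MeasureTheory ProbabilityTheory Filter Topology
open scoped ENNReal NNReal

variable {d : ℕ}

/-- sign of a Boolean -/
def sb (b : Bool) : ℤ := if b then 1 else -1

/-- The site reached from `x` by the steps `e`, `e'`. -/
def st2 (x : Fin d → ℤ) (e e' : Fin d × Bool) : Fin d → ℤ :=
  stp (stp x e.1 (sb e.2)) e'.1 (sb e'.2)

theorem hee3a_stp (x : Fin d → ℤ) (e : Fin d × Bool) :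
    stp x e.1 (sb e.2) = x + Pi.single e.1 (sb e.2) := by
  funext j
  by_cases h : j = e.1
  · rw [h, stp_same, Pi.add_apply, Pi.single_eq_same]
  · rw [stp_ne _ _ h, Pi.add_apply, Pi.single_eq_of_ne h, add_zero]

open scoped Classical in
theorem hee3a_cnt (S : Set (Fin d → ℤ)) (v : Fin d → ℤ) :
    cnt S v = ((Finset.univ : Finset (Fin d × Bool)).filter
      fun e => stp v e.1 (sb e.2) ∈ S).card := by
  rw [Finset.card_filter, Fintype.sum_prod_type]
  unfold cnt ind
  refine Finset.sum_congr rfl fun i _ => ?_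
  rw [Fintype.sum_bool]
  rfl

theorem hee3a_two (i j k l : Fin d) (a b c g : Bool) (hne : ¬ (i = j ∧ a ≠ b))
    (h : ∀ t : Fin d, (if t = i then sb a else 0) + (if t = j then sb b else 0) =
      (if t = k then sb c else 0) + (if t = l then sb g else 0)) :
    (k = i ∧ c = a ∧ l = j ∧ g = b) ∨ (k = j ∧ c = b ∧ l = i ∧ g = a) := by
  by_cases hij : i = j
  · subst hij
    have hab : a = b := by
      by_contra hab
      exact hne ⟨rfl, hab⟩
    subst hab
    have h1 := h i
    simp only [if_true] at h1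
    by_cases hk : i = k <;> by_cases hl : i = l
    · rw [if_pos hk, if_pos hl] at h1
      cases a <;> cases c <;> cases g <;> simp_all [sb]
    · rw [if_pos hk, if_neg hl] at h1
      cases a <;> cases c <;> simp_all [sb]
    · rw [if_neg hk, if_pos hl] at h1
      cases a <;> cases g <;> simp_all [sb]
    · rw [if_neg hk, if_neg hl] at h1
      cases a <;> simp_all [sb]
  · have h1 := h i
    have h2 := h j
    rw [if_pos rfl, if_neg hij] at h1
    rw [if_neg (Ne.symm hij), if_pos rfl] at h2
    by_cases hk : i = k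
    · subst hk
      rw [if_pos rfl] at h1
      rw [if_neg (Ne.symm hij)] at h2
      by_cases hl : i = l
      · rw [if_pos hl] at h1
        cases a <;> cases c <;> cases g <;> simp [sb] at h1
      · rw [if_neg hl] at h1
        by_cases hjl : j = l
        · rw [if_pos hjl] at h2
          left
          refine ⟨rfl, ?_, hjl.symm, ?_⟩
          · cases a <;> cases c <;> simp [sb] at h1 ⊢
          · cases b <;> cases g <;> simp [sb] at h2 ⊢
        · rw [if_neg hjl] at h2
          cases b <;> simp [sb] at h2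
    · rw [if_neg hk] at h1
      by_cases hl : i = l
      · subst hl
        rw [if_pos rfl] at h1
        rw [if_neg (Ne.symm hij)] at h2
        by_cases hjk : j = k
        · rw [if_pos hjk] at h2
          right
          refine ⟨hjk.symm, ?_, rfl, ?_⟩
          · cases b <;> cases c <;> simp [sb] at h2 ⊢
          · cases a <;> cases g <;> simp [sb] at h1 ⊢
        · rw [if_neg hjk] at h2
          cases b <;> simp [sb] at h2
      · rw [if_neg hl] at h1
        cases a <;> simp [sb] at h1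

theorem hee3a_apply (x : Fin d → ℤ) (e e' : Fin d × Bool) (t : Fin d) :
    st2 x e e' t = x t + ((if t = e.1 then sb e.2 else 0) + (if t = e'.1 then sb e'.2 else 0)) := by
  unfold st2
  rw [hee3a_stp, hee3a_stp, Pi.add_apply, Pi.add_apply, Pi.single_apply, Pi.single_apply, add_assoc]

/-- **[HE-E3a]** Combinatorics of a bad site: there are `s + 1` first steps `e ∈ T`, and for every one
of them `s` second steps `e' ∈ U e` leading to poor sites, and all these `s (s+1)` sites are distinct.

PROOF. For `S` and `v` the number `cnt S v` is the cardinality of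
`{e : Fin d × Bool | stp v e.1 (sb e.2) ∈ S}` (`Fintype.sum_prod_type`, `Fintype.sum_bool`,
`Finset.card_filter`; see also `bad_count` in the delivered `HD_E3a.lean`).  Let
`E₁ = {e | stp x e ∈ manyS (2 s) (lowS m1 A)}`, `|E₁| ≥ s + 1`: choose `T ⊆ E₁` with exactly `s + 1`
elements.  For `e ∈ T` let `E₂(e) = {e' | st2 x e e' ∈ lowS m1 A}`, `|E₂(e)| ≥ 2 s + 1`.  Remove from
it the opposite of `e`, i.e. `(e.1, !e.2)`, and the elements of `T` different from `e`: at least
`2 s + 1 - 1 - s = s` elements remain; choose `U e` among them with exactly `s` elements; `U e = ∅` for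
`e ∉ T`.  Injectivity: let `e, f ∈ T`, `e' ∈ U e`, `f' ∈ U f`, `st2 x e e' = st2 x f f'`.  The vector
`st2 x e e' - x` is the sum of the signed unit vectors of `e` and `e'`, which are not opposite, so it
determines the unordered pair: `{e, e'} = {f, f'}`.  If `e = f` then `e' = f'`.  Otherwise `e' = f`,
so `f ∈ U e`, `f ∈ T`, `f ≠ e`: excluded by the choice of `U e`. -/
theorem bad_count (m1 s : ℕ) (A : (Fin d → ℤ) → ℕ) (x : Fin d → ℤ) (h : x ∈ badS m1 s A) :
    ∃ (T : Finset (Fin d × Bool)) (U : Fin d × Bool → Finset (Fin d × Bool)),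
      T.card = s + 1 ∧ (∀ e ∈ T, (U e).card = s) ∧ (∀ e, e ∉ T → U e = ∅) ∧
      (∀ e ∈ T, ∀ e' ∈ U e, ∀ f ∈ T, ∀ f' ∈ U f, st2 x e e' = st2 x f f' → e = f ∧ e' = f') ∧
      ∀ e ∈ T, ∀ e' ∈ U e, A (st2 x e e') < m1 := by
  classical
  set E₁ : Finset (Fin d × Bool) := (Finset.univ : Finset (Fin d × Bool)).filter
    fun e => stp x e.1 (sb e.2) ∈ manyS (2 * s) (lowS m1 A) with hE₁
  set E₂ : (Fin d × Bool) → Finset (Fin d × Bool) := fun e =>
    (Finset.univ : Finset (Fin d × Bool)).filter
      fun e' => stp (stp x e.1 (sb e.2)) e'.1 (sb e'.2) ∈ lowS m1 A with hE₂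
  have hc1 : s + 1 ≤ E₁.card := by
    have h1 : s < cnt (manyS (2 * s) (lowS m1 A)) x := h
    rw [hee3a_cnt] at h1
    exact h1
  have hc2 : ∀ e ∈ E₁, 2 * s + 1 ≤ (E₂ e).card := by
    intro e he
    have h1 : 2 * s < cnt (lowS m1 A) (stp x e.1 (sb e.2)) := (Finset.mem_filter.1 he).2
    rw [hee3a_cnt] at h1
    exact h1
  obtain ⟨T, hT, hTc⟩ := Finset.exists_subset_card_eq hc1
  have hF : ∀ e ∈ T, ∃ V ⊆ ((E₂ e).erase (e.1, !e.2)) \ (T.erase e), V.card = s := by
    intro e he
    apply Finset.exists_subset_card_eq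
    have h1 := hc2 e (hT he)
    have h2 := Finset.pred_card_le_card_erase (s := E₂ e) (a := (e.1, !e.2))
    have h3 := Finset.le_card_sdiff (T.erase e) ((E₂ e).erase (e.1, !e.2))
    have h4 := Finset.card_erase_of_mem he
    omega
  choose! U0 hU0 hU0c using hF
  have hUmem : ∀ e ∈ T, ∀ e' ∈ U0 e, e' ∈ E₂ e ∧ e' ≠ (e.1, !e.2) ∧ ¬ (e' ≠ e ∧ e' ∈ T) := by
    intro e he e' he'
    have h1 := hU0 e he he'
    rw [Finset.mem_sdiff, Finset.mem_erase, Finset.mem_erase] at h1
    exact ⟨h1.1.2, h1.1.1, h1.2⟩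
  refine ⟨T, fun e => if e ∈ T then U0 e else ∅, hTc, ?_, ?_, ?_, ?_⟩
  · intro e he
    simp only [if_pos he]
    exact hU0c e he
  · intro e he
    exact if_neg he
  · intro e he e' he' f hf f' hf' heq
    simp only [if_pos he] at he'
    simp only [if_pos hf] at hf'
    obtain ⟨_, a2, a3⟩ := hUmem e he e' he'
    have hne : ¬ (e.1 = e'.1 ∧ e.2 ≠ e'.2) := by
      rintro ⟨g1, g2⟩
      apply a2
      refine Prod.ext g1.symm ?_
      cases h5 : e.2 <;> cases h6 : e'.2 <;> simp_all
    have h1 := hee3a_two e.1 e'.1 f.1 f'.1 e.2 e'.2 f.2 f'.2 hne (fun t => by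
      have h2 := congrFun heq t
      rw [hee3a_apply, hee3a_apply] at h2
      linarith)
    rcases h1 with ⟨b1, b2, b3, b4⟩ | ⟨b1, b2, b3, b4⟩
    · exact ⟨(Prod.ext b1 b2).symm, (Prod.ext b3 b4).symm⟩
    · have c1 : f = e' := Prod.ext b1 b2
      have c2 : f' = e := Prod.ext b3 b4
      by_cases hfe : f = e
      · exact ⟨hfe.symm, by rw [c2, ← c1, hfe]⟩
      · exfalso
        apply a3
        rw [← c1]
        exact ⟨hfe, hf⟩
  · intro e he e' he'
    simp only [if_pos he] at he'
    exact (Finset.mem_filter.1 (hUmem e he e' he').1).2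

end Pool.Agent.MP_f7f40d_pr.HD
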