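import Pool.Agent.MP_f7f40d_pr.HD.E4a

set_option autoImplicit false

namespace Pool.Agent.MP_f7f40d_pr.HD

open MeasureTheory ProbabilityTheory Filter Topology
open scoped ENNReal NNReal Nat

theorem hee4b_quad (ε lam d x L m : ℝ) (hε : 0 < ε) (hx2 : x ^ 2 = d * L) (hL : 0 ≤ L)
    (hLx : L ≤ x) (h6 : 6 * x ≤ ε * d) (hd : 0 < d) (hε1 : ε ≤ 1)
    (hm : m + (1 + ε / 2) * x ≤ d + (1 + ε) * x) (hl : d + (1 + ε) * x ≤ lam) :
    (1 / 2 + ε / 4) * L ≤ (lam - m) ^ 2 / (2 * lam) := by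
  have hx : 0 ≤ x := hL.trans hLx
  have hlam : 0 < lam := by nlinarith [mul_nonneg hε.le hx]
  obtain ⟨z, hz⟩ : ∃ z, z = lam - (d + (1 + ε) * x) := ⟨_, rfl⟩
  have hz0 : 0 ≤ z := by rw [hz]; linarith
  have ha0 : 0 ≤ (1 + ε / 2) * x := by positivity
  have h1 : ((1 + ε / 2) * x + z) ^ 2 ≤ (lam - m) ^ 2 := by
    apply pow_le_pow_left₀ (by positivity)
    rw [hz]; linarith
  rw [le_div_iff₀ (by positivity)]
  refine le_trans ?_ h1
  have hlam2 : lam = d + (1 + ε) * x + z := by rw [hz]; ring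
  have e1 : (1 / 2 + ε / 4) * L * (2 * lam) = (1 + ε / 2) * (d + (1 + ε) * x) * L + (1 + ε / 2) * L * z := by
    rw [hlam2]; ring
  rw [e1]
  have e2 : (1 + ε / 2) * (d + (1 + ε) * x) ≤ (1 + ε) * d := by
    have e3 : (1 + ε / 2) * (1 + ε) ≤ 3 := by nlinarith
    have e4 : (1 + ε / 2) * (1 + ε) * x ≤ 3 * x := mul_le_mul_of_nonneg_right e3 hx
    nlinarith
  have e5 : (1 + ε / 2) * (d + (1 + ε) * x) * L ≤ (1 + ε) * d * L := mul_le_mul_of_nonneg_right e2 hL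
  have e6 : (1 + ε) * d * L ≤ ((1 + ε / 2) * x) ^ 2 := by
    have : ((1 + ε / 2) * x) ^ 2 = (1 + ε / 2) ^ 2 * (d * L) := by rw [mul_pow, hx2]
    rw [this]
    have h7 : 0 ≤ d * L := by positivity
    nlinarith [mul_nonneg (sq_nonneg ε) h7]
  have e7 : (1 + ε / 2) * L * z ≤ (1 + ε / 2) * x * z :=
    mul_le_mul_of_nonneg_right (mul_le_mul_of_nonneg_left hLx (by positivity)) hz0
  have e8 : 0 ≤ (1 + ε / 2) * x * z := by positivity
  nlinarith [sq_nonneg z]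

theorem hee4b_fac (y : ℝ) (hy : 0 ≤ y) (s : ℕ) (hs : 0 < s) : y ^ s / (s ! : ℝ) ≤ (3 * y / s) ^ s := by
  have hs0 : (0 : ℝ) < s := by exact_mod_cast hs
  have h1 := Real.pow_div_factorial_le_exp (s : ℝ) hs0.le s
  have h3 : Real.exp (s : ℝ) ≤ 3 ^ s := by
    have h4 : Real.exp (s : ℝ) = Real.exp 1 ^ s := by
      rw [← Real.exp_nat_mul, mul_one]
    rw [h4]
    exact pow_le_pow_left₀ (Real.exp_pos 1).le (by linarith [Real.exp_one_lt_d9]) s
  have h5 : (s : ℝ) ^ s / (s ! : ℝ) ≤ 3 ^ s := h1.trans h3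
  have hf : (0 : ℝ) < (s ! : ℝ) := by exact_mod_cast Nat.factorial_pos s
  have hp : (0 : ℝ) < (s : ℝ) ^ s := by positivity
  rw [div_le_iff₀ hf] at h5
  rw [div_pow, mul_pow, div_le_div_iff₀ hf hp]
  calc y ^ s * (s : ℝ) ^ s ≤ y ^ s * (3 ^ s * (s ! : ℝ)) := mul_le_mul_of_nonneg_left h5 (by positivity)
    _ = 3 ^ s * y ^ s * (s ! : ℝ) := by ring

theorem hee4b_main (ε : ℝ) (hε : 0 < ε) (hε1 : ε ≤ 1) (d : ℕ) (hd : Real.exp (46080 / ε ^ 3) ≤ d) (lam : ℝ≥0)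
    (hlam : (d : ℝ) + (1 + ε) * Real.sqrt (d * Real.log d) ≤ lam) : ∃ s : ℕ, 3 * s + 4 ≤ d ∧
      (2 * (d : ℝ) * (2 * (d : ℝ) * (poissonMeasure lam).real {n | n < d + 3 * s + 4}) ^ s /
        (s ! : ℝ)) ^ (s + 1) ≤ 1 / ((10 : ℝ) ^ 8 * (d : ℝ) ^ 2) ^ (30 * d) := by
  have he : (0:ℝ) < Real.exp (46080 / ε ^ 3) := Real.exp_pos _
  have hd0 : (0:ℝ) < d := lt_of_lt_of_le he hd
  obtain ⟨L, hL⟩ : ∃ L, L = Real.log d := ⟨_, rfl⟩
  rw [← hL] at hlam
  have hL0 : 46080 / ε ^ 3 ≤ L := by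
    rw [hL, Real.le_log_iff_exp_le hd0]; exact hd
  have hdexp : (d:ℝ) = Real.exp L := by rw [hL, Real.exp_log hd0]
  have hε3 : 0 < ε ^ 3 := by positivity
  have hεL3 : 46080 ≤ ε ^ 3 * L := by
    rw [div_le_iff₀ hε3] at hL0
    linarith
  have hLpos : 0 < L := by
    rcases lt_or_ge 0 L with h | h
    · exact h
    · nlinarith [mul_nonneg hε3.le (neg_nonneg.2 h)]
  have hεL2 : 46080 ≤ ε ^ 2 * L := by
    have h1 : ε ^ 3 * L ≤ ε ^ 2 * L :=
      mul_le_mul_of_nonneg_right (pow_le_pow_of_le_one hε.le hε1 (by norm_num)) hLpos.le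
    linarith
  have hεL1 : 46080 ≤ ε * L := by
    have h1 : ε ^ 2 * L ≤ ε ^ 1 * L :=
      mul_le_mul_of_nonneg_right (pow_le_pow_of_le_one hε.le hε1 (by norm_num)) hLpos.le
    rw [pow_one] at h1
    linarith
  have hL1 : 46080 ≤ L := by
    have h1 : ε * L ≤ 1 * L := mul_le_mul_of_nonneg_right hε1 hLpos.le
    linarith
  have hdL2 : L ^ 2 / 2 ≤ d := by
    have := Real.quadratic_le_exp_of_nonneg (x := L) hLpos.le
    rw [hdexp]; nlinarith
  have hdL : L ≤ d := by nlinarith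
  obtain ⟨x, hx⟩ : ∃ x, x = Real.sqrt (d * L) := ⟨_, rfl⟩
  rw [← hx] at hlam
  have hx2 : x ^ 2 = d * L := by rw [hx]; exact Real.sq_sqrt (by positivity)
  have hx0 : 0 ≤ x := by rw [hx]; exact Real.sqrt_nonneg _
  have hLx : L ≤ x := by
    have h : L ^ 2 ≤ x ^ 2 := by rw [hx2]; nlinarith
    exact (sq_le_sq₀ hLpos.le hx0).1 h
  have h6x : 6 * x ≤ ε * d := by
    have h : (6 * x) ^ 2 ≤ (ε * d) ^ 2 := by
      have h1 : (6 * x) ^ 2 = 36 * (d * L) := by rw [mul_pow, hx2]; norm_num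
      rw [h1]
      have h2 : 36 * L ≤ ε ^ 2 * d := by
        have h3 : ε ^ 2 * (L ^ 2 / 2) ≤ ε ^ 2 * d := mul_le_mul_of_nonneg_left hdL2 (by positivity)
        nlinarith [mul_le_mul_of_nonneg_right hεL2 hLpos.le]
      nlinarith [mul_le_mul_of_nonneg_right h2 hd0.le]
    exact (sq_le_sq₀ (by positivity) (by positivity)).1 h
  have hεx : 46080 ≤ ε * x := hεL1.trans (mul_le_mul_of_nonneg_left hLx hε.le)
  have hε2x : 46080 ≤ ε * (ε * x) := by
    have h1 : ε ^ 2 * L ≤ ε ^ 2 * x := mul_le_mul_of_nonneg_left hLx (by positivity)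
    nlinarith
  obtain ⟨s, hs⟩ : ∃ s, s = ⌈ε * x / 8⌉₊ := ⟨_, rfl⟩
  have hs1 : ε * x / 8 ≤ s := by rw [hs]; exact Nat.le_ceil _
  have hs2 : (s:ℝ) ≤ ε * x / 8 + 1 := by rw [hs]; exact (Nat.ceil_lt_add_one (by positivity)).le
  have hspos : (0:ℝ) < s := by linarith
  have hspos' : 0 < s := by exact_mod_cast hspos
  have hεx1 : ε * x ≤ x := by nlinarith
  have hxd : 6 * x ≤ d := by nlinarith
  refine ⟨s, ?_, ?_⟩
  · have : ((3 * s + 4 : ℕ) : ℝ) ≤ d := by push_cast; linarith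
    exact_mod_cast this
  have hm : ((d + 3 * s + 4 : ℕ) : ℝ) + (1 + ε / 2) * x ≤ d + (1 + ε) * x := by push_cast; linarith
  have hlam0 : 0 < lam := by
    have : (0:ℝ) < lam := by nlinarith [mul_nonneg hε.le hx0]
    exact_mod_cast this
  have hml : ((d + 3 * s + 4 : ℕ) : ℝ) ≤ lam := by nlinarith [mul_nonneg hε.le hx0]
  have hp := poisson_lower lam (d + 3 * s + 4) hml hlam0
  have hq := hee4b_quad ε lam d x L ((d + 3 * s + 4 : ℕ) : ℝ) hε hx2 hLpos.le hLx h6x hd0 hε1 hm hlam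
  have hp2 : (poissonMeasure lam).real {n | n < d + 3 * s + 4} ≤ Real.exp (-((1 / 2 + ε / 4) * L)) :=
    hp.trans (Real.exp_le_exp.2 (by linarith))
  have hp0 : 0 ≤ (poissonMeasure lam).real {n | n < d + 3 * s + 4} := measureReal_nonneg
  generalize (poissonMeasure lam).real {n | n < d + 3 * s + 4} = p at hp2 hp0 ⊢
  -- `w = √d`
  obtain ⟨w, hw⟩ : ∃ w, w = Real.exp (L / 2) := ⟨_, rfl⟩
  have hw0 : 0 < w := by rw [hw]; exact Real.exp_pos _
  have hw2 : w ^ 2 = d := by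
    rw [hw, hdexp, ← Real.exp_nat_mul]; congr 1; push_cast; ring
  have hwx : 48 * w ≤ ε * x := by
    have h : (48 * w) ^ 2 ≤ (ε * x) ^ 2 := by
      rw [mul_pow, mul_pow, hw2, hx2]
      nlinarith [mul_le_mul_of_nonneg_right hεL2 hd0.le]
    exact (sq_le_sq₀ (by positivity) (by positivity)).1 h
  have hy : 2 * (d : ℝ) * p ≤ 2 * w * Real.exp (-(ε / 4 * L)) := by
    calc 2 * (d : ℝ) * p ≤ 2 * (d : ℝ) * Real.exp (-((1 / 2 + ε / 4) * L)) :=
          mul_le_mul_of_nonneg_left hp2 (by positivity)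
      _ = 2 * w * Real.exp (-(ε / 4 * L)) := by
          rw [hw, hdexp, mul_assoc, mul_assoc, ← Real.exp_add, ← Real.exp_add]
          congr 2; ring
  have hy0 : 0 ≤ 2 * (d : ℝ) * p := by positivity
  have h3y : 3 * (2 * (d : ℝ) * p) / s ≤ Real.exp (-(ε / 4 * L)) := by
    rw [div_le_iff₀ hspos]
    have h1 : 6 * w ≤ s := by linarith
    have h2 := mul_le_mul_of_nonneg_right h1 (Real.exp_pos (-(ε / 4 * L))).le
    linarith
  have hF : (2 * (d : ℝ) * p) ^ s / (s ! : ℝ) ≤ Real.exp (-(ε / 4 * L * s)) := by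
    refine (hee4b_fac _ hy0 s hspos').trans ?_
    calc (3 * (2 * (d : ℝ) * p) / s) ^ s ≤ Real.exp (-(ε / 4 * L)) ^ s :=
          pow_le_pow_left₀ (by positivity) h3y s
      _ = Real.exp (-(ε / 4 * L * s)) := by
          rw [← Real.exp_nat_mul]; congr 1; ring
  have hG : 2 * (d : ℝ) * (2 * (d : ℝ) * p) ^ s / (s ! : ℝ) ≤ Real.exp (-(ε / 8 * L * s)) := by
    have h2e : (2 : ℝ) ≤ Real.exp L := by
      have := Real.add_one_le_exp L
      linarith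
    have hεs : 16 ≤ ε * s := by nlinarith
    calc 2 * (d : ℝ) * (2 * (d : ℝ) * p) ^ s / (s ! : ℝ)
        = 2 * (d : ℝ) * ((2 * (d : ℝ) * p) ^ s / (s ! : ℝ)) := by ring
      _ ≤ Real.exp L * Real.exp L * Real.exp (-(ε / 4 * L * s)) := by
          rw [hdexp] at hF ⊢
          exact mul_le_mul (mul_le_mul_of_nonneg_right h2e (Real.exp_pos _).le) hF (by positivity) (by positivity)
      _ = Real.exp (2 * L - ε / 4 * L * s) := by
          rw [← Real.exp_add, ← Real.exp_add]; congr 1; ring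
      _ ≤ Real.exp (-(ε / 8 * L * s)) := by
          apply Real.exp_le_exp.2
          have := mul_le_mul_of_nonneg_left hεs hLpos.le
          linarith
  calc (2 * (d : ℝ) * (2 * (d : ℝ) * p) ^ s / (s ! : ℝ)) ^ (s + 1)
      ≤ Real.exp (-(ε / 8 * L * s)) ^ (s + 1) := pow_le_pow_left₀ (by positivity) hG _
    _ = Real.exp (((s + 1 : ℕ) : ℝ) * (-(ε / 8 * L * s))) := by rw [← Real.exp_nat_mul]
    _ ≤ Real.exp (-(30 * d * (8 * 9 + 2 * L))) := by
        apply Real.exp_le_exp.2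
        push_cast
        have h1 : (ε * x / 8) ^ 2 ≤ (s : ℝ) * (s + 1) := by
          have := pow_le_pow_left₀ (by positivity) hs1 2
          nlinarith
        have h2 : ε / 8 * L * (ε * x / 8) ^ 2 ≤ ε / 8 * L * ((s : ℝ) * (s + 1)) :=
          mul_le_mul_of_nonneg_left h1 (by positivity)
        have h3 : ε / 8 * L * (ε * x / 8) ^ 2 = (ε ^ 3 * L) * (L * d) / 512 := by
          rw [div_pow, mul_pow, hx2]; ring
        rw [h3] at h2
        have h4 : 46080 * (L * d) ≤ (ε ^ 3 * L) * (L * d) := mul_le_mul_of_nonneg_right hεL3 (by positivity)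
        have h5 : d * (46080 : ℝ) ≤ d * L := mul_le_mul_of_nonneg_left hL1 hd0.le
        nlinarith
    _ ≤ 1 / ((10 : ℝ) ^ 8 * (d : ℝ) ^ 2) ^ (30 * d) := by
        rw [Real.exp_neg, ← one_div]
        apply one_div_le_one_div_of_le (by positivity)
        have h10 : (10:ℝ) ≤ Real.exp 9 := by
          have := Real.add_one_le_exp (9:ℝ)
          linarith
        calc ((10 : ℝ) ^ 8 * (d : ℝ) ^ 2) ^ (30 * d)
            ≤ ((Real.exp 9) ^ 8 * (Real.exp L) ^ 2) ^ (30 * d) := by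
              apply pow_le_pow_left₀ (by positivity)
              rw [← hdexp]
              exact mul_le_mul_of_nonneg_right (pow_le_pow_left₀ (by norm_num) h10 8)
                (by positivity)
          _ = Real.exp (30 * d * (8 * 9 + 2 * L)) := by
              rw [← Real.exp_nat_mul, ← Real.exp_nat_mul, ← Real.exp_add, ← Real.exp_nat_mul]
              congr 1; push_cast; ring

/-- **[HE-E4b]** The choice of `s`.

PROOF. We may assume `ε ≤ 1` (a larger `ε` is a stronger hypothesis on `lam`).  Let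
`x = √(d log d)` and `s = ⌈ε x / 8⌉₊`, so `ε x / 8 ≤ s ≤ ε x / 8 + 1`.  For large `d`: `3 s + 4 ≤ d`.  Let
`m = d + 3 s + 4 ≤ d + (3/8) ε x + 7`.
Let `lam₀ = d + (1 + ε) x ≤ lam`; the function `lam ↦ (lam - m)²/(2 lam)` is increasing for
`lam ≥ m` [`(lam - m)/lam ≥ (lam₀ - m)/lam₀` and `lam - m ≥ lam₀ - m ≥ 0`].  For large `d`
`lam₀ - m ≥ (1 + ε/2) x` (as `ε x / 8 ≥ 7`), so
`(lam₀ - m)²/(2 lam₀) ≥ (1 + ε) x² / (2 (d + 2x)) ≥ (1/2) (1 + ε/2) log d` for large `d` (as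
`x / d → 0`: `(1 + ε) d ≥ (1 + ε/2) (d + 2 x)`).  By `poisson_lower`:
`p := P(N < m) ≤ exp (-(1/2 + ε/4) log d)`.
`s ! ≥ (s/3)^s` (`Real.exp 1 < 3`; `s^s / s! ≤ exp s` from
`Real.pow_div_factorial_le_exp`), so `(2 d p)^s / s! ≤ (6 d p / s)^s`, and
`6 d p / s ≤ 48 d^{1/2 - ε/4} / (ε √(d log d)) = 48 d^{-ε/4} / (ε √(log d)) ≤ d^{-ε/4}` for large `d`.
So `2 d (2 d p)^s / s! ≤ 2 d · d^{-ε s/4} ≤ d^{-ε s / 8}` for large `d` (`ε s / 8 ≥ 2`, `2 ≤ d`), and the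
left side is `≤ d^{-ε s (s+1) / 8} ≤ exp (-(ε/8) s² log d) ≤ exp (-(ε³/512) d (log d)²)`.  The right
side is `exp (-30 d (8 log 10 + 2 log d))`; and
`(ε³/512) (log d)² ≥ 30 (8 log 10 + 2 log d)` for large `d`.
(All `for large `d`` are eventual statements along `atTop`; take `filter_upwards` and
`Filter.eventually_atTop`.  Useful: `Real.isLittleO_log_id_atTop`, so `√(d log d) / d → 0`.) -/
theorem tail_num (ε : ℝ) (hε : 0 < ε) : ∃ d0 : ℕ, 5 ≤ d0 ∧ ∀ d : ℕ, d0 ≤ d → ∀ lam : ℝ≥0,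
    (d : ℝ) + (1 + ε) * Real.sqrt (d * Real.log d) ≤ lam → ∃ s : ℕ, 3 * s + 4 ≤ d ∧
      (2 * (d : ℝ) * (2 * (d : ℝ) * (poissonMeasure lam).real {n | n < d + 3 * s + 4}) ^ s /
        (s ! : ℝ)) ^ (s + 1) ≤ 1 / ((10 : ℝ) ^ 8 * (d : ℝ) ^ 2) ^ (30 * d) := by
  have hm0 : 0 < min ε 1 := lt_min hε one_pos
  refine ⟨5 + ⌈Real.exp (46080 / (min ε 1) ^ 3)⌉₊, Nat.le_add_right _ _, ?_⟩
  intro d hd lam hlam
  refine hee4b_main (min ε 1) hm0 (min_le_right _ _) d ?_ lam ?_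
  · refine (Nat.le_ceil _).trans ?_
    exact_mod_cast (Nat.le_add_left _ _).trans hd
  · refine le_trans ?_ hlam
    have h1 : (1 + min ε 1) * Real.sqrt (d * Real.log d) ≤ (1 + ε) * Real.sqrt (d * Real.log d) :=
      mul_le_mul_of_nonneg_right (by linarith [min_le_left ε 1]) (Real.sqrt_nonneg _)
    linarith

end Pool.Agent.MP_f7f40d_pr.HD
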