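import Mathlib

set_option autoImplicit false

namespace Pool.Agent.MP_f7f40d_pr.HD

open MeasureTheory ProbabilityTheory Filter Topology
open scoped ENNReal NNReal

theorem he4a_exp {t : ℝ} (ht : 0 ≤ t) : Real.exp (-t) ≤ 1 - t + t ^ 2 / 2 := by
  have h1 := Real.quadratic_le_exp_of_nonneg ht
  have h2 : 0 < 1 - t + t ^ 2 / 2 := by nlinarith [sq_nonneg (t - 1)]
  rw [Real.exp_neg, inv_le_iff_one_le_mul₀ (Real.exp_pos t)]
  nlinarith [mul_le_mul_of_nonneg_left h1 h2.le, sq_nonneg (t ^ 2)]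

/-- **[HD-E4a]** Chernoff bound for the lower tail of the Poisson law.

PROOF. For `t ≥ 0`: `P(N < m) ≤ e^{t m} E e^{-tN} = exp (t m + lam (e^{-t} - 1))`
(`∑ n, e^{-lam} lam^n/n! e^{-t n} = exp (lam (e^{-t} - 1))`); with
`e^{-t} ≤ 1 - t + t²/2` the exponent is `≤ -t (lam - m) + lam t²/2`, minimal for
`t = (lam - m)/lam`: value `-(lam - m)²/(2 lam)`.  (Alternatively: the theorem about `PP` at the end of
`Pool/Agent/MP_f7f40d_pr/Prob.lean` with a one-point index type; or `mgf`/`cgf` of Mathlib.) -/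
theorem poisson_lower (lam : ℝ≥0) (m : ℕ) (h : (m : ℝ) ≤ lam) (hlam : 0 < lam) :
    (poissonMeasure lam).real {n | n < m} ≤ Real.exp (-((lam - m) ^ 2 / (2 * lam))) := by
  have hl : (0 : ℝ) < lam := by exact_mod_cast hlam
  have hset : {n : ℕ | n < m} = ↑(Finset.range m) := by
    ext n
    simp
  rw [hset, ← sum_measureReal_singleton]
  set t : ℝ := ((lam : ℝ) - m) / lam with ht
  have ht0 : 0 ≤ t := div_nonneg (by linarith) hl.le
  have h1 : ∀ n ∈ Finset.range m, (poissonMeasure lam).real {n} ≤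
      Real.exp (t * m - lam) * (((lam : ℝ) * Real.exp (-t)) ^ n / (n.factorial : ℝ)) := by
    intro n hn
    rw [poissonMeasure_real_singleton]
    have hnm : (n : ℝ) ≤ m := by exact_mod_cast (Finset.mem_range.1 hn).le
    have h2 : (1 : ℝ) ≤ Real.exp (t * m) * Real.exp (-t) ^ n := by
      rw [← Real.exp_nat_mul, ← Real.exp_add]
      apply Real.one_le_exp
      nlinarith
    have h3 : (0 : ℝ) ≤ Real.exp (-(lam : ℝ)) * (lam : ℝ) ^ n / (n.factorial : ℝ) := by positivity
    calc Real.exp (-(lam : ℝ)) * (lam : ℝ) ^ n / (n.factorial : ℝ)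
        ≤ Real.exp (-(lam : ℝ)) * (lam : ℝ) ^ n / (n.factorial : ℝ) *
            (Real.exp (t * m) * Real.exp (-t) ^ n) := le_mul_of_one_le_right h3 h2
      _ = Real.exp (t * m - lam) * (((lam : ℝ) * Real.exp (-t)) ^ n / (n.factorial : ℝ)) := by
          rw [sub_eq_add_neg, Real.exp_add, mul_pow]
          ring
  refine (Finset.sum_le_sum h1).trans ?_
  rw [← Finset.mul_sum]
  have h4 := Real.sum_le_exp_of_nonneg (x := (lam : ℝ) * Real.exp (-t))
    (mul_nonneg hl.le (Real.exp_pos _).le) m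
  refine (mul_le_mul_of_nonneg_left h4 (Real.exp_pos _).le).trans ?_
  rw [← Real.exp_add]
  apply Real.exp_le_exp.2
  have h5 := mul_le_mul_of_nonneg_left (he4a_exp ht0) hl.le
  have h6 : (lam : ℝ) * t = lam - m := by
    rw [ht]
    field_simp
  have h7 : ((lam : ℝ) - m) ^ 2 / (2 * lam) = (lam : ℝ) * t ^ 2 / 2 := by
    rw [ht]
    field_simp
  rw [h7]
  nlinarith

end Pool.Agent.MP_f7f40d_pr.HD
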