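import Pool.Agent.MP_f7f40d_pr.HD.E5a

set_option autoImplicit false

namespace Pool.Agent.MP_f7f40d_pr.HD

open MeasureTheory ProbabilityTheory Filter Topology
open scoped ENNReal NNReal

theorem he5b_ell (Q : ℕ) : ∀ n, ell Q n * Q = Q ^ Nat.fib (n + 2) ∧
    ell Q (n + 1) * Q = Q ^ Nat.fib (n + 3)
  | 0 => by
      refine ⟨?_, ?_⟩
      · show 1 * Q = Q ^ Nat.fib 2
        simp
      · show Q * Q = Q ^ Nat.fib 3
        rw [show Nat.fib 3 = 2 from rfl]; ring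
  | n + 1 => by
      obtain ⟨h1, h2⟩ := he5b_ell Q n
      refine ⟨h2, ?_⟩
      show Q * ell Q (n + 1) * ell Q n * Q = Q ^ Nat.fib (n + 2 + 2)
      rw [Nat.fib_add_two, pow_add, ← h1, show n + 2 + 1 = n + 3 from rfl, ← h2]
      ring

theorem he5b_ell1 (Q : ℕ) (hQ : 1 ≤ Q) : ∀ n, 1 ≤ ell Q n ∧ 1 ≤ ell Q (n + 1)
  | 0 => ⟨le_rfl, hQ⟩
  | n + 1 => by
      obtain ⟨h1, h2⟩ := he5b_ell1 Q hQ n
      refine ⟨h2, ?_⟩
      show 1 ≤ Q * ell Q (n + 1) * ell Q n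
      have := Nat.mul_pos (Nat.mul_pos hQ h2) h1
      exact this

theorem he5b_fib : ∀ n, (Nat.fib (n + 3) : ℝ) ≤ 2 * (5 / 3) ^ n ∧
    (Nat.fib (n + 4) : ℝ) ≤ 2 * (5 / 3) ^ (n + 1)
  | 0 => by
      rw [show Nat.fib (0 + 3) = 2 from rfl, show Nat.fib (0 + 4) = 3 from rfl]
      norm_num
  | n + 1 => by
      obtain ⟨h1, h2⟩ := he5b_fib n
      refine ⟨h2, ?_⟩
      have h3 : Nat.fib (n + 1 + 4) = Nat.fib (n + 3) + Nat.fib (n + 4) := by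
        rw [show n + 1 + 4 = n + 3 + 2 by ring, Nat.fib_add_two]
      rw [h3]
      push_cast
      have h4 : (2:ℝ) * (5 / 3) ^ n + 2 * (5 / 3) ^ (n + 1) ≤ 2 * (5 / 3) ^ (n + 1 + 1) := by
        have h5 : (0:ℝ) ≤ (5 / 3) ^ n := by positivity
        have e1 : ((5:ℝ) / 3) ^ (n + 1) = (5 / 3) ^ n * (5 / 3) := pow_succ _ _
        have e2 : ((5:ℝ) / 3) ^ (n + 1 + 1) = (5 / 3) ^ n * (5 / 3) * (5 / 3) := by
          rw [pow_succ, e1]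
        rw [e1, e2]
        linarith
      linarith

theorem he5b_q0 {d : ℕ} (P : Par d) (q0 : ℝ) (h0 : 0 ≤ q0) : ∀ n, 0 ≤ qseq P q0 n
  | 0 => h0
  | n + 1 => by
      show 0 ≤ ((2 * P.ρ n + 1 : ℕ) : ℝ) ^ d * qseq P q0 n ^ 2
      positivity

theorem he5b_q {d : ℕ} (P : Par d) (q0 : ℝ) (h0 : 0 ≤ q0) (Q : ℕ)
    (hρ : ∀ n, 2 * P.ρ n + 1 ≤ Q ^ Nat.fib (n + 3))
    (h1 : q0 * (Q:ℝ) ^ (30 * d) ≤ 1) : ∀ n,
    qseq P q0 n * (Q:ℝ) ^ (d * (25 * 2 ^ n + Nat.fib (n + 5))) ≤ 1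
  | 0 => by
      show q0 * (Q:ℝ) ^ (d * (25 * 2 ^ 0 + Nat.fib 5)) ≤ 1
      rw [show Nat.fib 5 = 5 from rfl, show d * (25 * 2 ^ 0 + 5) = 30 * d by ring]
      exact h1
  | n + 1 => by
      have ih := he5b_q P q0 h0 Q hρ h1 n
      have hq := he5b_q0 P q0 h0 n
      show ((2 * P.ρ n + 1 : ℕ) : ℝ) ^ d * qseq P q0 n ^ 2 *
        (Q:ℝ) ^ (d * (25 * 2 ^ (n + 1) + Nat.fib (n + 1 + 5))) ≤ 1
      have hr : ((2 * P.ρ n + 1 : ℕ) : ℝ) ≤ (Q:ℝ) ^ Nat.fib (n + 3) := by exact_mod_cast hρ n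
      have hfib : Nat.fib (n + 3) + Nat.fib (n + 1 + 5) = 2 * Nat.fib (n + 5) := by
        have a1 : Nat.fib (n + 1 + 5) = Nat.fib (n + 4) + Nat.fib (n + 5) := by
          rw [show n + 1 + 5 = n + 4 + 2 by ring, Nat.fib_add_two]
        have a2 : Nat.fib (n + 5) = Nat.fib (n + 3) + Nat.fib (n + 4) := by
          rw [show n + 5 = n + 3 + 2 by ring, Nat.fib_add_two]
        omega
      calc ((2 * P.ρ n + 1 : ℕ) : ℝ) ^ d * qseq P q0 n ^ 2 *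
            (Q:ℝ) ^ (d * (25 * 2 ^ (n + 1) + Nat.fib (n + 1 + 5)))
          ≤ ((Q:ℝ) ^ Nat.fib (n + 3)) ^ d * qseq P q0 n ^ 2 *
            (Q:ℝ) ^ (d * (25 * 2 ^ (n + 1) + Nat.fib (n + 1 + 5))) := by
            refine mul_le_mul_of_nonneg_right (mul_le_mul_of_nonneg_right ?_ (by positivity))
              (by positivity)
            exact pow_le_pow_left₀ (by positivity) hr d
        _ = (qseq P q0 n * (Q:ℝ) ^ (d * (25 * 2 ^ n + Nat.fib (n + 5)))) ^ 2 := by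
            rw [mul_pow, ← pow_mul, ← pow_mul, mul_right_comm, ← pow_add, mul_comm]
            congr 2
            rw [show Nat.fib (n + 3) * d + d * (25 * 2 ^ (n + 1) + Nat.fib (n + 1 + 5)) =
              d * (25 * 2 ^ (n + 1) + (Nat.fib (n + 3) + Nat.fib (n + 1 + 5))) by ring, hfib]
            ring
        _ ≤ 1 := pow_le_one₀ (by positivity) ih

/-- **[HD-E5b]** Growth and summability.

PROOF. `Q = 10^6 d² ≥ 10^6`.  Let `g 0 = 1`, `g 1 = 2`, `g (n+2) = g (n+1) + g n` (natural numbers;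
`g n = Nat.fib (n+2)`).  `e n * Q = Q ^ (g n)` (induction), and `g n ≤ 2 (5/3)^n` (reals; induction,
`5/3 + 1 ≤ 25/9`).  `2 ρ n + 1 ≤ 793 d e (n+1) ≤ Q^{g (n+1)}`.
Let `q n = qseq P q0 n`; `0 ≤ q n`.  CLAIM `q n ≤ Q^{-κ n}`, `κ 0 = 30 d`,
`κ (n+1) = 2 κ n - d g (n+1)` (reals, `Real.rpow`, or work with logarithms):
`q (n+1) ≤ Q^{d g(n+1)} Q^{-2 κ n}`.  `κ n / 2^n = 30 d - d ∑_{m=1}^n g m/2^m ≥ 30 d - d ∑ 2 (5/6)^m ≥
30 d - 10 d = 20 d` (induction with `∑_{m=1}^n 2 (5/6)^m = 10 (1 - (5/6)^n)`).  So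
`q n ≤ Q^{-20 d 2^n}`.
(1) `T (n+1)^e q n ≤ Q^{e g(n+1)} Q^{-20 d 2^n}` (`4 e(n+1) ≤ Q^{g(n+1)}`), and
`e g (n+1) ≤ (10/3) e (5/3)^n ≤ 10 d 2^n` for large `n` (`(5/6)^n → 0`), so the terms are eventually
`≤ Q^{-10 d 2^n} ≤ 2^{-n}`: summable.
(2) `(2 R n + 1)^d q n ≤ Q^{d g(n+1) - 20 d 2^n} ≤ Q^{-16 d 2^n} ≤ (1/4)^{n+1}`:
`g (n+1) ≤ 2 (5/3)^{n+1} ≤ (10/3) 2^n`; the sum is `≤ 1/3 < 1`. -/
theorem qseq_sum (d : ℕ) (hd : 1 ≤ d) (P : Par d)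
    (hR : ∀ n, P.R n = ell (10 ^ 6 * d ^ 2) (n + 1))
    (hT : ∀ n, P.T (n + 1) = 4 * ell (10 ^ 6 * d ^ 2) (n + 1))
    (hρ : ∀ n, P.ρ n = (256 * d + 140) * ell (10 ^ 6 * d ^ 2) (n + 1)) (q0 : ℝ) (h0 : 0 ≤ q0)
    (h1 : q0 ≤ 1 / ((10 : ℝ) ^ 8 * (d : ℝ) ^ 2) ^ (30 * d)) :
    (∀ e : ℕ, Summable fun n => (P.T (n + 1) : ℝ) ^ e * qseq P q0 n) ∧
      ∑' n, ((2 * P.R n + 1 : ℕ) : ℝ) ^ d * qseq P q0 n < 1 := by
  obtain ⟨Q, hQ⟩ : ∃ Q, Q = 10 ^ 6 * d ^ 2 := ⟨_, rfl⟩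
  rw [← hQ] at hR hT hρ
  have hQd : 10 ^ 6 * d ≤ Q := by
    rw [hQ]; nlinarith
  have hQ6 : 10 ^ 6 ≤ Q := by nlinarith
  have hd0 : (0:ℝ) < d := by exact_mod_cast hd
  have hQ0 : (0:ℝ) < Q := by
    have : 0 < Q := by omega
    exact_mod_cast this
  have hQ4 : (4:ℝ) ≤ Q := by
    have : 4 ≤ Q := by omega
    exact_mod_cast this
  have hQ1 : (1:ℝ) ≤ Q := by linarith
  have hell : ∀ n, ell Q (n + 1) * Q = Q ^ Nat.fib (n + 3) := fun n => (he5b_ell Q n).2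
  have hell1 : ∀ n, 1 ≤ ell Q (n + 1) := fun n => (he5b_ell1 Q (by omega) n).2
  have hρ' : ∀ n, 2 * P.ρ n + 1 ≤ Q ^ Nat.fib (n + 3) := by
    intro n
    rw [← hell n, hρ n]
    have := hell1 n
    have h2 : 2 * (256 * d + 140) + 1 ≤ Q := by omega
    nlinarith
  have hT' : ∀ n, P.T (n + 1) ≤ Q ^ Nat.fib (n + 3) := by
    intro n
    rw [← hell n, hT n, mul_comm]
    exact Nat.mul_le_mul_left _ (by omega)
  have hR' : ∀ n, 2 * P.R n + 1 ≤ Q ^ Nat.fib (n + 3) := by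
    intro n
    rw [← hell n, hR n]
    have := hell1 n
    nlinarith
  have h1' : q0 * (Q:ℝ) ^ (30 * d) ≤ 1 := by
    have hb : (0:ℝ) < ((10 : ℝ) ^ 8 * (d : ℝ) ^ 2) ^ (30 * d) := by positivity
    have hle : (Q:ℝ) ^ (30 * d) ≤ ((10 : ℝ) ^ 8 * (d : ℝ) ^ 2) ^ (30 * d) := by
      apply pow_le_pow_left₀ hQ0.le
      rw [hQ]
      push_cast
      have : (0:ℝ) ≤ (d:ℝ) ^ 2 := by positivity
      nlinarith
    calc q0 * (Q:ℝ) ^ (30 * d)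
        ≤ 1 / ((10 : ℝ) ^ 8 * (d : ℝ) ^ 2) ^ (30 * d) * ((10 : ℝ) ^ 8 * (d : ℝ) ^ 2) ^ (30 * d) :=
          mul_le_mul h1 hle (by positivity) (by positivity)
      _ = 1 := by rw [one_div, inv_mul_cancel₀ hb.ne']
  have hq := he5b_q P q0 h0 Q hρ' h1'
  have hqn := he5b_q0 P q0 h0
  -- a general bound
  have key : ∀ (n A E : ℕ) (t : ℝ), 0 ≤ t → t ≤ (Q:ℝ) ^ E →
      E + A ≤ d * (25 * 2 ^ n + Nat.fib (n + 5)) → t * qseq P q0 n ≤ (1 / 4) ^ A := by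
    intro n A E t ht0 ht hA
    have hpos : (0:ℝ) < (Q:ℝ) ^ A := by positivity
    have h3 : t * qseq P q0 n * (Q:ℝ) ^ A ≤ 1 := by
      calc t * qseq P q0 n * (Q:ℝ) ^ A ≤ (Q:ℝ) ^ E * qseq P q0 n * (Q:ℝ) ^ A :=
            mul_le_mul_of_nonneg_right (mul_le_mul_of_nonneg_right ht (hqn n)) hpos.le
        _ = qseq P q0 n * (Q:ℝ) ^ (E + A) := by rw [pow_add]; ring
        _ ≤ qseq P q0 n * (Q:ℝ) ^ (d * (25 * 2 ^ n + Nat.fib (n + 5))) :=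
            mul_le_mul_of_nonneg_left (pow_le_pow_right₀ hQ1 hA) (hqn n)
        _ ≤ 1 := hq n
    have h4 : t * qseq P q0 n ≤ 1 / (Q:ℝ) ^ A := by
      rw [le_div_iff₀ hpos]; exact h3
    refine h4.trans ?_
    rw [one_div_pow]
    exact one_div_le_one_div_of_le (by positivity) (pow_le_pow_left₀ (by norm_num) hQ4 A)
  have hsumgeo : Summable fun n : ℕ => ((1:ℝ) / 4) ^ n :=
    summable_geometric_of_lt_one (by norm_num) (by norm_num)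
  have hR2 : ∀ n, ((2 * P.R n + 1 : ℕ) : ℝ) ^ d * qseq P q0 n ≤ (1 / 4) ^ (n + 1) := by
    intro n
    refine key n (n + 1) (Nat.fib (n + 3) * d) _ (by positivity) ?_ ?_
    · rw [pow_mul]
      exact pow_le_pow_left₀ (by positivity) (by exact_mod_cast hR' n) d
    · have h2 : n < 2 ^ n := Nat.lt_two_pow_self
      have h3 : Nat.fib (n + 3) ≤ Nat.fib (n + 5) := Nat.fib_mono (by omega)
      have h4 : 2 ^ n ≤ d * 2 ^ n := Nat.le_mul_of_pos_left _ hd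
      have h5 : Nat.fib (n + 3) * d ≤ d * Nat.fib (n + 5) := by
        rw [mul_comm]; exact Nat.mul_le_mul_left _ h3
      rw [mul_add]
      have h6 : d * (25 * 2 ^ n) = 25 * (d * 2 ^ n) := by ring
      omega
  refine ⟨?_, ?_⟩
  · intro e
    have hev : ∀ᶠ n : ℕ in atTop, 2 * (e:ℝ) * (5 / 6) ^ n ≤ 1 := by
      have ht : Tendsto (fun n : ℕ => 2 * (e:ℝ) * (5 / 6) ^ n) atTop (𝓝 (2 * (e:ℝ) * 0)) :=
        (tendsto_pow_atTop_nhds_zero_of_lt_one (by norm_num) (by norm_num)).const_mul _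
      rw [mul_zero] at ht
      exact (ht.eventually (gt_mem_nhds (by norm_num : (0:ℝ) < 1))).mono fun n hn => hn.le
    refine Summable.of_norm_bounded_eventually_nat hsumgeo ?_
    filter_upwards [hev] with n hn
    rw [Real.norm_of_nonneg (mul_nonneg (by positivity) (hqn n))]
    refine key n n (Nat.fib (n + 3) * e) _ (by positivity) ?_ ?_
    · rw [pow_mul]
      exact pow_le_pow_left₀ (by positivity) (by exact_mod_cast hT' n) e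
    · have h2 : n < 2 ^ n := Nat.lt_two_pow_self
      have h3 : (Nat.fib (n + 3) * e : ℕ) ≤ 2 ^ n := by
        have h4 := (he5b_fib n).1
        have h5 : ((Nat.fib (n + 3) * e : ℕ) : ℝ) ≤ ((2 ^ n : ℕ) : ℝ) := by
          push_cast
          calc (Nat.fib (n + 3) : ℝ) * e ≤ 2 * (5 / 3) ^ n * e :=
                mul_le_mul_of_nonneg_right h4 (by positivity)
            _ = 2 * (e:ℝ) * (5 / 6) ^ n * 2 ^ n := by
                rw [mul_assoc (2 * (e:ℝ)), ← mul_pow]; norm_num; ring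
            _ ≤ 1 * 2 ^ n := mul_le_mul_of_nonneg_right hn (by positivity)
            _ = 2 ^ n := one_mul _
        exact_mod_cast h5
      have h4 : 2 ^ n ≤ d * 2 ^ n := Nat.le_mul_of_pos_left _ hd
      rw [mul_add]
      have h6 : d * (25 * 2 ^ n) = 25 * (d * 2 ^ n) := by ring
      omega
  · have hs1 : Summable fun n : ℕ => ((1:ℝ) / 4) ^ (n + 1) := by
      have := hsumgeo.mul_left (1 / 4)
      refine this.congr fun n => ?_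
      rw [pow_succ]; ring
    have hs2 : Summable fun n => ((2 * P.R n + 1 : ℕ) : ℝ) ^ d * qseq P q0 n :=
      Summable.of_nonneg_of_le (fun n => mul_nonneg (by positivity) (hqn n)) hR2 hs1
    have h3 : ∑' n, ((2 * P.R n + 1 : ℕ) : ℝ) ^ d * qseq P q0 n ≤
        ∑' n : ℕ, ((1:ℝ) / 4) ^ (n + 1) := hs2.tsum_le_tsum hR2 hs1
    have h4 : ∑' n : ℕ, ((1:ℝ) / 4) ^ (n + 1) = 1 / 3 := by
      have : (fun n : ℕ => ((1:ℝ) / 4) ^ (n + 1)) = fun n => 1 / 4 * (1 / 4) ^ n := by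
        funext n; rw [pow_succ]; ring
      rw [this, tsum_mul_left, tsum_geometric_of_lt_one (by norm_num) (by norm_num)]
      norm_num
    rw [h4] at h3
    linarith

end Pool.Agent.MP_f7f40d_pr.HD
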