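import Pool.Agent.MP_f7f40d_pr.HD.E2

set_option autoImplicit false

namespace Pool.Agent.MP_f7f40d_pr.HD

open MeasureTheory ProbabilityTheory Filter Topology
open scoped ENNReal NNReal

/-- The basic sequence: `1, Q, Q², Q⁴, Q⁷, …`. -/
def ell (Q : ℕ) : ℕ → ℕ
  | 0 => 1
  | 1 => Q
  | n + 2 => Q * ell Q (n + 1) * ell Q n

theorem he5a_one (Q : ℕ) (hQ : 1 ≤ Q) : ∀ n, 1 ≤ ell Q n ∧ 1 ≤ ell Q (n + 1) := by
  intro n
  induction n with
  | zero => exact ⟨le_refl _, hQ⟩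
  | succ n ih =>
    refine ⟨ih.2, ?_⟩
    show 1 ≤ Q * ell Q (n + 1) * ell Q n
    have h1 := Nat.mul_pos hQ ih.2
    exact Nat.mul_pos h1 ih.1

theorem he5a_Q (Q : ℕ) (hQ : 1 ≤ Q) : ∀ n, Q * ell Q n ≤ ell Q (n + 1) := by
  intro n
  cases n with
  | zero =>
    show Q * 1 ≤ Q
    omega
  | succ n =>
    show Q * ell Q (n + 1) ≤ Q * ell Q (n + 1) * ell Q n
    exact Nat.le_mul_of_pos_right _ (he5a_one Q hQ n).1

theorem he5a_sum (Q : ℕ) (hQ : 2 ≤ Q) : ∀ n, ∑ m ∈ Finset.range n, ell Q (m + 1) ≤ 2 * ell Q n := by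
  intro n
  induction n with
  | zero => simp
  | succ n ih =>
    rw [Finset.sum_range_succ]
    have h1 := he5a_Q Q (by omega) n
    have h2 : 2 * ell Q n ≤ Q * ell Q n := Nat.mul_le_mul_right _ hQ
    omega

/-- the block sizes -/
def he5a_b (d : ℕ) : ℕ → ℕ
  | 0 => 1
  | n + 1 => (64 * d + 32) * ell (10 ^ 6 * d ^ 2) (n + 1)

/-- the island diameters -/
def he5a_T (d : ℕ) : ℕ → ℕ
  | 0 => 0
  | n + 1 => 4 * ell (10 ^ 6 * d ^ 2) (n + 1)

theorem he5a_dE {d : ℕ} (hd : 1 ≤ d) (n : ℕ) :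
    5000 * (d * ell (10 ^ 6 * d ^ 2) n) ≤ ell (10 ^ 6 * d ^ 2) (n + 1) := by
  have hQ : 1 ≤ 10 ^ 6 * d ^ 2 := Nat.mul_pos (by norm_num) (by positivity)
  have h1 := he5a_Q _ hQ n
  have h2 : 5000 * d ≤ 10 ^ 6 * d ^ 2 := by nlinarith
  calc 5000 * (d * ell (10 ^ 6 * d ^ 2) n) = 5000 * d * ell (10 ^ 6 * d ^ 2) n := by ring
    _ ≤ 10 ^ 6 * d ^ 2 * ell (10 ^ 6 * d ^ 2) n := Nat.mul_le_mul_right _ h2
    _ ≤ _ := h1

theorem he5a_b_le {d : ℕ} (hd : 1 ≤ d) (n : ℕ) :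
    he5a_b d n ≤ 64 * (d * ell (10 ^ 6 * d ^ 2) n) + 32 * ell (10 ^ 6 * d ^ 2) n := by
  cases n with
  | zero =>
    show 1 ≤ 64 * (d * 1) + 32 * 1
    omega
  | succ n =>
    show (64 * d + 32) * ell (10 ^ 6 * d ^ 2) (n + 1) ≤ _
    exact le_of_eq (by ring)

theorem he5a_T_le (d n : ℕ) (h : 1 ≤ ell (10 ^ 6 * d ^ 2) n) :
    he5a_T d n ≤ 4 * ell (10 ^ 6 * d ^ 2) n := by
  cases n with
  | zero => exact Nat.zero_le _
  | succ n => exact le_refl _

/-- **[HD-E5a]** The parameters.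

PROOF. `Q = 10^6 d²`, `e n = ell Q n`, `D n = Cd e n`, `R n = e (n+1)`, `b 0 = 1`,
`b (n+1) = Cb e (n+1)`, `ρ n = Cr e (n+1)`, `T 0 = 0`, `T (n+1) = 4 e (n+1)`,
`r n = 2 + ∑ m < n, ρ m`, `Cb = 64 d + 32`, `Cr = 4 Cb + 12 = 256 d + 140`,
`Cd = 4 Cr + 5 = 1024 d + 565 ≤ 1589 d`.  `Q e n ≤ e (n+1)`, `e n ∣ e (n+1)`, `1 ≤ e n`
(induction: `e (n+2) = Q e(n+1) e n`).  `b n ≤ Cb e n`, `T n ≤ 4 e n`.
 * `bdvd`: `Cb e (n+1) ∣ Cb e (n+2)`.
 * `hb`: `(32d+16)(e(n+1) + Cd e n + 1 + Cb e n) ≤ (32d+16)(1 + (Cd + Cb + 1)/Q) e(n+1) ≤ Cb e(n+1)`.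
 * `hρ`: `4 (e(n+1) + Cd e n + 1 + Cb e(n+1)) ≤ (4 Cb + 12) e (n+1)` as `Cd e n + 1 ≤ e(n+1)`.
 * `hT`: `2 (e(n+1) + 2 Cd e n + 1 + Cb e n + 4 e n + 1) ≤ 4 e (n+1)` as `2 Cd + Cb + 6 ≤ Q`.
 * `hρT`: `2 (e(n+1) + 2 Cd e n + 1 + Cb e n) + 8 e n + 3 ≤ 5 e (n+1)`.
 * `hT9`: `9 (4 e n + 1) ≤ 45 e n ≤ 4 e (n+1)`.
 * `hR`: `n ≥ 1`: `T (n-1) + 1 ≤ 5 e (n-1)`, `2 Cd e n + 10·5 e(n-1)·4d·3 Cd e n ≤
   602 d Cd e n e(n-1) ≤ Q e n e (n-1) = e (n+1)`; `n = 0`: `2 Cd + 40 d (2 Cd + 1) ≤ Q`.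
 * `hD`: `∑ m < n, e (m+1) ≤ 2 e n` (as `2 e m ≤ e (m+1)`; for `n = 0` it is `0`), so
   `2 r n ≤ 4 + 4 Cr e n < Cd e n`.
 * `hDρ`: `2 Cd e n ≤ Q e n ≤ Cr e (n+1)`. -/
theorem par_explicit (d : ℕ) (hd : 1 ≤ d) :
    ∃ P : Par d, (∀ n, P.R n = ell (10 ^ 6 * d ^ 2) (n + 1)) ∧
      (∀ n, P.T (n + 1) = 4 * ell (10 ^ 6 * d ^ 2) (n + 1)) ∧
      (∀ n, P.ρ n = (256 * d + 140) * ell (10 ^ 6 * d ^ 2) (n + 1)) := by
  set Q : ℕ := 10 ^ 6 * d ^ 2 with hQdef
  have hQ1 : 1 ≤ Q := Nat.mul_pos (by norm_num) (by positivity)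
  have hQ2 : 2 ≤ Q := by rw [hQdef]; nlinarith
  have e1 : ∀ n, 1 ≤ ell Q n := fun n => (he5a_one Q hQ1 n).1
  have eQ : ∀ n, 5000 * (d * ell Q n) ≤ ell Q (n + 1) := fun n => he5a_dE hd n
  have ed : ∀ n, ell Q n ≤ d * ell Q n := fun n => Nat.le_mul_of_pos_left _ hd
  have bl : ∀ n, he5a_b d n ≤ 64 * (d * ell Q n) + 32 * ell Q n := fun n => he5a_b_le hd n
  have Tl : ∀ n, he5a_T d n ≤ 4 * ell Q n := fun n => he5a_T_le d n (e1 n)
  refine ⟨{ D := fun n => (1024 * d + 565) * ell Q n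
            R := fun n => ell Q (n + 1)
            b := he5a_b d
            ρ := fun n => (256 * d + 140) * ell Q (n + 1)
            T := he5a_T d
            r := fun n => 2 + ∑ m ∈ Finset.range n, (256 * d + 140) * ell Q (m + 1)
            b0 := rfl
            bdvd := ?_
            hb := ?_
            hρ := ?_
            T0 := rfl
            hT := ?_
            hρT := ?_
            hT9 := ?_
            hR := ?_
            r0 := by simp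
            hr := ?_
            hD := ?_
            hDρ := ?_ }, fun n => rfl, fun n => rfl, fun n => rfl⟩
  · intro n
    cases n with
    | zero => exact one_dvd _
    | succ n =>
      show (64 * d + 32) * ell Q (n + 1) ∣ (64 * d + 32) * (Q * ell Q (n + 1) * ell Q n)
      exact ⟨Q * ell Q n, by ring⟩
  · intro n
    show (32 * d + 16) * (ell Q (n + 1) + (1024 * d + 565) * ell Q n + 1 + he5a_b d n) ≤
      (64 * d + 32) * ell Q (n + 1)
    have h1 := e1 n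
    have h2 := eQ n
    have h3 := ed n
    have h4 := bl n
    have h5 : ell Q (n + 1) + (1024 * d + 565) * ell Q n + 1 + he5a_b d n ≤ 2 * ell Q (n + 1) := by
      nlinarith
    calc (32 * d + 16) * (ell Q (n + 1) + (1024 * d + 565) * ell Q n + 1 + he5a_b d n)
        ≤ (32 * d + 16) * (2 * ell Q (n + 1)) := Nat.mul_le_mul_left _ h5
      _ = _ := by ring
  · intro n
    show 4 * (ell Q (n + 1) + (1024 * d + 565) * ell Q n + 1 + (64 * d + 32) * ell Q (n + 1)) ≤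
      (256 * d + 140) * ell Q (n + 1)
    have h1 := e1 n
    have h2 := eQ n
    have h3 := ed n
    nlinarith
  · intro n
    show 2 * (ell Q (n + 1) + 2 * ((1024 * d + 565) * ell Q n) + 1 + he5a_b d n + he5a_T d n + 1) ≤
      4 * ell Q (n + 1)
    have h1 := e1 n
    have h2 := eQ n
    have h3 := ed n
    have h4 := bl n
    have h5 := Tl n
    nlinarith
  · intro n
    show 2 * (ell Q (n + 1) + 2 * ((1024 * d + 565) * ell Q n) + 1 + he5a_b d n) +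
      2 * he5a_T d n + 3 ≤ (256 * d + 140) * ell Q (n + 1)
    have h1 := e1 n
    have h2 := eQ n
    have h3 := ed n
    have h4 := bl n
    have h5 := Tl n
    have h6 := ed (n + 1)
    nlinarith
  · intro n
    show 9 * (he5a_T d n + 1) ≤ 4 * ell Q (n + 1)
    have h1 := e1 n
    have h2 := eQ n
    have h3 := ed n
    have h5 := Tl n
    omega
  · intro n
    cases n with
    | zero =>
      show 2 * ((1024 * d + 565) * 1) + 10 * (0 + 1) * (4 * d * (2 * ((1024 * d + 565) * 1) + 1)) ≤ Q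
      rw [hQdef]
      nlinarith
    | succ n =>
      show 2 * ((1024 * d + 565) * ell Q (n + 1)) +
        10 * (he5a_T d n + 1) * (4 * d * (2 * ((1024 * d + 565) * ell Q (n + 1)) + 1)) ≤
        Q * ell Q (n + 1) * ell Q n
      have h1 := e1 n
      have h1' := e1 (n + 1)
      have h5 := Tl n
      have hC : 1024 * d + 565 ≤ 1589 * d := by omega
      have h6 : he5a_T d n + 1 ≤ 5 * ell Q n := by omega
      have h7 : 1 ≤ d * ell Q (n + 1) := Nat.mul_pos hd h1'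
      have h8 : 2 * ((1024 * d + 565) * ell Q (n + 1)) + 1 ≤ 4767 * (d * ell Q (n + 1)) := by
        have := Nat.mul_le_mul_right (ell Q (n + 1)) hC
        nlinarith
      have h9 : 10 * (he5a_T d n + 1) * (4 * d * (2 * ((1024 * d + 565) * ell Q (n + 1)) + 1)) ≤
          10 * (5 * ell Q n) * (4 * d * (4767 * (d * ell Q (n + 1)))) :=
        Nat.mul_le_mul (Nat.mul_le_mul_left _ h6) (Nat.mul_le_mul_left _ h8)
      have h10 : 2 * ((1024 * d + 565) * ell Q (n + 1)) ≤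
          3178 * (d * (d * ell Q (n + 1))) * ell Q n := by
        have a1 := Nat.mul_le_mul_right (ell Q (n + 1)) hC
        have a2 : d * ell Q (n + 1) ≤ d * (d * ell Q (n + 1)) := Nat.le_mul_of_pos_left _ hd
        have a3 : d * (d * ell Q (n + 1)) ≤ d * (d * ell Q (n + 1)) * ell Q n :=
          Nat.le_mul_of_pos_right _ h1
        have a4 : 1589 * d * ell Q (n + 1) = 1589 * (d * ell Q (n + 1)) := by ring
        have a5 : 3178 * (d * (d * ell Q (n + 1))) * ell Q n =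
          3178 * (d * (d * ell Q (n + 1)) * ell Q n) := by ring
        omega
      calc 2 * ((1024 * d + 565) * ell Q (n + 1)) +
            10 * (he5a_T d n + 1) * (4 * d * (2 * ((1024 * d + 565) * ell Q (n + 1)) + 1))
          ≤ 3178 * (d * (d * ell Q (n + 1))) * ell Q n +
            10 * (5 * ell Q n) * (4 * d * (4767 * (d * ell Q (n + 1)))) := Nat.add_le_add h10 h9
        _ = 956578 * (d ^ 2 * ell Q (n + 1) * ell Q n) := by ring
        _ ≤ 10 ^ 6 * (d ^ 2 * ell Q (n + 1) * ell Q n) := Nat.mul_le_mul_right _ (by norm_num)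
        _ = Q * ell Q (n + 1) * ell Q n := by rw [hQdef]; ring
  · intro n
    show 2 + ∑ m ∈ Finset.range (n + 1), (256 * d + 140) * ell Q (m + 1) =
      2 + ∑ m ∈ Finset.range n, (256 * d + 140) * ell Q (m + 1) + (256 * d + 140) * ell Q (n + 1)
    rw [Finset.sum_range_succ]
    ring
  · intro n
    show 2 * (2 + ∑ m ∈ Finset.range n, (256 * d + 140) * ell Q (m + 1)) <
      (1024 * d + 565) * ell Q n
    rw [← Finset.mul_sum]
    have h1 := e1 n
    have h2 := Nat.mul_le_mul_left (256 * d + 140) (he5a_sum Q hQ2 n)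
    nlinarith
  · intro n
    show 2 * ((1024 * d + 565) * ell Q n) ≤ (256 * d + 140) * ell Q (n + 1)
    have h1 := e1 n
    have h2 := eQ n
    have h3 := ed n
    have h6 := ed (n + 1)
    nlinarith

end Pool.Agent.MP_f7f40d_pr.HD
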