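import Pool.Agent.MP_f7f40d_pr.HD.E6a

set_option autoImplicit false

namespace Pool.Agent.MP_f7f40d_pr.HD

open MeasureTheory ProbabilityTheory Filter Topology
open scoped ENNReal NNReal

variable {d : ℕ}

theorem he6b_meas (P : Par d) (m1 s : ℕ) :
    MeasurableSet {A : Om d | ∀ v, v ∈ zoneA (XX P (badS m1 s A)) P.R} := by
  have h : {A : Om d | ∀ v, v ∈ zoneA (XX P (badS m1 s A)) P.R} =
      ⋂ v : Fin d → ℤ, ⋃ n : ℕ, ⋃ y : Fin d → ℤ, ⋃ (_ : Nr (P.R n) v y),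
        {A : Om d | y ∈ XX P (badS m1 s A) n} := by
    ext A
    constructor
    · intro hA
      refine Set.mem_iInter.2 fun v => ?_
      obtain ⟨n, y, hy, hN⟩ := hA v
      exact Set.mem_iUnion.2 ⟨n, Set.mem_iUnion.2 ⟨y, Set.mem_iUnion.2 ⟨hN, hy⟩⟩⟩
    · intro hA v
      obtain ⟨n, hn⟩ := Set.mem_iUnion.1 (Set.mem_iInter.1 hA v)
      obtain ⟨y, hy⟩ := Set.mem_iUnion.1 hn
      obtain ⟨hN, hy⟩ := Set.mem_iUnion.1 hy
      exact ⟨n, y, hy, hN⟩
  rw [h]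
  exact MeasurableSet.iInter fun v => MeasurableSet.iUnion fun n => MeasurableSet.iUnion fun y =>
    MeasurableSet.iUnion fun _ => (depOn_XX P m1 s n y).measurableSet

theorem he6b_shift (P : Par d) (m1 s : ℕ) (a : Fin d → ℤ) (A : Om d) :
    shf a A ∈ {A : Om d | ∀ v, v ∈ zoneA (XX P (badS m1 s A)) P.R} ↔
      A ∈ {A : Om d | ∀ v, v ∈ zoneA (XX P (badS m1 s A)) P.R} := by
  constructor
  · intro hA v
    obtain ⟨n, y, hy, hN⟩ := hA (v - a)
    refine ⟨n, y + a, (XX_shift P m1 s n a A y).1 hy, fun i => ?_⟩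
    have h1 := hN i
    rw [Pi.sub_apply] at h1
    rw [Pi.add_apply]
    have h2 : v i - (y i + a i) = v i - a i - y i := by ring
    rw [h2]
    exact h1
  · intro hA v
    obtain ⟨n, y, hy, hN⟩ := hA (v + a)
    refine ⟨n, y - a, (XX_shift P m1 s n a A (y - a)).2 ?_, fun i => ?_⟩
    · rw [sub_add_cancel]
      exact hy
    · have h1 := hN i
      rw [Pi.add_apply] at h1
      rw [Pi.sub_apply]
      have h2 : v i - (y i - a i) = v i + a i - y i := by ring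
      rw [h2]
      exact h1

theorem he6b_le (P : Par d) (n : ℕ) : 2 * P.R n + 1 ≤ P.T (n + 1) := by
  have := P.hT n
  omega

theorem he6b_summable {P : Par d} {m1 s : ℕ} {lam : ℝ≥0} {q : ℕ → ℝ}
    (hQ : Qb P m1 s lam q) : Summable fun n => ((2 * P.R n + 1 : ℕ) : ℝ) ^ d * q n := by
  refine Summable.of_nonneg_of_le (fun n => mul_nonneg (pow_nonneg (Nat.cast_nonneg _) _)
    (hQ.nonneg n)) (fun n => ?_) (hQ.sm d)
  refine mul_le_mul_of_nonneg_right ?_ (hQ.nonneg n)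
  exact pow_le_pow_left₀ (Nat.cast_nonneg _) (Nat.cast_le.2 (he6b_le P n)) d

theorem he6b_lt {P : Par d} {m1 s : ℕ} {lam : ℝ≥0} {q : ℕ → ℝ}
    (hQ : Qb P m1 s lam q) :
    muP d lam {A : Om d | ∀ v, v ∈ zoneA (XX P (badS m1 s A)) P.R} < 1 := by
  have hsub : {A : Om d | ∀ v, v ∈ zoneA (XX P (badS m1 s A)) P.R} ⊆
      ⋃ n, {A : Om d | ∃ y ∈ XX P (badS m1 s A) n, Nr (P.R n) 0 y} := by
    intro A hA
    obtain ⟨n, y, hy, hN⟩ := hA 0
    exact Set.mem_iUnion.2 ⟨n, y, hy, hN⟩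
  have h0 : ∀ n, 0 ≤ ((2 * P.R n + 1 : ℕ) : ℝ) ^ d * q n := fun n =>
    mul_nonneg (pow_nonneg (Nat.cast_nonneg _) _) (hQ.nonneg n)
  calc muP d lam {A : Om d | ∀ v, v ∈ zoneA (XX P (badS m1 s A)) P.R}
      ≤ muP d lam (⋃ n, {A : Om d | ∃ y ∈ XX P (badS m1 s A) n, Nr (P.R n) 0 y}) :=
        measure_mono hsub
    _ ≤ ∑' n, muP d lam {A : Om d | ∃ y ∈ XX P (badS m1 s A) n, Nr (P.R n) 0 y} :=
        measure_iUnion_le _
    _ ≤ ∑' n, ENNReal.ofReal (((2 * P.R n + 1 : ℕ) : ℝ) ^ d * q n) := by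
        refine ENNReal.tsum_le_tsum fun n => ?_
        rw [← ofReal_measureReal]
        exact ENNReal.ofReal_le_ofReal (prob_near hQ n (P.R n) 0)
    _ = ENNReal.ofReal (∑' n, ((2 * P.R n + 1 : ℕ) : ℝ) ^ d * q n) :=
        (ENNReal.ofReal_tsum_of_nonneg h0 (he6b_summable hQ)).symm
    _ < ENNReal.ofReal 1 := (ENNReal.ofReal_lt_ofReal_iff one_pos).2 hQ.lt
    _ = 1 := ENNReal.ofReal_one

/-- **[HD-E6c]** Almost surely some site is in no zone.

PROOF. Let `E = {A | ∀ v, v ∈ zoneA (XX P (badS m1 s A)) P.R}`.  It is measurable: countable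
intersections and unions of the events `{y ∈ X_n}` (`depOn_XX`, `DepOn.measurableSet`).  It is shift
invariant (`XX_shift`, `Nr r (x + a) (y + a) ↔ Nr r x y`).  By `zero_one` (`DuDep.lean`, needs
`1 ≤ d`) its probability is `0` or `1`.  It is contained in `⋃ n, {∃ y ∈ X_n, Nr (R n) 0 y}`, so by
`prob_near` and countable subadditivity its probability is `≤ ∑' n (2 R n + 1)^d q n < 1`
(summability of this series: compare with `sm` for `e = d`, `2 R n + 1 ≤ 3 T (n+1)`). -/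
theorem ae_EX (hd : 1 ≤ d) {P : Par d} {m1 s : ℕ} {lam : ℝ≥0} {q : ℕ → ℝ}
    (hQ : Qb P m1 s lam q) :
    ∀ᵐ A ∂(muP d lam), ∃ v, v ∉ zoneA (XX P (badS m1 s A)) P.R := by
  have h1 := zero_one lam hd (he6b_meas P m1 s) (he6b_shift P m1 s)
  have h2 := he6b_lt hQ
  have h3 : muP d lam {A : Om d | ∀ v, v ∈ zoneA (XX P (badS m1 s A)) P.R} = 0 := by
    rcases h1 with h | h
    · exact h
    · exact absurd h h2.ne
  rw [ae_iff]
  have h4 : {A : Om d | ¬ ∃ v, v ∉ zoneA (XX P (badS m1 s A)) P.R} =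
      {A : Om d | ∀ v, v ∈ zoneA (XX P (badS m1 s A)) P.R} := by
    ext A
    simp only [Set.mem_setOf_eq, not_exists, not_not]
  rw [h4]
  exact h3

end Pool.Agent.MP_f7f40d_pr.HD
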