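import Pool.Agent.MP_f7f40d_pr.HD.E1
import Pool.Agent.MP_f7f40d_pr.DuProb

set_option autoImplicit false

namespace Pool.Agent.MP_f7f40d_pr.HD

open MeasureTheory ProbabilityTheory Filter Topology
open scoped ENNReal NNReal

variable {d : ℕ}

/-- The probabilistic input: `q n` bounds the density of `X_n`, and it decreases faster than any power
of the scales. -/
structure Qb (P : Par d) (m1 s : ℕ) (lam : ℝ≥0) (q : ℕ → ℝ) : Prop where
  nonneg : ∀ n, 0 ≤ q n
  pr : ∀ n (x : Fin d → ℤ), (muP d lam).real {A : Om d | x ∈ XX P (badS m1 s A) n} ≤ q n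
  sm : ∀ e : ℕ, Summable fun n => (P.T (n + 1) : ℝ) ^ e * q n
  lt : ∑' n, ((2 * P.R n + 1 : ℕ) : ℝ) ^ d * q n < 1

/-- **[HD-E6a]** Union bound for a cube.

PROOF. The `y` with `Nr M x y` form the finite set `Finset.Icc (x - M) (x + M)` with `(2M+1)^d`
elements; `measureReal_biUnion_finset_le`. -/
theorem prob_near {P : Par d} {m1 s : ℕ} {lam : ℝ≥0} {q : ℕ → ℝ} (hQ : Qb P m1 s lam q) (n M : ℕ)
    (x : Fin d → ℤ) :
    (muP d lam).real {A : Om d | ∃ y ∈ XX P (badS m1 s A) n, Nr M x y} ≤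
      ((2 * M + 1 : ℕ) : ℝ) ^ d * q n := by
  set Bx : Finset (Fin d → ℤ) :=
    Finset.Icc (fun i => x i - (M : ℤ)) (fun i => x i + (M : ℤ)) with hBx
  have hsub : {A : Om d | ∃ y ∈ XX P (badS m1 s A) n, Nr M x y} ⊆
      ⋃ y ∈ Bx, {A : Om d | y ∈ XX P (badS m1 s A) n} := by
    rintro A ⟨y, hy, hxy⟩
    refine Set.mem_biUnion (x := y) ?_ hy
    show y ∈ Bx
    rw [hBx, Finset.mem_Icc]
    constructor
    · intro i
      have := abs_le.1 (hxy i)
      show x i - (M : ℤ) ≤ y i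
      omega
    · intro i
      have := abs_le.1 (hxy i)
      show y i ≤ x i + (M : ℤ)
      omega
  refine (measureReal_mono hsub (measure_ne_top _ _)).trans ?_
  refine (measureReal_biUnion_finset_le _ _).trans ?_
  refine (Finset.sum_le_sum fun y _ => hQ.pr n y).trans ?_
  rw [Finset.sum_const, nsmul_eq_mul]
  refine mul_le_mul_of_nonneg_right ?_ (hQ.nonneg n)
  have h := card_Icc_le (P := fun i => x i - (M : ℤ)) (Q := fun i => x i + (M : ℤ)) (L := 2 * M)
    (fun i => by push_cast; omega)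
  refine h.trans (le_of_eq ?_)
  push_cast
  ring

/-- **[HD-E6b]** Local finiteness, almost surely.

PROOF. For fixed `x`: the events `E_n = {∃ y ∈ X_n, Nr (10 T (n+1)) x y}` have probability
`≤ (20 T (n+1) + 1)^d q n ≤ (21 T (n+1))^d q n` (`1 ≤ T (n+1)`), summable by `sm` with `e = d`.
Borel–Cantelli (`measure_limsup_atTop_eq_zero` / `measure_setOf_frequently_eq_zero`; convert
`measureReal` to `measure` with `ENNReal.ofReal`): almost surely only finitely many `E_n` occur.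
`ae_all_iff` over the countable set of `x`. -/
theorem ae_LF {P : Par d} {m1 s : ℕ} {lam : ℝ≥0} {q : ℕ → ℝ} (hQ : Qb P m1 s lam q) :
    ∀ᵐ A ∂(muP d lam), ∀ x : Fin d → ℤ, ∃ L, ∀ n, L ≤ n → ∀ y ∈ XX P (badS m1 s A) n,
      ¬ Nr (10 * P.T (n + 1)) x y := by
  rw [ae_all_iff]
  intro x
  set E : ℕ → Set (Om d) := fun n =>
    {A : Om d | ∃ y ∈ XX P (badS m1 s A) n, Nr (10 * P.T (n + 1)) x y} with hE
  have hT1 : ∀ n, 1 ≤ P.T (n + 1) := fun n => by
    have := P.hT9 n
    omega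
  have hle : ∀ n, (muP d lam) (E n) ≤
      ENNReal.ofReal ((21 : ℝ) ^ d * ((P.T (n + 1) : ℝ) ^ d * q n)) := by
    intro n
    have h1 := prob_near hQ n (10 * P.T (n + 1)) x
    rw [← ENNReal.ofReal_toReal (measure_ne_top (muP d lam) (E n)), ← measureReal_def]
    apply ENNReal.ofReal_le_ofReal
    refine h1.trans ?_
    have e : (21 : ℝ) ^ d * ((P.T (n + 1) : ℝ) ^ d * q n) = (21 * (P.T (n + 1) : ℝ)) ^ d * q n := by
      rw [mul_pow]; ring
    rw [e]
    refine mul_le_mul_of_nonneg_right ?_ (hQ.nonneg n)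
    refine pow_le_pow_left₀ (by positivity) ?_ d
    have h2 : (1 : ℝ) ≤ P.T (n + 1) := by exact_mod_cast hT1 n
    push_cast
    linarith
  have hfin : ∑' n, (muP d lam) (E n) ≠ ⊤ := by
    have hs := ((hQ.sm d).mul_left ((21 : ℝ) ^ d)).tsum_ofReal_ne_top
    refine ne_top_of_le_ne_top hs ?_
    exact ENNReal.tsum_le_tsum hle
  have h3 := ae_eventually_notMem hfin
  filter_upwards [h3] with A hA
  rw [eventually_atTop] at hA
  obtain ⟨L, hL⟩ := hA
  refine ⟨L, fun n hn y hy hN => hL n hn ⟨y, hy, hN⟩⟩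

end Pool.Agent.MP_f7f40d_pr.HD
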