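import Pool.Agent.MP_f7f40d_pr.HD.F1a

set_option autoImplicit false

namespace Pool.Agent.MP_f7f40d_pr.HD

open MeasureTheory ProbabilityTheory Filter Topology
open scoped ENNReal NNReal

variable {d : ℕ}

/-- Some slab in the box `[Pc, Qc]` with sides at least `m` is not grown. -/
def BadG (P : Par d) (m1 s L : ℕ) (K : Finset (Fin d)) (Pc Qc : Fin d → ℤ) (m : ℕ) :
    Set (Om d) :=
  ⋃ i ∈ K, ⋃ a ∈ Finset.Icc Pc Qc, ⋃ b ∈ Finset.Icc Pc Qc,
    {A | a ≤ b ∧ a i = b i ∧ (∀ j ∈ K.erase i, (m : ℤ) ≤ b j - a j) ∧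
      A ∉ GrE P m1 s L (K.erase i) a b}

/-- **[HD-F1d]** PROOF. As `notMem_badB` in `DuProb.lean`. -/
theorem notMem_badG {P : Par d} {m1 s L : ℕ} {K : Finset (Fin d)} {Pc Qc : Fin d → ℤ} {m : ℕ}
    {A : Om d} : A ∉ BadG P m1 s L K Pc Qc m ↔ ∀ i ∈ K, ∀ a b : Fin d → ℤ, Pc ≤ a → b ≤ Qc →
      a ≤ b → a i = b i → (∀ j ∈ K.erase i, (m : ℤ) ≤ b j - a j) →
      A ∈ GrE P m1 s L (K.erase i) a b := by
  unfold BadG
  simp only [Set.mem_iUnion, Finset.mem_Icc, Set.mem_ofPred_eq, exists_prop, not_exists, not_and,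
    not_not]
  constructor
  · intro h i hi a b hPa hbQ hab hii hj
    exact h i hi a ⟨hPa, hab.trans hbQ⟩ b ⟨hPa.trans hab, hbQ⟩ hab hii hj
  · intro h i hi a ha b hb hab hii hj
    exact h i hi a b ha.1 hb.2 hab hii hj

/-- **[HD-F1e]** PROOF. As `badB_le` in `DuProb.lean` (union bound with `card_Icc_le`). -/
theorem badG_le (lam : ℝ≥0) {P : Par d} {m1 s L : ℕ} {K : Finset (Fin d)} {Pc Qc : Fin d → ℤ}
    {m W : ℕ} {ε : ℝ} (hε0 : 0 ≤ ε) (hL : ∀ i, Qc i - Pc i ≤ W)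
    (hε : ∀ i ∈ K, ∀ a b : Fin d → ℤ, Pc ≤ a → b ≤ Qc → a ≤ b → a i = b i →
      (∀ j ∈ K.erase i, (m : ℤ) ≤ b j - a j) →
      (muP d lam).real (GrE P m1 s L (K.erase i) a b)ᶜ ≤ ε) :
    (muP d lam).real (BadG P m1 s L K Pc Qc m) ≤
      d * (((W : ℝ) + 1) ^ d * ((W : ℝ) + 1) ^ d) * ε := by
  have hc := card_Icc_le hL
  have hone : ∀ i ∈ K, ∀ a ∈ Finset.Icc Pc Qc, ∀ b ∈ Finset.Icc Pc Qc,
      (muP d lam).real {A | a ≤ b ∧ a i = b i ∧ (∀ j ∈ K.erase i, (m : ℤ) ≤ b j - a j) ∧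
        A ∉ GrE P m1 s L (K.erase i) a b} ≤ ε := by
    intro i hi a ha b hb
    rw [Finset.mem_Icc] at ha hb
    by_cases hcond : a ≤ b ∧ a i = b i ∧ (∀ j ∈ K.erase i, (m : ℤ) ≤ b j - a j)
    · refine le_trans (measureReal_mono ?_) (hε i hi a b ha.1 hb.2 hcond.1 hcond.2.1 hcond.2.2)
      intro A hA
      exact hA.2.2.2
    · have : {A : Om d | a ≤ b ∧ a i = b i ∧ (∀ j ∈ K.erase i, (m : ℤ) ≤ b j - a j) ∧
        A ∉ GrE P m1 s L (K.erase i) a b} = ∅ := by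
        ext A
        simp only [Set.mem_ofPred_eq, Set.mem_empty_iff_false, iff_false]
        rintro ⟨h1, h2, h3, -⟩
        exact hcond ⟨h1, h2, h3⟩
      rw [this]
      simpa using hε0
  unfold BadG
  calc (muP d lam).real (⋃ i ∈ K, ⋃ a ∈ Finset.Icc Pc Qc, ⋃ b ∈ Finset.Icc Pc Qc,
        {A | a ≤ b ∧ a i = b i ∧ (∀ j ∈ K.erase i, (m : ℤ) ≤ b j - a j) ∧
        A ∉ GrE P m1 s L (K.erase i) a b})
      ≤ ∑ i ∈ K, ∑ a ∈ Finset.Icc Pc Qc, ∑ b ∈ Finset.Icc Pc Qc, ε := by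
        refine (measureReal_biUnion_finset_le _ _).trans (Finset.sum_le_sum fun i hi => ?_)
        refine (measureReal_biUnion_finset_le _ _).trans (Finset.sum_le_sum fun a ha => ?_)
        refine (measureReal_biUnion_finset_le _ _).trans (Finset.sum_le_sum fun b hb => ?_)
        exact hone i hi a ha b hb
    _ = (K.card : ℝ) * (((Finset.Icc Pc Qc).card : ℝ) * ((Finset.Icc Pc Qc).card : ℝ)) * ε := by
        simp only [Finset.sum_const, nsmul_eq_mul]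
        ring
    _ ≤ d * (((W : ℝ) + 1) ^ d * ((W : ℝ) + 1) ^ d) * ε := by
        have h1 : (K.card : ℝ) ≤ d := by
          have := Finset.card_le_univ K
          rw [Fintype.card_fin] at this
          exact_mod_cast this
        have h2 : (0 : ℝ) ≤ ((Finset.Icc Pc Qc).card : ℝ) := by positivity
        gcongr

/-- **[HD-F1f]** PROOF. `notMem_badG`, `GrE_mono`; dependence: as `depOn_BadB` in `DuNuc.lean`, with
`depOn_GrE` (all boxes `[a, b] ⊆ [Pc, Qc]` have sides `≤ M`). -/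
theorem badG_anti {P : Par d} {m1 s L : ℕ} {K : Finset (Fin d)} {Pc Qc : Fin d → ℤ} {m : ℕ}
    {A A' : Om d} (h1 : seedS A ⊆ seedS A') (h2 : badS m1 s A' ⊆ badS m1 s A)
    (hA : A ∉ BadG P m1 s L K Pc Qc m) : A' ∉ BadG P m1 s L K Pc Qc m := by
  rw [notMem_badG] at hA ⊢
  intro i hi a b h3 h4 h5 h6 h7
  exact GrE_mono h1 h2 (hA i hi a b h3 h4 h5 h6 h7)

theorem depOn_BadG (P : Par d) (m1 s L : ℕ) (K : Finset (Fin d)) (Pc Qc : Fin d → ℤ) (m M : ℕ)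
    (hM : ∀ i, Qc i - Pc i ≤ M) :
    DepOn (Finset.Icc (fun i => Pc i - ((6 * M + 3 * P.T L : ℕ) : ℤ))
      (fun i => Qc i + ((6 * M + 3 * P.T L : ℕ) : ℤ))) (BadG P m1 s L K Pc Qc m) := by
  intro A A' h
  rw [← not_iff_not, notMem_badG, notMem_badG]
  refine forall₂_congr fun i _ => forall_congr' fun a => forall_congr' fun b =>
    forall₂_congr fun hPa hbQ => ?_
  refine forall₃_congr fun _ _ _ => ?_
  have hMab : ∀ j, b j - a j ≤ M := fun j => by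
    have h1 : Pc j ≤ a j := hPa j
    have h2 : b j ≤ Qc j := hbQ j
    have h3 := hM j
    omega
  refine depOn_GrE P m1 s L (K.erase i) a b M hMab A A' fun v hv => h v ?_
  rw [Finset.mem_Icc] at hv ⊢
  constructor
  · intro j
    have h1 : Pc j ≤ a j := hPa j
    have h2 := hv.1 j
    simp only at h2 ⊢
    omega
  · intro j
    have h1 : b j ≤ Qc j := hbQ j
    have h2 := hv.2 j
    simp only at h2 ⊢
    omega

end Pool.Agent.MP_f7f40d_pr.HD
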