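import Pool.Agent.MP_f7f40d_pr.HD.G1a

set_option autoImplicit false

namespace Pool.Agent.MP_f7f40d_pr.HD

variable {d : ℕ}

/-- `Small` for a sub-box. -/
theorem Small.sub {P : Par d} {X : ℕ → Set (Fin d → ℤ)} {a b a' b' : Fin d → ℤ} {m : ℕ}
    (h : Small P X a b m) (ha : a ≤ a') (hb : b' ≤ b) : Small P X a' b' m :=
  fun n y hy ⟨x, hx, hxy⟩ => h n y hy ⟨x, ⟨ha.trans hx.1, hx.2.trans hb⟩, hxy⟩

theorem hg1b_pl {a b : Fin d → ℤ} (h : a ≤ b) (i : Fin d) : a i ≤ b i := h i

theorem hg1b_mk {a b : Fin d → ℤ} (h : ∀ i, a i ≤ b i) : a ≤ b := h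

theorem hg1b_main {P : Par d} {Sd : Set (Fin d → ℤ)} {X : ℕ → Set (Fin d → ℤ)}
    (K : Finset (Fin d))
    (Pc Qc : Fin d → ℤ) (m : ℕ) (hoff : ∀ i, i ∉ K → Pc i = Qc i) (hS : Small P X Pc Qc m)
    (good : ∀ i ∈ K, ∀ a b : Fin d → ℤ, Pc ≤ a → b ≤ Qc → a ≤ b → a i = b i →
      (∀ j ∈ K.erase i, (m : ℤ) ≤ b j - a j) → Gr P Sd X (K.erase i) a b) :
    ∀ (N : ℕ) (a b : Fin d → ℤ), Pc ≤ a → b ≤ Qc → a ≤ b → (∀ j ∈ K, (m : ℤ) ≤ b j - a j) →
      Gr P Sd X K a b → (∑ i, ((a i - Pc i).toNat + (Qc i - b i).toNat)) = N →
      Gr P Sd X K Pc Qc := by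
  intro N
  induction N using Nat.strong_induction_on with
  | _ N ih =>
    intro a b hPa hbQ hab hm h hN
    by_cases hex : ∃ i, 0 < (a i - Pc i).toNat + (Qc i - b i).toNat
    · obtain ⟨i, hi⟩ := hex
      have hiK : i ∈ K := by
        by_contra hiK
        have h1 := hoff i hiK
        have h2 := hg1b_pl hPa i
        have h3 := hg1b_pl hbQ i
        have h4 := hg1b_pl hab i
        omega
      by_cases hc : Pc i < a i
      · -- downwards
        set a' : Fin d → ℤ := Function.update a i (a i - 1) with ha'
        set b' : Fin d → ℤ := Function.update b i (a i - 1) with hb'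
        have a'i : a' i = a i - 1 := by rw [ha', Function.update_self]
        have b'i : b' i = a i - 1 := by rw [hb', Function.update_self]
        have a'j : ∀ j, j ≠ i → a' j = a j := fun j hj => by rw [ha', Function.update_of_ne hj]
        have b'j : ∀ j, j ≠ i → b' j = b j := fun j hj => by rw [hb', Function.update_of_ne hj]
        have hPa' : Pc ≤ a' := hg1b_mk fun j => by
          by_cases hj : j = i
          · rw [hj, a'i]; omega
          · rw [a'j j hj]; exact hPa j
        have hb'Q : b' ≤ Qc := hg1b_mk fun j => by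
          by_cases hj : j = i
          · have h2 := hg1b_pl hbQ i
            have h3 := hg1b_pl hab i
            rw [hj, b'i]; omega
          · rw [b'j j hj]; exact hbQ j
        have ha'b' : a' ≤ b' := hg1b_mk fun j => by
          by_cases hj : j = i
          · rw [hj, a'i, b'i]
          · rw [a'j j hj, b'j j hj]; exact hab j
        have ha'b : a' ≤ b := hg1b_mk fun j => by
          by_cases hj : j = i
          · have h3 := hg1b_pl hab i
            rw [hj, a'i]; omega
          · rw [a'j j hj]; exact hab j
        have h2 := good i hiK a' b' hPa' hb'Q ha'b' (by rw [a'i, b'i]) (by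
          intro j hj
          have hji := Finset.ne_of_mem_erase hj
          rw [a'j j hji, b'j j hji]
          exact hm j (Finset.mem_of_mem_erase hj))
        have h3 : Gr P Sd X K a' b := Gr.dn K a b i m hiK hm h h2 (hS.sub hPa' hb'Q)
        refine ih _ ?_ a' b hPa' hbQ ha'b ?_ h3 rfl
        · rw [← hN]
          apply Finset.sum_lt_sum
          · intro j _
            by_cases hj : j = i
            · rw [hj, a'i]; omega
            · rw [a'j j hj]
          · exact ⟨i, Finset.mem_univ i, by rw [a'i]; omega⟩
        · intro j hj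
          have h4 := hm j hj
          by_cases hji : j = i
          · rw [hji, a'i]
            rw [hji] at h4
            omega
          · rw [a'j j hji]; exact h4
      · -- upwards
        have hc' : b i < Qc i := by
          have h1 := hg1b_pl hPa i
          omega
        set a' : Fin d → ℤ := Function.update a i (b i + 1) with ha'
        set b' : Fin d → ℤ := Function.update b i (b i + 1) with hb'
        have a'i : a' i = b i + 1 := by rw [ha', Function.update_self]
        have b'i : b' i = b i + 1 := by rw [hb', Function.update_self]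
        have a'j : ∀ j, j ≠ i → a' j = a j := fun j hj => by rw [ha', Function.update_of_ne hj]
        have b'j : ∀ j, j ≠ i → b' j = b j := fun j hj => by rw [hb', Function.update_of_ne hj]
        have hPa' : Pc ≤ a' := hg1b_mk fun j => by
          by_cases hj : j = i
          · have h2 := hg1b_pl hPa i
            have h3 := hg1b_pl hab i
            rw [hj, a'i]; omega
          · rw [a'j j hj]; exact hPa j
        have hb'Q : b' ≤ Qc := hg1b_mk fun j => by
          by_cases hj : j = i
          · rw [hj, b'i]; omega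
          · rw [b'j j hj]; exact hbQ j
        have ha'b' : a' ≤ b' := hg1b_mk fun j => by
          by_cases hj : j = i
          · rw [hj, a'i, b'i]
          · rw [a'j j hj, b'j j hj]; exact hab j
        have hab' : a ≤ b' := hg1b_mk fun j => by
          by_cases hj : j = i
          · have h3 := hg1b_pl hab i
            rw [hj, b'i]; omega
          · rw [b'j j hj]; exact hab j
        have h2 := good i hiK a' b' hPa' hb'Q ha'b' (by rw [a'i, b'i]) (by
          intro j hj
          have hji := Finset.ne_of_mem_erase hj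
          rw [a'j j hji, b'j j hji]
          exact hm j (Finset.mem_of_mem_erase hj))
        have h3 : Gr P Sd X K a b' := Gr.up K a b i m hiK hm h h2 (hS.sub hPa' hb'Q)
        refine ih _ ?_ a b' hPa hb'Q hab' ?_ h3 rfl
        · rw [← hN]
          apply Finset.sum_lt_sum
          · intro j _
            by_cases hj : j = i
            · rw [hj, b'i]; omega
            · rw [b'j j hj]
          · exact ⟨i, Finset.mem_univ i, by rw [b'i]; omega⟩
        · intro j hj
          have h4 := hm j hj
          by_cases hji : j = i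
          · rw [hji, b'i]
            rw [hji] at h4
            omega
          · rw [b'j j hji]; exact h4
    · push Not at hex
      have ha : a = Pc := by
        funext i
        have h1 := hex i
        have h2 := hg1b_pl hPa i
        omega
      have hb : b = Qc := by
        funext i
        have h1 := hex i
        have h2 := hg1b_pl hbQ i
        omega
      rw [← ha, ← hb]
      exact h

/-- **[HD-G1c]** Growth of a box inside the box `[Pc, Qc]`.

PROOF. Induction on `∑ i, ((a i - Pc i).toNat + (Qc i - b i).toNat)`, exactly as in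
`Pool.Agent.MP_f7f40d_pr.grow_box` (file `DuSpan.lean`).  If the sum is `0` then `a = Pc`, `b = Qc`.
Otherwise there is `i` with `Pc i < a i` or `b i < Qc i`; `i ∈ K` (for `i ∉ K`
`Pc i ≤ a i ≤ b i ≤ Qc i = Pc i`).  Case `b i < Qc i`: the face
`[update a i (b i + 1), update b i (b i + 1)]` satisfies the hypotheses of `good`, so
`Gr (K.erase i)` of it; `Small` for the face with `m` from `hS` (`Small.sub`); `Gr.up` gives
`Gr K a (update b i (b i + 1))`, apply the induction hypothesis.  Case `Pc i < a i`: `Gr.dn`. -/
theorem gr_box {P : Par d} {Sd : Set (Fin d → ℤ)} {X : ℕ → Set (Fin d → ℤ)} (K : Finset (Fin d))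
    (Pc Qc : Fin d → ℤ) (m : ℕ) (hoff : ∀ i, i ∉ K → Pc i = Qc i) (hS : Small P X Pc Qc m)
    (good : ∀ i ∈ K, ∀ a b : Fin d → ℤ, Pc ≤ a → b ≤ Qc → a ≤ b → a i = b i →
      (∀ j ∈ K.erase i, (m : ℤ) ≤ b j - a j) → Gr P Sd X (K.erase i) a b)
    (a b : Fin d → ℤ) (hPa : Pc ≤ a) (hbQ : b ≤ Qc) (hab : a ≤ b)
    (hm : ∀ j ∈ K, (m : ℤ) ≤ b j - a j) (h : Gr P Sd X K a b) : Gr P Sd X K Pc Qc :=
  hg1b_main K Pc Qc m hoff hS good _ a b hPa hbQ hab hm h rfl

end Pool.Agent.MP_f7f40d_pr.HD
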