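import Pool.Agent.MP_f7f40d_pr.HD.E1
import Pool.Agent.MP_f7f40d_pr.HD.G1
import Pool.Agent.MP_f7f40d_pr.DuRec

set_option autoImplicit false

namespace Pool.Agent.MP_f7f40d_pr.HD

open MeasureTheory ProbabilityTheory Filter Topology
open scoped ENNReal NNReal

variable {d : ℕ}

/-- The event that the box is grown, with the levels `< L` as obstacles. -/
def GrE (P : Par d) (m1 s L : ℕ) (K : Finset (Fin d)) (a b : Fin d → ℤ) : Set (Om d) :=
  {A | Gr P (seedS A) (trunc (XX P (badS m1 s A)) L) K a b}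

/-- **[HD-F1a]** PROOF. `Gr.transfer` with `M = ∑ i, (b i - a i).toNat`, `XX_mono`. -/
theorem GrE_mono {P : Par d} {m1 s L : ℕ} {K : Finset (Fin d)} {a b : Fin d → ℤ} {A A' : Om d}
    (h1 : seedS A ⊆ seedS A') (h2 : badS m1 s A' ⊆ badS m1 s A)
    (hA : A ∈ GrE P m1 s L K a b) : A' ∈ GrE P m1 s L K a b := by
  have hM : ∀ i, b i - a i ≤ ((∑ i, (b i - a i).toNat : ℕ) : ℤ) := by
    intro i
    have h3 : (b i - a i).toNat ≤ ∑ i, (b i - a i).toNat :=
      Finset.single_le_sum (f := fun i => (b i - a i).toNat) (fun _ _ => Nat.zero_le _)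
        (Finset.mem_univ i)
    have h4 := Int.self_le_toNat (b i - a i)
    exact h4.trans (by exact_mod_cast h3)
  exact Gr.transfer _ hA hM (fun x _ hx => h1 hx)
    (fun n y hy _ => ⟨hy.1, XX_mono P h2 n hy.2⟩)

/-- **[HD-F1b]** PROOF. `Gr.transfer`: `trunc X L n ⊆ trunc X L' n` for `L ≤ L'`. -/
theorem GrE_anti {P : Par d} {m1 s L L' : ℕ} {K : Finset (Fin d)} {a b : Fin d → ℤ}
    (h : L ≤ L') : GrE P m1 s L' K a b ⊆ GrE P m1 s L K a b := by
  intro A hA
  have hM : ∀ i, b i - a i ≤ ((∑ i, (b i - a i).toNat : ℕ) : ℤ) := by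
    intro i
    have h3 : (b i - a i).toNat ≤ ∑ i, (b i - a i).toNat :=
      Finset.single_le_sum (f := fun i => (b i - a i).toNat) (fun _ _ => Nat.zero_le _)
        (Finset.mem_univ i)
    have h4 := Int.self_le_toNat (b i - a i)
    exact h4.trans (by exact_mod_cast h3)
  exact Gr.transfer _ hA hM (fun x _ hx => hx)
    (fun n y hy _ => ⟨lt_of_lt_of_le hy.1 h, hy.2⟩)

/-- One direction of `depOn_GrE`. -/
theorem hf1a_dir (P : Par d) (m1 s L : ℕ) (K : Finset (Fin d)) (a b : Fin d → ℤ) (M : ℕ)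
    (hM : ∀ i, b i - a i ≤ M) {A A' : Om d}
    (hAA : ∀ v ∈ Finset.Icc (fun i => a i - ((6 * M + 3 * P.T L : ℕ) : ℤ))
      (fun i => b i + ((6 * M + 3 * P.T L : ℕ) : ℤ)), A v = A' v)
    (hA : A ∈ GrE P m1 s L K a b) : A' ∈ GrE P m1 s L K a b := by
  refine Gr.transfer M hA hM ?_ ?_
  · intro x hx hxs
    have h1 : x ∈ Finset.Icc (fun i => a i - ((6 * M + 3 * P.T L : ℕ) : ℤ))
        (fun i => b i + ((6 * M + 3 * P.T L : ℕ) : ℤ)) := by
      rw [Finset.mem_Icc]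
      refine ⟨fun i => ?_, fun i => ?_⟩
      · have h2 := hx.1 i
        have h3 : (0 : ℤ) ≤ ((6 * M + 3 * P.T L : ℕ) : ℤ) := Int.natCast_nonneg _
        simp only
        linarith
      · have h2 := hx.2 i
        have h3 : (0 : ℤ) ≤ ((6 * M + 3 * P.T L : ℕ) : ℤ) := Int.natCast_nonneg _
        simp only
        linarith
    have h4 := hAA x h1
    show 6 * d ≤ A' x
    have h5 : 6 * d ≤ A x := hxs
    omega
  · rintro n y ⟨hn, hy⟩ ⟨x, hx, hxy⟩
    refine ⟨hn, ?_⟩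
    refine (depOn_XX P m1 s n y A A' ?_).2 hy
    intro v hv
    apply hAA
    rw [Finset.mem_Icc] at hv ⊢
    have hT := P.mono_T (show n + 1 ≤ L from hn)
    have hr := (P.basic n).2.2.2.2.2.1
    refine ⟨fun i => ?_, fun i => ?_⟩
    · have h1 : a i ≤ x i := hx.1 i
      have h2 := (abs_le.1 (hxy i)).2
      have h3 : y i - P.r n ≤ v i := hv.1 i
      show a i - ((6 * M + 3 * P.T L : ℕ) : ℤ) ≤ v i
      push_cast at h2 ⊢
      omega
    · have h1 : x i ≤ b i := hx.2 i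
      have h2 := (abs_le.1 (hxy i)).1
      have h3 : v i ≤ y i + P.r n := hv.2 i
      show v i ≤ b i + ((6 * M + 3 * P.T L : ℕ) : ℤ)
      push_cast at h2 ⊢
      omega

/-- **[HD-F1c]** PROOF. Let `A`, `A'` agree on the enlarged box (by `w = 6 M + 3 T L` on every side).
`Gr.transfer` in both directions: seeds in `[a, b]` agree; if `y ∈ trunc X(A') L n`, `n < L`, and
`Nr (6 M + 2 T (n+1)) x y` for some `x ∈ [a, b]`, then the cube of radius `r n` around `y` is in the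
enlarged box (`2 r n < T (n+1) ≤ T L`, `Par.basic`, `Par.mono_T`), so `y ∈ X(A) n` by `depOn_XX`. -/
theorem depOn_GrE (P : Par d) (m1 s L : ℕ) (K : Finset (Fin d)) (a b : Fin d → ℤ) (M : ℕ)
    (hM : ∀ i, b i - a i ≤ M) :
    DepOn (Finset.Icc (fun i => a i - ((6 * M + 3 * P.T L : ℕ) : ℤ))
      (fun i => b i + ((6 * M + 3 * P.T L : ℕ) : ℤ))) (GrE P m1 s L K a b) := by
  intro A A' hAA
  exact ⟨hf1a_dir P m1 s L K a b M hM hAA, hf1a_dir P m1 s L K a b M hM fun v hv => (hAA v hv).symm⟩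

end Pool.Agent.MP_f7f40d_pr.HD
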