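import Mathlib

set_option autoImplicit false

namespace Pool.Agent.MP_f7f40d_pr.HD

open MeasureTheory ProbabilityTheory Filter Topology
open scoped ENNReal NNReal

variable {d : ℕ}

/-- **[HD-F2a]** Tails of the series.

PROOF. Let `S = ∑' n, T (n+1)^(e + s + 1) q n`.  For `l < 5 T (n+1)`, `l ≥ 1`:
`C T^e q ≤ C T^e q (5 T / l)^(s+1)`, so the sum is `≤ C 5^(s+1) S / l^(s+1)` (comparison of summable
series, `Summable.of_nonneg_of_le`, `tsum_le_tsum`), which is `≤ 1 / l^s` for `l ≥ C 5^(s+1) S`. -/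
theorem tail_sum (T : ℕ → ℕ) (q : ℕ → ℝ) (hq : ∀ n, 0 ≤ q n)
    (sm : ∀ e : ℕ, Summable fun n => (T (n + 1) : ℝ) ^ e * q n) (C : ℝ) (hC : 0 ≤ C) (e s : ℕ) :
    ∃ l0 : ℕ, 1 ≤ l0 ∧ ∀ l : ℕ, l0 ≤ l →
      ∑' n, (if l < 5 * T (n + 1) then C * (T (n + 1) : ℝ) ^ e * q n else 0) ≤ 1 / (l : ℝ) ^ s := by
  set S : ℝ := ∑' n, (T (n + 1) : ℝ) ^ (e + s + 1) * q n with hS
  refine ⟨max 1 ⌈C * 5 ^ (s + 1) * S⌉₊, le_max_left _ _, fun l hl => ?_⟩
  have hl1 : 1 ≤ l := le_trans (le_max_left _ _) hl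
  have hl2 : C * 5 ^ (s + 1) * S ≤ l := by
    have h1 : ⌈C * 5 ^ (s + 1) * S⌉₊ ≤ l := le_trans (le_max_right _ _) hl
    exact (Nat.le_ceil _).trans (by exact_mod_cast h1)
  have hl0 : (0 : ℝ) < l := by exact_mod_cast hl1
  set K : ℝ := C * 5 ^ (s + 1) / (l : ℝ) ^ (s + 1) with hK
  have hK0 : 0 ≤ K := by positivity
  have hs := (sm (e + s + 1)).mul_left K
  have h0 : ∀ n, 0 ≤ (if l < 5 * T (n + 1) then C * (T (n + 1) : ℝ) ^ e * q n else 0) := by
    intro n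
    split_ifs
    · have := hq n
      positivity
    · exact le_refl _
  have hle : ∀ n, (if l < 5 * T (n + 1) then C * (T (n + 1) : ℝ) ^ e * q n else 0) ≤
      K * ((T (n + 1) : ℝ) ^ (e + s + 1) * q n) := by
    intro n
    have hqn := hq n
    split_ifs with h
    · have h1 : (l : ℝ) ≤ 5 * (T (n + 1) : ℝ) := by
        have := h.le
        exact_mod_cast this
      have h2 : 1 ≤ (5 * (T (n + 1) : ℝ) / l) ^ (s + 1) := by
        apply one_le_pow₀
        rw [le_div_iff₀ hl0]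
        linarith
      have h3 : 0 ≤ C * (T (n + 1) : ℝ) ^ e * q n := by positivity
      calc C * (T (n + 1) : ℝ) ^ e * q n = (C * (T (n + 1) : ℝ) ^ e * q n) * 1 := by ring
        _ ≤ (C * (T (n + 1) : ℝ) ^ e * q n) * (5 * (T (n + 1) : ℝ) / l) ^ (s + 1) :=
            mul_le_mul_of_nonneg_left h2 h3
        _ = K * ((T (n + 1) : ℝ) ^ (e + s + 1) * q n) := by
            rw [hK, div_pow, mul_pow, show e + s + 1 = e + (s + 1) by ring,
              pow_add (T (n + 1) : ℝ) e (s + 1)]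
            ring
    · positivity
  calc ∑' n, (if l < 5 * T (n + 1) then C * (T (n + 1) : ℝ) ^ e * q n else 0)
      ≤ ∑' n, K * ((T (n + 1) : ℝ) ^ (e + s + 1) * q n) :=
        (Summable.of_nonneg_of_le h0 hle hs).tsum_le_tsum hle hs
    _ = K * S := by rw [tsum_mul_left]
    _ ≤ 1 / (l : ℝ) ^ s := by
        rw [hK, div_mul_eq_mul_div, div_le_div_iff₀ (by positivity) (by positivity)]
        rw [pow_succ (l : ℝ) s]
        have : 0 < (l : ℝ) ^ s := by positivity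
        nlinarith

end Pool.Agent.MP_f7f40d_pr.HD
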