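import Pool.Agent.MP_f7f40d_pr.HD.E6
import Pool.Agent.MP_f7f40d_pr.HD.F2a

set_option autoImplicit false

namespace Pool.Agent.MP_f7f40d_pr.HD

open MeasureTheory ProbabilityTheory Filter Topology
open scoped ENNReal NNReal

variable {d : ℕ}

/-- There is a zone of level `n` with `l < 5 T (n+1)` near the box. -/
def BigE (P : Par d) (m1 s l : ℕ) (Pc Qc : Fin d → ℤ) (M : ℕ) : Set (Om d) :=
  {A | ∃ n, l < 5 * P.T (n + 1) ∧ ∃ y ∈ XX P (badS m1 s A) n,
    ∃ x ∈ Set.Icc Pc Qc, Nr (6 * M + 2 * P.T (n + 1)) x y}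

/-- Union bound at one level. -/
theorem hf2b_level {P : Par d} {m1 s : ℕ} {lam : ℝ≥0} {q : ℕ → ℝ} (hQ : Qb P m1 s lam q)
    (Pc Qc : Fin d → ℤ) (M : ℕ) (hM : ∀ i, Qc i - Pc i ≤ M) (n w : ℕ) :
    (muP d lam).real {A : Om d | ∃ y ∈ XX P (badS m1 s A) n, ∃ x ∈ Set.Icc Pc Qc, Nr w x y} ≤
      ((M + 2 * w + 1 : ℕ) : ℝ) ^ d * q n := by
  by_cases hne : Pc ≤ Qc
  swap
  · have : {A : Om d | ∃ y ∈ XX P (badS m1 s A) n, ∃ x ∈ Set.Icc Pc Qc, Nr w x y} = ∅ := by
      ext A
      simp only [Set.mem_ofPred_eq, Set.mem_empty_iff_false, iff_false]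
      rintro ⟨y, -, x, hx, -⟩
      exact hne (hx.1.trans hx.2)
    rw [this, measureReal_empty]
    have := hQ.nonneg n
    positivity
  · set B : Finset (Fin d → ℤ) := Finset.Icc (fun i => Pc i - w) (fun i => Qc i + w) with hB
    have hsub : {A : Om d | ∃ y ∈ XX P (badS m1 s A) n, ∃ x ∈ Set.Icc Pc Qc, Nr w x y} ⊆
        ⋃ y ∈ B, {A : Om d | y ∈ XX P (badS m1 s A) n} := by
      rintro A ⟨y, hy, x, hx, hxy⟩
      simp only [Set.mem_iUnion, Set.mem_ofPred_eq]
      refine ⟨y, ?_, hy⟩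
      rw [hB, Finset.mem_Icc]
      constructor
      · intro i
        have h1 := hx.1 i
        have h2 := abs_le.1 (hxy i)
        show Pc i - w ≤ y i
        linarith [h2.2]
      · intro i
        have h1 := hx.2 i
        have h2 := abs_le.1 (hxy i)
        show y i ≤ Qc i + w
        linarith [h2.1]
    have hcard : (B.card : ℝ) ≤ ((M + 2 * w + 1 : ℕ) : ℝ) ^ d := by
      have : B.card ≤ (M + 2 * w + 1) ^ d := by
        rw [hB, Pi.card_Icc]
        calc ∏ i : Fin d, (Finset.Icc (Pc i - (w : ℤ)) (Qc i + w)).card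
            ≤ ∏ _i : Fin d, (M + 2 * w + 1) := by
              refine Finset.prod_le_prod' fun i _ => ?_
              rw [Int.card_Icc]
              have h1 := hM i
              omega
          _ = (M + 2 * w + 1) ^ d := by simp
      exact_mod_cast this
    calc (muP d lam).real {A : Om d | ∃ y ∈ XX P (badS m1 s A) n, ∃ x ∈ Set.Icc Pc Qc, Nr w x y}
        ≤ (muP d lam).real (⋃ y ∈ B, {A : Om d | y ∈ XX P (badS m1 s A) n}) :=
          measureReal_mono hsub (measure_ne_top _ _)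
      _ ≤ ∑ y ∈ B, (muP d lam).real {A : Om d | y ∈ XX P (badS m1 s A) n} :=
          measureReal_biUnion_finset_le _ _
      _ ≤ ∑ _y ∈ B, q n := Finset.sum_le_sum fun y _ => hQ.pr n y
      _ = (B.card : ℝ) * q n := by rw [Finset.sum_const, nsmul_eq_mul]
      _ ≤ ((M + 2 * w + 1 : ℕ) : ℝ) ^ d * q n :=
          mul_le_mul_of_nonneg_right hcard (hQ.nonneg n)

/-- **[HD-F2b]** PROOF. For each `n` the `y` in question lie in the box
`[Pc - w, Qc + w]`, `w = 6 M + 2 T (n+1)`, which has at most `(M + 2 w + 1)^d = (13 M + 4 T (n+1) + 1)^d`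
points; union bound and `hQ.pr`; countable subadditivity over `n` (`measure_iUnion_le`, converted with
`ENNReal.ofReal`; the series converges because `13 M + 4 T + 1 ≤ (13 M + 5) T`, `T = T (n+1) ≥ 1`, and
`hQ.sm d`). -/
theorem prob_BigE {P : Par d} {m1 s : ℕ} {lam : ℝ≥0} {q : ℕ → ℝ} (hQ : Qb P m1 s lam q) (l : ℕ)
    (Pc Qc : Fin d → ℤ) (M : ℕ) (hM : ∀ i, Qc i - Pc i ≤ M) :
    (muP d lam).real (BigE P m1 s l Pc Qc M) ≤
      ∑' n, (if l < 5 * P.T (n + 1) then ((13 * M + 4 * P.T (n + 1) + 1 : ℕ) : ℝ) ^ d * q n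
        else 0) := by
  set f : ℕ → ℝ := fun n => (if l < 5 * P.T (n + 1) then
    ((13 * M + 4 * P.T (n + 1) + 1 : ℕ) : ℝ) ^ d * q n else 0) with hf
  have hf0 : ∀ n, 0 ≤ f n := by
    intro n
    simp only [hf]
    split_ifs
    · have := hQ.nonneg n
      positivity
    · exact le_refl _
  have hT1 : ∀ n, 1 ≤ P.T (n + 1) := fun n => by
    have := P.hT9 n
    omega
  have hsum : Summable f := by
    refine Summable.of_nonneg_of_le hf0 (fun n => ?_)
      ((hQ.sm d).mul_left (((13 * M + 5 : ℕ) : ℝ) ^ d))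
    simp only [hf]
    have hq := hQ.nonneg n
    split_ifs
    · rw [← mul_assoc, ← mul_pow]
      have h1 : ((13 * M + 4 * P.T (n + 1) + 1 : ℕ) : ℝ) ≤
          ((13 * M + 5 : ℕ) : ℝ) * (P.T (n + 1) : ℝ) := by
        have : 13 * M + 4 * P.T (n + 1) + 1 ≤ (13 * M + 5) * P.T (n + 1) := by
          have := hT1 n
          nlinarith
        exact_mod_cast this
      gcongr
    · positivity
  set S : ℕ → Set (Om d) := fun n => {A | l < 5 * P.T (n + 1) ∧ ∃ y ∈ XX P (badS m1 s A) n,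
    ∃ x ∈ Set.Icc Pc Qc, Nr (6 * M + 2 * P.T (n + 1)) x y} with hS
  have hSf : ∀ n, (muP d lam).real (S n) ≤ f n := by
    intro n
    by_cases hn : l < 5 * P.T (n + 1)
    · have h1 : S n = {A : Om d | ∃ y ∈ XX P (badS m1 s A) n, ∃ x ∈ Set.Icc Pc Qc,
          Nr (6 * M + 2 * P.T (n + 1)) x y} := by
        ext A
        simp only [hS, Set.mem_ofPred_eq, hn, true_and]
      have h2 := hf2b_level hQ Pc Qc M hM n (6 * M + 2 * P.T (n + 1))
      rw [h1]
      simp only [hf, hn, if_true]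
      have e : M + 2 * (6 * M + 2 * P.T (n + 1)) + 1 = 13 * M + 4 * P.T (n + 1) + 1 := by ring
      rw [e] at h2
      exact h2
    · have h1 : S n = ∅ := by
        ext A
        simp only [hS, Set.mem_ofPred_eq, hn, false_and, Set.mem_empty_iff_false]
      rw [h1, measureReal_empty]
      exact hf0 n
  have hU : BigE P m1 s l Pc Qc M = ⋃ n, S n := by
    ext A
    simp only [BigE, hS, Set.mem_ofPred_eq, Set.mem_iUnion]
  rw [hU]
  have h1 : (muP d lam) (⋃ n, S n) ≤ ENNReal.ofReal (∑' n, f n) := by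
    calc (muP d lam) (⋃ n, S n) ≤ ∑' n, (muP d lam) (S n) := measure_iUnion_le _
      _ ≤ ∑' n, ENNReal.ofReal (f n) := by
        refine ENNReal.tsum_le_tsum fun n => ?_
        rw [← ENNReal.ofReal_toReal (measure_ne_top (muP d lam) (S n))]
        exact ENNReal.ofReal_le_ofReal (hSf n)
      _ = ENNReal.ofReal (∑' n, f n) := (ENNReal.ofReal_tsum_of_nonneg hf0 hsum).symm
  exact ENNReal.toReal_le_of_le_ofReal (tsum_nonneg hf0) h1

end Pool.Agent.MP_f7f40d_pr.HD
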