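import Pool.Agent.MP_f7f40d_pr.HD.E6

set_option autoImplicit false

namespace Pool.Agent.MP_f7f40d_pr.HD

open MeasureTheory ProbabilityTheory Filter Topology
open scoped ENNReal NNReal

variable {d : ℕ}

/-- The good start: no zone of level `n < L` with `m0 < 5 T (n+1)` within distance `70 T (n+1)`. -/
def GSE (P : Par d) (m1 s L m0 : ℕ) (x : Fin d → ℤ) : Set (Om d) :=
  {A | ∀ n, n < L → m0 < 5 * P.T (n + 1) → ∀ y ∈ XX P (badS m1 s A) n,
    ¬ Nr (70 * P.T (n + 1)) x y}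

theorem hf2c_iff (P : Par d) (m1 s L n : ℕ) (hn : n < L) (x y : Fin d → ℤ)
    (hxy : Nr (70 * P.T (n + 1)) x y) (A A' : Om d)
    (hA : ∀ v ∈ Finset.Icc (fun i => x i - ((71 * P.T L : ℕ) : ℤ))
      (fun i => x i + ((71 * P.T L : ℕ) : ℤ)), A v = A' v) :
    y ∈ XX P (badS m1 s A) n ↔ y ∈ XX P (badS m1 s A') n := by
  have h1 := depOn_XX P m1 s n y A A' (fun v hv => hA v ?_)
  · exact h1
  · rw [Finset.mem_Icc] at hv ⊢
    have h2 : 2 * P.r n < P.T (n + 1) := (P.basic n).2.2.2.2.2.1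
    have h3 : P.T (n + 1) ≤ P.T L := P.mono_T (by omega)
    refine ⟨fun i => ?_, fun i => ?_⟩
    · have h4 : y i - (P.r n : ℤ) ≤ v i := hv.1 i
      have h5 := abs_le.1 (hxy i)
      have h6 : x i - ((71 * P.T L : ℕ) : ℤ) ≤ v i := by
        push_cast at h5 ⊢
        omega
      exact h6
    · have h4 : v i ≤ y i + (P.r n : ℤ) := hv.2 i
      have h5 := abs_le.1 (hxy i)
      have h6 : v i ≤ x i + ((71 * P.T L : ℕ) : ℤ) := by
        push_cast at h5 ⊢
        omega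
      exact h6

/-- **[HD-F2c]** PROOF. Monotone: `XX_mono`.  Dependence: `depOn_XX`, the cube of radius
`r n ≤ T (n+1) ≤ T L` around a `y` with `Nr (70 T (n+1)) x y` is within `71 T L` of `x`. -/
theorem GSE_mono {P : Par d} {m1 s L m0 : ℕ} {x : Fin d → ℤ} {A A' : Om d}
    (h2 : badS m1 s A' ⊆ badS m1 s A) (hA : A ∈ GSE P m1 s L m0 x) :
    A' ∈ GSE P m1 s L m0 x := by
  exact fun n hn hm y hy => hA n hn hm y (XX_mono P h2 n hy)

theorem depOn_GSE (P : Par d) (m1 s L m0 : ℕ) (x : Fin d → ℤ) :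
    DepOn (Finset.Icc (fun i => x i - ((71 * P.T L : ℕ) : ℤ))
      (fun i => x i + ((71 * P.T L : ℕ) : ℤ))) (GSE P m1 s L m0 x) := by
  intro A A' hA
  constructor
  · intro h n hn hm y hy hxy
    exact h n hn hm y ((hf2c_iff P m1 s L n hn x y hxy A A' hA).2 hy) hxy
  · intro h n hn hm y hy hxy
    exact h n hn hm y ((hf2c_iff P m1 s L n hn x y hxy A A' hA).1 hy) hxy

end Pool.Agent.MP_f7f40d_pr.HD
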