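import Pool.Agent.MP_f7f40d_pr.HD.F2a
import Pool.Agent.MP_f7f40d_pr.HD.F2c

set_option autoImplicit false

namespace Pool.Agent.MP_f7f40d_pr.HD

open MeasureTheory ProbabilityTheory Filter Topology
open scoped ENNReal NNReal

variable {d : ℕ}

/-- **[HD-F2d]** PROOF. Countable union bound with `prob_near` (`M = 70 T (n+1)`,
`(140 T + 1)^d ≤ (141 T)^d`), then `tail_sum` with `C = 141^d`, `e = d`, `s = 1`, and
`1/m0 ≤ 1/4`. -/
theorem prob_GSE {P : Par d} {m1 s : ℕ} {lam : ℝ≥0} {q : ℕ → ℝ} (hQ : Qb P m1 s lam q) :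
    ∃ M0 : ℕ, ∀ m0, M0 ≤ m0 → ∀ (L : ℕ) (x : Fin d → ℤ),
      (muP d lam).real (GSE P m1 s L m0 x)ᶜ ≤ 1 / 4 := by
  obtain ⟨l0, -, hl0⟩ := tail_sum P.T q hQ.nonneg hQ.sm ((141 : ℝ) ^ d) (by positivity) d 1
  refine ⟨max l0 4, fun m0 hm0 L x => ?_⟩
  have hm4 : 4 ≤ m0 := (le_max_right _ _).trans hm0
  have hT1 : ∀ n, 1 ≤ P.T (n + 1) := fun n => by
    have := P.hT9 n
    omega
  set f : ℕ → ℝ := fun n =>
    if m0 < 5 * P.T (n + 1) then (141 : ℝ) ^ d * (P.T (n + 1) : ℝ) ^ d * q n else 0 with hf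
  have hf0 : ∀ n, 0 ≤ f n := by
    intro n
    simp only [hf]
    split_ifs
    · have := hQ.nonneg n
      positivity
    · exact le_rfl
  have hfs : Summable f := by
    refine Summable.of_nonneg_of_le hf0 (fun n => ?_) ((hQ.sm d).mul_left ((141 : ℝ) ^ d))
    simp only [hf]
    split_ifs
    · rw [mul_assoc]
    · have := hQ.nonneg n
      positivity
  set En : ℕ → Set (Om d) := fun n =>
    {A | m0 < 5 * P.T (n + 1) ∧ ∃ y ∈ XX P (badS m1 s A) n, Nr (70 * P.T (n + 1)) x y} with hEn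
  have hsub : (GSE P m1 s L m0 x)ᶜ ⊆ ⋃ n ∈ Finset.range L, En n := by
    intro A hA
    have h1 : ¬ ∀ n, n < L → m0 < 5 * P.T (n + 1) → ∀ y ∈ XX P (badS m1 s A) n,
      ¬ Nr (70 * P.T (n + 1)) x y := hA
    push Not at h1
    obtain ⟨n, hn, hm, y, hy, hxy⟩ := h1
    exact Set.mem_biUnion (Finset.mem_coe.2 (Finset.mem_range.2 hn)) ⟨hm, y, hy, hxy⟩
  have hE : ∀ n, (muP d lam).real (En n) ≤ f n := by
    intro n
    by_cases hm : m0 < 5 * P.T (n + 1)
    · have h1 : En n ⊆ {A : Om d | ∃ y ∈ XX P (badS m1 s A) n, Nr (70 * P.T (n + 1)) x y} :=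
        fun A hA => hA.2
      refine (measureReal_mono h1).trans ((prob_near hQ n (70 * P.T (n + 1)) x).trans ?_)
      simp only [hf]
      rw [if_pos hm, ← mul_pow]
      refine mul_le_mul_of_nonneg_right ?_ (hQ.nonneg n)
      refine pow_le_pow_left₀ (by positivity) ?_ d
      have h2 := hT1 n
      have h3 : (1 : ℝ) ≤ P.T (n + 1) := by exact_mod_cast h2
      push_cast
      linarith
    · have h1 : En n = ∅ := by
        ext A
        simp only [hEn, Set.mem_ofPred_eq, Set.mem_empty_iff_false, iff_false, not_and]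
        exact fun h => absurd h hm
      rw [h1, measureReal_empty]
      exact hf0 n
  refine (measureReal_mono hsub (measure_ne_top _ _)).trans
    ((measureReal_biUnion_finset_le _ _).trans ?_)
  refine (Finset.sum_le_sum fun n _ => hE n).trans ?_
  refine (hfs.sum_le_tsum _ fun n _ => hf0 n).trans ?_
  refine (hl0 m0 ((le_max_left _ _).trans hm0)).trans ?_
  rw [pow_one]
  have h4 : (4 : ℝ) ≤ m0 := by exact_mod_cast hm4
  exact one_div_le_one_div_of_le (by norm_num) h4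

end Pool.Agent.MP_f7f40d_pr.HD
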