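import Pool.Agent.MP_f7f40d_pr.HD.E1
import Pool.Agent.MP_f7f40d_pr.DuNuc

set_option autoImplicit false

namespace Pool.Agent.MP_f7f40d_pr.HD

open MeasureTheory ProbabilityTheory Filter Topology
open scoped ENNReal NNReal

variable {d : ℕ}

/-! ### Forcing seeds -/

/-- All sites of `t` are seeds. -/
def NuS (t : Finset (Fin d → ℤ)) : Set (Om d) := {A | ∀ v ∈ t, 6 * d ≤ A v}

/-- The probability of a seed. -/
noncomputable def pS (d : ℕ) (lam : ℝ≥0) : ℝ := (poissonMeasure lam).real {n | 6 * d ≤ n}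

/-- The configuration with exactly `6 d` grains on `t`. -/
def clr (t : Finset (Fin d → ℤ)) (A : Om d) : Om d := fun v => if v ∈ t then 6 * d else A v

/-- **[HD-F3c]** PROOF. As `pseed_pos`, `pseed_le_one`, `depOn_Nu`, `prob_Nu` in `DuNuc.lean`. -/
theorem pS_pos {lam : ℝ≥0} (hlam : 0 < lam) : 0 < pS d lam := by
  unfold pS
  have h1 : 0 < (poissonMeasure lam).real {6 * d} := poissonMeasure_real_singleton_pos (6 * d) hlam
  refine lt_of_lt_of_le h1 (measureReal_mono ?_)
  intro n hn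
  rw [Set.mem_singleton_iff] at hn
  rw [hn]
  exact le_refl (6 * d)

theorem pS_le_one (lam : ℝ≥0) : pS d lam ≤ 1 := by
  exact measureReal_le_one

theorem depOn_NuS (t : Finset (Fin d → ℤ)) : DepOn t (NuS (d := d) t) := by
  intro A A' h
  unfold NuS
  simp only [Set.mem_ofPred_eq]
  exact forall₂_congr fun v hv => by rw [h v hv]

theorem prob_NuS (lam : ℝ≥0) (t : Finset (Fin d → ℤ)) :
    (muP d lam).real (NuS (d := d) t) = pS d lam ^ t.card := by
  have e : NuS t = Set.pi (t : Set (Fin d → ℤ)) fun _ => {n : ℕ | 6 * d ≤ n} := by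
    ext A
    simp [NuS, Set.mem_pi]
  rw [measureReal_def, e]
  unfold muP
  rw [Measure.infinitePi_pi _ fun _ _ => MeasurableSet.of_discrete, ENNReal.toReal_prod,
    Finset.prod_const]
  rfl

/-- **[HD-F3d]** PROOF. If `A`, `A'` agree on `B \ t` then `clr t A`, `clr t A'` agree on `B`. -/
theorem dep_clr {B t : Finset (Fin d → ℤ)} {E : Set (Om d)} (h : DepOn B E) :
    DepOn (B \ t) (clr t ⁻¹' E) := by
  intro A A' hAA
  rw [Set.mem_preimage, Set.mem_preimage]
  refine h _ _ fun v hv => ?_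
  unfold clr
  split_ifs with hvt
  · rfl
  · exact hAA v (Finset.mem_sdiff.2 ⟨hv, hvt⟩)

/-- **[HD-F3e]** PROOF. `seedS_mono`, `badS_anti`: `min (A v) (6 d) ≤ clr t A v`. -/
theorem clr_up {m1 : ℕ} (hm : m1 ≤ 6 * d) (s : ℕ) (t : Finset (Fin d → ℤ)) (A : Om d) :
    seedS A ⊆ seedS (clr t A) ∧ badS m1 s (clr t A) ⊆ badS m1 s A := by
  have h : ∀ v, min (A v) (6 * d) ≤ clr t A v := by
    intro v
    unfold clr
    split_ifs
    · exact min_le_right _ _
    · exact min_le_left _ _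
  exact ⟨seedS_mono h, badS_anti hm s h⟩

/-- **[HD-F3f]** PROOF. `seedS_mono`, `badS_anti`: for `A ∈ NuS t`: `min (clr t A v) (6 d) ≤ A v`. -/
theorem clr_down {m1 : ℕ} (hm : m1 ≤ 6 * d) (s : ℕ) {t : Finset (Fin d → ℤ)} {A : Om d}
    (h : A ∈ NuS t) : seedS (clr t A) ⊆ seedS A ∧ badS m1 s A ⊆ badS m1 s (clr t A) := by
  have h' : ∀ v, min (clr t A v) (6 * d) ≤ A v := by
    intro v
    unfold clr
    split_ifs with hv
    · exact (min_le_right _ _).trans (h v hv)
    · exact min_le_left _ _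
  exact ⟨seedS_mono h', badS_anti hm s h'⟩

end Pool.Agent.MP_f7f40d_pr.HD
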