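import Pool.Agent.MP_f7f40d_pr.HD.F1
import Pool.Agent.MP_f7f40d_pr.HD.F2

set_option autoImplicit false

namespace Pool.Agent.MP_f7f40d_pr.HD

open MeasureTheory ProbabilityTheory Filter Topology
open scoped ENNReal NNReal

variable {d : ℕ}

/-- Superpolynomially small probability for large boxes of dimension `k` not to be grown,
uniformly in the truncation `L`. -/
def HHg (P : Par d) (m1 s : ℕ) (lam : ℝ≥0) (k : ℕ) : Prop :=
  ∀ e j : ℕ, ∃ n₀ : ℕ, ∀ n : ℕ, n₀ ≤ n → ∀ (L : ℕ) (K : Finset (Fin d)), K.card = k →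
    ∀ a b : Fin d → ℤ, a ≤ b → (∀ i ∉ K, a i = b i) →
      (∀ i ∈ K, (n : ℤ) ≤ b i - a i ∧ b i - a i ≤ (n : ℤ) ^ j) →
      (muP d lam).real (GrE P m1 s L K a b)ᶜ ≤ 1 / (n : ℝ) ^ e

/-- **[HD-F3a]** PROOF. `K = ∅`, `a = b`, `Gr.pt`: the complement is empty. -/
theorem hhg_zero (P : Par d) (m1 s : ℕ) (lam : ℝ≥0) : HHg P m1 s lam 0 := by
  intro e j
  refine ⟨0, fun n _ L K hK a b _ hoff _ => ?_⟩
  rw [Finset.card_eq_zero] at hK
  have hab : a = b := by
    funext i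
    exact hoff i (by rw [hK]; exact Finset.notMem_empty i)
  have h0 : (GrE P m1 s L K a b)ᶜ = ∅ := by
    rw [hK, hab]
    ext A
    simp only [Set.mem_compl_iff, Set.mem_empty_iff_false, iff_false, not_not]
    exact Gr.pt b
  rw [h0]
  simp

theorem hf3a_sub (P : Par d) (B : Set (Fin d → ℤ)) (n : ℕ) : XX P B n ⊆ B := by
  induction n with
  | zero => exact fun x hx => hx
  | succ n ih => exact fun x hx => ih hx.1

theorem hf3a_nr (K : Finset (Fin d)) (x x' : Fin d → ℤ) (r : ℕ)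
    (h : x' ∈ Set.Icc (loC K x r) (hiC K x r)) : Nr r x' x := by
  intro i
  have h1 : loC K x r i ≤ x' i := h.1 i
  have h2 : x' i ≤ hiC K x r i := h.2 i
  unfold loC at h1
  unfold hiC at h2
  rw [abs_le]
  split_ifs at h1 h2 <;> constructor <;> omega

/-- **[HD-F3b]** The deterministic part of the nucleation.

PROOF. Write `X = XX P (badS m1 s A)`, `T = P.T (n+1)`.
(1) For `x' ∈ Icc (loC K x m0) (hiC K x m0)` (so `Nr m0 x' x`; for `i ∉ K` `x' i = x i`):
`x' ∈ seedS A` by `h1`, and `x' ∉ Obs P (trunc X L)`: suppose `y ∈ X n`, `n < L`,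
`Nr (R n + 1) x' y`.  If `m0 < 5 T`: `Nr (m0 + R n + 1) x y`, `m0 + R n + 1 ≤ 6 T ≤ 70 T`
(`Par.basic`), against `h2`.  If `5 T ≤ m0`: `R n + 1 ≤ T`, `y ∈ X n ⊆ X 0 = badS m1 s A`, by
`badS_near` there is `z` with `Nr 2 z y`, `A z < m1 ≤ 6 d`; `Nr (2 + (R n + 1) + m0) z x` and
`2 + m0/5 + m0 ≤ 2 m0`, so `6 d ≤ A z` by `h1`: contradiction.
(2) `l ≤ m0`: the cube of radius `l` is contained in that of radius `m0` (`lo_anti`, `hi_mono`):
`Gr.seed` (`lo_le_hi`, `off_C`).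
(3) `m0 ≤ l`: induction on `l` (`Nat.le_induction`) as in `grow_rad` (`DuProb.lean`): from `r` to
`r + 1` with `gr_box` for `[Pc, Qc] = [loC K x (r+1), hiC K x (r+1)]`, `m = 2 r`, slabs by
`h3`/`notMem_badG`; the hypothesis `Small P (trunc X L) Pc Qc (2 r)`: let `y ∈ X n`, `n < L`,
`x' ∈ [Pc, Qc]`, `Nr (12 r + 2 T) x' y`, and suppose `2 r < 10 T`, so `m0 ≤ r < 5 T`; then
`Nr (r + 1 + 12 r + 2 T) x y`, `13 r + 1 + 2 T ≤ 70 T`, against `h2`. -/
theorem nuc_det {P : Par d} {m1 s : ℕ} (hm : m1 ≤ 6 * d) (K : Finset (Fin d)) (x : Fin d → ℤ)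
    (m0 l L : ℕ) (h4 : 4 ≤ m0) (A : Om d) (h1 : ∀ v, Nr (2 * m0) v x → 6 * d ≤ A v)
    (h2 : A ∈ GSE P m1 s L m0 x)
    (h3 : ∀ r, m0 ≤ r → r < l →
      A ∉ BadG P m1 s L K (loC K x (r + 1)) (hiC K x (r + 1)) (2 * r)) :
    A ∈ GrE P m1 s L K (loC K x l) (hiC K x l) := by
  have hS : ∀ x' ∈ Set.Icc (loC K x m0) (hiC K x m0),
      x' ∈ seedS A ∧ x' ∉ Obs P (trunc (XX P (badS m1 s A)) L) := by
    intro x' hx'
    have hN := hf3a_nr K x x' m0 hx'
    refine ⟨h1 x' (hN.mono (by omega)), ?_⟩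
    rintro ⟨n, y, hy, hxy0⟩
    have hxy : Nr (P.R n + 1) x' y := hxy0
    obtain ⟨hnL, hyX⟩ : n < L ∧ y ∈ XX P (badS m1 s A) n := hy
    obtain ⟨b1, b2, b3, b4, b5, b6, b7, b8⟩ := P.basic n
    by_cases hc : m0 < 5 * P.T (n + 1)
    · refine h2 n hnL hc y hyX ?_
      exact (hN.symm.trans hxy).mono (by omega)
    · obtain ⟨z, hz1, hz2⟩ := badS_near m1 s A y (hf3a_sub P _ n hyX)
      have h5 : Nr (2 + (P.R n + 1) + m0) z x := (hz1.trans hxy.symm).trans hN
      have h6 := h1 z (h5.mono (by omega))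
      omega
  have hsmall : ∀ l', l' ≤ m0 → A ∈ GrE P m1 s L K (loC K x l') (hiC K x l') := by
    intro l' hl'
    refine Gr.seed K _ _ (lo_le_hi K x l') (fun i hi => off_C K x l' i hi) ?_
    intro x' hx'
    exact hS x' ⟨(lo_anti K x hl').trans hx'.1, hx'.2.trans (hi_mono K x hl')⟩
  rcases le_total l m0 with hl | hl
  · exact hsmall l hl
  · induction l, hl using Nat.le_induction with
    | base => exact hsmall m0 le_rfl
    | succ r hr ih =>
      have ih' : A ∈ GrE P m1 s L K (loC K x r) (hiC K x r) :=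
        ih fun r' h5 h6 => h3 r' h5 (by omega)
      have hbad := notMem_badG.1 (h3 r hr (by omega))
      refine gr_box K (loC K x (r + 1)) (hiC K x (r + 1)) (2 * r)
        (fun i hi => off_C K x (r + 1) i hi) ?_ hbad (loC K x r) (hiC K x r)
        (lo_anti K x (Nat.le_succ r)) (hi_mono K x (Nat.le_succ r)) (lo_le_hi K x r) ?_ ih'
      · rintro n y hy ⟨x', hx', hxy⟩
        obtain ⟨hnL, hyX⟩ : n < L ∧ y ∈ XX P (badS m1 s A) n := hy
        obtain ⟨b1, b2, b3, b4, b5, b6, b7, b8⟩ := P.basic n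
        by_contra hcon
        have hN := hf3a_nr K x x' (r + 1) hx'
        refine h2 n hnL (by omega) y hyX ?_
        exact (hN.symm.trans hxy).mono (by omega)
      · intro j hj
        rw [side_C, if_pos hj]
        push_cast
        exact le_refl _

end Pool.Agent.MP_f7f40d_pr.HD
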