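import Pool.Agent.MP_f7f40d_pr.HD.F4a

set_option autoImplicit false

namespace Pool.Agent.MP_f7f40d_pr.HD

open MeasureTheory ProbabilityTheory Filter Topology
open scoped ENNReal NNReal

variable {d : ℕ}

theorem hf4b_dep (P : Par d) (m1 s L : ℕ) (K : Finset (Fin d)) (x : Fin d → ℤ) (m0 l : ℕ) :
    DepOn (Finset.Icc (fun i => x i - ((l + 6 * (2 * l) + 71 * P.T L : ℕ) : ℤ))
      (fun i => x i + ((l + 6 * (2 * l) + 71 * P.T L : ℕ) : ℤ)))
      (GdG P m1 s L K x m0 l ∩ GSE P m1 s L m0 x) := by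
  intro A A' h
  refine and_congr ?_ ?_
  · unfold GdG
    simp only [Set.mem_ofPred_eq]
    refine forall₃_congr fun r _ hr => not_congr ?_
    refine depOn_BadG P m1 s L K (loC K x (r + 1)) (hiC K x (r + 1)) (2 * r) (2 * l) ?_ A A'
      fun v hv => h v ?_
    · intro i
      rw [side_C]
      split_ifs
      · push_cast; omega
      · positivity
    · rw [Finset.mem_Icc] at hv ⊢
      have hlo := lo_anti K x (show r + 1 ≤ l by omega)
      have hhi := hi_mono K x (show r + 1 ≤ l by omega)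
      constructor
      · refine le_pl fun i => ?_
        have h1 := pl hv.1 i
        have h2 := pl hlo i
        have h3 : x i - l ≤ loC K x l i := by
          unfold loC
          split_ifs <;> omega
        push_cast at h1 ⊢
        omega
      · refine le_pl fun i => ?_
        have h1 := pl hv.2 i
        have h2 := pl hhi i
        have h3 : hiC K x l i ≤ x i + l := by
          unfold hiC
          split_ifs <;> omega
        push_cast at h1 ⊢
        omega
  · refine depOn_GSE P m1 s L m0 x A A' fun v hv => h v ?_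
    rw [Finset.mem_Icc] at hv ⊢
    constructor
    · refine le_pl fun i => ?_
      have h1 := pl hv.1 i
      push_cast at h1 ⊢
      omega
    · refine le_pl fun i => ?_
      have h1 := pl hv.2 i
      push_cast at h1 ⊢
      omega

/-- **[HD-F4b]** The nucleation estimate.

PROOF. As `nucleus` in `DuNuc.lean`.  Let `m0 = max 4 (max M0 m₀)` with `M0` from `prob_GSE`, `m₀`
from `prob_GdG`.  `t = Finset.Icc (fun i => x i - (2 * m0 : ℕ)) (fun i => x i + (2 * m0 : ℕ))`,
`t.card ≤ (4 m0 + 1)^d =: M` (`card_Icc_le`), `c = pS d lam ^ M / 2`.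
Let `G = GdG P m1 s L K x m0 l ∩ GSE P m1 s L m0 x`.  `G` depends on a cube
`B = Finset.Icc (x - w) (x + w)` for a large `w`, e.g. `w = l + 6 (2 l) + 71 P.T L`
(`depOn_BadG` with `M = 2 l` for every `r < l`: `[loC K x (r+1), hiC K x (r+1)]` is in the cube of
radius `l`, its sides are `≤ 2 l`; `depOn_GSE`; `DepOn.mono`).
`P(Gᶜ) ≤ 1/2` (`measureReal_union_le`, `Set.compl_inter`), so `P(G) ≥ 1/2`
(`probReal_compl_eq_one_sub`, `DepOn.measurableSet`).  `G ⊆ clr t ⁻¹' G` (`clr_up`, `badG_anti`,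
`GSE_mono`), so `P(clr t ⁻¹' G) ≥ 1/2`.  `NuS t` and `clr t ⁻¹' G` are independent
(`DepOn.indep`, `depOn_NuS`, `dep_clr`, `Finset.disjoint_sdiff`), so the intersection has
probability `≥ pS ^ M * (1/2) = c` (`prob_NuS`, `pow_le_pow_of_le_one`).
On the intersection: `clr t A ∈ G` and `clr_down` give `A ∈ G` (`badG_anti`, `GSE_mono`), and
`nuc_det` gives `A ∈ GrE …` (its `h1`: `Nr (2 m0) v x` means `v ∈ t`). -/
theorem nucleusG {P : Par d} {m1 s : ℕ} {lam : ℝ≥0} {q : ℕ → ℝ} (hlam : 0 < lam)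
    (hm : m1 ≤ 6 * d) (hQ : Qb P m1 s lam q) {k : ℕ} (hk : HHg P m1 s lam k) :
    ∃ c : ℝ, 0 < c ∧ ∀ K : Finset (Fin d), K.card = k + 1 → ∀ (x : Fin d → ℤ) (l L : ℕ),
      c ≤ (muP d lam).real (GrE P m1 s L K (loC K x l) (hiC K x l)) := by
  obtain ⟨M0, hM0⟩ := prob_GSE hQ
  obtain ⟨m₀, -, hmG⟩ := prob_GdG hk
  obtain ⟨m0, hm0⟩ : ∃ m0, m0 = max 4 (max M0 m₀) := ⟨_, rfl⟩
  have hp0 := pS_pos (d := d) hlam
  have hp1 := pS_le_one (d := d) lam
  set M : ℕ := (4 * m0 + 1) ^ d with hM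
  refine ⟨pS d lam ^ M / 2, by positivity, fun K hK x l L => ?_⟩
  set t : Finset (Fin d → ℤ) := Finset.Icc (fun i => x i - ((2 * m0 : ℕ) : ℤ))
    (fun i => x i + ((2 * m0 : ℕ) : ℤ)) with ht
  have hcard : t.card ≤ M := by
    have h1 := card_Icc_le (P := fun i => x i - ((2 * m0 : ℕ) : ℤ))
      (Q := fun i => x i + ((2 * m0 : ℕ) : ℤ)) (L := 4 * m0) (fun i => by
        push_cast; omega)
    have h2 : ((t.card : ℕ) : ℝ) ≤ (((4 * m0 + 1) ^ d : ℕ) : ℝ) := by
      rw [ht]
      push_cast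
      push_cast at h1
      exact h1
    rw [hM]
    exact_mod_cast h2
  have hNu : pS d lam ^ M ≤ (muP d lam).real (NuS (d := d) t) := by
    rw [prob_NuS]
    exact pow_le_pow_of_le_one hp0.le hp1 hcard
  set G : Set (Om d) := GdG P m1 s L K x m0 l ∩ GSE P m1 s L m0 x with hG
  have hdG := hf4b_dep P m1 s L K x m0 l
  rw [← hG] at hdG
  set B := Finset.Icc (fun i => x i - ((l + 6 * (2 * l) + 71 * P.T L : ℕ) : ℤ))
      (fun i => x i + ((l + 6 * (2 * l) + 71 * P.T L : ℕ) : ℤ)) with hB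
  have hGm : MeasurableSet G := hdG.measurableSet
  have hPG : 1 / 2 ≤ (muP d lam).real G := by
    have h1 : (muP d lam).real Gᶜ ≤ 1 / 2 := by
      rw [hG, Set.compl_inter]
      refine (measureReal_union_le _ _).trans ?_
      have h2 := hmG m0 (by omega) K hK x l L
      have h3 := hM0 m0 (by omega) L x
      linarith
    rw [probReal_compl_eq_one_sub hGm] at h1
    linarith
  have hdG' := dep_clr (t := t) hdG
  have hind := (depOn_NuS t).indep lam hdG' Finset.disjoint_sdiff
  have hPG' : 1 / 2 ≤ (muP d lam).real (clr t ⁻¹' G) := by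
    refine hPG.trans (measureReal_mono ?_)
    intro A hA
    have hc := clr_up hm s t A
    refine ⟨fun r h1 h2 => badG_anti hc.1 hc.2 (hA.1 r h1 h2), GSE_mono hc.2 hA.2⟩
  have hsub : NuS t ∩ clr t ⁻¹' G ⊆ GrE P m1 s L K (loC K x l) (hiC K x l) := by
    rintro A ⟨hA1, hA2⟩
    have hc := clr_down hm s hA1
    refine nuc_det hm K x m0 l L (by omega) A ?_ (GSE_mono hc.2 hA2.2)
      fun r h1 h2 => badG_anti hc.1 hc.2 (hA2.1 r h1 h2)
    intro v hv
    refine hA1 v ?_
    rw [ht, Finset.mem_Icc]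
    constructor
    · refine le_pl fun i => ?_
      have h1 := abs_le.1 (hv i)
      omega
    · refine le_pl fun i => ?_
      have h1 := abs_le.1 (hv i)
      omega
  refine le_trans ?_ (measureReal_mono hsub)
  rw [measureReal_def, hind, ENNReal.toReal_mul, ← measureReal_def, ← measureReal_def]
  have h2 : 0 < pS d lam ^ M := by positivity
  nlinarith

end Pool.Agent.MP_f7f40d_pr.HD
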