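import Pool.Agent.MP_f7f40d_pr.HD.F3

set_option autoImplicit false

namespace Pool.Agent.MP_f7f40d_pr.HD

open MeasureTheory ProbabilityTheory Filter Topology
open scoped ENNReal NNReal

variable {d : ℕ}

/-- The growth from radius `m` to radius `l` works. -/
def GdG (P : Par d) (m1 s L : ℕ) (K : Finset (Fin d)) (x : Fin d → ℤ) (m l : ℕ) : Set (Om d) :=
  {A | ∀ r, m ≤ r → r < l → A ∉ BadG P m1 s L K (loC K x (r + 1)) (hiC K x (r + 1)) (2 * r)}

/-- **[HD-F4a]** The slabs are good.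

PROOF. Exactly as `prob_Gd_compl` in `DuNuc.lean` (use `badG_le` for `badB_le`, `HHg` at
`(e, j) = (2 d + 2, 2)` for `HH`; everything is uniform in `L`), with `m₀ - 1 ≥ 4 D` instead of
`2 D`; the conclusion holds for every `m ≥ m₀` (the same proof with `m` in place of `m₀`). -/
theorem prob_GdG {P : Par d} {m1 s : ℕ} {lam : ℝ≥0} {k : ℕ} (hk : HHg P m1 s lam k) :
    ∃ m₀ : ℕ, 1 ≤ m₀ ∧ ∀ m, m₀ ≤ m → ∀ K : Finset (Fin d), K.card = k + 1 →
      ∀ (x : Fin d → ℤ) (l L : ℕ), (muP d lam).real (GdG P m1 s L K x m l)ᶜ ≤ 1 / 4 := by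
  obtain ⟨n₀, hn₀⟩ := hk (2 * d + 2) 2
  set D : ℝ := d * 25 ^ d with hD
  have hD0 : 0 ≤ D := by positivity
  obtain ⟨M, hM⟩ := exists_nat_ge (4 * D)
  refine ⟨max n₀ (M + 2), by omega, ?_⟩
  intro m₀ hm₀ K hK x l L
  have hslab : ∀ r, m₀ ≤ r → (muP d lam).real
      (BadG P m1 s L K (loC K x (r + 1)) (hiC K x (r + 1)) (2 * r)) ≤ D * ((r : ℝ) ^ 2)⁻¹ := by
    intro r hr
    have hr1 : 1 ≤ r := by omega
    have hrr : (1 : ℝ) ≤ r := by exact_mod_cast hr1
    have h1 : ∀ i ∈ K, ∀ a b : Fin d → ℤ, loC K x (r + 1) ≤ a → b ≤ hiC K x (r + 1) → a ≤ b →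
        a i = b i → (∀ j ∈ K.erase i, ((2 * r : ℕ) : ℤ) ≤ b j - a j) →
        (muP d lam).real (GrE P m1 s L (K.erase i) a b)ᶜ ≤
          1 / ((2 * r : ℕ) : ℝ) ^ (2 * d + 2) := by
      intro i hi a b hPa hbQ hab hii hj
      refine hn₀ (2 * r) (by omega) L (K.erase i) ?_ a b hab ?_ ?_
      · rw [Finset.card_erase_of_mem hi, hK]; rfl
      · intro j hj2
        by_cases hji : j = i
        · rw [hji]; exact hii
        · have hjK : j ∉ K := fun h => hj2 (Finset.mem_erase.2 ⟨hji, h⟩)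
          have h2 := pl hPa j
          have h3 := pl hbQ j
          have h4 := pl hab j
          have h5 := off_C K x (r + 1) j hjK
          omega
      · intro j hj2
        refine ⟨hj j hj2, ?_⟩
        have hjK := Finset.mem_of_mem_erase hj2
        have h2 := pl hPa j
        have h3 := pl hbQ j
        have h5 := side_C K x (r + 1) j
        rw [if_pos hjK] at h5
        have h6 : b j - a j ≤ 2 * ((r : ℤ) + 1) := by push_cast at h5; omega
        refine h6.trans ?_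
        push_cast
        have : (1 : ℤ) ≤ r := by exact_mod_cast hr1
        nlinarith
    have h2 := badG_le lam (P := P) (m1 := m1) (s := s) (L := L) (W := 2 * r + 2)
      (by positivity) (fun i => by
      rw [side_C]
      split_ifs
      · push_cast; omega
      · positivity) h1
    refine h2.trans ?_
    have e1 : (((2 * r + 2 : ℕ) : ℝ) + 1) ≤ 5 * r := by push_cast; linarith
    have e2 : (((2 * r + 2 : ℕ) : ℝ) + 1) ^ d ≤ (5 * r) ^ d := by gcongr
    have e3 : (0 : ℝ) < ((2 * r : ℕ) : ℝ) ^ (2 * d + 2) := by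
      have : (0 : ℝ) < ((2 * r : ℕ) : ℝ) := by push_cast; linarith
      positivity
    have e4 : ((r : ℝ)) ^ (2 * d + 2) ≤ ((2 * r : ℕ) : ℝ) ^ (2 * d + 2) := by
      gcongr
      push_cast
      linarith
    have e5 : (1 : ℝ) / ((2 * r : ℕ) : ℝ) ^ (2 * d + 2) ≤ 1 / (r : ℝ) ^ (2 * d + 2) := by
      gcongr
    calc (d : ℝ) * ((((2 * r + 2 : ℕ) : ℝ) + 1) ^ d * (((2 * r + 2 : ℕ) : ℝ) + 1) ^ d) *
          (1 / ((2 * r : ℕ) : ℝ) ^ (2 * d + 2))
        ≤ d * ((5 * r) ^ d * (5 * r) ^ d) * (1 / (r : ℝ) ^ (2 * d + 2)) := by gcongr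
      _ = D * ((r : ℝ) ^ 2)⁻¹ := by
          rw [hD]
          have hr0 : (r : ℝ) ≠ 0 := by positivity
          have : (25 : ℝ) = 5 * 5 := by norm_num
          rw [this, mul_pow, mul_pow, pow_add, pow_mul]
          field_simp
          ring
  have hsub : (GdG P m1 s L K x m₀ l)ᶜ ⊆ ⋃ r ∈ Finset.Ioc (m₀ - 1) l,
      BadG P m1 s L K (loC K x (r + 1)) (hiC K x (r + 1)) (2 * r) := by
    intro A hA
    unfold GdG at hA
    simp only [Set.mem_compl_iff, Set.mem_ofPred_eq, not_forall, not_not] at hA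
    obtain ⟨r, h1, h2, h3⟩ := hA
    simp only [Set.mem_iUnion, Finset.mem_Ioc]
    exact ⟨r, ⟨by omega, by omega⟩, h3⟩
  have hm1 : m₀ - 1 ≠ 0 := by omega
  by_cases hl : l < m₀ - 1
  · have : Finset.Ioc (m₀ - 1) l = ∅ := Finset.Ioc_eq_empty (by omega)
    rw [this] at hsub
    have h0 : (GdG P m1 s L K x m₀ l)ᶜ = ∅ := by simpa using hsub
    rw [h0]; simp
  · push Not at hl
    calc (muP d lam).real (GdG P m1 s L K x m₀ l)ᶜ
        ≤ ∑ r ∈ Finset.Ioc (m₀ - 1) l, D * ((r : ℝ) ^ 2)⁻¹ := by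
          refine (measureReal_mono hsub (measure_ne_top _ _)).trans ?_
          refine (measureReal_biUnion_finset_le _ _).trans (Finset.sum_le_sum fun r hr => ?_)
          rw [Finset.mem_Ioc] at hr
          exact hslab r (by omega)
      _ = D * ∑ r ∈ Finset.Ioc (m₀ - 1) l, ((r : ℝ) ^ 2)⁻¹ := by rw [Finset.mul_sum]
      _ ≤ D * (((m₀ - 1 : ℕ) : ℝ)⁻¹ - (l : ℝ)⁻¹) := by
          gcongr
          exact sum_Ioc_inv_sq_le_sub hm1 hl
      _ ≤ D * ((m₀ - 1 : ℕ) : ℝ)⁻¹ := by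
          gcongr
          have : (0 : ℝ) ≤ (l : ℝ)⁻¹ := by positivity
          linarith
      _ ≤ 1 / 4 := by
          have h1 : (M : ℝ) + 1 ≤ ((m₀ - 1 : ℕ) : ℝ) := by
            have : M + 1 ≤ m₀ - 1 := by omega
            exact_mod_cast this
          have h2 : (0 : ℝ) < ((m₀ - 1 : ℕ) : ℝ) := by
            have : (0 : ℝ) ≤ M := by positivity
            linarith
          rw [← div_eq_mul_inv, div_le_iff₀ h2]
          linarith

end Pool.Agent.MP_f7f40d_pr.HD
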