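import Pool.Agent.MP_f7f40d_pr.HD.F2

set_option autoImplicit false

namespace Pool.Agent.MP_f7f40d_pr.HD

open MeasureTheory ProbabilityTheory Filter Topology
open scoped ENNReal NNReal

variable {d : ℕ}

theorem hf5b_nat {l T j : ℕ} (hl : l < 5 * T) (hT : 1 ≤ T) :
    13 * (2 * l) ^ (2 * j) + 4 * T + 1 ≤ (13 * 10 ^ (2 * j) + 5) * T ^ (2 * j + 1) := by
  have h1 : (2 * l) ^ (2 * j) ≤ (10 * T) ^ (2 * j) := Nat.pow_le_pow_left (by omega) _
  rw [mul_pow 10 T] at h1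
  have h2 : T ^ (2 * j) ≤ T ^ (2 * j + 1) := Nat.pow_le_pow_right hT (by omega)
  have h3 : T ≤ T ^ (2 * j + 1) := by
    calc T = T ^ 1 := (pow_one T).symm
      _ ≤ T ^ (2 * j + 1) := Nat.pow_le_pow_right hT (by omega)
  have h4 : 10 ^ (2 * j) * T ^ (2 * j) ≤ 10 ^ (2 * j) * T ^ (2 * j + 1) :=
    Nat.mul_le_mul_left _ h2
  have h5 : (13 * 10 ^ (2 * j) + 5) * T ^ (2 * j + 1)
      = 13 * (10 ^ (2 * j) * T ^ (2 * j + 1)) + 5 * T ^ (2 * j + 1) := by ring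
  rw [h5]
  omega

/-- **[HD-F5b]** The probability of a large zone near a box of polynomial size.

PROOF. Let `M = (2 l)^(2 j)`, `T = P.T (n+1) ≥ 1`.  In `prob_BigE` (for `Pc = a`, `Qc = b`) the terms are
non-zero only for `l < 5 T`, then `M ≤ (10 T)^(2 j)`, so
`13 M + 4 T + 1 ≤ (13 · 10^(2 j) + 5) T^(2 j + 1)`, and
`(…)^d q n ≤ C T^((2 j + 1) d) q n` with `C = (13 · 10^(2 j) + 5)^d`.  `tail_sum` with
`e = (2 j + 1) d`, `s = s'` (comparison of the two series by `Summable.tsum_le_tsum`; both are summable by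
comparison with `C · ∑ T^((2 j + 1) d) q n`, `hQ.sm`). -/
theorem bigE_small {P : Par d} {m1 s : ℕ} {lam : ℝ≥0} {q : ℕ → ℝ} (hQ : Qb P m1 s lam q)
    (j s' : ℕ) : ∃ l0 : ℕ, 1 ≤ l0 ∧ ∀ l : ℕ, l0 ≤ l → ∀ a b : Fin d → ℤ,
      (∀ i, b i - a i ≤ ((2 * l) ^ (2 * j) : ℕ)) →
      (muP d lam).real (BigE P m1 s l a b ((2 * l) ^ (2 * j))) ≤ 1 / (l : ℝ) ^ s' := by
  obtain ⟨l0, hl0, hl⟩ := tail_sum P.T q hQ.nonneg hQ.sm (((13 * 10 ^ (2 * j) + 5 : ℕ) : ℝ) ^ d)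
    (by positivity) ((2 * j + 1) * d) s'
  refine ⟨l0, hl0, ?_⟩
  intro l hll a b hab
  refine le_trans (prob_BigE hQ l a b ((2 * l) ^ (2 * j)) hab) (le_trans ?_ (hl l hll))
  have hT : ∀ n, 1 ≤ P.T (n + 1) := fun n => by
    have := P.hT9 n
    omega
  have hle : ∀ n, (if l < 5 * P.T (n + 1) then
      ((13 * (2 * l) ^ (2 * j) + 4 * P.T (n + 1) + 1 : ℕ) : ℝ) ^ d * q n else 0) ≤
      (if l < 5 * P.T (n + 1) then
        ((13 * 10 ^ (2 * j) + 5 : ℕ) : ℝ) ^ d * (P.T (n + 1) : ℝ) ^ ((2 * j + 1) * d) * q n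
        else 0) := by
    intro n
    split_ifs with h
    · have h1 := hf5b_nat (j := j) h (hT n)
      have h2 : ((13 * (2 * l) ^ (2 * j) + 4 * P.T (n + 1) + 1 : ℕ) : ℝ) ≤
          ((13 * 10 ^ (2 * j) + 5 : ℕ) : ℝ) * (P.T (n + 1) : ℝ) ^ (2 * j + 1) := by
        exact_mod_cast h1
      have h3 := pow_le_pow_left₀ (by positivity) h2 d
      rw [mul_pow ((13 * 10 ^ (2 * j) + 5 : ℕ) : ℝ), ← pow_mul] at h3
      exact mul_le_mul_of_nonneg_right h3 (hQ.nonneg n)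
    · exact le_rfl
  have h0 : ∀ n, 0 ≤ (if l < 5 * P.T (n + 1) then
      ((13 * (2 * l) ^ (2 * j) + 4 * P.T (n + 1) + 1 : ℕ) : ℝ) ^ d * q n else 0) := by
    intro n
    have := hQ.nonneg n
    split_ifs
    · positivity
    · exact le_rfl
  have h0' : ∀ n, 0 ≤ (if l < 5 * P.T (n + 1) then
      ((13 * 10 ^ (2 * j) + 5 : ℕ) : ℝ) ^ d * (P.T (n + 1) : ℝ) ^ ((2 * j + 1) * d) * q n
        else 0) := by
    intro n
    have := hQ.nonneg n
    split_ifs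
    · positivity
    · exact le_rfl
  have hs : Summable (fun n => ((13 * 10 ^ (2 * j) + 5 : ℕ) : ℝ) ^ d *
      ((P.T (n + 1) : ℝ) ^ ((2 * j + 1) * d) * q n)) := (hQ.sm _).mul_left _
  have hs2 : Summable (fun n => (if l < 5 * P.T (n + 1) then
      ((13 * 10 ^ (2 * j) + 5 : ℕ) : ℝ) ^ d * (P.T (n + 1) : ℝ) ^ ((2 * j + 1) * d) * q n
        else 0)) := by
    refine Summable.of_nonneg_of_le h0' (fun n => ?_) hs
    have := hQ.nonneg n
    split_ifs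
    · rw [mul_assoc]
    · positivity
  exact Summable.tsum_le_tsum hle (Summable.of_nonneg_of_le h0 hle hs2) hs2

end Pool.Agent.MP_f7f40d_pr.HD
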