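import Pool.Agent.MP_f7f40d_pr.HD.F4

set_option autoImplicit false

namespace Pool.Agent.MP_f7f40d_pr.HD

open MeasureTheory ProbabilityTheory Filter Topology
open scoped ENNReal NNReal

variable {d : ℕ}

/-- **[HD-F5c]** Off `BigE` the truncation at a level `L'` with `l < 5 T (n+1)` for all `n ≥ L'` is
harmless.

PROOF. `Gr.transfer` (`Sd' = Sd`) with `M`: let `y ∈ trunc X L n`, `x ∈ Icc a b`,
`Nr (6 M + 2 T (n+1)) x y`.  If `n < min L L1` then `y ∈ trunc X (min L L1) n`.  Otherwise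
(`n < L`) `L1 ≤ n`, so `l < 5 T (n+1)` by `hL1`, and `A ∈ BigE`: contradiction. -/
theorem grE_of_min {P : Par d} {m1 s l L L1 M : ℕ} {K : Finset (Fin d)} {a b : Fin d → ℤ}
    {A : Om d} (hL1 : ∀ n, L1 ≤ n → l < 5 * P.T (n + 1)) (hM : ∀ i, b i - a i ≤ M)
    (hA : A ∈ GrE P m1 s (min L L1) K a b) (hB : A ∉ BigE P m1 s l a b M) :
    A ∈ GrE P m1 s L K a b := by
  refine Gr.transfer M hA hM (fun x _ h => h) fun n y hy hex => ?_
  obtain ⟨hn, hyX⟩ := hy
  by_cases h1 : n < L1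
  · exact ⟨lt_min hn h1, hyX⟩
  · exact absurd ⟨n, hL1 n (not_lt.mp h1), y, hyX, hex⟩ hB

/-- **[HD-F5d]** There is a level `L1` as in `grE_of_min`, such that the levels below it are small.

PROOF. `T` is monotone and unbounded (`Par.mono_T`, `n ≤ T n` in `Par.basic`): `Nat.find` for
`l < 5 T (n+1)`. -/
theorem exists_L1 (P : Par d) (l : ℕ) :
    ∃ L1 : ℕ, (∀ n, L1 ≤ n → l < 5 * P.T (n + 1)) ∧ ∀ n, n < L1 → 5 * P.T (n + 1) ≤ l := by
  classical
  have hex : ∃ n, l < 5 * P.T (n + 1) := by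
    refine ⟨l, ?_⟩
    have := (P.basic (l + 1)).2.2.2.2.2.2.1
    omega
  refine ⟨Nat.find hex, fun n hn => ?_, fun n hn => ?_⟩
  · have h1 := Nat.find_spec hex
    have h2 := P.mono_T (show Nat.find hex + 1 ≤ n + 1 by omega)
    omega
  · have := Nat.find_min hex hn
    omega

/-- **[HD-F5e]** The deterministic part of the recursion: one good trial and all slabs.

PROOF. `gr_box` with `m = 2 l`, `Pc = a`, `Qc = b`, starting from the box
`[loC K x l, hiC K x l]` (`lo_le_hi`, `side_C`); slabs: `notMem_badG`; `Small`: for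
`y ∈ trunc X L' n`: `n < L'`, so `5 T (n+1) ≤ l` and `10 T (n+1) ≤ 2 l`. -/
theorem grow_gr {P : Par d} {m1 s l L' : ℕ} {K : Finset (Fin d)} {a b x : Fin d → ℤ} {A : Om d}
    (hL' : ∀ n, n < L' → 5 * P.T (n + 1) ≤ l) (hoff : ∀ i ∉ K, a i = b i)
    (ha : a ≤ loC K x l) (hb : hiC K x l ≤ b) (h1 : A ∉ BadG P m1 s L' K a b (2 * l))
    (h2 : A ∈ GrE P m1 s L' K (loC K x l) (hiC K x l)) : A ∈ GrE P m1 s L' K a b := by
  refine gr_box K a b (2 * l) (fun i hi => hoff i hi) ?_ ?_ (loC K x l) (hiC K x l) ha hb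
    (lo_le_hi K x l) ?_ h2
  · intro n y hy _
    have := hL' n hy.1
    omega
  · intro i hi a' b' h3 h4 h5 h6 h7
    exact notMem_badG.mp h1 i hi a' b' h3 h4 h5 h6 h7
  · intro j hj
    rw [side_C, if_pos hj]
    push_cast
    exact le_refl _

end Pool.Agent.MP_f7f40d_pr.HD
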