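import Pool.Agent.MP_f7f40d_pr.HD.F4

set_option autoImplicit false

namespace Pool.Agent.MP_f7f40d_pr.HD

open MeasureTheory ProbabilityTheory Filter Topology
open scoped ENNReal NNReal

variable {d : ℕ}

/-- **[HD-F5f]** The trials.

PROOF. As in `hh_succ` (`DuRec.lean`).  `X t i = if i = i₀ then a i + l + 30 l t else a i + l` for
`i ∈ K`, `X t i = a i` for `i ∉ K`.  The event `(GrE … (loC K (X t) l) (hiC K (X t) l))ᶜ` depends
(`depOn_GrE` with `M = 2 l`, `DepOn.compl`) on a box which in the coordinate `i₀` lies in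
`[X t i₀ - w, X t i₀ + w]`, `w = l + 12 l + 3 T L' < 14 l` (`5 T L' ≤ l`: `hL'` for `n = L' - 1`,
`T 0 = 0`), so these boxes are disjoint for different `t` (`28 l < 30 l`).  `indep_list` and
`c ≤ P(…)` give the bound `(1 - c)^(l/31)`.  The cubes are in `[a, b]`:
`30 l t + 2 l ≤ l (31 (t + 1)) ≤ l * l ≤ n` for `t < l / 31`. -/
theorem trials {P : Par d} {m1 s : ℕ} {lam : ℝ≥0} {k : ℕ} {c : ℝ} (hc1 : c ≤ 1)
    (hc : ∀ K : Finset (Fin d), K.card = k + 1 → ∀ (x : Fin d → ℤ) (l L : ℕ),
      c ≤ (muP d lam).real (GrE P m1 s L K (loC K x l) (hiC K x l)))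
    (l n L' : ℕ) (hl : 31 ≤ l) (hln : l * l ≤ n) (hL' : ∀ n, n < L' → 5 * P.T (n + 1) ≤ l)
    (K : Finset (Fin d)) (hK : K.card = k + 1) (a b : Fin d → ℤ) (hoff : ∀ i ∉ K, a i = b i)
    (hside : ∀ i ∈ K, (n : ℤ) ≤ b i - a i) :
    ∃ X : ℕ → (Fin d → ℤ), (∀ t, t < l / 31 → a ≤ loC K (X t) l ∧ hiC K (X t) l ≤ b) ∧
      (muP d lam).real (⋂ t ∈ Finset.range (l / 31),
        (GrE P m1 s L' K (loC K (X t) l) (hiC K (X t) l))ᶜ) ≤ (1 - c) ^ (l / 31) := by
  obtain ⟨i₀, hi₀⟩ : K.Nonempty := by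
    rw [← Finset.card_pos, hK]; omega
  have hT5 : 5 * P.T L' ≤ l := by
    rcases Nat.eq_zero_or_pos L' with h0 | h0
    · rw [h0, P.T0]; omega
    · have h1 := hL' (L' - 1) (by omega)
      rwa [Nat.sub_add_cancel h0] at h1
  set X : ℕ → (Fin d → ℤ) := fun t i =>
    if i ∈ K then (if i = i₀ then a i + l + 30 * l * t else a i + l) else a i with hX
  have hlo : ∀ t i, i ∈ K → loC K (X t) l i = if i = i₀ then a i + 30 * l * t else a i := by
    intro t i hi
    unfold loC
    rw [if_pos hi, hX]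
    simp only [if_pos hi]
    split_ifs <;> ring
  have hhi : ∀ t i, i ∈ K → hiC K (X t) l i =
      if i = i₀ then a i + 2 * l + 30 * l * t else a i + 2 * l := by
    intro t i hi
    unfold hiC
    rw [if_pos hi, hX]
    simp only [if_pos hi]
    split_ifs <;> ring
  set W : ℕ := 6 * (2 * l) + 3 * P.T L' with hW
  set Bx : ℕ → Finset (Fin d → ℤ) := fun t =>
    Finset.Icc (fun i => loC K (X t) l i - (W : ℤ)) (fun i => hiC K (X t) l i + (W : ℤ)) with hBx
  have hdep : ∀ t, DepOn (Bx t) (GrE P m1 s L' K (loC K (X t) l) (hiC K (X t) l))ᶜ := by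
    intro t
    refine DepOn.compl ?_
    refine depOn_GrE P m1 s L' K (loC K (X t) l) (hiC K (X t) l) (2 * l) ?_
    intro i
    rw [side_C]
    split_ifs
    · push_cast; exact le_refl _
    · positivity
  have hdisj : ∀ t t', t < t' → Disjoint (Bx t) (Bx t') := by
    intro t t' htt
    rw [Finset.disjoint_left]
    intro v hv hv'
    rw [hBx, Finset.mem_Icc] at hv hv'
    have h1 : v i₀ ≤ hiC K (X t) l i₀ + (W : ℤ) := hv.2 i₀
    have h2 : loC K (X t') l i₀ - (W : ℤ) ≤ v i₀ := hv'.1 i₀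
    rw [hhi t i₀ hi₀, if_pos rfl] at h1
    rw [hlo t' i₀ hi₀, if_pos rfl] at h2
    have h3 : (t : ℤ) + 1 ≤ t' := by exact_mod_cast htt
    have h4 : (W : ℤ) = 12 * l + 3 * (P.T L' : ℤ) := by rw [hW]; push_cast; ring
    have h5 : 5 * (P.T L' : ℤ) ≤ l := by exact_mod_cast hT5
    have h6 : (31 : ℤ) ≤ l := by exact_mod_cast hl
    have h7 : 30 * (l : ℤ) * (t + 1) ≤ 30 * l * t' :=
      mul_le_mul_of_nonneg_left h3 (by positivity)
    have h8 : 30 * (l : ℤ) * (t + 1) = 30 * l * t + 30 * l := by ring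
    omega
  refine ⟨X, ?_, ?_⟩
  · intro t ht
    have ht3 : 31 * ((t : ℤ) + 1) ≤ l := by
      have : 31 * (t + 1) ≤ l := by omega
      exact_mod_cast this
    have hlnZ : (l : ℤ) * l ≤ n := by exact_mod_cast hln
    have h31 : (31 : ℤ) ≤ l := by exact_mod_cast hl
    constructor
    · refine le_pl fun i => ?_
      by_cases hi : i ∈ K
      · rw [hlo t i hi]
        split_ifs
        · have : (0 : ℤ) ≤ 30 * l * t := by positivity
          omega
        · exact le_refl _
      · unfold loC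
        rw [if_neg hi, hX]
        simp only [if_neg hi]
        exact le_refl _
    · refine le_pl fun i => ?_
      by_cases hi : i ∈ K
      · rw [hhi t i hi]
        have h1 := hside i hi
        split_ifs
        · have h9 : (l : ℤ) * (31 * ((t : ℤ) + 1)) ≤ l * l :=
            mul_le_mul_of_nonneg_left ht3 (by positivity)
          have h10 : 0 ≤ (l : ℤ) * t := by positivity
          nlinarith
        · nlinarith
      · unfold hiC
        rw [if_neg hi, hX]
        simp only [if_neg hi]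
        exact (hoff i hi).le
  · have hnuc := (indep_list lam Bx
      (fun t => (GrE P m1 s L' K (loC K (X t) l) (hiC K (X t) l))ᶜ) hdep hdisj (l / 31)).1
    rw [measureReal_def, hnuc, ENNReal.toReal_prod]
    calc ∏ t ∈ Finset.range (l / 31), (muP d lam
          (GrE P m1 s L' K (loC K (X t) l) (hiC K (X t) l))ᶜ).toReal
        ≤ ∏ _t ∈ Finset.range (l / 31), (1 - c) := by
          refine Finset.prod_le_prod (fun _ _ => ENNReal.toReal_nonneg) fun t _ => ?_
          have h1 := hc K hK (X t) l L'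
          have hm : MeasurableSet (GrE P m1 s L' K (loC K (X t) l) (hiC K (X t) l)) := by
            have := (hdep t).compl.measurableSet
            rwa [compl_compl] at this
          rw [← measureReal_def, probReal_compl_eq_one_sub hm]
          linarith
      _ = (1 - c) ^ (l / 31) := by simp

end Pool.Agent.MP_f7f40d_pr.HD
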