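import Mathlib

set_option autoImplicit false

namespace Pool.Agent.MP_f7f40d_pr.HD

open MeasureTheory ProbabilityTheory Filter Topology
open scoped ENNReal NNReal

variable {d : ℕ}

/-- **[HD-F5a]** The numerical part of the recursion.

PROOF. As `rec_num` in `DuRec.lean` (`s` there is `e` here).  `l = √n`, `y = 2 l`, `n ≤ y²`,
`1 / y^(2e) ≤ 1 / n^e`.  The three terms are `≤ (1/3) (1 / y^(2e))` for large `l`: the first one is
`≤ (d 4^d / y) (1 / y^(2e))`; the second because `(l/31)^(2e) (1-c)^(l/31) → 0` and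
`y ≤ 2 (31 (l/31) + 30) ≤ 122 (l/31)` for `l ≥ 31`; the third is `(2^(2e+1) / y) (1 / y^(2e))`. -/
theorem rec_num2 (d e j : ℕ) {c : ℝ} (hc0 : 0 < c) (hc1 : c ≤ 1) (N l0 : ℕ) :
    ∃ n₀ : ℕ, ∀ n : ℕ, n₀ ≤ n → 31 ≤ Nat.sqrt n ∧ N ≤ 2 * Nat.sqrt n ∧ l0 ≤ Nat.sqrt n ∧
      (n : ℤ) ^ j ≤ ((2 * Nat.sqrt n : ℕ) : ℤ) ^ (2 * j) ∧
      d * ((((2 * Nat.sqrt n) ^ (2 * j) : ℕ) + 1 : ℝ) ^ d *
          ((((2 * Nat.sqrt n) ^ (2 * j) : ℕ) + 1 : ℝ)) ^ d) *
        (1 / ((2 * Nat.sqrt n : ℕ) : ℝ) ^ (4 * j * d + 2 * e + 1)) +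
        (1 - c) ^ (Nat.sqrt n / 31) + 1 / ((Nat.sqrt n : ℕ) : ℝ) ^ (2 * e + 1) ≤
        1 / (n : ℝ) ^ e := by
  have habs : |1 - c| < 1 := by rw [abs_lt]; constructor <;> linarith
  have ht := tendsto_pow_const_mul_const_pow_of_abs_lt_one (2 * e) habs
  have ht2 : Tendsto (fun n : ℕ => (122 : ℝ) ^ (2 * e) * ((n : ℝ) ^ (2 * e) * (1 - c) ^ n)) atTop
      (𝓝 (122 ^ (2 * e) * 0)) := ht.const_mul _
  rw [mul_zero] at ht2
  have ht3 := (ht2.comp (Nat.tendsto_div_const_atTop (n := 31) (by norm_num))).eventually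
    (ge_mem_nhds (show (0 : ℝ) < 1 / 3 by norm_num))
  obtain ⟨l₁, hl₁⟩ := eventually_atTop.1 ht3
  obtain ⟨l₂, hl₂⟩ := exists_nat_ge ((d : ℝ) * 4 ^ d)
  set l₀ := l₁ + 2 * l₂ + N + l0 + 31 + 3 * 2 ^ (2 * e) with hl₀
  refine ⟨l₀ * l₀, fun n hn => ?_⟩
  set l := Nat.sqrt n with hl
  have hl0 : l₀ ≤ l := Nat.le_sqrt.2 hn
  have hn2 : n < (l + 1) * (l + 1) := Nat.lt_succ_sqrt n
  have hl31 : 31 ≤ l := by omega
  have hn3 : n ≤ (2 * l) ^ 2 := by nlinarith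
  have hnpos : 0 < n := by
    have h31 : 31 ≤ l₀ := by omega
    have : 31 * 31 ≤ l₀ * l₀ := Nat.mul_le_mul h31 h31
    omega
  refine ⟨by omega, by omega, by omega, ?_, ?_⟩
  · rw [pow_mul]
    have : (n : ℤ) ≤ ((2 * l : ℕ) : ℤ) ^ 2 := by exact_mod_cast hn3
    gcongr
  · set y : ℝ := ((2 * l : ℕ) : ℝ) with hy
    have hy6 : (6 : ℝ) ≤ y := by
      have : 6 ≤ 2 * l := by omega
      rw [hy]; exact_mod_cast this
    have hy0 : 0 < y := by linarith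
    have hy1 : 1 ≤ y := by linarith
    have hny : (n : ℝ) ≤ y ^ 2 := by rw [hy]; exact_mod_cast hn3
    have hnp : (0 : ℝ) < n := by exact_mod_cast hnpos
    have e0 : (((2 * l) ^ (2 * j) : ℕ) : ℝ) = y ^ (2 * j) := by rw [hy]; push_cast; ring
    rw [e0]
    have h1 : y ^ (2 * j) + 1 ≤ 2 * y ^ (2 * j) := by
      have : 1 ≤ y ^ (2 * j) := one_le_pow₀ hy1
      linarith
    have hA : (d : ℝ) * ((y ^ (2 * j) + 1) ^ d * (y ^ (2 * j) + 1) ^ d) *
        (1 / y ^ (4 * j * d + 2 * e + 1)) ≤ (1 / 3) * (1 / y ^ (2 * e)) := by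
      calc (d : ℝ) * ((y ^ (2 * j) + 1) ^ d * (y ^ (2 * j) + 1) ^ d) *
            (1 / y ^ (4 * j * d + 2 * e + 1))
          ≤ (d : ℝ) * ((2 * y ^ (2 * j)) ^ d * (2 * y ^ (2 * j)) ^ d) *
            (1 / y ^ (4 * j * d + 2 * e + 1)) := by gcongr
        _ = (d * 4 ^ d / y) * (1 / y ^ (2 * e)) := by
            have e1 : (2 * y ^ (2 * j)) ^ d * (2 * y ^ (2 * j)) ^ d = 4 ^ d * y ^ (4 * j * d) := by
              rw [← mul_pow, show (2 * y ^ (2 * j)) * (2 * y ^ (2 * j)) = 4 * y ^ (4 * j) by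
                rw [show 4 * j = 2 * j + 2 * j by ring, pow_add]; ring, mul_pow, ← pow_mul]
            rw [e1, pow_succ, pow_add]
            field_simp
        _ ≤ (1 / 3) * (1 / y ^ (2 * e)) := by
            have h2 : d * 4 ^ d / y ≤ 1 / 3 := by
              rw [div_le_iff₀ hy0]
              have h3 : ((4 * l₂ : ℕ) : ℝ) ≤ y := by
                rw [hy]
                exact_mod_cast (by omega : 4 * l₂ ≤ 2 * l)
              push_cast at h3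
              have h4 : (0 : ℝ) ≤ (d : ℝ) * 4 ^ d := by positivity
              linarith
            gcongr
    have hB : (1 - c) ^ (l / 31) ≤ (1 / 3) * (1 / y ^ (2 * e)) := by
      have h2 := hl₁ l (by omega)
      simp only [Function.comp_apply] at h2
      have h3 : y ≤ 122 * ((l / 31 : ℕ) : ℝ) := by
        have : 2 * l ≤ 122 * (l / 31) := by omega
        rw [hy]; exact_mod_cast this
      have h4 : y ^ (2 * e) ≤ (122 : ℝ) ^ (2 * e) * ((l / 31 : ℕ) : ℝ) ^ (2 * e) := by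
        rw [← mul_pow]; gcongr
      have h5 : 0 ≤ (1 - c) ^ (l / 31) := pow_nonneg (by linarith) _
      have h6 : y ^ (2 * e) * (1 - c) ^ (l / 31) ≤ 1 / 3 := by
        calc y ^ (2 * e) * (1 - c) ^ (l / 31)
            ≤ ((122 : ℝ) ^ (2 * e) * ((l / 31 : ℕ) : ℝ) ^ (2 * e)) * (1 - c) ^ (l / 31) := by gcongr
          _ = (122 : ℝ) ^ (2 * e) * (((l / 31 : ℕ) : ℝ) ^ (2 * e) * (1 - c) ^ (l / 31)) := by ring
          _ ≤ 1 / 3 := h2
      have hyp : 0 < y ^ (2 * e) := by positivity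
      rw [show (1 / 3 : ℝ) * (1 / y ^ (2 * e)) = (1 / 3) / y ^ (2 * e) by ring,
        le_div_iff₀ hyp]
      linarith
    have hC : 1 / y ^ (2 * e) ≤ 1 / (n : ℝ) ^ e := by
      rw [pow_mul]
      gcongr
    have hD : 1 / (l : ℝ) ^ (2 * e + 1) ≤ (1 / 3) * (1 / y ^ (2 * e)) := by
      have hlpos : (0 : ℝ) < l := by
        have : 0 < l := by omega
        exact_mod_cast this
      have hyl : y = 2 * (l : ℝ) := by rw [hy]; push_cast; ring
      have h3 : (3 * 2 ^ (2 * e) : ℝ) ≤ l := by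
        have : 3 * 2 ^ (2 * e) ≤ l := by omega
        exact_mod_cast this
      rw [hyl, mul_pow, show (1 / 3 : ℝ) * (1 / (2 ^ (2 * e) * (l : ℝ) ^ (2 * e)))
        = 1 / (3 * 2 ^ (2 * e) * (l : ℝ) ^ (2 * e)) by field_simp]
      apply one_div_le_one_div_of_le (by positivity)
      rw [pow_succ']
      gcongr
    linarith

end Pool.Agent.MP_f7f40d_pr.HD
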