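import Pool.Agent.MP_f7f40d_pr.HD.F6a

set_option autoImplicit false

namespace Pool.Agent.MP_f7f40d_pr.HD

open MeasureTheory ProbabilityTheory Filter Topology
open scoped ENNReal NNReal

variable {d : ℕ}

/-- **[HD-F6b]** With positive probability arbitrarily large cubes are grown, for all truncations.

PROOF. As `prob_spans` in `DuRec.lean`.  `c` from `nucleusG` with `k = d - 1`, `hhg_all`.
`F l = ⋂ L, GrE P m1 s L univ (loC univ 0 l) (hiC univ 0 l)`; each `GrE` is measurable (`depOn_GrE` with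
`M = 2 l`), antitone in `L` (`GrE_anti`), so `ofReal c ≤ P(F l)` (`tendsto_measure_iInter_atTop`,
`ge_of_tendsto'`).  `E = ⋂ M, ⋃ l ≥ M, F l`; `ofReal c ≤ P(E)` as in `prob_spans`.
`loC univ 0 l = fun _ => -l`, `hiC univ 0 l = fun _ => l`. -/
theorem final_event (hd : 1 ≤ d) {P : Par d} {m1 s : ℕ} {lam : ℝ≥0} {q : ℕ → ℝ} (hlam : 0 < lam)
    (hm : m1 ≤ 6 * d) (hQ : Qb P m1 s lam q) :
    ∃ E : Set (Om d), MeasurableSet E ∧ 0 < muP d lam E ∧ ∀ A ∈ E, ∀ M : ℕ, ∃ l : ℕ, M ≤ l ∧
      ∀ L : ℕ, A ∈ GrE P m1 s L Finset.univ (fun _ => -(l : ℤ)) (fun _ => (l : ℤ)) := by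
  obtain ⟨c, hc0, hc⟩ := nucleusG hlam hm hQ (hhg_all (d := d) hlam hm hQ (d - 1))
  set Q : ℕ → ℕ → Set (Om d) := fun l L =>
    GrE P m1 s L Finset.univ (loC Finset.univ 0 l) (hiC Finset.univ 0 l) with hQdef
  have hQm : ∀ l L, MeasurableSet (Q l L) := by
    intro l L
    refine (depOn_GrE P m1 s L Finset.univ (loC Finset.univ 0 l) (hiC Finset.univ 0 l) (2 * l)
      (fun i => ?_)).measurableSet
    rw [side_C, if_pos (Finset.mem_univ i)]
    push_cast
    exact le_refl _
  have hQa : ∀ l, Antitone (Q l) := fun l L L' h => GrE_anti h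
  have hQc : ∀ l L, ENNReal.ofReal c ≤ muP d lam (Q l L) := by
    intro l L
    have h := hc Finset.univ (by rw [Finset.card_univ, Fintype.card_fin]; omega) 0 l L
    rw [measureReal_def] at h
    exact (ENNReal.ofReal_le_iff_le_toReal (measure_ne_top _ _)).2 h
  set F : ℕ → Set (Om d) := fun l => ⋂ L, Q l L with hF
  have hFm : ∀ l, MeasurableSet (F l) := fun l => MeasurableSet.iInter fun L => hQm l L
  have hFc : ∀ l, ENNReal.ofReal c ≤ muP d lam (F l) := by
    intro l
    have ht : Tendsto (fun L : ℕ => muP d lam (Q l L)) atTop (𝓝 (muP d lam (⋂ L, Q l L))) :=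
      tendsto_measure_iInter_atTop (fun L => (hQm l L).nullMeasurableSet) (hQa l)
        ⟨0, measure_ne_top _ _⟩
    exact ge_of_tendsto' ht fun L => hQc l L
  refine ⟨⋂ L, ⋃ l ≥ L, F l, ?_, ?_, ?_⟩
  · exact MeasurableSet.iInter fun L => MeasurableSet.iUnion fun l =>
      MeasurableSet.iUnion fun _ => hFm l
  · have ht : Tendsto (fun L : ℕ => muP d lam (⋃ l ≥ L, F l)) atTop
        (𝓝 (muP d lam (⋂ L, ⋃ l ≥ L, F l))) := by
      refine tendsto_measure_iInter_atTop (fun L => ?_) ?_ ⟨0, measure_ne_top _ _⟩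
      · exact (MeasurableSet.iUnion fun l => MeasurableSet.iUnion fun _ => hFm l).nullMeasurableSet
      · intro L L' hLL
        exact Set.biUnion_subset_biUnion_left fun l hl => le_trans hLL hl
    have hge : ENNReal.ofReal c ≤ muP d lam (⋂ L, ⋃ l ≥ L, F l) := by
      refine ge_of_tendsto' ht fun L => ?_
      refine (hFc L).trans (measure_mono ?_)
      exact Set.subset_biUnion_of_mem (u := F) (show L ≥ L from le_refl L)
    exact lt_of_lt_of_le (ENNReal.ofReal_pos.2 hc0) hge
  · intro A hA M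
    rw [Set.mem_iInter] at hA
    have h1 := hA M
    simp only [Set.mem_iUnion] at h1
    obtain ⟨l, hl, hAl⟩ := h1
    refine ⟨l, hl, fun L => ?_⟩
    have h2 : A ∈ Q l L := Set.mem_iInter.1 hAl L
    have e1 : loC (Finset.univ : Finset (Fin d)) 0 l = fun _ => -(l : ℤ) := by
      funext i
      unfold loC
      rw [if_pos (Finset.mem_univ i), Pi.zero_apply]
      omega
    have e2 : hiC (Finset.univ : Finset (Fin d)) 0 l = fun _ => (l : ℤ) := by
      funext i
      unfold hiC
      rw [if_pos (Finset.mem_univ i), Pi.zero_apply]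
      omega
    rw [← e1, ← e2]
    exact h2

end Pool.Agent.MP_f7f40d_pr.HD
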