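import Pool.Agent.MP_f7f40d_pr.HD.G1

set_option autoImplicit false

namespace Pool.Agent.MP_f7f40d_pr.HD

open MeasureTheory ProbabilityTheory Filter Topology
open scoped ENNReal NNReal

variable {d : ℕ}

/-- **[HD-F6c]** Removing the truncation.

PROOF. Let `M = ∑ i, (b i - a i).toNat`, `L0` from `LF` for `x = a`, `L = L0 + 7 M + 1`.
`Gr.transfer` from `trunc X L` to `X`: let `y ∈ X n`, `x ∈ Icc a b`, `Nr (6 M + 2 T (n+1)) x y`; then
`n < L`: otherwise `T (n+1) ≥ n + 1 > 7 M` (`Par.basic`), `Nr (M + (6 M + 2 T (n+1))) a y`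
(`|a i - x i| ≤ M`), and `7 M + 2 T (n+1) ≤ 10 T (n+1)` contradicts `LF` (`L0 ≤ n`). -/
theorem gr_of_trunc (P : Par d) (Sd : Set (Fin d → ℤ)) (X : ℕ → Set (Fin d → ℤ))
    (LF : ∀ x : Fin d → ℤ, ∃ L, ∀ n, L ≤ n → ∀ y ∈ X n, ¬ Nr (10 * P.T (n + 1)) x y)
    (K : Finset (Fin d)) (a b : Fin d → ℤ) (h : ∀ L, Gr P Sd (trunc X L) K a b) :
    Gr P Sd X K a b := by
  obtain ⟨M, hMdef⟩ : ∃ M : ℕ, M = ∑ i, (b i - a i).toNat := ⟨_, rfl⟩
  have hM : ∀ i, b i - a i ≤ (M : ℤ) := by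
    intro i
    have h1 : (b i - a i).toNat ≤ M := by
      rw [hMdef]
      exact Finset.single_le_sum (f := fun i => (b i - a i).toNat) (fun _ _ => Nat.zero_le _)
        (Finset.mem_univ i)
    omega
  obtain ⟨L0, hL0⟩ := LF a
  refine Gr.transfer M (h (L0 + 7 * M + 1)) hM (fun x _ hx => hx) ?_
  rintro n y hy ⟨x, hx, hxy⟩
  refine ⟨?_, hy⟩
  by_contra hn
  have hn' : L0 + 7 * M + 1 ≤ n := by omega
  have hT : n + 1 ≤ P.T (n + 1) := (P.basic (n + 1)).2.2.2.2.2.2.1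
  refine hL0 n (by omega) y hy ?_
  have hax : Nr M a x := by
    intro i
    have h1 : a i ≤ x i := hx.1 i
    have h2 : x i ≤ b i := hx.2 i
    have h3 := hM i
    rw [abs_le]
    constructor <;> omega
  exact (hax.trans hxy).mono (by omega)

end Pool.Agent.MP_f7f40d_pr.HD
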