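import Pool.Agent.MP_f7f40d_pr.HD.F5

set_option autoImplicit false

namespace Pool.Agent.MP_f7f40d_pr.HD

open MeasureTheory ProbabilityTheory Filter Topology
open scoped ENNReal NNReal

variable {d : ℕ}

/-- **[HD-F6a]** The induction on the dimension.

PROOF. As `hh_succ` in `DuRec.lean`.  Given `e, j`: `c` from `nucleusG` (if there is no `K` with
`k + 1` elements nothing is to be proved; otherwise `c ≤ 1`), `N` from `hk` at
`(4 j d + 2 e + 1, 2 j)`, `l0` from `bigE_small` at `(j, 2 e + 1)`, `n₀` from `rec_num2`.  Let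
`n ≥ n₀`, `L, K, a, b` be given; `l = √n`, `M = (2 l)^(2 j)`; all sides are `≤ n^j ≤ M`.  `L1` from
`exists_L1`, `L' = min L L1`, so `∀ n < L', 5 T (n+1) ≤ l`.  `X` from `trials`.
DETERMINISTIC: `(GrE L K a b)ᶜ ⊆ BadG P m1 s L' K a b (2 l) ∪ (⋂ t ∈ range (l/31), (GrE L' …)ᶜ) ∪
BigE P m1 s l a b M` by `grow_gr` and `grE_of_min`.
PROBABILITY: `BadG`: `badG_le` with `W = M` and `ε = 1/(2l)^(4 j d + 2 e + 1)` by `hN` for the slabs
(`n := 2 l`, sides between `2 l` and `M = (2l)^(2j)`; dimension `k`; as in `hh_succ`); trials: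
`(1 - c)^(l/31)`; `BigE`: `1 / l^(2 e + 1)`.  Sum: `rec_num2`. -/
theorem hhg_succ {P : Par d} {m1 s : ℕ} {lam : ℝ≥0} {q : ℕ → ℝ} (hlam : 0 < lam)
    (hm : m1 ≤ 6 * d) (hQ : Qb P m1 s lam q) {k : ℕ} (hk : HHg P m1 s lam k) :
    HHg P m1 s lam (k + 1) := by
  intro e j
  obtain ⟨c, hc0, hc⟩ := nucleusG hlam hm hQ hk
  by_cases hex : ∃ K₀ : Finset (Fin d), K₀.card = k + 1
  swap
  · exact ⟨0, fun n _ L K hK => absurd ⟨K, hK⟩ hex⟩
  have hc1 : c ≤ 1 := by
    obtain ⟨K₀, hK₀⟩ := hex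
    exact (hc K₀ hK₀ 0 0 0).trans measureReal_le_one
  obtain ⟨N, hN⟩ := hk (4 * j * d + 2 * e + 1) (2 * j)
  obtain ⟨l0, _, hl0⟩ := bigE_small hQ j (2 * e + 1)
  obtain ⟨n₀, hn₀⟩ := rec_num2 d e j hc0 hc1 N l0
  refine ⟨n₀, fun n hn L K hK a b hab hoff hside => ?_⟩
  obtain ⟨hl31, hlN, hll0, hpow, hnum⟩ := hn₀ n hn
  set l := Nat.sqrt n with hl
  have hln : l * l ≤ n := Nat.sqrt_le n
  obtain ⟨L1, hL1, hL1'⟩ := exists_L1 P l
  have hL' : ∀ n', n' < min L L1 → 5 * P.T (n' + 1) ≤ l :=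
    fun n' hn' => hL1' n' (lt_of_lt_of_le hn' (min_le_right _ _))
  -- sides
  have hM : ∀ i, b i - a i ≤ (((2 * l) ^ (2 * j) : ℕ) : ℤ) := by
    intro i
    by_cases hi : i ∈ K
    · have h1 := (hside i hi).2
      push_cast
      push_cast at hpow
      exact h1.trans hpow
    · rw [hoff i hi, sub_self]
      positivity
  -- slabs
  have hbad : (muP d lam).real (BadG P m1 s (min L L1) K a b (2 * l)) ≤
      d * ((((2 * l) ^ (2 * j) : ℕ) + 1 : ℝ) ^ d * ((((2 * l) ^ (2 * j) : ℕ) + 1 : ℝ)) ^ d) *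
        (1 / ((2 * l : ℕ) : ℝ) ^ (4 * j * d + 2 * e + 1)) := by
    refine badG_le lam (by positivity) hM ?_
    intro i hi a' b' hPa hbQ hab' hii hj
    refine hN (2 * l) hlN (min L L1) (K.erase i) ?_ a' b' hab' ?_ ?_
    · rw [Finset.card_erase_of_mem hi, hK]; rfl
    · intro j' hj2
      by_cases hji : j' = i
      · rw [hji]; exact hii
      · have hjK : j' ∉ K := fun h => hj2 (Finset.mem_erase.2 ⟨hji, h⟩)
        have h2 := pl hPa j'
        have h3 := pl hbQ j'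
        have h4 := pl hab' j'
        have h5 := hoff j' hjK
        omega
    · intro j' hj2
      refine ⟨hj j' hj2, ?_⟩
      have h2 := pl hPa j'
      have h3 := pl hbQ j'
      have h5 := hM j'
      have h6 : b' j' - a' j' ≤ b j' - a j' := by omega
      push_cast
      push_cast at h5
      exact h6.trans h5
  -- trials
  obtain ⟨X, hX1, hX2⟩ := trials hc1 hc l n (min L L1) hl31 hln hL' K hK a b hoff
    (fun i hi => (hside i hi).1)
  have hbig := hl0 l hll0 a b hM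
  -- the deterministic inclusion
  have hsub : (GrE P m1 s L K a b)ᶜ ⊆ (BadG P m1 s (min L L1) K a b (2 * l) ∪
      (⋂ t ∈ Finset.range (l / 31),
        (GrE P m1 s (min L L1) K (loC K (X t) l) (hiC K (X t) l))ᶜ)) ∪
      BigE P m1 s l a b ((2 * l) ^ (2 * j)) := by
    intro A hA
    by_contra hcon
    rw [Set.mem_union, Set.mem_union, not_or, not_or] at hcon
    obtain ⟨⟨hA1, hA2⟩, hA3⟩ := hcon
    simp only [Set.mem_iInter, Finset.mem_range, Set.mem_compl_iff, not_forall, not_not] at hA2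
    obtain ⟨t, ht, hAt⟩ := hA2
    apply hA
    refine grE_of_min hL1 hM ?_ hA3
    exact grow_gr hL' hoff (hX1 t ht).1 (hX1 t ht).2 hA1 hAt
  refine (measureReal_mono hsub (measure_ne_top _ _)).trans ?_
  refine (measureReal_union_le _ _).trans ?_
  have hun := measureReal_union_le (μ := muP d lam)
    (BadG P m1 s (min L L1) K a b (2 * l)) (⋂ t ∈ Finset.range (l / 31),
        (GrE P m1 s (min L L1) K (loC K (X t) l) (hiC K (X t) l))ᶜ)
  linarith

theorem hhg_all {P : Par d} {m1 s : ℕ} {lam : ℝ≥0} {q : ℕ → ℝ} (hlam : 0 < lam)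
    (hm : m1 ≤ 6 * d) (hQ : Qb P m1 s lam q) (k : ℕ) : HHg P m1 s lam k := by
  induction k with
  | zero => exact hhg_zero P m1 s lam
  | succ k ih => exact hhg_succ hlam hm hQ ih

end Pool.Agent.MP_f7f40d_pr.HD
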