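import Pool.Agent.MP_f7f40d_pr.HD.W2

set_option autoImplicit false

namespace Pool.Agent.MP_f7f40d_pr.HD

variable {d : ℕ}

/-- **[HD-G1a]** PROOF. Induction on the derivation; `Function.update` case distinctions. -/
theorem Gr.le_off {P : Par d} {Sd : Set (Fin d → ℤ)} {X : ℕ → Set (Fin d → ℤ)}
    {K : Finset (Fin d)} {a b : Fin d → ℤ} (h : Gr P Sd X K a b) :
    a ≤ b ∧ ∀ i, i ∉ K → a i = b i := by
  induction h with
  | seed K a b hab hoff hS => exact ⟨hab, hoff⟩
  | pt a => exact ⟨le_rfl, fun _ _ => rfl⟩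
  | up K a b i m hi hm h1 h2 hs ih1 ih2 =>
    obtain ⟨h3, h4⟩ := ih1
    refine ⟨fun j => ?_, fun j hj => ?_⟩
    · by_cases hji : j = i
      · subst hji
        rw [Function.update_self]
        have h5 : a j ≤ b j := h3 j
        exact (by omega : a j ≤ b j + 1)
      · rw [Function.update_of_ne hji]
        exact h3 j
    · have hji : j ≠ i := fun h => hj (h ▸ hi)
      rw [Function.update_of_ne hji]
      exact h4 j hj
  | dn K a b i m hi hm h1 h2 hs ih1 ih2 =>
    obtain ⟨h3, h4⟩ := ih1
    refine ⟨fun j => ?_, fun j hj => ?_⟩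
    · by_cases hji : j = i
      · subst hji
        rw [Function.update_self]
        have h5 : a j ≤ b j := h3 j
        exact (by omega : a j - 1 ≤ b j)
      · rw [Function.update_of_ne hji]
        exact h3 j
    · have hji : j ≠ i := fun h => hj (h ▸ hi)
      rw [Function.update_of_ne hji]
      exact h4 j hj

/-- **[HD-G1b]** Monotonicity and locality of `Gr`.

PROOF. Induction on the derivation (revert `hM`, `hS`, `hX`).
`seed`: for `x ∈ Icc a b`: `x ∈ Sd'`; if `x ∈ Obs P X'`, say `Nr (R n + 1) x y`, `y ∈ X' n`, then, as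
`R n + 1 ≤ 2 T (n+1)` (`Par.basic`), `y ∈ X n` by `hX`, so `x ∈ Obs P X`, contradiction.
`pt`: constructor.
`up`: the boxes `[a, b]` and the face are contained in `[a, b']`, `b' = update b i (b i + 1)`
(use `Gr.le_off` for `a ≤ b`), all their sides are `≤ M`, so the induction hypotheses apply; the
`Small` condition: `y ∈ X' n` with `Nr (6 m + 2 T (n+1)) x y`, `x` in the face; `m ≤ b i - a i ≤ M`,
so `y ∈ X n` by `hX` (mono), then `Small` for `X`.
`dn`: symmetric. -/
theorem Gr.transfer {P : Par d} {Sd Sd' : Set (Fin d → ℤ)} {X X' : ℕ → Set (Fin d → ℤ)}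
    {K : Finset (Fin d)} {a b : Fin d → ℤ} (M : ℕ) (h : Gr P Sd X K a b)
    (hM : ∀ i, b i - a i ≤ M) (hS : ∀ x ∈ Set.Icc a b, x ∈ Sd → x ∈ Sd')
    (hX : ∀ n, ∀ y ∈ X' n, (∃ x ∈ Set.Icc a b, Nr (6 * M + 2 * P.T (n + 1)) x y) → y ∈ X n) :
    Gr P Sd' X' K a b := by
  induction h with
  | seed K a b hab hoff hSd =>
    refine Gr.seed K a b hab hoff fun x hx => ⟨hS x hx (hSd x hx).1, ?_⟩
    rintro ⟨n, y, hy, hxy⟩
    apply (hSd x hx).2
    have hb := P.basic n
    refine ⟨n, y, hX n y hy ⟨x, hx, ?_⟩, hxy⟩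
    apply hxy.mono
    show P.R n + 1 ≤ 6 * M + 2 * P.T (n + 1)
    obtain ⟨h1, h2, h3, h4, h5, -⟩ := hb
    omega
  | pt a => exact Gr.pt a
  | up K a b i m hi hm h1 h2 hs ih1 ih2 =>
    have hab := h1.le_off.1
    have hM1 : ∀ j, b j - a j ≤ M := by
      intro j
      have h3 := hM j
      by_cases hji : j = i
      · subst hji
        rw [Function.update_self] at h3
        omega
      · rwa [Function.update_of_ne hji] at h3
    have hbb : b ≤ Function.update b i (b i + 1) := by
      intro j
      by_cases hji : j = i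
      · subst hji
        rw [Function.update_self]
        exact (by omega : b j ≤ b j + 1)
      · rw [Function.update_of_ne hji]
    have haa : a ≤ Function.update a i (b i + 1) := by
      intro j
      by_cases hji : j = i
      · subst hji
        rw [Function.update_self]
        have h5 : a j ≤ b j := hab j
        exact (by omega : a j ≤ b j + 1)
      · rw [Function.update_of_ne hji]
    refine Gr.up K a b i m hi hm (ih1 hM1 ?_ ?_) (ih2 ?_ ?_ ?_) ?_
    · exact fun x hx hxS => hS x ⟨hx.1, hx.2.trans hbb⟩ hxS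
    · exact fun n y hy ⟨x, hx, hxy⟩ => hX n y hy ⟨x, ⟨hx.1, hx.2.trans hbb⟩, hxy⟩
    · intro j
      by_cases hji : j = i
      · subst hji
        rw [Function.update_self, Function.update_self, sub_self]
        exact Int.natCast_nonneg M
      · rw [Function.update_of_ne hji, Function.update_of_ne hji]
        exact hM1 j
    · exact fun x hx hxS => hS x ⟨haa.trans hx.1, hx.2⟩ hxS
    · exact fun n y hy ⟨x, hx, hxy⟩ => hX n y hy ⟨x, ⟨haa.trans hx.1, hx.2⟩, hxy⟩
    · rintro n y hy ⟨x, hx, hxy⟩
      have hmM : m ≤ M := by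
        have h3 := hm i hi
        have h4 := hM1 i
        omega
      refine hs n y (hX n y hy ⟨x, ⟨haa.trans hx.1, hx.2⟩, hxy.mono (by omega)⟩) ⟨x, hx, hxy⟩
  | dn K a b i m hi hm h1 h2 hs ih1 ih2 =>
    have hab := h1.le_off.1
    have hM1 : ∀ j, b j - a j ≤ M := by
      intro j
      have h3 := hM j
      by_cases hji : j = i
      · subst hji
        rw [Function.update_self] at h3
        omega
      · rwa [Function.update_of_ne hji] at h3
    have haa : Function.update a i (a i - 1) ≤ a := by
      intro j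
      by_cases hji : j = i
      · subst hji
        rw [Function.update_self]
        exact (by omega : a j - 1 ≤ a j)
      · rw [Function.update_of_ne hji]
    have hbb : Function.update b i (a i - 1) ≤ b := by
      intro j
      by_cases hji : j = i
      · subst hji
        rw [Function.update_self]
        have h5 : a j ≤ b j := hab j
        exact (by omega : a j - 1 ≤ b j)
      · rw [Function.update_of_ne hji]
    refine Gr.dn K a b i m hi hm (ih1 hM1 ?_ ?_) (ih2 ?_ ?_ ?_) ?_
    · exact fun x hx hxS => hS x ⟨haa.trans hx.1, hx.2⟩ hxS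
    · exact fun n y hy ⟨x, hx, hxy⟩ => hX n y hy ⟨x, ⟨haa.trans hx.1, hx.2⟩, hxy⟩
    · intro j
      by_cases hji : j = i
      · subst hji
        rw [Function.update_self, Function.update_self, sub_self]
        exact Int.natCast_nonneg M
      · rw [Function.update_of_ne hji, Function.update_of_ne hji]
        exact hM1 j
    · exact fun x hx hxS => hS x ⟨hx.1, hx.2.trans hbb⟩ hxS
    · exact fun n y hy ⟨x, hx, hxy⟩ => hX n y hy ⟨x, ⟨hx.1, hx.2.trans hbb⟩, hxy⟩
    · rintro n y hy ⟨x, hx, hxy⟩
      have hmM : m ≤ M := by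
        have h3 := hm i hi
        have h4 := hM1 i
        omega
      refine hs n y (hX n y hy ⟨x, ⟨hx.1, hx.2.trans hbb⟩, hxy.mono (by omega)⟩) ⟨x, hx, hxy⟩

end Pool.Agent.MP_f7f40d_pr.HD
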