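import Pool.Agent.MP_f7f40d_pr.HD.Defs

set_option autoImplicit false

namespace Pool.Agent.MP_f7f40d_pr.HD

variable {d : ℕ}

theorem hg2_pl {a b : Fin d → ℤ} (h : a ≤ b) (i : Fin d) : a i ≤ b i := h i

theorem hg2_mk {a b : Fin d → ℤ} (h : ∀ i, a i ≤ b i) : a ≤ b := h

/-- **[HD-G2a]** The context of a sub-box.

PROOF. All clauses are inherited: near `[a', b']` implies near `[a, b]`; in `onUp`:
`y i < b' i ≤ b i`; `supp`: `Icc a' b' ⊆ Icc a b`; `flat`: for `i ∉ K`: `a' i = a i = b i = b' i`. -/
theorem Ctx.sub {W : Set (Fin d → ℤ)} {K : Finset (Fin d)} {a b a' b' : Fin d → ℤ}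
    {τ : Fin d → ℤ} {T : Fin d → Finset ℤ} {r : ℕ} (h : Ctx W K a b τ T r) (ha : a ≤ a')
    (hab : a' ≤ b') (hb : b' ≤ b) : Ctx W K a' b' τ T r := by
  have hr : ∀ y : Fin d → ℤ, (∀ j, a' j - r ≤ y j ∧ y j ≤ b' j + r) →
      ∀ j, a j - r ≤ y j ∧ y j ≤ b j + r := fun y hy j => by
    have h1 := hy j
    have h2 := hg2_pl ha j
    have h3 := hg2_pl hb j
    omega
  refine ⟨h.sg, fun y hy hn i hi => h.off y hy (hr y hn) i hi, ?_, ?_, ?_, ?_⟩
  · intro y hy hn i hi hT
    refine h.onUp y hy (hr y hn) i hi ?_
    rcases hT with h1 | h1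
    · left
      have h3 := hg2_pl hb i
      omega
    · exact Or.inr h1
  · intro y hy hn i hi hT
    refine h.onDn y hy (hr y hn) i hi ?_
    rcases hT with h1 | h1
    · left
      have h3 := hg2_pl ha i
      omega
    · exact Or.inr h1
  · intro y hy i hi
    exact h.supp y ⟨ha.trans hy.1, hy.2.trans hb⟩ i hi
  · intro i hi
    obtain ⟨h1, h2, h3⟩ := h.flat i hi
    have h4 := hg2_pl ha i
    have h5 := hg2_pl hab i
    have h6 := hg2_pl hb i
    have h7 : a' i = a i := by omega
    have h8 : b' i = a i := by omega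
    rw [h7, h8]
    exact ⟨rfl, h2, h3⟩

/-- **[HD-G2b]** The context of the upper face.  (`W` context of `[a, b⁺]`; then `[a, b]` is filled
and the face `x_i = b i + 1` is filled next.)

PROOF. Let `W₁ = W ∪ Icc a b`, `b⁺ = update b i (b i + 1)`, face `[a^f, b^f]`,
`a^f = update a i (b i + 1)`, `b^f = update b i (b i + 1)`, `r' = min r m`.  `y` near the face
(distance `r'`) is near `[a, b⁺]` (distance `r`): for `j ≠ i` same bounds; for `j = i`:
`a i - r ≤ b i + 1 - r' ≤ y i ≤ b i + 1 + r'`.  Moreover `y i ≥ b i + 1 - r' ≥ b i + 1 - m > a i`.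
`sg`: clear (`update τ i 1`).
`off`, axis `i`: sign `1`.  `y ∈ W`: `stp y i (-1) ∈ W` by `onDn` (`a i < y i`); if
`y i < b i + 1` or `y i ∉ T i` then `stp y i 1 ∈ W` by `onUp`, else `y i ∈ T i`.
`y ∈ Icc a b`: `stp y i (-1) ∈ Icc a b` as `a i < y i`; if `y i < b i` then `stp y i 1 ∈ Icc a b`,
else `y i = b i ∈ T' i`.
`off`, axis `j ∉ K` (`j ≠ i`, `T' j = T j`, sign `τ j`): `y ∈ W`: old `off`; `y ∈ Icc a b`:
`supp` gives `stp y j (-τ j) ∈ W`, and `y j = a j ∈ T j` by `flat`.
`onUp`/`onDn`, axis `j ∈ K.erase i`: `y ∈ W`: old clause (`b⁺ j = b j`, `T j ⊆ T' j`);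
`y ∈ Icc a b`: `y j < b j` or `y j ∉ T' j ∋ b j` gives `y j < b j`, `stp y j 1 ∈ Icc a b`; similarly
downwards.
`supp`: `y` in the face: axis `i`: `stp y i (-1) ∈ Icc a b` (uses `a i ≤ b i`); axis `j ∉ K`: old
`supp` (the face is in `Icc a b⁺`).
`flat`: axis `i`: `b i + 1, b i ∈ T' i`; axis `j ∉ K`: old. -/
theorem Ctx.faceUp {W : Set (Fin d → ℤ)} {K : Finset (Fin d)} {a b : Fin d → ℤ}
    {τ : Fin d → ℤ} {T : Fin d → Finset ℤ} {r m : ℕ} {i : Fin d} (hi : i ∈ K) (hab : a ≤ b)
    (hm : ∀ j ∈ K, (m : ℤ) ≤ b j - a j)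
    (h : Ctx W K a (Function.update b i (b i + 1)) τ T r) :
    Ctx (W ∪ Set.Icc a b) (K.erase i) (Function.update a i (b i + 1))
      (Function.update b i (b i + 1)) (Function.update τ i 1)
      (fun j => if j = i then T i ∪ {b i, b i + 1} else if j ∈ K then T j ∪ {a j, b j} else T j)
      (min r m) := by
  have bpi : Function.update b i (b i + 1) i = b i + 1 := Function.update_self ..
  have bpj : ∀ j, j ≠ i → Function.update b i (b i + 1) j = b j := fun j hj =>
    Function.update_of_ne hj ..
  have afi : Function.update a i (b i + 1) i = b i + 1 := Function.update_self ..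
  have afj : ∀ j, j ≠ i → Function.update a i (b i + 1) j = a j := fun j hj =>
    Function.update_of_ne hj ..
  have hmi := hm i hi
  have habi := hg2_pl hab i
  -- near the face
  have hnr : ∀ y : Fin d → ℤ, (∀ j, Function.update a i (b i + 1) j - (min r m : ℕ) ≤ y j ∧
      y j ≤ Function.update b i (b i + 1) j + (min r m : ℕ)) →
      (∀ j, a j - r ≤ y j ∧ y j ≤ Function.update b i (b i + 1) j + r) ∧ a i < y i := by
    intro y hy
    constructor
    · intro j
      have h1 := hy j
      by_cases hj : j = i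
      · subst hj
        rw [afi, bpi] at h1
        rw [bpi]
        omega
      · rw [afj j hj, bpj j hj] at h1
        rw [bpj j hj]
        omega
    · have h1 := hy i
      rw [afi, bpi] at h1
      omega
  -- steps inside `[a, b]`
  have hup : ∀ y ∈ Set.Icc a b, ∀ j, y j < b j → stp y j 1 ∈ Set.Icc a b := by
    intro y hy j hj
    refine ⟨hg2_mk fun k => ?_, hg2_mk fun k => ?_⟩
    · have h1 := hg2_pl hy.1 k
      by_cases hk : k = j
      · rw [hk, stp_same]; rw [hk] at h1; omega
      · rw [stp_ne _ _ hk]; exact h1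
    · have h1 := hg2_pl hy.2 k
      by_cases hk : k = j
      · rw [hk, stp_same]; omega
      · rw [stp_ne _ _ hk]; exact h1
  have hdn : ∀ y ∈ Set.Icc a b, ∀ j, a j < y j → stp y j (-1) ∈ Set.Icc a b := by
    intro y hy j hj
    refine ⟨hg2_mk fun k => ?_, hg2_mk fun k => ?_⟩
    · have h1 := hg2_pl hy.1 k
      by_cases hk : k = j
      · rw [hk, stp_same]; omega
      · rw [stp_ne _ _ hk]; exact h1
    · have h1 := hg2_pl hy.2 k
      by_cases hk : k = j
      · rw [hk, stp_same]; rw [hk] at h1; omega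
      · rw [stp_ne _ _ hk]; exact h1
  have hIcc : ∀ y ∈ Set.Icc a b, y ∈ Set.Icc a (Function.update b i (b i + 1)) := by
    intro y hy
    refine ⟨hy.1, hg2_mk fun j => ?_⟩
    have h1 := hg2_pl hy.2 j
    by_cases hj : j = i
    · rw [hj, bpi]; rw [hj] at h1; omega
    · rw [bpj j hj]; exact h1
  refine ⟨?_, ?_, ?_, ?_, ?_, ?_⟩
  · intro j
    by_cases hj : j = i
    · rw [hj, Function.update_self]; exact Or.inl rfl
    · rw [Function.update_of_ne hj]; exact h.sg j
  · -- off
    intro y hy hn j hj
    obtain ⟨hn1, hn2⟩ := hnr y hn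
    by_cases hji : j = i
    · subst hji
      rw [Function.update_self, if_pos rfl]
      rcases hy with hy | hy
      · refine ⟨Or.inl (h.onDn y hy hn1 j hi (Or.inl hn2)), ?_⟩
        by_cases hc : y j < b j + 1 ∨ y j ∉ T j
        · refine Or.inl (Or.inl (h.onUp y hy hn1 j hi ?_))
          rw [bpi]
          exact hc
        · push Not at hc
          exact Or.inr (Finset.mem_union_left _ hc.2)
      · refine ⟨Or.inr (hdn y hy j hn2), ?_⟩
        by_cases hc : y j < b j
        · exact Or.inl (Or.inr (hup y hy j hc))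
        · right
          have h1 : y j = b j := le_antisymm (hg2_pl hy.2 j) (not_lt.1 hc)
          rw [h1]
          simp
    · have hjK : j ∉ K := fun hjK => hj (Finset.mem_erase.2 ⟨hji, hjK⟩)
      rw [Function.update_of_ne hji, if_neg hji, if_neg hjK]
      rcases hy with hy | hy
      · obtain ⟨h1, h2⟩ := h.off y hy hn1 j hjK
        exact ⟨Or.inl h1, h2.imp Or.inl id⟩
      · refine ⟨Or.inl (h.supp y (hIcc y hy) j hjK), Or.inr ?_⟩
        obtain ⟨h1, h2, -⟩ := h.flat j hjK
        rw [bpj j hji] at h1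
        have h3 := hg2_pl hy.1 j
        have h4 := hg2_pl hy.2 j
        have h5 : y j = a j := by omega
        rw [h5]
        exact h2
  · -- onUp
    intro y hy hn j hj hT
    obtain ⟨hn1, hn2⟩ := hnr y hn
    obtain ⟨hji, hjK⟩ := Finset.mem_erase.1 hj
    rw [if_neg hji, if_pos hjK, bpj j hji] at hT
    rcases hy with hy | hy
    · left
      refine h.onUp y hy hn1 j hjK ?_
      rw [bpj j hji]
      exact hT.imp id fun h1 h2 => h1 (Finset.mem_union_left _ h2)
    · right
      apply hup y hy j
      rcases hT with h1 | h1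
      · exact h1
      · refine lt_of_le_of_ne (hg2_pl hy.2 j) fun h2 => h1 ?_
        rw [h2]
        simp
  · -- onDn
    intro y hy hn j hj hT
    obtain ⟨hn1, hn2⟩ := hnr y hn
    obtain ⟨hji, hjK⟩ := Finset.mem_erase.1 hj
    rw [if_neg hji, if_pos hjK, afj j hji] at hT
    rcases hy with hy | hy
    · left
      refine h.onDn y hy hn1 j hjK ?_
      exact hT.imp id fun h1 h2 => h1 (Finset.mem_union_left _ h2)
    · right
      apply hdn y hy j
      rcases hT with h1 | h1
      · exact h1
      · refine lt_of_le_of_ne (hg2_pl hy.1 j) fun h2 => h1 ?_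
        rw [← h2]
        simp
  · -- supp
    intro y hy j hj
    have hyi : y i = b i + 1 := by
      have h1 := hg2_pl hy.1 i
      have h2 := hg2_pl hy.2 i
      rw [afi] at h1
      rw [bpi] at h2
      omega
    by_cases hji : j = i
    · subst hji
      rw [Function.update_self]
      right
      refine ⟨hg2_mk fun k => ?_, hg2_mk fun k => ?_⟩
      · have h1 := hg2_pl hy.1 k
        by_cases hk : k = j
        · rw [hk, stp_same, hyi]; omega
        · rw [stp_ne _ _ hk]
          rw [afj k hk] at h1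
          exact h1
      · have h1 := hg2_pl hy.2 k
        by_cases hk : k = j
        · rw [hk, stp_same, hyi]; omega
        · rw [stp_ne _ _ hk]
          rw [bpj k hk] at h1
          exact h1
    · have hjK : j ∉ K := fun hjK => hj (Finset.mem_erase.2 ⟨hji, hjK⟩)
      rw [Function.update_of_ne hji]
      left
      refine h.supp y ⟨hg2_mk fun k => ?_, hy.2⟩ j hjK
      have h1 := hg2_pl hy.1 k
      by_cases hk : k = i
      · rw [hk, hyi]; omega
      · rw [afj k hk] at h1
        exact h1
  · -- flat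
    intro j hj
    by_cases hji : j = i
    · subst hji
      rw [afi, bpi, Function.update_self, if_pos rfl]
      refine ⟨rfl, by simp, ?_⟩
      have h1 : b j + 1 - 1 = b j := by ring
      rw [h1]
      simp
    · have hjK : j ∉ K := fun hjK => hj (Finset.mem_erase.2 ⟨hji, hjK⟩)
      rw [afj j hji, bpj j hji, Function.update_of_ne hji, if_neg hji, if_neg hjK]
      have h1 := h.flat j hjK
      rw [bpj j hji] at h1
      exact h1

/-- **[HD-G2c]** The context of the lower face (sign `-1`, face coordinate `a i - 1`); symmetric to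
`faceUp`. -/
theorem Ctx.faceDn {W : Set (Fin d → ℤ)} {K : Finset (Fin d)} {a b : Fin d → ℤ}
    {τ : Fin d → ℤ} {T : Fin d → Finset ℤ} {r m : ℕ} {i : Fin d} (hi : i ∈ K) (hab : a ≤ b)
    (hm : ∀ j ∈ K, (m : ℤ) ≤ b j - a j)
    (h : Ctx W K (Function.update a i (a i - 1)) b τ T r) :
    Ctx (W ∪ Set.Icc a b) (K.erase i) (Function.update a i (a i - 1))
      (Function.update b i (a i - 1)) (Function.update τ i (-1))
      (fun j => if j = i then T i ∪ {a i, a i - 1} else if j ∈ K then T j ∪ {a j, b j} else T j)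
      (min r m) := by
  have ami : Function.update a i (a i - 1) i = a i - 1 := Function.update_self ..
  have amj : ∀ j, j ≠ i → Function.update a i (a i - 1) j = a j := fun j hj =>
    Function.update_of_ne hj ..
  have bfi : Function.update b i (a i - 1) i = a i - 1 := Function.update_self ..
  have bfj : ∀ j, j ≠ i → Function.update b i (a i - 1) j = b j := fun j hj =>
    Function.update_of_ne hj ..
  have hmi := hm i hi
  have habi := hg2_pl hab i
  -- near the face
  have hnr : ∀ y : Fin d → ℤ, (∀ j, Function.update a i (a i - 1) j - (min r m : ℕ) ≤ y j ∧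
      y j ≤ Function.update b i (a i - 1) j + (min r m : ℕ)) →
      (∀ j, Function.update a i (a i - 1) j - r ≤ y j ∧ y j ≤ b j + r) ∧ y i < b i := by
    intro y hy
    constructor
    · intro j
      have h1 := hy j
      by_cases hj : j = i
      · subst hj
        rw [ami, bfi] at h1
        rw [ami]
        omega
      · rw [amj j hj, bfj j hj] at h1
        rw [amj j hj]
        omega
    · have h1 := hy i
      rw [ami, bfi] at h1
      omega
  -- steps inside `[a, b]`
  have hup : ∀ y ∈ Set.Icc a b, ∀ j, y j < b j → stp y j 1 ∈ Set.Icc a b := by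
    intro y hy j hj
    refine ⟨hg2_mk fun k => ?_, hg2_mk fun k => ?_⟩
    · have h1 := hg2_pl hy.1 k
      by_cases hk : k = j
      · rw [hk, stp_same]; rw [hk] at h1; omega
      · rw [stp_ne _ _ hk]; exact h1
    · have h1 := hg2_pl hy.2 k
      by_cases hk : k = j
      · rw [hk, stp_same]; omega
      · rw [stp_ne _ _ hk]; exact h1
  have hdn : ∀ y ∈ Set.Icc a b, ∀ j, a j < y j → stp y j (-1) ∈ Set.Icc a b := by
    intro y hy j hj
    refine ⟨hg2_mk fun k => ?_, hg2_mk fun k => ?_⟩
    · have h1 := hg2_pl hy.1 k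
      by_cases hk : k = j
      · rw [hk, stp_same]; omega
      · rw [stp_ne _ _ hk]; exact h1
    · have h1 := hg2_pl hy.2 k
      by_cases hk : k = j
      · rw [hk, stp_same]; rw [hk] at h1; omega
      · rw [stp_ne _ _ hk]; exact h1
  have hIcc : ∀ y ∈ Set.Icc a b, y ∈ Set.Icc (Function.update a i (a i - 1)) b := by
    intro y hy
    refine ⟨hg2_mk fun j => ?_, hy.2⟩
    have h1 := hg2_pl hy.1 j
    by_cases hj : j = i
    · rw [hj, ami]; rw [hj] at h1; omega
    · rw [amj j hj]; exact h1
  refine ⟨?_, ?_, ?_, ?_, ?_, ?_⟩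
  · intro j
    by_cases hj : j = i
    · rw [hj, Function.update_self]; exact Or.inr rfl
    · rw [Function.update_of_ne hj]; exact h.sg j
  · -- off
    intro y hy hn j hj
    obtain ⟨hn1, hn2⟩ := hnr y hn
    by_cases hji : j = i
    · subst hji
      rw [Function.update_self, if_pos rfl, neg_neg]
      rcases hy with hy | hy
      · refine ⟨Or.inl (h.onUp y hy hn1 j hi (Or.inl hn2)), ?_⟩
        by_cases hc : a j - 1 < y j ∨ y j ∉ T j
        · refine Or.inl (Or.inl (h.onDn y hy hn1 j hi ?_))
          rw [ami]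
          exact hc
        · push Not at hc
          exact Or.inr (Finset.mem_union_left _ hc.2)
      · refine ⟨Or.inr (hup y hy j hn2), ?_⟩
        by_cases hc : a j < y j
        · exact Or.inl (Or.inr (hdn y hy j hc))
        · right
          have h1 : y j = a j := le_antisymm (not_lt.1 hc) (hg2_pl hy.1 j)
          rw [h1]
          simp
    · have hjK : j ∉ K := fun hjK => hj (Finset.mem_erase.2 ⟨hji, hjK⟩)
      rw [Function.update_of_ne hji, if_neg hji, if_neg hjK]
      rcases hy with hy | hy
      · obtain ⟨h1, h2⟩ := h.off y hy hn1 j hjK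
        exact ⟨Or.inl h1, h2.imp Or.inl id⟩
      · refine ⟨Or.inl (h.supp y (hIcc y hy) j hjK), Or.inr ?_⟩
        obtain ⟨h1, h2, -⟩ := h.flat j hjK
        rw [amj j hji] at h1 h2
        have h3 := hg2_pl hy.1 j
        have h4 := hg2_pl hy.2 j
        have h5 : y j = a j := by omega
        rw [h5]
        exact h2
  · -- onUp
    intro y hy hn j hj hT
    obtain ⟨hn1, hn2⟩ := hnr y hn
    obtain ⟨hji, hjK⟩ := Finset.mem_erase.1 hj
    rw [if_neg hji, if_pos hjK, bfj j hji] at hT
    rcases hy with hy | hy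
    · left
      refine h.onUp y hy hn1 j hjK ?_
      exact hT.imp id fun h1 h2 => h1 (Finset.mem_union_left _ h2)
    · right
      apply hup y hy j
      rcases hT with h1 | h1
      · exact h1
      · refine lt_of_le_of_ne (hg2_pl hy.2 j) fun h2 => h1 ?_
        rw [h2]
        simp
  · -- onDn
    intro y hy hn j hj hT
    obtain ⟨hn1, hn2⟩ := hnr y hn
    obtain ⟨hji, hjK⟩ := Finset.mem_erase.1 hj
    rw [if_neg hji, if_pos hjK, amj j hji] at hT
    rcases hy with hy | hy
    · left
      refine h.onDn y hy hn1 j hjK ?_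
      rw [amj j hji]
      exact hT.imp id fun h1 h2 => h1 (Finset.mem_union_left _ h2)
    · right
      apply hdn y hy j
      rcases hT with h1 | h1
      · exact h1
      · refine lt_of_le_of_ne (hg2_pl hy.1 j) fun h2 => h1 ?_
        rw [← h2]
        simp
  · -- supp
    intro y hy j hj
    have hyi : y i = a i - 1 := by
      have h1 := hg2_pl hy.1 i
      have h2 := hg2_pl hy.2 i
      rw [ami] at h1
      rw [bfi] at h2
      omega
    by_cases hji : j = i
    · subst hji
      rw [Function.update_self, neg_neg]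
      right
      refine ⟨hg2_mk fun k => ?_, hg2_mk fun k => ?_⟩
      · have h1 := hg2_pl hy.1 k
        by_cases hk : k = j
        · rw [hk, stp_same, hyi]; omega
        · rw [stp_ne _ _ hk]
          rw [amj k hk] at h1
          exact h1
      · have h1 := hg2_pl hy.2 k
        by_cases hk : k = j
        · rw [hk, stp_same, hyi]; omega
        · rw [stp_ne _ _ hk]
          rw [bfj k hk] at h1
          exact h1
    · have hjK : j ∉ K := fun hjK => hj (Finset.mem_erase.2 ⟨hji, hjK⟩)
      rw [Function.update_of_ne hji]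
      left
      refine h.supp y ⟨hy.1, hg2_mk fun k => ?_⟩ j hjK
      have h1 := hg2_pl hy.2 k
      by_cases hk : k = i
      · rw [hk, hyi]; omega
      · rw [bfj k hk] at h1
        exact h1
  · -- flat
    intro j hj
    by_cases hji : j = i
    · subst hji
      rw [ami, bfi, Function.update_self, if_pos rfl]
      refine ⟨rfl, by simp, ?_⟩
      have h1 : a j - 1 - -1 = a j := by ring
      rw [h1]
      simp
    · have hjK : j ∉ K := fun hjK => hj (Finset.mem_erase.2 ⟨hji, hjK⟩)
      rw [amj j hji, bfj j hji, Function.update_of_ne hji, if_neg hji, if_neg hjK]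
      have h1 := h.flat j hjK
      rw [amj j hji] at h1
      exact h1

/-- **[HD-G2d]** The empty set is a context in the full dimension (all clauses are vacuous). -/
theorem Ctx.empty (a b : Fin d → ℤ) (r : ℕ) :
    Ctx (∅ : Set (Fin d → ℤ)) Finset.univ a b (fun _ => 1) (fun _ => ∅) r := by
  refine ⟨fun _ => Or.inl rfl, ?_, ?_, ?_, ?_, ?_⟩
  · intro y hy
    exact absurd hy (Set.notMem_empty y)
  · intro y hy
    exact absurd hy (Set.notMem_empty y)
  · intro y hy
    exact absurd hy (Set.notMem_empty y)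
  · intro y _ i hi
    exact absurd (Finset.mem_univ i) hi
  · intro i hi
    exact absurd (Finset.mem_univ i) hi

end Pool.Agent.MP_f7f40d_pr.HD
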