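import Pool.Agent.MP_f7f40d_pr.HD.Defs

set_option autoImplicit false

namespace Pool.Agent.MP_f7f40d_pr.HD

variable {d : ℕ}

/-- **[HD-G3a]** Counting of the allowed neighbours near a boundary point.  `K ⊆ S ⊆ W'`, `y ∈ K`, all
neighbours of `y` in `S` are in `K`; the neighbour of `y` in the direction `-τ i` is in `W'`, and the
one in the direction `τ i` is in `W'` or `y i ∈ T i`.

PROOF. Let `a = ⟨T, fun _ => false, fun i => -τ i⟩` and `e i = -τ i` if `y i ∈ T i`, `e i = ε i`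
otherwise; then `acnt a K ε y = ∑ i, ind (stp y i (e i) ∈ K)`.  For each `i` the neighbours with signs
`1`, `-1` are those with signs `e i`, `-e i`, so
`cnt S y + cnt W'ᶜ y = ∑ i, (ind (stp y i (e i) ∈ S) + ind (stp y i (e i) ∉ W') +
  ind (stp y i (-e i) ∈ S) + ind (stp y i (-e i) ∉ W'))`.  The second term is `0` (if `y i ∈ T i`:
`e i = -τ i`; if `y i ∉ T i` both neighbours are in `W'`), the last two add up to at most `1`
(`S ⊆ W'`), and the first is `≤ ind (stp y i (e i) ∈ K)`.  So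
`d + 5 ≤ acnt a K ε y + d`. -/
theorem acnt_ge (W' S K : Set (Fin d → ℤ)) (y : Fin d → ℤ) (τ : Fin d → ℤ) (hτ : ∀ i, Sg (τ i))
    (T : Fin d → Finset ℤ) (hSW : S ⊆ W')
    (hK : ∀ i s, Sg s → stp y i s ∈ S → stp y i s ∈ K)
    (h1 : ∀ i, stp y i (-τ i) ∈ W') (h2 : ∀ i, stp y i (τ i) ∈ W' ∨ y i ∈ T i)
    (hc : d + 5 ≤ cnt S y + cnt W'ᶜ y) (ε : Fin d → ℤ) (hε : ∀ i, Sg (ε i)) :
    3 ≤ acnt ⟨T, fun _ => false, fun i => -τ i⟩ K ε y := by
  have hT : acnt ⟨T, fun _ => false, fun i => -τ i⟩ K ε y =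
      ∑ i, ind (stp y i (if y i ∈ T i then -τ i else ε i) ∈ K) := by
    unfold acnt
    refine Finset.sum_congr rfl fun i _ => ?_
    by_cases h : y i ∈ T i
    · simp [h]
    · simp [h]
  have hsum : cnt S y + cnt W'ᶜ y ≤ ∑ i, (ind (stp y i (if y i ∈ T i then -τ i else ε i) ∈ K) + 1) := by
    unfold cnt
    rw [← Finset.sum_add_distrib]
    refine Finset.sum_le_sum fun i _ => ?_
    -- the sign
    have key : ∀ e : ℤ, Sg e → stp y i e ∈ W' →
        ind (stp y i e ∈ S) + ind (stp y i (-e) ∈ S) +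
          (ind (stp y i e ∈ W'ᶜ) + ind (stp y i (-e) ∈ W'ᶜ)) ≤ ind (stp y i e ∈ K) + 1 := by
      intro e he hW
      have e1 : ind (stp y i e ∈ W'ᶜ) = 0 := ind_false fun h => h hW
      have e2 : ind (stp y i e ∈ S) ≤ ind (stp y i e ∈ K) := ind_mono (hK i e he)
      have e3 : ind (stp y i (-e) ∈ S) + ind (stp y i (-e) ∈ W'ᶜ) ≤ 1 := by
        by_cases h : stp y i (-e) ∈ W'
        · rw [ind_false (p := stp y i (-e) ∈ W'ᶜ) fun h' => h' h]
          exact ind_le_one _
        · rw [ind_false (p := stp y i (-e) ∈ S) fun h' => h (hSW h')]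
          have := ind_le_one (stp y i (-e) ∈ W'ᶜ)
          omega
      omega
    have key2 : ∀ e : ℤ, Sg e → stp y i e ∈ W' →
        ind (stp y i 1 ∈ S) + ind (stp y i (-1) ∈ S) +
          (ind (stp y i 1 ∈ W'ᶜ) + ind (stp y i (-1) ∈ W'ᶜ)) ≤ ind (stp y i e ∈ K) + 1 := by
      intro e he hW
      have h3 := key e he hW
      rcases he with rfl | rfl
      · exact h3
      · rw [neg_neg] at h3
        omega
    by_cases h : y i ∈ T i
    · rw [if_pos h]
      refine key2 (-τ i) ?_ (h1 i)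
      rcases hτ i with h4 | h4
      · exact Or.inr (by rw [h4])
      · exact Or.inl (by rw [h4, neg_neg])
    · rw [if_neg h]
      have h5 : stp y i (τ i) ∈ W' := (h2 i).resolve_right h
      have h6 := h1 i
      refine key2 (ε i) (hε i) ?_
      rcases hτ i with h4 | h4 <;> rcases hε i with h7 | h7 <;> rw [h7] <;> rw [h4] at h5 h6
      · exact h5
      · exact h6
      · simpa using h6
      · exact h5
  rw [Finset.sum_add_distrib] at hsum
  simp only [Finset.sum_const, Finset.card_univ, Fintype.card_fin, smul_eq_mul, mul_one] at hsum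
  rw [hT]
  omega

end Pool.Agent.MP_f7f40d_pr.HD
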