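import Pool.Agent.MP_f7f40d_pr.HD.Defs

set_option autoImplicit false

namespace Pool.Agent.MP_f7f40d_pr.HD

variable {d : ℕ}

/-- good sets -/
def hi1_good (N : ℕ → Set (Fin d → ℤ)) (R2 T : ℕ → ℕ) (n : ℕ) (S : Set (Fin d → ℤ)) : Prop :=
  S ⊆ zone N R2 n ∧ (∀ y ∈ S, ∀ z ∈ S, Nr (T n) y z) ∧
    (∀ y ∈ S, ∀ i s, Sg s → stp y i s ∈ zone N R2 n → stp y i s ∈ S)

theorem hi1_zone_mono (N : ℕ → Set (Fin d → ℤ)) (R2 : ℕ → ℕ) (n : ℕ) :
    zone N R2 n ⊆ zone N R2 (n + 1) := by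
  rintro x ⟨k, hk, y, hy, h⟩
  exact ⟨k, by omega, y, hy, h⟩

theorem hi1_zone_succ {N : ℕ → Set (Fin d → ℤ)} {R2 : ℕ → ℕ} {n : ℕ} {x : Fin d → ℤ}
    (hx : x ∈ zone N R2 (n + 1)) : x ∈ zone N R2 n ∨ ∃ c ∈ N n, Nr (R2 n) x c := by
  obtain ⟨k, hk, y, hy, h⟩ := hx
  rcases Nat.lt_succ_iff_lt_or_eq.1 hk with hk | rfl
  · exact Or.inl ⟨k, hk, y, hy, h⟩
  · exact Or.inr ⟨y, hy, h⟩

/-- **[HD-I1]** Islands of the zones of levels `< n`.

PROOF. Induction on `n` (for `n = 0` the zone is empty).  Write `V_n = zone N R2 n`; call a set `S`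
good for `n` if `S ⊆ V_n`, any two points of `S` satisfy `Nr (T n)`, and `S` is closed:
`y ∈ S`, `stp y i s ∈ V_n` imply `stp y i s ∈ S`.  By the induction hypothesis every point of `V_n`
is in a good set `S` (with the extra information about `m`, `c`).  Let `x ∈ V_{n+1}`.

Case A: there is `c ∈ N n` such that either `Nr (R2 n) x c`, or `x` is in a set `S`, good for `n`, which
comes close to `c`: `∃ w ∈ S, ∃ v, Nr 1 w v ∧ Nr (R2 n) v c`.  Define
`Q = {y | Nr (R2 n) y c} ∪ {y | ∃ S, S good for n ∧ y ∈ S ∧ ∃ w ∈ S, ∃ v, Nr 1 w v ∧ Nr (R2 n) v c}`.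
Then `Q ⊆ V_{n+1}`; every `y ∈ Q` satisfies `Nr (R2 n + T n + 1) y c`, so two points are within
`2 (R2 n + T n + 1) ≤ T (n+1)`.  `Q` is closed for `n+1`: let `y ∈ Q`, `z = stp y i s ∈ V_{n+1}`.
If `z ∈ V_n`: if `y ∈ S` (second kind) then `y ∈ V_n`, and `z ∈ S` by closedness, so `z ∈ Q`; if
`Nr (R2 n) y c`, take a good `S'` containing `z`, `w = z`, `v = y` (`Nr_stp`).  If `z ∉ V_n` then
`Nr (R2 n) z c'` for some `c' ∈ N n`; `|c - c'| ≤ (R2 n + T n + 1) + 1 + R2 n ≤ ρ n`, so `c' = c` and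
`z ∈ Q`.  Last clause with `m = n`, `c`: if `j < n + 1`, `z ∈ N j`, `y ∈ Q`, `Nr (R2 j) y z`, then
`j < n` or `j = n` and `|c - z| ≤ (R2 n + T n + 1) + R2 n ≤ ρ n`, `z = c`.

Case B: otherwise `x ∈ V_n`; let `S ∋ x` be the set of the induction hypothesis (with its `m`, `c`).
No point of `S` comes close to a `c' ∈ N n`.  Take `Q = S`: closed for `n + 1`, since a neighbour `z`
of `y ∈ S` with `Nr (R2 n) z c'` would make `S` close to `c'` (`w = y`, `v = z`); the diameter bound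
by `T n ≤ T (n+1)`; last clause: for `j < n` from the induction hypothesis, for `j = n` a point
`y ∈ S` with `Nr (R2 n) y z` would make `S` close to `z` (`w = v = y`). -/
theorem island (N : ℕ → Set (Fin d → ℤ)) (R2 T ρ : ℕ → ℕ) (hT0 : T 0 = 0)
    (hT : ∀ n, 2 * (R2 n + T n + 1) ≤ T (n + 1)) (hρ : ∀ n, 2 * R2 n + 2 * T n + 3 ≤ ρ n)
    (hs : Sepa N ρ) (n : ℕ) (x : Fin d → ℤ) (hx : x ∈ zone N R2 n) :
    ∃ Q : Set (Fin d → ℤ), x ∈ Q ∧ Q ⊆ zone N R2 n ∧ (∀ y ∈ Q, ∀ z ∈ Q, Nr (T n) y z) ∧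
      (∀ y ∈ Q, ∀ i s, Sg s → stp y i s ∈ zone N R2 n → stp y i s ∈ Q) ∧
      ∃ m, m < n ∧ ∃ c ∈ N m, (∀ y ∈ Q, Nr (R2 m + T m + 1) y c) ∧
        ∀ j, j < n → ∀ z ∈ N j, (∃ y ∈ Q, Nr (R2 j) y z) → j < m ∨ (j = m ∧ z = c) := by
  induction n generalizing x with
  | zero =>
    obtain ⟨k, hk, -⟩ := hx
    omega
  | succ n ih =>
    by_cases hA : ∃ c ∈ N n, Nr (R2 n) x c ∨ ∃ S, hi1_good N R2 T n S ∧ x ∈ S ∧
        ∃ w ∈ S, ∃ v, Nr 1 w v ∧ Nr (R2 n) v c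
    · obtain ⟨c, hc, hxc⟩ := hA
      have hnear : ∀ y, (Nr (R2 n) y c ∨ ∃ S, hi1_good N R2 T n S ∧ y ∈ S ∧
          ∃ w ∈ S, ∃ v, Nr 1 w v ∧ Nr (R2 n) v c) → Nr (R2 n + T n + 1) y c := by
        rintro y (h | ⟨S, hS, hy, w, hw, v, h1, h2⟩)
        · exact h.mono (by omega)
        · exact (((hS.2.1 y hy w hw).trans h1).trans h2).mono (by omega)
      refine ⟨{y | Nr (R2 n) y c ∨ ∃ S, hi1_good N R2 T n S ∧ y ∈ S ∧
        ∃ w ∈ S, ∃ v, Nr 1 w v ∧ Nr (R2 n) v c}, hxc, ?_, ?_, ?_, n, by omega, c, hc, hnear, ?_⟩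
      · rintro y (h | ⟨S, hS, hy, -⟩)
        · exact ⟨n, by omega, c, hc, h⟩
        · exact hi1_zone_mono N R2 n (hS.1 hy)
      · intro y hy z hz
        exact ((hnear y hy).trans (hnear z hz).symm).mono (by have := hT n; omega)
      · intro y hy i s hs' hz
        have hyz : Nr 1 (stp y i s) y := Nr_stp y i hs'
        by_cases hzn : stp y i s ∈ zone N R2 n
        · rcases hy with h | ⟨S, hS, hy', w, hw, v, h1, h2⟩
          · obtain ⟨S', hzS', h1', h2', h3', -⟩ := ih _ hzn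
            exact Or.inr ⟨S', ⟨h1', h2', h3'⟩, hzS', _, hzS', y, hyz, h⟩
          · exact Or.inr ⟨S, hS, hS.2.2 y hy' i s hs' hzn, w, hw, v, h1, h2⟩
        · rcases hi1_zone_succ hz with h | ⟨c', hc', h⟩
          · exact absurd h hzn
          · have hcc : Nr (ρ n) c c' :=
              (((hnear y hy).symm.trans hyz.symm).trans h).mono (by have := hρ n; omega)
            have := hs n c hc c' hc' hcc
            subst this
            exact Or.inl h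
      · rintro j hj z hz ⟨y, hy, hyz⟩
        rcases Nat.lt_succ_iff_lt_or_eq.1 hj with hj | rfl
        · exact Or.inl hj
        · refine Or.inr ⟨rfl, ?_⟩
          have hcc : Nr (ρ j) c z :=
            ((hnear y hy).symm.trans hyz).mono (by have := hρ j; omega)
          exact (hs j c hc z hz hcc).symm
    · push Not at hA
      have hxn : x ∈ zone N R2 n := by
        rcases hi1_zone_succ hx with h | ⟨c', hc', h⟩
        · exact h
        · exact absurd h (hA c' hc').1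
      obtain ⟨S, hxS, hS1, hS2, hS3, m, hm, c, hc, hS4, hS5⟩ := ih x hxn
      refine ⟨S, hxS, fun y hy => hi1_zone_mono N R2 n (hS1 hy), ?_, ?_, m, by omega, c, hc, hS4, ?_⟩
      · intro y hy z hz
        exact (hS2 y hy z hz).mono (by have := hT n; omega)
      · intro y hy i s hs' hz
        rcases hi1_zone_succ hz with h | ⟨c', hc', h⟩
        · exact hS3 y hy i s hs' h
        · exact absurd h ((hA c' hc').2 S ⟨hS1, hS2, hS3⟩ hxS y hy _ (Nr_stp y i hs').symm)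
      · rintro j hj z hz ⟨y, hy, hyz⟩
        rcases Nat.lt_succ_iff_lt_or_eq.1 hj with hj | rfl
        · exact hS5 j hj z hz ⟨y, hy, hyz⟩
        · exact absurd hyz ((hA z hz).2 S ⟨hS1, hS2, hS3⟩ hxS y hy y (Nr.refl 1 y))

end Pool.Agent.MP_f7f40d_pr.HD
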