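import Pool.Agent.MP_f7f40d_pr.HD.Defs

set_option autoImplicit false

namespace Pool.Agent.MP_f7f40d_pr.HD

variable {d : ℕ}

/-- Allowed directions. -/
def hp3_All (a : Ax d) (ε : Fin d → ℤ) (x : Fin d → ℤ) (i : Fin d) (s : ℤ) : Prop :=
  (x i ∈ a.T i ∧ (a.two i = true ∨ s = a.σ i)) ∨ (x i ∉ a.T i ∧ s = ε i)

/-- All directions. -/
def hp3_dir : Finset (Fin d × ℤ) := Finset.univ ×ˢ {1, -1}

theorem hp3_mem_dir (e : Fin d × ℤ) : e ∈ (hp3_dir : Finset (Fin d × ℤ)) ↔ Sg e.2 := by
  unfold hp3_dir Sg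
  rw [Finset.mem_product]
  simp

open Classical in
theorem hp3_acnt (a : Ax d) (hσ : ∀ i, Sg (a.σ i)) (F : Set (Fin d → ℤ)) (ε : Fin d → ℤ)
    (hε : ∀ i, Sg (ε i)) (x : Fin d → ℤ) :
    acnt a F ε x = ((hp3_dir : Finset (Fin d × ℤ)).filter
      fun e => hp3_All a ε x e.1 e.2 ∧ stp x e.1 e.2 ∈ F).card := by
  unfold acnt
  rw [Finset.card_filter]
  unfold hp3_dir
  rw [Finset.sum_product]
  refine Finset.sum_congr rfl fun i _ => ?_
  rw [Finset.sum_pair (by norm_num)]
  unfold hp3_All ind
  by_cases hx : x i ∈ a.T i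
  · by_cases h2 : a.two i = true
    · simp [hx, h2]
    · rcases hσ i with h | h
      · simp [hx, h2, h]
      · simp [hx, h2, h]
  · rcases hε i with h | h
    · simp [hx, h]
    · simp [hx, h]

theorem hp3_sum_stp (f : Fin d → ℤ → ℤ) (x : Fin d → ℤ) (i : Fin d) (s : ℤ) :
    ∑ l, f l (stp x i s l) = ∑ l, f l (x l) + (f i (x i + s) - f i (x i)) := by
  rw [← Finset.add_sum_erase Finset.univ (fun l => f l (stp x i s l)) (Finset.mem_univ i),
    ← Finset.add_sum_erase Finset.univ (fun l => f l (x l)) (Finset.mem_univ i)]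
  have h : ∑ l ∈ Finset.univ.erase i, f l (stp x i s l) =
      ∑ l ∈ Finset.univ.erase i, f l (x l) := by
    refine Finset.sum_congr rfl fun l hl => ?_
    rw [stp_ne _ _ (Finset.ne_of_mem_erase hl)]
  rw [h]
  simp only [stp_same]
  ring

theorem hp3_blk {β : ℕ} (hβ : 0 < β) (p x z : Fin d → ℤ) :
    blk β p x = z ↔ ∀ i, β * z i + p i ≤ x i ∧ x i ≤ β * z i + p i + β - 1 := by
  have hβ' : (0 : ℤ) < β := by exact_mod_cast hβ
  constructor
  · rintro rfl i
    unfold blk
    have h1 := Int.emod_add_mul_ediv (x i - p i) β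
    have h2 := Int.emod_nonneg (x i - p i) (b := (β : ℤ)) (by omega)
    have h3 := Int.emod_lt_of_pos (x i - p i) hβ'
    constructor <;> linarith
  · intro h
    funext i
    unfold blk
    obtain ⟨h1, h2⟩ := h i
    apply le_antisymm
    · apply Int.lt_add_one_iff.mp
      apply Int.ediv_lt_of_lt_mul hβ'
      nlinarith
    · apply (Int.le_ediv_iff_mul_le hβ').mpr
      nlinarith

/-- The potential. -/
noncomputable def hp3_w (B : Prop) (t s u : ℤ) : ℤ := by
  classical
  exact if B then max (s * (u - t)) 0 else s * u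

open Classical in
/-- Terms of the potentials. -/
noncomputable def hp3_f (B : Prop) (t : ℤ) (c : ℤ → ℤ) (u : ℤ) : ℤ :=
  c 1 * hp3_w B t 1 u + c (-1) * hp3_w B t (-1) u

theorem hp3_f_sg (B : Prop) (t : ℤ) (c : ℤ → ℤ) (u s : ℤ) (hs : Sg s) :
    hp3_f B t c u = c s * hp3_w B t s u + c (-s) * hp3_w B t (-s) u := by
  unfold hp3_f
  rcases hs with rfl | rfl
  · rfl
  · rw [neg_neg]; ring

theorem hp3_wB {B : Prop} (h : B) (t s u : ℤ) : hp3_w B t s u = max (s * (u - t)) 0 := by
  unfold hp3_w; rw [if_pos h]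

theorem hp3_wA {B : Prop} (h : ¬ B) (t s u : ℤ) : hp3_w B t s u = s * u := by
  unfold hp3_w; rw [if_neg h]

/-- Moving forward in the direction `s`. -/
theorem hp3_f_fwd (B : Prop) (t : ℤ) (c : ℤ → ℤ) (u s : ℤ) (hs : Sg s)
    (hB : B → 0 ≤ s * (u - t)) (hA : ¬ B → c (-s) = 0) :
    hp3_f B t c (u + s) - hp3_f B t c u = c s := by
  rw [hp3_f_sg B t c _ s hs, hp3_f_sg B t c _ s hs]
  have hs2 : s * s = 1 := by rcases hs with rfl | rfl <;> norm_num
  by_cases h : B
  · have h0 := hB h
    rw [hp3_wB h, hp3_wB h, hp3_wB h, hp3_wB h]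
    have e1 : s * (u + s - t) = s * (u - t) + 1 := by linear_combination hs2
    have e2 : -s * (u + s - t) = -(s * (u - t)) - 1 := by linear_combination -hs2
    have e3 : -s * (u - t) = -(s * (u - t)) := by ring
    rw [e1, e2, e3, max_eq_left (by omega), max_eq_right (by omega), max_eq_left (by omega),
      max_eq_right (by omega)]
    ring
  · simp only [hp3_wA h, hA h]
    linear_combination c s * hs2

/-- Moving backward. -/
theorem hp3_f_bwd (B : Prop) (t : ℤ) (c : ℤ → ℤ) (u s : ℤ) (hs : Sg s)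
    (hB : B → 1 ≤ s * (u - t)) (hA : ¬ B → c (-s) = 0) :
    hp3_f B t c (u + -s) - hp3_f B t c u = - c s := by
  have h := hp3_f_fwd B t c (u + -s) s hs (by
    intro hb
    have hs2 : s * s = 1 := by rcases hs with rfl | rfl <;> norm_num
    have := hB hb
    have e : s * (u + -s - t) = s * (u - t) - 1 := by linear_combination -hs2
    omega) hA
  have e : u + -s + s = u := by ring
  rw [e] at h
  linarith


/-- **[HD-P3]** One step of block renormalisation.  `F` has at least three allowed neighbours off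
`Q ∪ H`; near every block `z` which does not meet `H` the set `Q` is a box (possibly empty: `lo > hi`)
with sides `≤ s`; special positions are far (`≥ s + 2`) from the faces of the blocks.  Then the set
`F'` of blocks has at least three allowed neighbours off the blocks meeting `H`.

PROOF. Let `z ∈ F'`, `z ∉ blk '' H`, let `ε'` be signs, put `𝒜` = set of the directions `(i, s)`
counted in `acnt (a.map β p) F' ε' z` (for `z_i` not special: only `(i, ε'_i)`; for `z_i` special:
`(i, σ_i)`, or `(i, 1)` and `(i, -1)` if `two i`) and let `E ⊆ 𝒜` be the set of those directions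
`e = (i,s) ∈ 𝒜` with `stp z i s ∈ F'`.  So `acnt (a.map β p) F' ε' z = |E|`.  ASSUME `|E| ≤ 2`.

`Y := {x ∈ F : x ∉ Q, x ∉ H, blk x = z}` is non-empty (`z ∈ F'`, `z ∉ blk '' H`) and finite (it is
contained in the block `β z_i + p_i ≤ x_i ≤ β z_i + p_i + β - 1`).  Let `lo, hi` be given by `hQ`.

FINE SIGNS. For `x ∈ Y` put `ε_i = ε'_i` if `z_i` is not special (then `x_i` is not special);
if `z_i` is special and not `two i`: `ε_i = σ_i`; if `z_i` is special and `two i`, `a.T i = {t}`
(with `(t - p_i)/β = z_i`): `ε_i = 1` if `t < x_i`, else `-1`.  Call a direction `(i,s)` ALLOWED AT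
`x` if it is counted in `acnt a F ε x`: `s = ε_i` if `x_i ∉ a.T i`, `s = σ_i` if `x_i ∈ a.T i` and
not `two i`, `s = ±1` if `x_i ∈ a.T i` and `two i`.  Every direction allowed at `x` is in `𝒜`.

POTENTIALS (integers). For `(i, s) ∈ 𝒜` and a coordinate `u` let `w_{(i,s)}(u) = s·u` if not
(`two i` and `z_i` special), and `w_{(i,s)}(u) = max (s·(u - t)) 0` if `two i`, `z_i` special,
`a.T i = {t}`.  If `(i,s)` is allowed at `x` then `w_{(i,s)} (x_i + s) = w_{(i,s)}(x_i) + 1`, and for
the opposite sign (if `(i,-s) ∈ 𝒜`, two-sided case, `s(x_i - t) ≥ 0`):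
`w_{(i,-s)}(x_i + s) = w_{(i,-s)}(x_i) = 0`.
`V(x) := ∑_{(i,s) ∈ 𝒜 \ E} w_{(i,s)}(x_i)`.
`S(x) := ∑_{(i,s) ∈ E} η_{(i,s)} w_{(i,s)}(x_i)`, where `η_{(i,s)} = 1` (forward) if
`hi_i + 1 ≤ β z_i + p_i + β - 1` (case `s = 1`), resp. `lo_i - 1 ≥ β z_i + p_i` (case `s = -1`), and
`η_{(i,s)} = -1` (backward) otherwise.

Choose `x ∈ Y` with `(V(x), S(x))` lexicographically maximal.  By `Three`: `3 ≤ acnt a F ε x`.

(1) Let `(i,s)` be allowed at `x`, `w := stp x i s ∈ F`, `(i,s) ∉ E`.  CLAIM `w ∈ Q`.  Suppose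
`w ∉ Q`.  If `blk w = z` then `w ∉ H` (as `z ∉ blk '' H`), so `w ∈ Y`, and `V(w) > V(x)`,
contradiction.  If `blk w ≠ z` then `blk w = stp z i s` (only the coordinate `i` changed, by `s`).
If `stp z i s ∈ blk '' H` then it is in `F'` by the second alternative; otherwise `w ∉ H`, `w ∉ Q`,
so it is in `F'` by the first alternative.  So `(i,s) ∈ E`, contradiction.
Since `w` is in the 1-neighbourhood of the block `z`, `w ∈ Q` means `lo ≤ w ≤ hi`; and `x ∉ Q` (in
the block) means that `x` is not in the box; hence exactly the coordinate `i` of `x` is out of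
`[lo_i, hi_i]` and `i`, `s` are determined by `x`: there is at most one such direction; call it
`δ = (j, s_δ)`.  All coordinates `x_l`, `l ≠ j`, satisfy `lo_l ≤ x_l ≤ hi_l`.

(2) So `acnt a F ε x ≤ 1 + |{e ∈ E : e allowed at x}| ≤ 3`; hence equality: `δ` exists, `|E| = 2`,
both `e ∈ E` are allowed at `x` and `stp x e ∈ F`.

(3) At least one `e = (i,s) ∈ E` has `i ≠ j` (otherwise both elements of `E` are `(j, 1)`, `(j, -1)`,
one of which is `δ ∉ E`).  Take it.  `lo_i ≤ x_i ≤ hi_i`.
 * Forward (`η_e = 1`): `x' := stp x i s ∈ F`.  `x'_j = x_j ∉ [lo_j, hi_j]`, so `x'` is not in the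
   box; `x'` is in the block by the definition of forward; so `x' ∈ Y`.  `V(x') = V(x)` (no term of
   `V` with axis `i` changes: only `(i,-s)` could occur, in the two-sided case, and it is constant
   `= 0`), `S(x') = S(x) + 1`.  Contradiction.
 * Backward: say `s = 1` (the case `s = -1` is symmetric); `hi_i ≥ u := β z_i + p_i + β - 1`, so
   `x_i ≥ lo_i ≥ hi_i - s_box ≥ u - s_box` (`s_box` the bound for the sides): `x_i` is not special,
   since special positions `t` in the block satisfy `t ≤ u - (s_box + 2)`.  Replace `ε_i` by `-s`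
   in `ε` (all other signs unchanged): `acnt` changes only in the term `i`, from
   `ind (stp x i s ∈ F) = 1` to `ind (stp x i (-s) ∈ F)`; since it is still `≥ 3` and was `= 3`, we
   get `x' := stp x i (-s) ∈ F`.  `x'` is not in the box (coordinate `j`), it is in the block
   (`x_i - 1 ≥ u - s_box - 1 ≥ β z_i + p_i` by `hβ`).  So `x' ∈ Y`; `V(x') = V(x)` as before
   (two-sided case: `t < x_i`, so `t ≤ x'_i`), and `S(x') = S(x) + 1` since
   `w_e` decreases by `1` and `η_e = -1` (two-sided case: `x_i - t ≥ 1`).  Contradiction.  ∎ -/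
theorem ssl (a : Ax d) (ha : a.Ok) (F Q H : Set (Fin d → ℤ)) (β s : ℕ) (p : Fin d → ℤ)
    (hβ : 2 * s + 6 ≤ β)
    (hsp : ∀ i, ∀ t ∈ a.T i, ((s + 2 : ℕ) : ℤ) ≤ (t - p i) % (β : ℤ) ∧
      (t - p i) % (β : ℤ) ≤ β - 1 - ((s + 2 : ℕ) : ℤ))
    (hQ : ∀ z, z ∉ blk β p '' H → ∃ lo hi : Fin d → ℤ, (∀ i, hi i - lo i ≤ s) ∧
      ∀ x, (∀ i, β * z i + p i - 1 ≤ x i ∧ x i ≤ β * z i + p i + β) →
        (x ∈ Q ↔ ∀ i, lo i ≤ x i ∧ x i ≤ hi i))
    (h3 : Three a F (Q ∪ H)) :
    Three (a.map β p)
      {z | (z ∉ blk β p '' H ∧ ∃ x ∈ F, x ∉ Q ∧ x ∉ H ∧ blk β p x = z) ∨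
        (z ∈ blk β p '' H ∧ ∃ x ∈ F, blk β p x = z)}
      (blk β p '' H) := by
  classical
  obtain ⟨hσ, htwo⟩ := ha
  have hβ0 : 0 < β := by omega
  have hβ0' : (0 : ℤ) < β := by exact_mod_cast hβ0
  set F' : Set (Fin d → ℤ) := {z | (z ∉ blk β p '' H ∧ ∃ x ∈ F, x ∉ Q ∧ x ∉ H ∧ blk β p x = z) ∨
        (z ∈ blk β p '' H ∧ ∃ x ∈ F, blk β p x = z)} with hF'
  intro z hz hzH ε' hε'
  by_contra hlt
  rw [not_le] at hlt
  have hσ' : ∀ i, Sg ((a.map β p).σ i) := hσ
  rw [hp3_acnt (a.map β p) hσ' F' ε' hε' z] at hlt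
  -- special positions
  have hmapT : ∀ i, ∀ u ∈ a.T i, (u - p i) / (β : ℤ) = z i → z i ∈ (a.map β p).T i := by
    intro i u hu h
    show z i ∈ (a.T i).image fun t => (t - p i) / (β : ℤ)
    rw [Finset.mem_image]
    exact ⟨u, hu, h⟩
  have hT1 : ∀ i, ∃ t, a.two i = true → ∀ y ∈ a.T i, y = t := by
    intro i
    by_cases h2 : a.two i = true
    · have h := htwo i h2
      rcases Finset.card_le_one_iff_subset_singleton.mp h with ⟨t, ht⟩
      exact ⟨t, fun _ y hy => Finset.mem_singleton.mp (ht hy)⟩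
    · exact ⟨0, fun h => absurd h h2⟩
  choose tt htt using hT1
  -- directions at the coarse level
  set A : Fin d → ℤ → Prop := fun i s => hp3_All (a.map β p) ε' z i s with hAdef
  set E : Fin d → ℤ → Prop := fun i s => A i s ∧ stp z i s ∈ F' with hEdef
  set B : Fin d → Prop := fun i => z i ∈ (a.map β p).T i ∧ a.two i = true with hBdef
  have hAneg : ∀ i s, Sg s → ¬ B i → A i s → ¬ A i (-s) := by
    intro i s hs hB hA hA'
    have hs0 : s ≠ -s := by rcases hs with rfl | rfl <;> norm_num
    rcases hA with ⟨h1, h2⟩ | ⟨h1, h2⟩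
    · rcases hA' with ⟨h3, h4⟩ | ⟨h3, h4⟩
      · rcases h2 with h2 | h2
        · exact hB ⟨h1, h2⟩
        · rcases h4 with h4 | h4
          · exact hB ⟨h1, h4⟩
          · exact hs0 (h2.trans h4.symm)
      · exact h3 h1
    · rcases hA' with ⟨h3, h4⟩ | ⟨h3, h4⟩
      · exact h1 h3
      · exact hs0 (h2.trans h4.symm)
  -- fine signs
  set fe : Fin d → ℤ → ℤ := fun i u =>
    if B i then (if tt i < u then 1 else -1) else
      (if z i ∈ (a.map β p).T i then a.σ i else ε' i) with hfe
  have hfeS : ∀ i u, Sg (fe i u) := by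
    intro i u
    simp only [hfe]
    split_ifs
    · exact Or.inl rfl
    · exact Or.inr rfl
    · exact hσ i
    · exact hε' i
  set Blo : Fin d → ℤ := fun i => β * z i + p i with hBlo
  have hblkz : ∀ x, blk β p x = z ↔ ∀ i, Blo i ≤ x i ∧ x i ≤ Blo i + β - 1 := by
    intro x
    rw [hp3_blk hβ0]
  -- allowed at x implies A
  have hallA : ∀ x, blk β p x = z → ∀ ε : Fin d → ℤ, ∀ i s, (ε i = fe i (x i) ∨ B i) →
      hp3_All a ε x i s → A i s := by
    intro x hx ε i s hε hall
    have hzx : (x i - p i) / (β : ℤ) = z i := congrFun hx i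
    rcases hall with ⟨h1, h2⟩ | ⟨h1, h2⟩
    · exact Or.inl ⟨hmapT i _ h1 hzx, h2⟩
    · by_cases hB : B i
      · exact Or.inl ⟨hB.1, Or.inl hB.2⟩
      · rcases hε with hε | hε
        · rw [hε] at h2
          simp only [hfe, if_neg hB] at h2
          by_cases hzi : z i ∈ (a.map β p).T i
          · rw [if_pos hzi] at h2
            exact Or.inl ⟨hzi, Or.inr h2⟩
          · rw [if_neg hzi] at h2
            exact Or.inr ⟨hzi, h2⟩
        · exact absurd hε hB
  -- sign of the displacement on two-sided axes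
  have hsgn : ∀ x, ∀ ε : Fin d → ℤ, ∀ i s, Sg s → ε i = fe i (x i) → hp3_All a ε x i s → B i →
      0 ≤ s * (x i - tt i) := by
    intro x ε i s hs hε hall hB
    rcases hall with ⟨h1, h2⟩ | ⟨h1, h2⟩
    · rw [htt i hB.2 _ h1]; simp
    · rw [h2, hε]
      simp only [hfe, if_pos hB]
      split_ifs with h
      · omega
      · omega
  have hsgn2 : ∀ x, ∀ ε : Fin d → ℤ, ∀ i s, Sg s → ε i = fe i (x i) → hp3_All a ε x i s → B i →
      x i ∉ a.T i → (∃ y ∈ a.T i, True) → 1 ≤ s * (x i - tt i) := by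
    intro x ε i s hs hε hall hB hx hne
    have h0 := hsgn x ε i s hs hε hall hB
    obtain ⟨y, hy, _⟩ := hne
    have hyt := htt i hB.2 y hy
    rcases lt_or_eq_of_le h0 with h | h
    · omega
    · exfalso
      have hs0 : s ≠ 0 := by rcases hs with rfl | rfl <;> norm_num
      have h3 : x i - tt i = 0 := by
        rcases mul_eq_zero.mp h.symm with h4 | h4
        · exact absurd h4 hs0
        · exact h4
      have h4 : x i = y := by omega
      exact hx (h4 ▸ hy)
  -- the box
  obtain ⟨lo, hi, hlh, hQb⟩ := hQ z hzH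
  set eta : Fin d → ℤ → ℤ := fun i s =>
    if (s = 1 ∧ hi i + 1 ≤ Blo i + β - 1) ∨ (s = -1 ∧ Blo i ≤ lo i - 1) then 1 else -1 with heta
  set V : (Fin d → ℤ) → ℤ := fun x =>
    ∑ l, hp3_f (B l) (tt l) (fun s => if A l s ∧ ¬ E l s then 1 else 0) (x l) with hV
  set S : (Fin d → ℤ) → ℤ := fun x =>
    ∑ l, hp3_f (B l) (tt l) (fun s => if E l s then eta l s else 0) (x l) with hS
  set Y : Set (Fin d → ℤ) := {x | x ∈ F ∧ x ∉ Q ∧ x ∉ H ∧ blk β p x = z} with hY
  have hYfin : Y.Finite := by
    refine (Set.finite_Icc Blo fun i => Blo i + β - 1).subset ?_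
    intro x hx
    have h := (hblkz x).mp hx.2.2.2
    exact ⟨fun i => (h i).1, fun i => (h i).2⟩
  have hYne : Y.Nonempty := by
    rcases hz with ⟨_, x, h1, h2, h3, h4⟩ | ⟨h, _⟩
    · exact ⟨x, h1, h2, h3, h4⟩
    · exact absurd h hzH
  obtain ⟨x, hxY, hmax⟩ := Set.exists_max_image Y (fun x => toLex (V x, S x)) hYfin hYne
  have hmaxV : ∀ x' ∈ Y, V x' ≤ V x := by
    intro x' hx'
    have h := hmax x' hx'
    rw [Prod.Lex.le_iff] at h
    rcases h with h | h
    · exact le_of_lt h
    · exact le_of_eq h.1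
  have hmaxS : ∀ x' ∈ Y, V x' = V x → S x' ≤ S x := by
    intro x' hx' hVe
    have h := hmax x' hx'
    rw [Prod.Lex.le_iff] at h
    rcases h with h | h
    · exact absurd hVe (ne_of_lt h)
    · exact h.2
  obtain ⟨hxF, hxQ, hxH, hxz⟩ := hxY
  have hxblk := (hblkz x).mp hxz
  have hxbox : ¬ ∀ l, lo l ≤ x l ∧ x l ≤ hi l := by
    intro h
    refine hxQ ((hQb x ?_).mpr h)
    intro l
    have := hxblk l
    simp only [hBlo] at this
    constructor <;> omega
  have hnotH : ∀ w, blk β p w = z → w ∉ H := fun w hw hwH => hzH ⟨w, hwH, hw⟩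
  set ε : Fin d → ℤ := fun i => fe i (x i) with hεdef
  have hεS : ∀ i, Sg (ε i) := fun i => hfeS i _
  have hE1 : ∀ i s, E i s → A i s := fun i s h => h.1
  -- (1)
  have step1 : ∀ i s, Sg s → hp3_All a ε x i s → stp x i s ∈ F → ¬ E i s →
      ∀ l, lo l ≤ stp x i s l ∧ stp x i s l ≤ hi l := by
    intro i s hs hall hwF hnE
    have hAis : A i s := hallA x hxz ε i s (Or.inl rfl) hall
    have hnF' : stp z i s ∉ F' := fun h => hnE ⟨hAis, h⟩
    have hwQ : stp x i s ∈ Q := by
      by_contra hwQ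
      by_cases hbw : blk β p (stp x i s) = z
      · have hwY : stp x i s ∈ Y := ⟨hwF, hwQ, hnotH _ hbw, hbw⟩
        have h1 := hmaxV _ hwY
        simp only [hV] at h1
        rw [hp3_sum_stp (fun l u => hp3_f (B l) (tt l) (fun s => if A l s ∧ ¬ E l s then 1 else 0) u)
          x i s] at h1
        have h2 := hp3_f_fwd (B i) (tt i) (fun s => if A i s ∧ ¬ E i s then 1 else 0) (x i) s hs
          (hsgn x ε i s hs rfl hall) (fun hB => if_neg fun h => hAneg i s hs hB hAis h.1)
        rw [h2] at h1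
        simp only [if_pos (show A i s ∧ ¬ E i s from ⟨hAis, hnE⟩)] at h1
        omega
      · have hbw2 : blk β p (stp x i s) = stp z i s := by
          rw [hp3_blk hβ0]
          intro l
          by_cases hl : l = i
          · subst hl
            rw [stp_same, stp_same]
            have h1 := hxblk l
            have h2 : ¬ (Blo l ≤ x l + s ∧ x l + s ≤ Blo l + β - 1) := by
              intro h
              apply hbw
              rw [hblkz]
              intro k
              by_cases hk : k = l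
              · rw [hk, stp_same]; exact h
              · rw [stp_ne _ _ hk]; exact hxblk k
            simp only [hBlo] at h1 h2
            rcases hs with rfl | rfl
            · have e : (β : ℤ) * (z l + 1) = β * z l + β := by ring
              rw [e]
              constructor <;> omega
            · have e : (β : ℤ) * (z l + -1) = β * z l - β := by ring
              rw [e]
              constructor <;> omega
          · rw [stp_ne _ _ hl, stp_ne _ _ hl]
            have := hxblk l
            simp only [hBlo] at this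
            exact this
        apply hnF'
        by_cases hzz : stp z i s ∈ blk β p '' H
        · exact Or.inr ⟨hzz, _, hwF, hbw2⟩
        · exact Or.inl ⟨hzz, _, hwF, hwQ, fun h => hzz ⟨_, h, hbw2⟩, hbw2⟩
    refine (hQb _ ?_).mp hwQ
    intro l
    have h1 := hxblk l
    simp only [hBlo] at h1
    by_cases hl : l = i
    · subst hl
      rw [stp_same]
      rcases hs with rfl | rfl <;> constructor <;> omega
    · rw [stp_ne _ _ hl]; constructor <;> omega
  -- uniqueness
  have uniq : ∀ i s i' s', Sg s → Sg s' →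
      (∀ l, lo l ≤ stp x i s l ∧ stp x i s l ≤ hi l) →
      (∀ l, lo l ≤ stp x i' s' l ∧ stp x i' s' l ≤ hi l) → i = i' ∧ s = s' := by
    intro i s i' s' hs hs' h h'
    have hi1 : i = i' := by
      by_contra hne
      apply hxbox
      intro l
      by_cases hl : l = i
      · have := h' l
        rwa [stp_ne _ _ (by rw [hl]; exact hne)] at this
      · have := h l
        rwa [stp_ne _ _ hl] at this
    subst hi1
    refine ⟨rfl, ?_⟩
    by_contra hne
    apply hxbox
    intro l
    by_cases hl : l = i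
    · subst hl
      have h1 := h l
      have h2 := h' l
      rw [stp_same] at h1 h2
      rcases hs with rfl | rfl <;> rcases hs' with rfl | rfl
      · exact absurd rfl hne
      · constructor <;> omega
      · constructor <;> omega
      · exact absurd rfl hne
    · have := h l
      rwa [stp_ne _ _ hl] at this
  -- counting
  have h3x : 3 ≤ acnt a F ε x := h3 x hxF (by rintro (h | h); exacts [hxQ h, hxH h]) ε hεS
  rw [hp3_acnt a hσ F ε hεS x] at h3x
  set C : Finset (Fin d × ℤ) := (hp3_dir : Finset (Fin d × ℤ)).filter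
      fun e => hp3_All a ε x e.1 e.2 ∧ stp x e.1 e.2 ∈ F with hC
  set EE : Finset (Fin d × ℤ) := (hp3_dir : Finset (Fin d × ℤ)).filter
      fun e => hp3_All (a.map β p) ε' z e.1 e.2 ∧ stp z e.1 e.2 ∈ F' with hEE
  have hmemEE : ∀ e : Fin d × ℤ, e ∈ EE ↔ Sg e.2 ∧ E e.1 e.2 := by
    intro e
    rw [hEE, Finset.mem_filter, hp3_mem_dir]
  have hmemC : ∀ e : Fin d × ℤ, e ∈ C ↔ Sg e.2 ∧ hp3_All a ε x e.1 e.2 ∧ stp x e.1 e.2 ∈ F := by
    intro e
    rw [hC, Finset.mem_filter, hp3_mem_dir]
  have hcard1 : (C \ EE).card ≤ 1 := by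
    rw [Finset.card_le_one]
    intro e he e' he'
    rw [Finset.mem_sdiff, hmemC, hmemEE] at he he'
    have h1 := step1 e.1 e.2 he.1.1 he.1.2.1 he.1.2.2 fun h => he.2 ⟨he.1.1, h⟩
    have h2 := step1 e'.1 e'.2 he'.1.1 he'.1.2.1 he'.1.2.2 fun h => he'.2 ⟨he'.1.1, h⟩
    obtain ⟨h3, h4⟩ := uniq _ _ _ _ he.1.1 he'.1.1 h1 h2
    exact Prod.ext h3 h4
  have hcard2 : (C \ EE).card + (C ∩ EE).card = C.card := Finset.card_sdiff_add_card_inter C EE
  have hcard3 : (C ∩ EE).card ≤ EE.card := Finset.card_le_card Finset.inter_subset_right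
  have hlt2 : EE.card < 3 := by
    refine lt_of_eq_of_lt ?_ hlt
    rw [hEE]
    congr
  have hEEc : EE.card = 2 := by omega
  have hCc : C.card = 3 := by omega
  have hsub : EE ⊆ C := by
    have h1 : C ∩ EE = EE := Finset.eq_of_subset_of_card_le Finset.inter_subset_right (by omega)
    intro e he
    rw [← h1] at he
    exact (Finset.mem_inter.mp he).1
  have hdel : (C \ EE).Nonempty := by
    rw [← Finset.card_pos]; omega
  obtain ⟨⟨j, sd⟩, hδ⟩ := hdel
  rw [Finset.mem_sdiff, hmemC, hmemEE] at hδ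
  obtain ⟨⟨hsd, hδall, hδF⟩, hδE⟩ := hδ
  simp only at hsd hδall hδF hδE
  have hδE' : ¬ E j sd := fun h => hδE ⟨hsd, h⟩
  have hδbox := step1 j sd hsd hδall hδF hδE'
  have hxl : ∀ l, l ≠ j → lo l ≤ x l ∧ x l ≤ hi l := by
    intro l hl
    have := hδbox l
    rwa [stp_ne _ _ hl] at this
  have hxj : ¬ (lo j ≤ x j ∧ x j ≤ hi j) := by
    intro h
    apply hxbox
    intro l
    by_cases hl : l = j
    · rw [hl]; exact h
    · exact hxl l hl
  -- choose the direction e
  have hex : ∃ e ∈ EE, e.1 ≠ j := by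
    by_contra hno
    push Not at hno
    have hsubs : EE ⊆ {((j, sd) : Fin d × ℤ), (j, -sd)} := by
      intro e he
      have h1 := hno e he
      have h2 := ((hmemEE e).mp he).1
      rw [Finset.mem_insert, Finset.mem_singleton]
      obtain ⟨e1, e2⟩ := e
      simp only at h1 h2 ⊢
      subst h1
      rcases h2 with rfl | rfl <;> rcases hsd with rfl | rfl <;> simp
    have hc : ({((j, sd) : Fin d × ℤ), (j, -sd)} : Finset (Fin d × ℤ)).card ≤ 2 :=
      Finset.card_le_two
    have heq : EE = {((j, sd) : Fin d × ℤ), (j, -sd)} :=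
      Finset.eq_of_subset_of_card_le hsubs (by omega)
    have : ((j, sd) : Fin d × ℤ) ∈ EE := by rw [heq]; simp
    exact hδE' ((hmemEE _).mp this).2
  obtain ⟨⟨i, s'⟩, heE, hij⟩ := hex
  simp only at hij
  have heC := (hmemC _).mp (hsub heE)
  have heE' := (hmemEE _).mp heE
  obtain ⟨hs', hall, hxF'⟩ := heC
  obtain ⟨_, hEi⟩ := heE'
  simp only at hs' hall hxF' hEi
  have hAi : A i s' := hEi.1
  have hxi := hxl i hij
  have hxbi := hxblk i
  have hlhi := hlh i
  -- membership in Y of a neighbour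
  have memY : ∀ r : ℤ, stp x i r ∈ F → Blo i ≤ x i + r → x i + r ≤ Blo i + β - 1 →
      stp x i r ∈ Y := by
    intro r hF1 h1 h2
    have hb : blk β p (stp x i r) = z := by
      rw [hblkz]
      intro l
      by_cases hl : l = i
      · rw [hl, stp_same]; exact ⟨h1, h2⟩
      · rw [stp_ne _ _ hl]; exact hxblk l
    refine ⟨hF1, ?_, hnotH _ hb, hb⟩
    intro hq
    apply hxj
    have h3 := (hQb _ (by
      intro l
      have h4 := (hblkz _).mp hb l
      simp only [hBlo] at h4
      constructor <;> omega)).mp hq j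
    rwa [stp_ne _ _ (Ne.symm hij)] at h3
  have hc1 : ∀ B' : ¬ B i, (if A i (-s') ∧ ¬ E i (-s') then (1 : ℤ) else 0) = 0 := fun hB =>
    if_neg fun h => hAneg i s' hs' hB hAi h.1
  have hc2 : ∀ B' : ¬ B i, (if E i (-s') then eta i (-s') else 0) = 0 := fun hB =>
    if_neg fun h => hAneg i s' hs' hB hAi (hE1 _ _ h)
  have hc3 : (if A i s' ∧ ¬ E i s' then (1 : ℤ) else 0) = 0 := if_neg fun h => h.2 hEi
  by_cases hfw : (s' = 1 ∧ hi i + 1 ≤ Blo i + β - 1) ∨ (s' = -1 ∧ Blo i ≤ lo i - 1)
  · -- forward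
    have hY' : stp x i s' ∈ Y := by
      apply memY s' hxF'
      · rcases hfw with ⟨rfl, h⟩ | ⟨rfl, h⟩ <;> omega
      · rcases hfw with ⟨rfl, h⟩ | ⟨rfl, h⟩ <;> omega
    have hV' : V (stp x i s') = V x := by
      simp only [hV]
      rw [hp3_sum_stp (fun l u => hp3_f (B l) (tt l) (fun s => if A l s ∧ ¬ E l s then 1 else 0) u)
          x i s']
      rw [hp3_f_fwd (B i) (tt i) (fun s => if A i s ∧ ¬ E i s then 1 else 0) (x i) s' hs'
          (hsgn x ε i s' hs' rfl hall) hc1]
      rw [hc3, add_zero]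
    have hS' : S (stp x i s') = S x + 1 := by
      simp only [hS]
      rw [hp3_sum_stp (fun l u => hp3_f (B l) (tt l) (fun s => if E l s then eta l s else 0) u)
          x i s']
      rw [hp3_f_fwd (B i) (tt i) (fun s => if E i s then eta i s else 0) (x i) s' hs'
          (hsgn x ε i s' hs' rfl hall) hc2]
      simp only [if_pos hEi, heta, if_pos hfw]
    have := hmaxS _ hY' hV'
    omega
  · -- backward
    have hspec : x i ∉ a.T i := by
      intro hx
      have h1 := hsp i (x i) hx
      have h2 := Int.emod_add_mul_ediv (x i - p i) β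
      have h3 : (x i - p i) / (β : ℤ) = z i := congrFun hxz i
      rw [h3] at h2
      simp only [hBlo] at hfw hxbi
      push_cast at h1
      rcases hs' with rfl | rfl
      · have h4 : ¬ hi i + 1 ≤ β * z i + p i + β - 1 := fun h => hfw (Or.inl ⟨rfl, h⟩)
        omega
      · have h4 : ¬ β * z i + p i ≤ lo i - 1 := fun h => hfw (Or.inr ⟨rfl, h⟩)
        omega
    have hεi : s' = ε i := by
      rcases hall with ⟨h1, _⟩ | ⟨_, h2⟩
      · exact absurd h1 hspec
      · exact h2
    -- change the sign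
    have hF2 : stp x i (-s') ∈ F := by
      by_contra hnF
      set ε2 : Fin d → ℤ := Function.update ε i (-s') with hε2
      have hε2S : ∀ l, Sg (ε2 l) := by
        intro l
        by_cases hl : l = i
        · rw [hl, hε2, Function.update_self]
          rcases hs' with h | h
          · rw [h]; exact Or.inr rfl
          · rw [h]; exact Or.inl (by norm_num)
        · rw [hε2, Function.update_of_ne hl]; exact hεS l
      have h4 : 3 ≤ acnt a F ε2 x := h3 x hxF (by rintro (h | h); exacts [hxQ h, hxH h]) ε2 hε2S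
      rw [hp3_acnt a hσ F ε2 hε2S x] at h4
      have hsub2 : (hp3_dir : Finset (Fin d × ℤ)).filter
          (fun e => hp3_All a ε2 x e.1 e.2 ∧ stp x e.1 e.2 ∈ F) ⊆ C.erase (i, s') := by
        intro e he
        rw [Finset.mem_filter, hp3_mem_dir] at he
        obtain ⟨he1, he2, he3⟩ := he
        rw [Finset.mem_erase, hmemC]
        have hei : e.1 ≠ i := by
          intro hei
          rcases he2 with ⟨h5, _⟩ | ⟨_, h6⟩
          · rw [hei] at h5; exact hspec h5
          · rw [hei, hε2, Function.update_self] at h6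
            rw [hei, h6] at he3
            exact hnF he3
        refine ⟨fun h => hei (by rw [h]), he1, ?_, he3⟩
        rcases he2 with h5 | ⟨h5, h6⟩
        · exact Or.inl h5
        · rw [hε2, Function.update_of_ne hei] at h6
          exact Or.inr ⟨h5, h6⟩
      have h5 := Finset.card_le_card hsub2
      rw [Finset.card_erase_of_mem (hsub heE)] at h5
      omega
    have hY' : stp x i (-s') ∈ Y := by
      apply memY (-s') hF2
      · simp only [hBlo] at hfw hxbi ⊢
        rcases hs' with rfl | rfl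
        · have h4 : ¬ hi i + 1 ≤ β * z i + p i + β - 1 := fun h => hfw (Or.inl ⟨rfl, h⟩)
          omega
        · omega
      · simp only [hBlo] at hfw hxbi ⊢
        rcases hs' with rfl | rfl
        · omega
        · have h4 : ¬ β * z i + p i ≤ lo i - 1 := fun h => hfw (Or.inr ⟨rfl, h⟩)
          omega
    have hB1 : B i → 1 ≤ s' * (x i - tt i) := by
      intro hB
      refine hsgn2 x ε i s' hs' rfl hall hB hspec ?_
      have h1 := hB.1
      change z i ∈ (a.T i).image _ at h1
      rw [Finset.mem_image] at h1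
      obtain ⟨y, hy, _⟩ := h1
      exact ⟨y, hy, trivial⟩
    have hV' : V (stp x i (-s')) = V x := by
      simp only [hV]
      rw [hp3_sum_stp (fun l u => hp3_f (B l) (tt l) (fun s => if A l s ∧ ¬ E l s then 1 else 0) u)
          x i (-s')]
      rw [hp3_f_bwd (B i) (tt i) (fun s => if A i s ∧ ¬ E i s then 1 else 0) (x i) s' hs' hB1 hc1]
      rw [hc3, neg_zero, add_zero]
    have hS' : S (stp x i (-s')) = S x + 1 := by
      simp only [hS]
      rw [hp3_sum_stp (fun l u => hp3_f (B l) (tt l) (fun s => if E l s then eta l s else 0) u)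
          x i (-s')]
      rw [hp3_f_bwd (B i) (tt i) (fun s => if E i s then eta i s else 0) (x i) s' hs' hB1 hc2]
      simp only [if_pos hEi, heta, if_neg hfw]
      ring
    have := hmaxS _ hY' hV'
    omega


end Pool.Agent.MP_f7f40d_pr.HD
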