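import Pool.Agent.MP_f7f40d_pr.HD.Defs

set_option autoImplicit false

namespace Pool.Agent.MP_f7f40d_pr.HD

variable {d : ℕ}

theorem hp4_comp (b β : ℕ) (hb : 0 < b) (o p x : ℤ) :
    ((x - o) / (b : ℤ) - p) / (β : ℤ) = (x - (o + b * p)) / ((b * β : ℕ) : ℤ) := by
  have hb' : (b : ℤ) ≠ 0 := by exact_mod_cast hb.ne'
  have e : x - (o + b * p) = (x - o) + b * (-p) := by ring
  rw [e, Nat.cast_mul, ← Int.ediv_ediv_of_nonneg (Int.natCast_nonneg b),
    Int.add_mul_ediv_left _ _ hb', sub_eq_add_neg]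

/-- **[HD-P4a]** Composition of block maps.

PROOF. Coordinatewise: `((x - o)/b - p)/β = ((x - o - b p)/b)/β = (x - (o + b p))/(b β)`
(`Int.sub_mul_ediv_right`/`Int.add_mul_ediv_left`, `Int.ediv_ediv_eq_ediv_mul`). -/
theorem blk_blk (b β : ℕ) (hb : 0 < b) (o p x : Fin d → ℤ) :
    blk β p (blk b o x) = blk (b * β) (fun i => o i + b * p i) x := by
  funext i
  exact hp4_comp b β hb (o i) (p i) (x i)

/-- **[HD-P4b]** The image of a cube under the block map is a box.

PROOF. `⊆`: monotonicity of `t ↦ (t - o_i)/b` (`Int.ediv_le_ediv`).  `⊇`: coordinatewise, every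
integer `k` between `(y_i - R - o_i)/b` and `(y_i + R - o_i)/b` is `(t - o_i)/b` for some `t` with
`|t - y_i| ≤ R`: take `t = max (y_i - R) (b k + o_i)`; then `t ≤ y_i + R` since
`b k ≤ b ((y_i + R - o_i)/b) ≤ y_i + R - o_i`, and `(t - o_i)/b = k`: if `t = b k + o_i` clear; if
`t = y_i - R > b k + o_i` then `k ≤ (t - o_i)/b ≤ k` by the lower bound for `k`. -/
theorem blk_cube (b : ℕ) (hb : 0 < b) (o y : Fin d → ℤ) (R : ℕ) (z : Fin d → ℤ) :
    (∃ x, Nr R x y ∧ blk b o x = z) ↔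
      ∀ i, (y i - R - o i) / (b : ℤ) ≤ z i ∧ z i ≤ (y i + R - o i) / (b : ℤ) := by
  have hb' : (0 : ℤ) < b := by exact_mod_cast hb
  constructor
  · rintro ⟨x, hx, rfl⟩ i
    have h1 := abs_le.1 (hx i)
    unfold blk
    exact ⟨Int.ediv_le_ediv hb' (by linarith [h1.1]), Int.ediv_le_ediv hb' (by linarith [h1.2])⟩
  · intro h
    have key : ∀ i, ∃ t : ℤ, |t - y i| ≤ R ∧ (t - o i) / (b : ℤ) = z i := by
      intro i
      obtain ⟨h1, h2⟩ := h i
      have h3 : z i * b ≤ y i + R - o i := (Int.le_ediv_iff_mul_le hb').1 h2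
      rcases le_total (y i - R) (b * z i + o i) with hc | hc
      · refine ⟨b * z i + o i, ?_, ?_⟩
        · rw [abs_le]
          constructor <;> nlinarith
        · have e : (b : ℤ) * z i + o i - o i = b * z i := by ring
          rw [e, Int.mul_ediv_cancel_left _ hb'.ne']
      · refine ⟨y i - R, ?_, ?_⟩
        · rw [abs_le]
          have hR : (0 : ℤ) ≤ R := Int.natCast_nonneg R
          constructor <;> linarith
        · apply le_antisymm h1
          rw [Int.le_ediv_iff_mul_le hb']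
          nlinarith
    choose x hx1 hx2 using key
    exact ⟨x, hx1, funext hx2⟩

/-- **[HD-P4c]** Side of the image box.

PROOF. `Int.ediv` arithmetic: with `u = y - R - o`, `(u + 2R)/b ≤ u/b + 2R/b + 1`: write
`u = b (u/b) + r₁`, `2R = b (2R/b) + r₂` with `0 ≤ r₁, r₂ < b`, so `u + 2R < b (u/b + 2R/b + 2)`. -/
theorem blk_side (b : ℕ) (hb : 0 < b) (o y : ℤ) (R : ℕ) :
    (y + R - o) / (b : ℤ) - (y - R - o) / (b : ℤ) ≤ ((2 * R / b + 1 : ℕ) : ℤ) := by
  have hb' : (0 : ℤ) < b := by exact_mod_cast hb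
  push_cast
  have h1 := Int.lt_ediv_add_one_mul_self (y - R - o) hb'
  have h2 := Int.lt_ediv_add_one_mul_self (2 * (R : ℤ)) hb'
  have h3 : (y + R - o) / (b : ℤ) < (y - R - o) / (b : ℤ) + 2 * (R : ℤ) / (b : ℤ) + 2 := by
    apply Int.ediv_lt_of_lt_mul hb'
    nlinarith
  linarith

/-- **[HD-P4d]** The block map `(t - o)/b` sends points far apart to points far apart: if the images
of `x` and `x'` are both in the 1-neighbourhood `[β z + p - 1, β z + p + β]` of a block of
the next level, then `|x - x'| ≤ b (β + 2)`.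

PROOF. `(x - o)/b =: k`, `(x' - o)/b =: k'`, `|k - k'| ≤ β + 1`,
`x - o = b k + r₁`, `x' - o = b k' + r₂`, `0 ≤ r₁, r₂ ≤ b - 1`. -/
theorem blk_near (b β : ℕ) (hb : 0 < b) (o p z x x' : ℤ)
    (h : β * z + p - 1 ≤ (x - o) / (b : ℤ) ∧ (x - o) / (b : ℤ) ≤ β * z + p + β)
    (h' : β * z + p - 1 ≤ (x' - o) / (b : ℤ) ∧ (x' - o) / (b : ℤ) ≤ β * z + p + β) :
    |x - x'| ≤ b * (β + 2) := by
  have hb' : (0 : ℤ) < b := by exact_mod_cast hb
  have h1 := Int.lt_ediv_add_one_mul_self (x - o) hb'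
  have h2 := Int.lt_ediv_add_one_mul_self (x' - o) hb'
  have h3 := Int.ediv_mul_le (x - o) hb'.ne'
  have h4 := Int.ediv_mul_le (x' - o) hb'.ne'
  set k := (x - o) / (b : ℤ) with hk
  set k' := (x' - o) / (b : ℤ) with hk'
  have h5 : k - k' ≤ β + 1 := by linarith [h.2, h'.1]
  have h6 : k' - k ≤ β + 1 := by linarith [h.1, h'.2]
  have h7 : (k - k') * b ≤ (β + 1) * b := mul_le_mul_of_nonneg_right h5 hb'.le
  have h8 : (k' - k) * b ≤ (β + 1) * b := mul_le_mul_of_nonneg_right h6 hb'.le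
  rw [abs_le]
  constructor <;> nlinarith

/-- **[HD-P4e]** The image of well-formed axis data is well-formed, the number of special positions
does not grow, and images compose.

PROOF. `Finset.card_image_le`; `Finset.image_image` and `blk_blk`-arithmetic in one coordinate. -/
theorem ax_map_ok (a : Ax d) (ha : a.Ok) (β : ℕ) (p : Fin d → ℤ) :
    (a.map β p).Ok ∧ ∀ i, ((a.map β p).T i).card ≤ (a.T i).card := by
  have h : ∀ i, ((a.map β p).T i).card ≤ (a.T i).card := fun i => Finset.card_image_le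
  exact ⟨⟨ha.1, fun i hi => (h i).trans (ha.2 i hi)⟩, h⟩

theorem ax_map_map (a : Ax d) (b β : ℕ) (hb : 0 < b) (o p : Fin d → ℤ) :
    (a.map b o).map β p = a.map (b * β) (fun i => o i + b * p i) := by
  unfold Ax.map
  congr 1
  funext i
  rw [Finset.image_image]
  apply Finset.image_congr
  intro t _
  exact hp4_comp b β hb (o i) (p i) t

end Pool.Agent.MP_f7f40d_pr.HD
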