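import Pool.Agent.MP_f7f40d_pr.HD.P1
import Pool.Agent.MP_f7f40d_pr.HD.P3
import Pool.Agent.MP_f7f40d_pr.HD.P4

set_option autoImplicit false

namespace Pool.Agent.MP_f7f40d_pr.HD

variable {d : ℕ}

/-- The invariant of the renormalisation: after `n` steps. -/
def Lev (a : Ax d) (F : Set (Fin d → ℤ)) (N : ℕ → Set (Fin d → ℤ)) (Rb b : ℕ → ℕ)
    (l n : ℕ) : Prop :=
  ∃ o : Fin d → ℤ, ∃ F' : Set (Fin d → ℤ), F'.Finite ∧
    Three (a.map (b n) o) F'
      {z | ∃ m, n ≤ m ∧ m < l ∧ ∃ y ∈ N m, ∃ x, Nr (Rb m) x y ∧ blk (b n) o x = z} ∧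
    ∀ x ∈ F, blk (b n) o x ∈ F' ∨ ∃ m, m < n ∧ m < l ∧ ∃ y ∈ N m, Nr (Rb m + b m) x y

theorem hp5_pos (N0 : ℕ) (Rb b : ℕ → ℕ) (hb0 : b 0 = 1)
    (hb : ∀ n, (16 * N0 + 16) * (Rb n + b n) ≤ b (n + 1)) : ∀ n, 0 < b n := by
  intro n
  induction n with
  | zero => rw [hb0]; exact Nat.one_pos
  | succ n ih =>
    refine lt_of_lt_of_le ?_ (hb n)
    positivity

/-- the numerical facts on the block size -/
theorem hp5_num (N0 R b0 b1 : ℕ) (h0 : 0 < b0) (hd : b0 ∣ b1)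
    (hb : (16 * N0 + 16) * (R + b0) ≤ b1) :
    b0 * (b1 / b0) = b1 ∧ 2 * (2 * R / b0 + 1) + 6 ≤ b1 / b0 ∧
      2 * (2 * R / b0 + 1 + 2) * N0 < b1 / b0 := by
  have h1 : b0 * (b1 / b0) = b1 := Nat.mul_div_cancel' hd
  set β := b1 / b0 with hβ
  set q := R / b0 with hq
  have h2 : q * b0 ≤ R := Nat.div_mul_le_self R b0
  have h3 : 2 * R / b0 ≤ 2 * q + 1 := by
    have h4 : R < (q + 1) * b0 := by
      have := Nat.lt_succ_iff.2 (le_refl q)
      rw [hq]
      exact Nat.lt_mul_of_div_lt (Nat.lt_succ_self _) h0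
    have h5 : 2 * R / b0 < 2 * q + 2 := by
      rw [Nat.div_lt_iff_lt_mul h0]
      nlinarith
    omega
  have h6 : (16 * N0 + 16) * (q + 1) ≤ β := by
    have h7 : ((16 * N0 + 16) * (q + 1)) * b0 ≤ β * b0 := by
      rw [mul_comm β b0, h1]
      refine le_trans ?_ hb
      calc ((16 * N0 + 16) * (q + 1)) * b0 = (16 * N0 + 16) * (q * b0 + b0) := by ring
        _ ≤ (16 * N0 + 16) * (R + b0) := by gcongr
    exact Nat.le_of_mul_le_mul_right h7 h0
  refine ⟨h1, ?_, ?_⟩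
  · nlinarith
  · have h8 : 2 * (2 * R / b0 + 1 + 2) * N0 ≤ 2 * (2 * q + 1 + 1 + 2) * N0 := by gcongr
    nlinarith

theorem hp5_same (b : ℕ) (hb : 0 < b) (o x x' : ℤ)
    (h : (x - o) / (b : ℤ) = (x' - o) / (b : ℤ)) : |x - x'| ≤ b := by
  have hb' : (0 : ℤ) < b := by exact_mod_cast hb
  have h1 := Int.lt_ediv_add_one_mul_self (x - o) hb'
  have h2 := Int.lt_ediv_add_one_mul_self (x' - o) hb'
  have h3 := Int.ediv_mul_le (x - o) hb'.ne'
  have h4 := Int.ediv_mul_le (x' - o) hb'.ne'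
  rw [h] at h1 h3
  rw [abs_le]
  constructor <;> linarith

/-- **[HD-P5]** One level of the path lemma.

PROOF. Let `o, F'` be given at level `n < l`.  Put `b₀ = b n > 0` (all `b n` are positive: `b 0 = 1`
and `hb`), `β = b (n+1) / b n` (so `b n * β = b (n+1)`), `s = 2 * Rb n / b n + 1`, `M = s + 2`.
From `hb`: `β ≥ (16 N0 + 16)(Rb n / b n + 1)` (since `b n · β ≥ (16N0+16)(Rb n + b n)
≥ (16N0+16)(Rb n / b n + 1) b n`), hence `2 M N0 < β` and `2 s + 6 ≤ β`
(`s + 2 ≤ 2 (Rb n / b n) + 4`).  By `exists_offset` applied to each `((a.map (b n) o).T i)` (at most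
`N0` elements) get `p`.  Let `Q = {z | ∃ y ∈ N n, ∃ x, Nr (Rb n) x y ∧ blk (b n) o x = z}` and
`H = {z | ∃ m, n+1 ≤ m ∧ m < l ∧ ∃ y ∈ N m, ∃ x, Nr (Rb m) x y ∧ blk (b n) o x = z}`; the obstacle
set of the hypothesis is `Q ∪ H`.  Hypothesis `hQ` of `ssl`: let `z ∉ blk β p '' H` (not even needed);
if no `y ∈ N n` has an `x` with `Nr (Rb n) x y` and `blk (b n) o x` in the 1-neighbourhood of block
`z`, take an empty box (`lo = 1, hi = 0`; here `1 ≤ d` is used); otherwise fix one such `y`; any other such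
`y'` satisfies `|y_i - y'_i| ≤ 2 Rb n + b n (β + 2) ≤ ρ n` (`blk_near`, `hρ`), so `y' = y` by
`Sepa`; so `Q` is, in the 1-neighbourhood, the box of `blk_cube` for `y`, with sides `≤ s` by
`blk_side`.  `ssl` gives `Three` for the new `F'' `, which is finite (contained in the image of `F'`
under `blk β p`).  Use `o' = o + b n · p`, `blk_blk`, `ax_map_map`: `blk β p (blk (b n) o x) =
blk (b (n+1)) o' x`, and `blk β p '' H` is the obstacle set at level `n + 1`.
Covering: let `x ∈ F`.  If `blk (b n) o x ∉ F'` use the old alternative.  Let `w := blk (b n) o x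
∈ F'`.  If `blk β p w ∈ blk β p '' H` it is in `F''` (second alternative).  Otherwise `w ∉ H`; if
`w ∉ Q` then `blk β p w ∈ F''` (first alternative); if `w ∈ Q` there are `y ∈ N n` and `x'` with
`Nr (Rb n) x' y` and `blk (b n) o x' = blk (b n) o x`, so `|x_i - x'_i| ≤ b n` and
`Nr (Rb n + b n) x y`: new alternative with `m = n`. -/
theorem lev_succ (hd : 1 ≤ d) (a : Ax d) (ha : a.Ok) (N0 : ℕ) (hT : ∀ i, (a.T i).card ≤ N0)
    (F : Set (Fin d → ℤ)) (N : ℕ → Set (Fin d → ℤ)) (Rb b ρ : ℕ → ℕ) (hb0 : b 0 = 1)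
    (hbd : ∀ n, b n ∣ b (n + 1)) (hb : ∀ n, (16 * N0 + 16) * (Rb n + b n) ≤ b (n + 1))
    (hρ : ∀ n, 4 * (Rb n + b (n + 1)) ≤ ρ n) (hs : Sepa N ρ) (l n : ℕ) (hn : n < l)
    (h : Lev a F N Rb b l n) : Lev a F N Rb b l (n + 1) := by
  obtain ⟨o, F', hfin, h3, hcov⟩ := h
  have hpos := hp5_pos N0 Rb b hb0 hb n
  obtain ⟨hmul, hβ, hM⟩ := hp5_num N0 (Rb n) (b n) (b (n + 1)) hpos (hbd n) (hb n)
  set β := b (n + 1) / b n with hβdef
  set s := 2 * Rb n / b n + 1 with hsdef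
  have hok := ax_map_ok a ha (b n) o
  have hoff : ∀ i, ∃ p : ℤ, ∀ t ∈ (a.map (b n) o).T i,
      ((s + 2 : ℕ) : ℤ) ≤ (t - p) % (β : ℤ) ∧ (t - p) % (β : ℤ) ≤ β - 1 - ((s + 2 : ℕ) : ℤ) := by
    intro i
    apply exists_offset
    refine lt_of_le_of_lt ?_ hM
    exact Nat.mul_le_mul_left _ ((hok.2 i).trans (hT i))
  choose p hp using hoff
  set Q : Set (Fin d → ℤ) := {z | ∃ y ∈ N n, ∃ x, Nr (Rb n) x y ∧ blk (b n) o x = z} with hQdef
  set H : Set (Fin d → ℤ) :=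
    {z | ∃ m, n + 1 ≤ m ∧ m < l ∧ ∃ y ∈ N m, ∃ x, Nr (Rb m) x y ∧ blk (b n) o x = z} with hHdef
  have hO : {z | ∃ m, n ≤ m ∧ m < l ∧ ∃ y ∈ N m, ∃ x, Nr (Rb m) x y ∧ blk (b n) o x = z} =
      Q ∪ H := by
    ext z
    simp only [hQdef, hHdef, Set.mem_ofPred_eq, Set.mem_union]
    constructor
    · rintro ⟨m, h1, h2, hy⟩
      rcases h1.eq_or_lt with h1 | h1
      · subst h1
        exact Or.inl hy
      · exact Or.inr ⟨m, h1, h2, hy⟩
    · rintro (hy | ⟨m, h1, h2, hy⟩)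
      · exact ⟨n, le_rfl, hn, hy⟩
      · exact ⟨m, by omega, h2, hy⟩
  rw [hO] at h3
  -- the boxes
  have hQ : ∀ z, z ∉ blk β p '' H → ∃ lo hi : Fin d → ℤ, (∀ i, hi i - lo i ≤ s) ∧
      ∀ x, (∀ i, β * z i + p i - 1 ≤ x i ∧ x i ≤ β * z i + p i + β) →
        (x ∈ Q ↔ ∀ i, lo i ≤ x i ∧ x i ≤ hi i) := by
    intro z _
    by_cases hy : ∃ y ∈ N n, ∃ x, Nr (Rb n) x y ∧
        ∀ i, β * z i + p i - 1 ≤ blk (b n) o x i ∧ blk (b n) o x i ≤ β * z i + p i + β
    · obtain ⟨y, hyN, x0, hx0, hx0n⟩ := hy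
      refine ⟨fun i => (y i - Rb n - o i) / (b n : ℤ), fun i => (y i + Rb n - o i) / (b n : ℤ),
        fun i => blk_side (b n) hpos (o i) (y i) (Rb n), ?_⟩
      intro w hw
      rw [← blk_cube (b n) hpos o y (Rb n) w]
      constructor
      · rintro ⟨y', hy'N, x', hx', hx'w⟩
        have hyy : y = y' := by
          apply hs n y hyN y' hy'N
          intro i
          have h4 : |x0 i - x' i| ≤ (b n : ℤ) * (β + 2) := by
            apply blk_near (b n) β hpos (o i) (p i) (z i) (x0 i) (x' i) (hx0n i)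
            have h5 := hw i
            rw [← hx'w] at h5
            exact h5
          have h5 := hx0 i
          have h6 := hx' i
          have h7 : ((b n * β : ℕ) : ℤ) = b (n + 1) := by rw [hmul]
          push_cast at h7
          have h8 : (4 * (Rb n + b (n + 1)) : ℤ) ≤ ρ n := by exact_mod_cast hρ n
          have h9 : (b n : ℤ) ≤ b (n + 1) := by
            rw [← h7]
            have h10 : (1 : ℤ) ≤ β := by
              have : 1 ≤ β := by omega
              exact_mod_cast this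
            have h11 : (0 : ℤ) < b n := by exact_mod_cast hpos
            nlinarith
          have h12 : (b n : ℤ) * (β + 2) = b (n + 1) + 2 * b n := by rw [← h7]; ring
          rw [h12] at h4
          rw [abs_le] at h4 h5 h6 ⊢
          have h13 : (0 : ℤ) ≤ Rb n := Int.natCast_nonneg _
          constructor <;> linarith [h4.1, h4.2, h5.1, h5.2, h6.1, h6.2]
        rw [hyy]
        exact ⟨x', hx', hx'w⟩
      · rintro ⟨x', hx', hx'w⟩
        exact ⟨y, hyN, x', hx', hx'w⟩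
    · refine ⟨fun _ => 1, fun _ => 0, fun i => ?_, ?_⟩
      · simp only
        have : (0 : ℤ) ≤ (s : ℤ) := Int.natCast_nonneg _
        omega
      · intro w hw
        constructor
        · rintro ⟨y, hyN, x, hx, hxw⟩
          exfalso
          apply hy
          refine ⟨y, hyN, x, hx, ?_⟩
          rw [hxw]
          exact hw
        · intro hbox
          exfalso
          have h4 : (1 : ℤ) ≤ w ⟨0, hd⟩ ∧ w ⟨0, hd⟩ ≤ 0 := hbox ⟨0, hd⟩
          omega
  have hssl := ssl (a.map (b n) o) hok.1 F' Q H β s p hβ (fun i t ht => hp i t ht) hQ h3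
  have hblk : ∀ x : Fin d → ℤ, blk β p (blk (b n) o x) =
      blk (b (n + 1)) (fun i => o i + b n * p i) x := by
    intro x
    rw [blk_blk (b n) β hpos, hmul]
  refine ⟨fun i => o i + b n * p i,
    {z | (z ∉ blk β p '' H ∧ ∃ x ∈ F', x ∉ Q ∧ x ∉ H ∧ blk β p x = z) ∨
        (z ∈ blk β p '' H ∧ ∃ x ∈ F', blk β p x = z)}, ?_, ?_, ?_⟩
  · apply (hfin.image (blk β p)).subset
    rintro z (⟨_, x, hx, _, _, hxz⟩ | ⟨_, x, hx, hxz⟩)
    · exact ⟨x, hx, hxz⟩
    · exact ⟨x, hx, hxz⟩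
  · rw [ax_map_map a (b n) β hpos, hmul] at hssl
    have hO' : {z | ∃ m, n + 1 ≤ m ∧ m < l ∧ ∃ y ∈ N m, ∃ x, Nr (Rb m) x y ∧
        blk (b (n + 1)) (fun i => o i + b n * p i) x = z} = blk β p '' H := by
      ext z
      simp only [hHdef, Set.mem_ofPred_eq, Set.mem_image]
      constructor
      · rintro ⟨m, h1, h2, y, hy, x, hx, hxz⟩
        exact ⟨blk (b n) o x, ⟨m, h1, h2, y, hy, x, hx, rfl⟩, by rw [hblk, hxz]⟩
      · rintro ⟨w, ⟨m, h1, h2, y, hy, x, hx, hxw⟩, hwz⟩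
        refine ⟨m, h1, h2, y, hy, x, hx, ?_⟩
        rw [← hblk, hxw, hwz]
    rw [hO']
    exact hssl
  · intro x hx
    rcases hcov x hx with hw | ⟨m, h1, h2, hy⟩
    · rw [← hblk]
      by_cases hwH : blk β p (blk (b n) o x) ∈ blk β p '' H
      · exact Or.inl (Or.inr ⟨hwH, _, hw, rfl⟩)
      · have hwH' : blk (b n) o x ∉ H := fun h4 => hwH ⟨_, h4, rfl⟩
        by_cases hwQ : blk (b n) o x ∈ Q
        · right
          obtain ⟨y, hyN, x', hx', hx'w⟩ := hwQ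
          refine ⟨n, Nat.lt_succ_self n, hn, y, hyN, ?_⟩
          intro i
          have h4 : |x i - x' i| ≤ (b n : ℤ) := by
            apply hp5_same (b n) hpos (o i)
            have h5 := congrFun hx'w i
            exact h5.symm
          have h5 := hx' i
          rw [abs_le] at h4 h5 ⊢
          push_cast
          constructor <;> linarith [h4.1, h4.2, h5.1, h5.2]
        · exact Or.inl (Or.inl ⟨hwH, _, hw, hwQ, hwH', rfl⟩)
    · exact Or.inr ⟨m, by omega, h2, hy⟩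

end Pool.Agent.MP_f7f40d_pr.HD
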