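import Pool.Agent.MP_f7f40d_pr.HD.P2
import Pool.Agent.MP_f7f40d_pr.HD.P5

set_option autoImplicit false

namespace Pool.Agent.MP_f7f40d_pr.HD

variable {d : ℕ}

theorem hp6_blk_one (x : Fin d → ℤ) : blk 1 0 x = x := by
  funext i
  simp [blk]

theorem hp6_map_one (a : Ax d) : a.map 1 0 = a := by
  obtain ⟨T, two, σ⟩ := a
  unfold Ax.map
  congr 1
  funext i
  simp

/-- **[HD-P6] The path lemma.**

PROOF. `Lev a F N Rb b l 0` holds with `o = 0`, `F' = F` (`b 0 = 1`, so `blk 1 0 x = x`,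
`a.map 1 0 = a`; the obstacle set at level `0` is exactly `zone N Rb l`).  By `lev_succ` and induction
`Lev a F N Rb b l l`.  There the obstacle set is empty, so `F' = ∅` by `three_empty` (with
`ax_map_ok`), and the covering clause is the assertion. -/
theorem path_lemma (hd : 1 ≤ d) (a : Ax d) (ha : a.Ok) (N0 : ℕ) (hT : ∀ i, (a.T i).card ≤ N0)
    (F : Set (Fin d → ℤ)) (hF : F.Finite) (N : ℕ → Set (Fin d → ℤ)) (Rb b ρ : ℕ → ℕ)
    (hb0 : b 0 = 1) (hbd : ∀ n, b n ∣ b (n + 1))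
    (hb : ∀ n, (16 * N0 + 16) * (Rb n + b n) ≤ b (n + 1))
    (hρ : ∀ n, 4 * (Rb n + b (n + 1)) ≤ ρ n) (hs : Sepa N ρ) (l : ℕ)
    (h : Three a F (zone N Rb l)) : F ⊆ zone N (fun n => Rb n + b n) l := by
  have h0 : Lev a F N Rb b l 0 := by
    refine ⟨0, F, hF, ?_, fun x hx => Or.inl ?_⟩
    · rw [hb0, hp6_map_one]
      have hset : {z | ∃ m, 0 ≤ m ∧ m < l ∧ ∃ y ∈ N m, ∃ x, Nr (Rb m) x y ∧ blk 1 0 x = z} =
          zone N Rb l := by
        ext z
        constructor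
        · rintro ⟨m, _, hm, y, hy, x, hx, hz⟩
          rw [hp6_blk_one] at hz
          subst hz
          exact ⟨m, hm, y, hy, hx⟩
        · rintro ⟨m, hm, y, hy, hx⟩
          exact ⟨m, Nat.zero_le _, hm, y, hy, z, hx, hp6_blk_one z⟩
      rw [hset]
      exact h
    · rw [hb0, hp6_blk_one]
      exact hx
  have hall : ∀ n, n ≤ l → Lev a F N Rb b l n := by
    intro n
    induction n with
    | zero => exact fun _ => h0
    | succ n ih =>
      intro hn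
      exact lev_succ hd a ha N0 hT F N Rb b ρ hb0 hbd hb hρ hs l n hn (ih (Nat.le_of_succ_le hn))
  obtain ⟨o, F', hF', h3, hcov⟩ := hall l le_rfl
  have hO : {z | ∃ m, l ≤ m ∧ m < l ∧ ∃ y ∈ N m, ∃ x, Nr (Rb m) x y ∧ blk (b l) o x = z} =
      (∅ : Set (Fin d → ℤ)) := by
    rw [Set.eq_empty_iff_forall_notMem]
    rintro z ⟨m, h1, h2, _⟩
    exact absurd h2 (not_lt.mpr h1)
  rw [hO] at h3
  have hE := three_empty (a.map (b l) o) (ax_map_ok a ha (b l) o).1 F' hF' h3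
  intro x hx
  rcases hcov x hx with h1 | ⟨m, _, hm, y, hy, hxy⟩
  · rw [hE] at h1
    exact absurd h1 (Set.notMem_empty _)
  · exact ⟨m, hm, y, hy, hxy⟩

/-- The path lemma for a system of parameters.

PROOF. `path_lemma` with `N0 = 2 d`; for `N0 = 2d`: `16 N0 + 16 = 32 d + 16`. -/
theorem path_par (hd : 1 ≤ d) (P : Par d) (a : Ax d) (ha : a.Ok) (hT : ∀ i, (a.T i).card ≤ 2 * d)
    (F : Set (Fin d → ℤ)) (hF : F.Finite) (N : ℕ → Set (Fin d → ℤ)) (hs : Sepa N P.ρ) (l : ℕ)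
    (h : Three a F (zone N P.Rb l)) : F ⊆ zone N P.R1 l := by
  have hb : ∀ n, (16 * (2 * d) + 16) * (P.Rb n + P.b n) ≤ P.b (n + 1) := by
    intro n
    have h1 := P.hb n
    have h2 : 16 * (2 * d) + 16 = 32 * d + 16 := by ring
    rw [h2]
    exact h1
  exact path_lemma hd a ha (2 * d) hT F hF N P.Rb P.b P.ρ P.b0 P.bdvd hb P.hρ hs l h

end Pool.Agent.MP_f7f40d_pr.HD
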