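import Pool.Agent.MP_f7f40d_pr.HD.Z1
import Pool.Agent.MP_f7f40d_pr.HD.P6
import Pool.Agent.MP_f7f40d_pr.HD.I1
import Pool.Agent.MP_f7f40d_pr.HD.G3a

set_option autoImplicit false

namespace Pool.Agent.MP_f7f40d_pr.HD

variable {d : ℕ}

theorem hg3b_neg {s : ℤ} (h : Sg s) : Sg (-s) := by
  rcases h with rfl | rfl
  · exact Or.inr rfl
  · exact Or.inl (by norm_num)

theorem hg3b_cnt (W S : Set (Fin d → ℤ)) (x y : Fin d → ℤ) (hx : x ∉ W) :
    cnt S y + cnt (W ∪ {x})ᶜ y ≤ cnt (S \ {x}) y + cnt Wᶜ y := by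
  have key : ∀ w : Fin d → ℤ, ind (w ∈ S) + ind (w ∈ (W ∪ {x})ᶜ) ≤
      ind (w ∈ S \ {x}) + ind (w ∈ Wᶜ) := by
    intro w
    by_cases hw : w = x
    · subst hw
      have h1 : ind (w ∈ (W ∪ {w})ᶜ) = 0 := ind_false fun h => h (Or.inr rfl)
      have h2 : ind (w ∈ Wᶜ) = 1 := ind_true hx
      have h3 := ind_le_one (w ∈ S)
      omega
    · have h1 : ind (w ∈ S) ≤ ind (w ∈ S \ {x}) := ind_mono fun h => ⟨h, hw⟩
      have h2 : ind (w ∈ (W ∪ {x})ᶜ) ≤ ind (w ∈ Wᶜ) := ind_mono fun h h' => h (Or.inl h')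
      omega
  unfold cnt
  rw [← Finset.sum_add_distrib, ← Finset.sum_add_distrib]
  refine Finset.sum_le_sum fun i _ => ?_
  have h1 := key (stp y i 1)
  have h2 := key (stp y i (-1))
  omega

/-- **[HD-G3b]** Adding a single site to the filled region.

PROOF. If `x ∈ W` then `W ∪ {x} = W`.  Let `x ∉ W`, `W' = W ∪ {x}`, `S` stable for `W'` (`Stb`).
(1) `S \ {x}` is stable for `W`: it is contained in `W`; for `y ∈ S \ {x}`, `y ∉ Obs`: `y ∉ Sd` and
`cnt (S \ {x}) y + cnt Wᶜ y ≥ cnt S y + cnt W'ᶜ y` (termwise for each neighbour `w`: for `w ≠ x`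
`w ∈ S \ {x} ↔ w ∈ S` and `w ∉ W ↔ w ∉ W'`; for `w = x` the left contribution is `0 + 1` and the
right one is `≤ 1 + 0`).  So `S \ {x} ⊆ Vz P X` by `hF`.
(2) If `x ∉ S` we are done; let `x ∈ S` and suppose `x ∉ Vz P X`.  There is `n` with
`r < 10 T (n+1)` (`n ≤ T n`); let `L` be the least one.  By `Small` and `Par.mono_T`:
`∀ n ≥ L, ∀ y ∈ X n, ¬ Nr (6 r + 2 T (n+1)) x y`, hence (`9 ≤ T (n+1)`) `¬ Nr (6 r + 9 + T (n+1)) x y`:
hypothesis of `zone_loc` with `M = 6 r + 9`; moreover `10 T L ≤ r` (if `L = 0`: `T 0 = 0`).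
Call a set `Q` an ISLAND if it is as in `island` for the level `L` (`Q ⊆ zone N P.R2 L`, two points are
within `T L`, closed in `zone N P.R2 L`).  Let
`K := {x} ∪ {y ∈ S | ∃ Q island, y ∈ Q ∧ ∃ i s, Sg s ∧ stp x i s ∈ Q}`.
Every `y ∈ K` satisfies `Nr (T L + 1) x y`; `K ⊆ S`, `K` is finite (`S ⊆ W'` finite).
Closedness: let `y ∈ K`, `z = stp y i s ∈ S`; then `z ∈ K`: if `z = x` clear; otherwise `z ∈ Vz P X`,
and `Nr (6 r + 9) z x` (`T L + 2 ≤ r/10 + 2`), so `z ∈ zone N P.R2 L` by `zone_loc`; if `y = x` take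
`Q` = the island of `z` (`island`), so `z ∈ K`; if `y ∈ Q` then `z ∈ Q` by closedness.
(3) `Three ⟨T, fun _ => false, fun i => -τ i⟩ K (zone N P.Rb L)`: let `y ∈ K`,
`y ∉ zone N P.Rb L`.  By `zone_loc` (as above; for `y = x` use `Nr _ x x`) `y ∉ Obs P X`, so `Stb` gives
`d + 5 ≤ cnt S y + cnt W'ᶜ y`; apply `acnt_ge`: `h1`, `h2` from `Ctx` (all axes are outside
`∅`): if `y ∈ W`: `off`, `y` is near `x`: `|y_j - x_j| ≤ T L + 1 ≤ r` if `y ≠ x` (then `L ≥ 1`, so
`r ≥ 10 T L ≥ 90`, `T L + 1 ≤ r`); if `y = x`: `supp` and `flat` (`x i ∈ T i`).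
(4) By `path_par`: `K ⊆ zone N P.R1 L`, so `x ∈ zone N P.R1 L ⊆ Vz P X` (`N n ⊆ X n`):
contradiction. -/
theorem fil_pt (hd : 1 ≤ d) (P : Par d) (Sd : Set (Fin d → ℤ)) (X N : ℕ → Set (Fin d → ℤ))
    (hC : Centres P X N) (W : Set (Fin d → ℤ)) (hW : W.Finite) (x : Fin d → ℤ)
    (τ : Fin d → ℤ) (T : Fin d → Finset ℤ) (r : ℕ) (hctx : Ctx W ∅ x x τ T r)
    (hT : ∀ i, (T i).card ≤ 2 * d) (hs : Small P X x x r) (hF : Fil P Sd X W) :
    Fil P Sd X (W ∪ {x}) := by
  classical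
  by_cases hxW : x ∈ W
  · have h : W ∪ {x} = W := Set.union_eq_self_of_subset_right (Set.singleton_subset_iff.mpr hxW)
    rw [h]
    exact hF
  intro S hS
  obtain ⟨hSW, hSt⟩ := hS
  have hmain : S \ {x} ⊆ Vz P X := by
    apply hF
    refine ⟨?_, ?_⟩
    · intro y hy
      rcases hSW hy.1 with h | h
      · exact h
      · exact absurd h hy.2
    · intro y hy hyO
      obtain ⟨h1, h2⟩ := hSt y hy.1 hyO
      exact ⟨h1, h2.trans (hg3b_cnt W S x y hxW)⟩
  by_cases hxS : x ∈ S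
  swap
  · intro y hy
    exact hmain ⟨hy, fun h => hxS (by rw [← (h : y = x)]; exact hy)⟩
  have hxV : x ∈ Vz P X := by
    by_contra hxV
    have hexL : ∃ n, r < 10 * P.T (n + 1) := by
      refine ⟨r, ?_⟩
      have := (P.basic (r + 1)).2.2.2.2.2.2.1
      omega
    set L := Nat.find hexL with hL
    have hLs : r < 10 * P.T (L + 1) := Nat.find_spec hexL
    have hTL : 10 * P.T L ≤ r := by
      rcases Nat.eq_zero_or_pos L with h0 | h0
      · rw [h0, P.T0]; omega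
      · obtain ⟨k, hk⟩ := Nat.exists_eq_succ_of_ne_zero (Nat.pos_iff_ne_zero.mp h0)
        have := Nat.find_min hexL (m := k) (by rw [← hL, hk]; exact Nat.lt_succ_self k)
        rw [hk]
        exact not_lt.mp this
    have hfar : ∀ n, L ≤ n → ∀ y ∈ X n, ¬ Nr ((6 * r + 9) + P.T (n + 1)) x y := by
      intro n hn y hy hN
      have h9 := (P.basic n).2.2.2.2.2.2.2
      have h1 := hs n y hy ⟨x, ⟨le_refl x, le_refl x⟩, hN.mono (by omega)⟩
      have h2 := P.mono_T (Nat.succ_le_succ hn)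
      simp only [Nat.succ_eq_add_one] at h2
      omega
    have hloc := zone_loc P X N hC x L (6 * r + 9) hfar
    have hisl := island N P.R2 P.T P.ρ P.T0 (fun n => by
      have := P.hT n
      unfold Par.R2
      omega) (fun n => by
      have := P.hρT n
      unfold Par.R2
      omega) hC.sepa L
    set K : Set (Fin d → ℤ) := {y | y = x ∨ (y ∈ S ∧ ∃ Q : Set (Fin d → ℤ),
      (Q ⊆ zone N P.R2 L ∧ (∀ y ∈ Q, ∀ z ∈ Q, Nr (P.T L) y z) ∧
      (∀ y ∈ Q, ∀ i s, Sg s → stp y i s ∈ zone N P.R2 L → stp y i s ∈ Q)) ∧ y ∈ Q ∧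
      ∃ i s, Sg s ∧ stp x i s ∈ Q)} with hK
    have hKS : K ⊆ S := by
      rintro y (rfl | h)
      · exact hxS
      · exact h.1
    have hKfin : K.Finite := (hW.union (Set.finite_singleton x)).subset (hKS.trans hSW)
    have hKnear : ∀ y ∈ K, Nr (P.T L + 1) y x := by
      rintro y (rfl | ⟨_, Q, ⟨_, hQ2, _⟩, hyQ, i, s, hs', hxQ⟩)
      · exact Nr.refl _ _
      · exact (hQ2 y hyQ _ hxQ).trans (Nr_stp x i hs')
    have hclosed : ∀ y ∈ K, ∀ i s, Sg s → stp y i s ∈ S → stp y i s ∈ K := by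
      intro y hy i s hs' hz
      by_cases hzx : stp y i s = x
      · exact Or.inl hzx
      have hzV : stp y i s ∈ Vz P X := hmain ⟨hz, hzx⟩
      have hzn : Nr (6 * r + 9) (stp y i s) x :=
        ((Nr_stp y i hs').trans (hKnear y hy)).mono (by omega)
      have hzz := (hloc _ hzn).1 hzV
      rcases hy with hy | ⟨_, Q, ⟨hQ1, hQ2, hQ3⟩, hyQ, i', s', hs'', hxQ⟩
      · obtain ⟨Q, hzQ, hQ1, hQ2, hQ3, _⟩ := hisl (stp y i s) hzz
        refine Or.inr ⟨hz, Q, ⟨hQ1, hQ2, hQ3⟩, hzQ, i, s, hs', ?_⟩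
        rw [← hy]; exact hzQ
      · exact Or.inr ⟨hz, Q, ⟨hQ1, hQ2, hQ3⟩, hQ3 y hyQ i s hs' hzz, i', s', hs'', hxQ⟩
    have hthree : Three ⟨T, fun _ => false, fun i => -τ i⟩ K (zone N P.Rb L) := by
      intro y hy hyO ε hε
      have hyn : Nr (6 * r + 9) y x := (hKnear y hy).mono (by omega)
      have hyO' : y ∉ Obs P X := fun h => hyO ((hloc y hyn).2 h)
      have hc := (hSt y (hKS hy) hyO').2
      have h12 : ∀ i, stp y i (-τ i) ∈ W ∧ (stp y i (τ i) ∈ W ∨ y i ∈ T i) := by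
        intro i
        by_cases hyx : y = x
        · refine ⟨?_, Or.inr ?_⟩
          · rw [hyx]
            exact hctx.supp x ⟨le_refl x, le_refl x⟩ i (by simp)
          · rw [hyx]
            exact (hctx.flat i (by simp)).2.1
        · have hyW : y ∈ W := by
            rcases hSW (hKS hy) with h | h
            · exact h
            · exact absurd h hyx
          have hL1 : P.T L + 1 ≤ r := by
            rcases hy with hy | ⟨_, Q, ⟨hQ1, _, _⟩, hyQ, _⟩
            · exact absurd hy hyx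
            · obtain ⟨n, hn, _⟩ := hQ1 hyQ
              obtain ⟨k, hk⟩ := Nat.exists_eq_succ_of_ne_zero (show L ≠ 0 by omega)
              have h9 := (P.basic k).2.2.2.2.2.2.2
              rw [hk] at hTL ⊢
              simp only [Nat.succ_eq_add_one] at hTL ⊢
              omega
          refine hctx.off y hyW ?_ i (by simp)
          intro j
          have h := ((hKnear y hy).mono hL1) j
          rw [abs_le] at h
          constructor <;> linarith [h.1, h.2]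
      exact acnt_ge (W ∪ {x}) S K y τ hctx.sg T hSW (hclosed y hy)
        (fun i => Or.inl (h12 i).1) (fun i => (h12 i).2.imp Or.inl id) hc ε hε
    have hok : (⟨T, fun _ => false, fun i => -τ i⟩ : Ax d).Ok :=
      ⟨fun i => hg3b_neg (hctx.sg i), fun i h => by simp at h⟩
    have hpath := path_par hd P ⟨T, fun _ => false, fun i => -τ i⟩ hok hT K hKfin N hC.sepa L
      hthree
    obtain ⟨n, _, y, hy, hn⟩ := hpath (show x ∈ K from Or.inl rfl)
    exact hxV ⟨n, y, hC.sub n hy, hn⟩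
  intro y hy
  by_cases hyx : y = x
  · rw [hyx]; exact hxV
  · exact hmain ⟨hy, hyx⟩

end Pool.Agent.MP_f7f40d_pr.HD
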