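import Pool.Agent.MP_f7f40d_pr.HD.G1
import Pool.Agent.MP_f7f40d_pr.HD.G2
import Pool.Agent.MP_f7f40d_pr.HD.G3

set_option autoImplicit false

namespace Pool.Agent.MP_f7f40d_pr.HD

variable {d : ℕ}

theorem hg4_icc_up {a b : Fin d → ℤ} (hab : a ≤ b) (i : Fin d) :
    Set.Icc a b ∪ Set.Icc (Function.update a i (b i + 1)) (Function.update b i (b i + 1)) =
      Set.Icc a (Function.update b i (b i + 1)) := by
  ext x
  constructor
  · rintro (⟨h1, h2⟩ | ⟨h1, h2⟩)
    · refine ⟨h1, fun j => ?_⟩
      by_cases hji : j = i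
      · subst hji
        rw [Function.update_self]
        have h5 : x j ≤ b j := h2 j
        exact (by omega : x j ≤ b j + 1)
      · rw [Function.update_of_ne hji]
        exact h2 j
    · refine ⟨fun j => ?_, h2⟩
      have h5 := h1 j
      by_cases hji : j = i
      · subst hji
        rw [Function.update_self] at h5
        have h6 : a j ≤ b j := hab j
        have h7 : b j + 1 ≤ x j := h5
        exact (by omega : a j ≤ x j)
      · rw [Function.update_of_ne hji] at h5
        exact h5
  · rintro ⟨h1, h2⟩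
    by_cases hx : x i ≤ b i
    · left
      refine ⟨h1, fun j => ?_⟩
      by_cases hji : j = i
      · subst hji
        exact hx
      · have h5 := h2 j
        rw [Function.update_of_ne hji] at h5
        exact h5
    · right
      refine ⟨fun j => ?_, h2⟩
      by_cases hji : j = i
      · subst hji
        rw [Function.update_self]
        exact (by omega : b j + 1 ≤ x j)
      · rw [Function.update_of_ne hji]
        exact h1 j

theorem hg4_icc_dn {a b : Fin d → ℤ} (hab : a ≤ b) (i : Fin d) :
    Set.Icc a b ∪ Set.Icc (Function.update a i (a i - 1)) (Function.update b i (a i - 1)) =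
      Set.Icc (Function.update a i (a i - 1)) b := by
  ext x
  constructor
  · rintro (⟨h1, h2⟩ | ⟨h1, h2⟩)
    · refine ⟨fun j => ?_, h2⟩
      by_cases hji : j = i
      · subst hji
        rw [Function.update_self]
        have h5 : a j ≤ x j := h1 j
        exact (by omega : a j - 1 ≤ x j)
      · rw [Function.update_of_ne hji]
        exact h1 j
    · refine ⟨h1, fun j => ?_⟩
      have h5 := h2 j
      by_cases hji : j = i
      · subst hji
        rw [Function.update_self] at h5
        have h6 : a j ≤ b j := hab j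
        have h7 : x j ≤ a j - 1 := h5
        exact (by omega : x j ≤ b j)
      · rw [Function.update_of_ne hji] at h5
        exact h5
  · rintro ⟨h1, h2⟩
    by_cases hx : a i ≤ x i
    · left
      refine ⟨fun j => ?_, h2⟩
      by_cases hji : j = i
      · subst hji
        exact hx
      · have h5 := h1 j
        rw [Function.update_of_ne hji] at h5
        exact h5
    · right
      refine ⟨h1, fun j => ?_⟩
      by_cases hji : j = i
      · subst hji
        rw [Function.update_self]
        exact (by omega : x j ≤ a j - 1)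
      · rw [Function.update_of_ne hji]
        exact h2 j

theorem hg4_le_up (b : Fin d → ℤ) (i : Fin d) : b ≤ Function.update b i (b i + 1) := by
  intro j
  by_cases hji : j = i
  · subst hji
    rw [Function.update_self]
    exact (by omega : b j ≤ b j + 1)
  · rw [Function.update_of_ne hji]

theorem hg4_dn_le (a : Fin d → ℤ) (i : Fin d) : Function.update a i (a i - 1) ≤ a := by
  intro j
  by_cases hji : j = i
  · subst hji
    rw [Function.update_self]
    exact (by omega : a j - 1 ≤ a j)
  · rw [Function.update_of_ne hji]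

theorem hg4_le_up' {a b : Fin d → ℤ} (hab : a ≤ b) (i : Fin d) :
    a ≤ Function.update a i (b i + 1) := by
  intro j
  by_cases hji : j = i
  · subst hji
    rw [Function.update_self]
    have h5 : a j ≤ b j := hab j
    exact (by omega : a j ≤ b j + 1)
  · rw [Function.update_of_ne hji]

theorem hg4_dn_le' {a b : Fin d → ℤ} (hab : a ≤ b) (i : Fin d) :
    Function.update b i (a i - 1) ≤ b := by
  intro j
  by_cases hji : j = i
  · subst hji
    rw [Function.update_self]
    have h5 : a j ≤ b j := hab j
    exact (by omega : a j - 1 ≤ b j)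
  · rw [Function.update_of_ne hji]

theorem hg4_card {K : Finset (Fin d)} {i : Fin d} (hi : i ∈ K) (T : Fin d → Finset ℤ)
    (hT : ∀ j, (T j).card ≤ 2 * (d - K.card)) (p q : ℤ) (a b : Fin d → ℤ) (j : Fin d) :
    (if j = i then T i ∪ {p, q} else if j ∈ K then T j ∪ {a j, b j} else T j).card ≤
      2 * (d - (K.erase i).card) := by
  have h1 : (K.erase i).card = K.card - 1 := Finset.card_erase_of_mem hi
  have h2 : 1 ≤ K.card := Finset.card_pos.2 ⟨i, hi⟩
  have h3 : K.card ≤ d := by
    have := Finset.card_le_univ K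
    rwa [Fintype.card_fin] at this
  have h4 : ∀ (U : Finset ℤ) (p q : ℤ), (U ∪ {p, q}).card ≤ U.card + 2 := by
    intro U p q
    refine (Finset.card_union_le _ _).trans ?_
    have := Finset.card_le_two (a := p) (b := q)
    omega
  rw [h1]
  split_ifs with h5 h6
  · have h7 := h4 (T i) p q
    have h8 := hT i
    omega
  · have h7 := h4 (T j) (a j) (b j)
    have h8 := hT j
    omega
  · have h8 := hT j
    omega

theorem hg4_small {P : Par d} {X : ℕ → Set (Fin d → ℤ)} {a b : Fin d → ℤ} {r m : ℕ}
    (h1 : Small P X a b r) (h2 : Small P X a b m) : Small P X a b (min r m) := by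
  rcases le_total r m with h | h
  · rwa [min_eq_left h]
  · rwa [min_eq_right h]

/-- **[HD-G4a]** Adding seeds.

PROOF. Let `S` be stable for `W ∪ B`.  `S ∩ B = ∅` (a point of `S ∩ B` is not in `Obs`, so it is not
a seed).  So `S ⊆ W`, and `S` is stable for `W` because `cnt Wᶜ ≥ cnt (W ∪ B)ᶜ` (`cnt_mono`). -/
theorem fil_seed (P : Par d) (Sd : Set (Fin d → ℤ)) (X : ℕ → Set (Fin d → ℤ))
    (W B : Set (Fin d → ℤ)) (hB : ∀ x ∈ B, x ∈ Sd ∧ x ∉ Obs P X) (hF : Fil P Sd X W) :
    Fil P Sd X (W ∪ B) := by
  intro S hS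
  refine hF S ⟨?_, ?_⟩
  · intro x hx
    rcases hS.1 hx with h | h
    · exact h
    · exact absurd (hB x h).1 (hS.2 x hx (hB x h).2).1
  · intro x hx hxO
    obtain ⟨h1, h2⟩ := hS.2 x hx hxO
    refine ⟨h1, h2.trans ?_⟩
    have h3 : cnt (W ∪ B)ᶜ x ≤ cnt Wᶜ x :=
      cnt_mono (Set.compl_subset_compl.2 Set.subset_union_left) x
    omega

/-- **[HD-G4b]** The deterministic growth lemma.

PROOF. Induction on the derivation `h`, generalizing `W, τ, T, r`.
`seed`: `fil_seed`.
`pt`: `fil_pt` (`Icc a a = {a}`, `(∅ : Finset _).card = 0`).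
`up` (box `[a, b⁺]`, `b⁺ = update b i (b i + 1)`): `[a, b] ⊆ [a, b⁺]` with `Ctx.sub`, `Small.sub`:
induction hypothesis 1 gives `Fil (W ∪ Icc a b)`.  `W₁ = W ∪ Icc a b` is finite
(`Set.finite_Icc`).  `Ctx.faceUp` gives the context of the face for `W₁`, with radius `min r m` and
`T'`; `(T' j).card ≤ (T j).card + 2 ≤ 2 (d - (K.erase i).card)` (`Finset.card_union_le`,
`K.card ≤ d`).  `Small` for the face and `min r m`: if `min r m = m` it is `hs`; otherwise it is
`Small P X a b⁺ r` restricted to the face.  Induction hypothesis 2 gives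
`Fil (W₁ ∪ face)`, and `W₁ ∪ face = W ∪ Icc a b⁺`.
`dn`: symmetric. -/
theorem fil_of_gr (hd : 1 ≤ d) (P : Par d) (Sd : Set (Fin d → ℤ)) (X N : ℕ → Set (Fin d → ℤ))
    (hC : Centres P X N) {K : Finset (Fin d)} {a b : Fin d → ℤ} (h : Gr P Sd X K a b) :
    ∀ (W : Set (Fin d → ℤ)) (τ : Fin d → ℤ) (T : Fin d → Finset ℤ) (r : ℕ), W.Finite →
      Ctx W K a b τ T r → (∀ i, (T i).card ≤ 2 * (d - K.card)) → Small P X a b r →
      Fil P Sd X W → Fil P Sd X (W ∪ Set.Icc a b) := by
  induction h with
  | seed K a b hab hoff hS =>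
    intro W τ T r hW hctx hcard hsm hF
    exact fil_seed P Sd X W _ hS hF
  | pt a =>
    intro W τ T r hW hctx hcard hsm hF
    rw [Set.Icc_self]
    refine fil_pt hd P Sd X N hC W hW a τ T r hctx (fun i => ?_) hsm hF
    have h1 := hcard i
    rwa [Finset.card_empty, Nat.sub_zero] at h1
  | up K a b i m hi hm h1 h2 hs ih1 ih2 =>
    intro W τ T r hW hctx hcard hsm hF
    have hab := h1.le_off.1
    have hbb := hg4_le_up b i
    have hF1 := ih1 W τ T r hW (hctx.sub le_rfl hab hbb) hcard (hsm.sub le_rfl hbb) hF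
    have hW1 : (W ∪ Set.Icc a b).Finite := hW.union (Set.finite_Icc _ _)
    have hctx2 := Ctx.faceUp hi hab hm hctx
    have hF2 := ih2 _ _ _ _ hW1 hctx2 (fun j => hg4_card hi T hcard _ _ a b j)
      (hg4_small (hsm.sub (hg4_le_up' hab i) le_rfl) hs) hF1
    rw [Set.union_assoc, hg4_icc_up hab] at hF2
    exact hF2
  | dn K a b i m hi hm h1 h2 hs ih1 ih2 =>
    intro W τ T r hW hctx hcard hsm hF
    have hab := h1.le_off.1
    have haa := hg4_dn_le a i
    have hF1 := ih1 W τ T r hW (hctx.sub haa hab le_rfl) hcard (hsm.sub haa le_rfl) hF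
    have hW1 : (W ∪ Set.Icc a b).Finite := hW.union (Set.finite_Icc _ _)
    have hctx2 := Ctx.faceDn hi hab hm hctx
    have hF2 := ih2 _ _ _ _ hW1 hctx2 (fun j => hg4_card hi T hcard _ _ a b j)
      (hg4_small (hsm.sub le_rfl (hg4_dn_le' hab i)) hs) hF1
    rw [Set.union_assoc, hg4_icc_dn hab] at hF2
    exact hF2

/-- **[HD-G4c]** A box of full dimension which is grown is filled.

PROOF. Prove by induction on the derivation: `K = Finset.univ → Fil P Sd X (Icc a b)`.
`seed`: `fil_seed` with `W = ∅` (`Fil ∅`: a stable subset of `∅` is empty).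
`pt`: `∅ = Finset.univ` is impossible for `1 ≤ d`.
`up`: the induction hypothesis for `[a, b]` gives `Fil (Icc a b)`; apply `fil_of_gr` to the face with
`W = Icc a b` and radius `m`: the context is `Ctx.faceUp` applied to `Ctx.empty a b⁺ m` (then
`∅ ∪ Icc a b = Icc a b`, `min m m = m`), the card bound: `T' j` has at most
`2 = 2 (d - (univ.erase i).card)` elements, `Small` is `hs`.  `Icc a b ∪ face = Icc a b⁺`.
`dn`: symmetric. -/
theorem fil_univ (hd : 1 ≤ d) (P : Par d) (Sd : Set (Fin d → ℤ)) (X N : ℕ → Set (Fin d → ℤ))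
    (hC : Centres P X N) {a b : Fin d → ℤ} (h : Gr P Sd X Finset.univ a b) :
    Fil P Sd X (Set.Icc a b) := by
  have hempty : Fil P Sd X (∅ : Set (Fin d → ℤ)) := by
    intro S hS x hx
    exact absurd (hS.1 hx) (Set.notMem_empty x)
  have key : ∀ (K : Finset (Fin d)) (a b : Fin d → ℤ), Gr P Sd X K a b → K = Finset.univ →
      Fil P Sd X (Set.Icc a b) := by
    intro K a b h
    induction h with
    | seed K a b hab hoff hS =>
      intro _
      have h1 := fil_seed P Sd X ∅ _ hS hempty
      rwa [Set.empty_union] at h1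
    | pt a =>
      intro hK
      exfalso
      have h1 : (⟨0, hd⟩ : Fin d) ∈ (∅ : Finset (Fin d)) := by
        rw [hK]
        exact Finset.mem_univ _
      exact absurd h1 (Finset.notMem_empty _)
    | up K a b i m hi hm h1 h2 hs ih1 ih2 =>
      intro hK
      subst hK
      have hab := h1.le_off.1
      have hF1 := ih1 rfl
      have hctx2 := Ctx.faceUp (W := ∅) hi hab hm (Ctx.empty a (Function.update b i (b i + 1)) m)
      rw [Set.empty_union, min_self] at hctx2
      have hF2 := fil_of_gr hd P Sd X N hC h2 _ _ _ _ (Set.finite_Icc _ _) hctx2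
        (fun j => hg4_card hi (fun _ => ∅) (fun j => by rw [Finset.card_empty]; omega) _ _ a b j) hs hF1
      rw [hg4_icc_up hab] at hF2
      exact hF2
    | dn K a b i m hi hm h1 h2 hs ih1 ih2 =>
      intro hK
      subst hK
      have hab := h1.le_off.1
      have hF1 := ih1 rfl
      have hctx2 := Ctx.faceDn (W := ∅) hi hab hm (Ctx.empty (Function.update a i (a i - 1)) b m)
      rw [Set.empty_union, min_self] at hctx2
      have hF2 := fil_of_gr hd P Sd X N hC h2 _ _ _ _ (Set.finite_Icc _ _) hctx2
        (fun j => hg4_card hi (fun _ => ∅) (fun j => by rw [Finset.card_empty]; omega) _ _ a b j) hs hF1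
      rw [hg4_icc_dn hab] at hF2
      exact hF2
  exact key _ a b h rfl

end Pool.Agent.MP_f7f40d_pr.HD
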