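import Pool.Agent.MP_f7f40d_pr.HD.Defs

set_option autoImplicit false

namespace Pool.Agent.MP_f7f40d_pr.HD

/-- **[HD-P1]** Choice of an offset by pigeonhole. -/
theorem exists_offset (T : Finset ℤ) (β M : ℕ) (h : 2 * M * T.card < β) :
    ∃ p : ℤ, ∀ t ∈ T, (M : ℤ) ≤ (t - p) % (β : ℤ) ∧ (t - p) % (β : ℤ) ≤ β - 1 - M := by
  classical
  have hβ : 0 < β := by omega
  have hβ' : (0 : ℤ) < (β : ℤ) := by exact_mod_cast hβ
  let bad : ℤ → Finset ℕ := fun t => (Finset.range β).filter fun p : ℕ =>
    ¬ ((M : ℤ) ≤ (t - p) % (β : ℤ) ∧ (t - p) % (β : ℤ) ≤ β - 1 - M)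
  have hbad : ∀ t, (bad t).card ≤ 2 * M := by
    intro t
    have h1 : (bad t).card ≤ (Finset.range M ∪ Finset.Ico (β - M) β).card := by
      refine Finset.card_le_card_of_injOn (fun p : ℕ => ((t - p) % (β : ℤ)).toNat) ?_ ?_
      · intro p hp
        rw [Finset.mem_coe, Finset.mem_filter] at hp
        have h2 := Int.emod_nonneg (t - p) hβ'.ne'
        have h3 := Int.emod_lt_of_pos (t - p) hβ'
        have h4 := hp.2
        rw [Finset.mem_coe, Finset.mem_union, Finset.mem_range, Finset.mem_Ico]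
        show ((t - (p : ℤ)) % (β : ℤ)).toNat < M ∨ (β - M ≤ ((t - (p : ℤ)) % (β : ℤ)).toNat ∧
          ((t - (p : ℤ)) % (β : ℤ)).toNat < β)
        generalize (t - (p : ℤ)) % (β : ℤ) = r at *
        by_cases h5 : (M : ℤ) ≤ r
        · have h6 : ¬ r ≤ β - 1 - M := fun h6 => h4 ⟨h5, h6⟩
          right
          constructor <;> omega
        · left
          omega
      · intro p hp q hq hpq
        rw [Finset.mem_coe, Finset.mem_filter, Finset.mem_range] at hp hq
        have h2 := Int.emod_nonneg (t - p) hβ'.ne'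
        have h3 := Int.emod_nonneg (t - q) hβ'.ne'
        have h4 : (t - (p : ℤ)) % (β : ℤ) = (t - (q : ℤ)) % (β : ℤ) := by
          have h5 : (((t - (p : ℤ)) % (β : ℤ)).toNat : ℤ) = (((t - (q : ℤ)) % (β : ℤ)).toNat : ℤ) := by
            exact_mod_cast hpq
          rwa [Int.toNat_of_nonneg h2, Int.toNat_of_nonneg h3] at h5
        have h6 : (β : ℤ) ∣ ((q : ℤ) - p) := by
          have := Int.ModEq.dvd h4.symm
          rwa [show t - (p : ℤ) - (t - (q : ℤ)) = (q : ℤ) - p by ring] at this
        obtain ⟨k, hk⟩ := h6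
        have h7 : |(q : ℤ) - p| < β := by
          rw [abs_lt]
          constructor <;> omega
        have hk0 : k = 0 := by
          by_contra hk0
          have h8 : 1 ≤ |k| := Int.one_le_abs hk0
          rw [hk, abs_mul, abs_of_pos hβ'] at h7
          nlinarith
        rw [hk0, mul_zero] at hk
        omega
    refine h1.trans ((Finset.card_union_le _ _).trans ?_)
    rw [Finset.card_range, Nat.card_Ico]
    omega
  have h2 : (T.biUnion bad).card < (Finset.range β).card := by
    rw [Finset.card_range]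
    refine lt_of_le_of_lt (Finset.card_biUnion_le) ?_
    refine lt_of_le_of_lt (Finset.sum_le_sum fun t _ => hbad t) ?_
    rw [Finset.sum_const, smul_eq_mul]
    calc T.card * (2 * M) = 2 * M * T.card := by ring
      _ < β := h
  obtain ⟨p, hp, hp2⟩ := Finset.exists_mem_notMem_of_card_lt_card h2
  refine ⟨(p : ℤ), fun t ht => ?_⟩
  by_contra hcon
  exact hp2 (Finset.mem_biUnion.2 ⟨t, ht, Finset.mem_filter.2 ⟨hp, hcon⟩⟩)

end Pool.Agent.MP_f7f40d_pr.HD
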