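import Pool.Agent.MP_f7f40d_pr.HD.Defs

set_option autoImplicit false

namespace Pool.Agent.MP_f7f40d_pr.HD

variable {d : ℕ}

theorem hp2_pos {p : Prop} (h : ind p ≠ 0) : p := by
  by_contra hp
  exact h (ind_false hp)

theorem hp2_sum (v : Fin d → ℤ → ℤ) (x : Fin d → ℤ) (i : Fin d) (s : ℤ)
    (h : v i (x i + s) = v i (x i) + 1) :
    ∑ j, v j (stp x i s j) = ∑ j, v j (x j) + 1 := by
  have h1 : ∑ j, (v j (stp x i s j) - v j (x j)) = 1 := by
    rw [Finset.sum_eq_single i]
    · rw [stp_same, h]
      ring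
    · intro j _ hj
      rw [stp_ne _ _ hj]
      ring
    · intro hi
      exact absurd (Finset.mem_univ i) hi
  rw [Finset.sum_sub_distrib] at h1
  linarith

/-- **[HD-P2]** Without obstacles a finite set with at least one (here: three) allowed neighbours
everywhere is empty.

PROOF. Suppose `F ≠ ∅`.  For an axis `i` with `a.two i = true` and `a.T i = {t}` let
`v_i(s) = |s - t|` (`a.T i` has at most one element; if it is empty let `v_i(s) = s`); for the other
axes let `v_i(s) = σ_i s`.  Let `V(x) = ∑ v_i (x_i)`.  `F` is finite and non-empty: take `x ∈ F`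
with `V(x)` maximal (`Set.exists_max_image`).  Choose the signs `ε`: if `a.two i` and `a.T i = {t}`:
`ε_i = 1` if `t < x_i`, else `ε_i = -1`; if `a.two i` and `a.T i = ∅`: `ε_i = 1`; if not `a.two i`:
`ε_i = σ_i`.  By `Three` (with `O = ∅`) `3 ≤ acnt a F ε x`, so some summand of `acnt` is positive
(`Finset.exists_ne_zero_of_sum_ne_zero`): there are `i` and an allowed sign `s` with
`stp x i s ∈ F`.  In all cases `v_i (x_i + s) = v_i (x_i) + 1` [two-sided axis: at `x_i = t` both
signs are allowed and `|x_i + s - t| = 1`; for `x_i ≠ t` the allowed sign is `ε_i`, pointing away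
from `t`; other axes: the allowed sign is `σ_i` (special position) or `ε_i = σ_i`], the other
coordinates of `stp x i s` are unchanged, so `V (stp x i s) = V x + 1`, a contradiction. -/
theorem three_empty (a : Ax d) (ha : a.Ok) (F : Set (Fin d → ℤ)) (hF : F.Finite)
    (h : Three a F ∅) : F = ∅ := by
  by_contra hne
  have hne' : F.Nonempty := Set.nonempty_iff_ne_empty.mpr hne
  have ht : ∀ i, ∃ t : ℤ, a.two i = true → ∀ p ∈ a.T i, p = t := by
    intro i
    by_cases hT : (a.T i).Nonempty
    · obtain ⟨t, htT⟩ := hT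
      exact ⟨t, fun h2 p hp => Finset.card_le_one.mp (ha.2 i h2) p hp t htT⟩
    · refine ⟨0, fun _ p hp => absurd ⟨p, hp⟩ hT⟩
  choose t ht using ht
  obtain ⟨v, hv⟩ : ∃ v : Fin d → ℤ → ℤ, v = fun i s =>
      if a.two i = true then |s - t i| else a.σ i * s := ⟨_, rfl⟩
  have hv2 : ∀ i s, a.two i = true → v i s = |s - t i| := fun i s h2 => by
    rw [hv]
    exact if_pos h2
  have hv1 : ∀ i s, ¬ a.two i = true → v i s = a.σ i * s := fun i s h2 => by
    rw [hv]
    exact if_neg h2
  have hσ : ∀ i, a.σ i * a.σ i = 1 := fun i => by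
    rcases ha.1 i with h1 | h1 <;> rw [h1] <;> rfl
  obtain ⟨x, hx, hmax⟩ := Set.exists_max_image F (fun x => ∑ i, v i (x i)) hF hne'
  obtain ⟨ε, hε⟩ : ∃ ε : Fin d → ℤ, ε = fun i =>
      if a.two i = true then (if t i < x i then 1 else -1) else a.σ i := ⟨_, rfl⟩
  have hεs : ∀ i, Sg (ε i) := by
    intro i
    rw [hε]
    by_cases h2 : a.two i = true
    · simp only [h2, if_true]
      by_cases h3 : t i < x i
      · rw [if_pos h3]; exact Or.inl rfl
      · rw [if_neg h3]; exact Or.inr rfl
    · simp only [h2]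
      exact ha.1 i
  have h3 := h x hx (Set.notMem_empty x) ε hεs
  have hne0 : acnt a F ε x ≠ 0 := by omega
  obtain ⟨i, -, hi⟩ := Finset.exists_ne_zero_of_sum_ne_zero hne0
  have key : ∃ s : ℤ, stp x i s ∈ F ∧ v i (x i + s) = v i (x i) + 1 := by
    by_cases hT : x i ∈ a.T i
    · rw [if_pos hT] at hi
      by_cases h2 : a.two i = true
      · rw [if_pos h2] at hi
        have hxt : x i = t i := ht i h2 _ hT
        by_cases h4 : ind (stp x i 1 ∈ F) ≠ 0
        · refine ⟨1, hp2_pos h4, ?_⟩
          rw [hv2 i _ h2, hv2 i _ h2, hxt]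
          simp
        · have h5 : ind (stp x i (-1) ∈ F) ≠ 0 := by
            intro h6
            apply hi
            rw [h6]
            have h7 : ind (stp x i 1 ∈ F) = 0 := not_not.mp h4
            rw [h7]
            rfl
          refine ⟨-1, hp2_pos h5, ?_⟩
          rw [hv2 i _ h2, hv2 i _ h2, hxt]
          simp
      · rw [if_neg h2] at hi
        refine ⟨a.σ i, hp2_pos hi, ?_⟩
        rw [hv1 i _ h2, hv1 i _ h2, mul_add, hσ]
    · rw [if_neg hT] at hi
      refine ⟨ε i, hp2_pos hi, ?_⟩
      by_cases h2 : a.two i = true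
      · rw [hv2 i _ h2, hv2 i _ h2]
        have hεi : ε i = if t i < x i then 1 else -1 := by
          rw [hε]
          simp only [h2, if_true]
        rw [hεi]
        by_cases h4 : t i < x i
        · rw [if_pos h4, abs_of_nonneg (by omega), abs_of_nonneg (by omega)]
          ring
        · rw [if_neg h4, abs_of_nonpos (by omega), abs_of_nonpos (by omega)]
          ring
      · have hεi : ε i = a.σ i := by
          rw [hε]
          simp only [h2]
          rfl
        rw [hεi, hv1 i _ h2, hv1 i _ h2, mul_add, hσ]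
  obtain ⟨s, hs, hvs⟩ := key
  have h6 : ∑ j, v j (stp x i s j) ≤ ∑ j, v j (x j) := hmax _ hs
  have h7 := hp2_sum v x i s hvs
  rw [h7] at h6
  omega

end Pool.Agent.MP_f7f40d_pr.HD
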