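import Pool.Agent.MP_f7f40d_pr.HD.Defs
import Pool.Agent.MP_f7f40d_pr.DuLeast

set_option autoImplicit false

namespace Pool.Agent.MP_f7f40d_pr.HD

variable {d : ℕ}

/-- Poor sites. -/
def lowS (m1 : ℕ) (A : (Fin d → ℤ) → ℕ) : Set (Fin d → ℤ) := {v | A v < m1}

/-- Sites with more than `s` neighbours in `S`. -/
def manyS (s : ℕ) (S : Set (Fin d → ℤ)) : Set (Fin d → ℤ) := {v | s < cnt S v}

/-- Bad sites. -/
def badS (m1 s : ℕ) (A : (Fin d → ℤ) → ℕ) : Set (Fin d → ℤ) :=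
  manyS s (manyS (2 * s) (lowS m1 A))

/-- Seeds. -/
def seedS (A : (Fin d → ℤ) → ℕ) : Set (Fin d → ℤ) := {v | 6 * d ≤ A v}

/-- The correction. -/
noncomputable def Gf (m1 s : ℕ) (A : (Fin d → ℤ) → ℕ) (v : Fin d → ℤ) : ℤ :=
  ind (v ∈ lowS m1 A) + ind (v ∈ manyS (2 * s) (lowS m1 A))

/-- The truncated function. -/
noncomputable def hn (m1 s : ℕ) (A : (Fin d → ℤ) → ℕ) (u : (Fin d → ℤ) → ℤ) (n : ℕ)
    (v : Fin d → ℤ) : ℤ :=
  max ((n : ℤ) - u v - Gf m1 s A v) 0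

theorem hes1_cnt_le (S : Set (Fin d → ℤ)) (v : Fin d → ℤ) : cnt S v ≤ 2 * d := by
  have := cnt_add_compl S v
  omega

theorem hes1_key (m1 s : ℕ) (A : (Fin d → ℤ) → ℕ) (u : (Fin d → ℤ) → ℤ)
    (hu : ∀ v, (A v : ℤ) - lapZ u v ≤ 2 * (d : ℤ) - 1) (n : ℕ) (v : Fin d → ℤ)
    (hv : 1 ≤ hn m1 s A u n v) :
    lapZ (hn m1 s A u n) v ≤ 2 * (d : ℤ) - 1 - A v + cnt (lowS m1 A) v +
      cnt (manyS (2 * s) (lowS m1 A)) v - 2 * d * Gf m1 s A v := by
  have h1 : hn m1 s A u n v = (n : ℤ) - u v - Gf m1 s A v := by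
    unfold hn at hv ⊢
    omega
  have h2 : ∀ w, (n : ℤ) - u w - Gf m1 s A w ≤ hn m1 s A u n w := fun w => le_max_left _ _
  have h3 : lapZ (hn m1 s A u n) v ≤ ∑ i : Fin d, (-(2 * u v - u (stp v i 1) - u (stp v i (-1))) -
      2 * Gf m1 s A v + (Gf m1 s A (stp v i 1) + Gf m1 s A (stp v i (-1)))) := by
    rw [lapZ_eq]
    refine Finset.sum_le_sum fun i _ => ?_
    have e1 := h2 (stp v i 1)
    have e2 := h2 (stp v i (-1))
    rw [h1]
    linarith
  have h4 : ∑ i : Fin d, (-(2 * u v - u (stp v i 1) - u (stp v i (-1))) -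
      2 * Gf m1 s A v + (Gf m1 s A (stp v i 1) + Gf m1 s A (stp v i (-1)))) =
      - lapZ u v - 2 * d * Gf m1 s A v + (cnt (lowS m1 A) v + cnt (manyS (2 * s) (lowS m1 A)) v) := by
    rw [lapZ_eq u v, Finset.sum_add_distrib, Finset.sum_sub_distrib, Finset.sum_neg_distrib]
    congr 1
    · rw [Finset.sum_const, Finset.card_univ, Fintype.card_fin, nsmul_eq_mul]
      ring
    · unfold cnt Gf
      push_cast
      rw [← Finset.sum_add_distrib]
      refine Finset.sum_congr rfl fun i _ => ?_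
      ring
  have h5 := hu v
  linarith

/-- **[HE-S1]** The reduction.  (`lapZ` is the negative Laplacian: `A v - lapZ u v` is the height of
`v` after the topplings `u`.)  This is the file `HD/S1.lean` with the thresholds `2 s` and `s`.

PROOF. Write `X = lowS m1 A`, `Y = manyS (2 s) X`, `G = Gf m1 s A`, `h = hn m1 s A u n`.  At `v` with
`1 ≤ h v`: `h v = n - u v - G v` and `h w ≥ n - u w - G w` for all `w`, so
`lapZ h v ≤ - lapZ u v - lapZ G v ≤ 2d - 1 - A v - lapZ G v` and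
`- lapZ G v = cnt X v + cnt Y v - 2 d G v` (`lapZ_eq`, definition of `cnt`).
(i) `v ∉ badS`: `cnt Y v ≤ s`.  If `v ∉ X`, `v ∉ Y`: `A v ≥ d + 3s + 4`, `cnt X v ≤ 2 s`: bound
`2d - 1 - (d + 3s + 4) + 3 s = d - 5`.  If `v ∉ X`, `v ∈ Y`: `cnt X v ≤ 2d`:
`2d - 1 - (d+3s+4) + 2d + s - 2d ≤ d - 5`.  If `v ∈ X`, `v ∉ Y`: `2d - 1 + 2 s + s - 2d ≤ d - 5` by
`3s + 4 ≤ d`.  If `v ∈ X ∩ Y`: `2d - 1 + 2d + s - 4d ≤ d - 5`.
(ii) in general: `2d - 1 + 2d + 2d ≤ 6d`.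
(iii) `A v ≥ 6d`: `2d - 1 - 6d + 4d = -1`. -/
theorem red (m1 s : ℕ) (hm1 : m1 = d + 3 * s + 4) (hs : 3 * s + 4 ≤ d)
    (A : (Fin d → ℤ) → ℕ) (u : (Fin d → ℤ) → ℤ)
    (hu : ∀ v, (A v : ℤ) - lapZ u v ≤ 2 * (d : ℤ) - 1) (n : ℕ) (v : Fin d → ℤ)
    (hv : 1 ≤ hn m1 s A u n v) :
    (v ∉ badS m1 s A → lapZ (hn m1 s A u n) v ≤ (d : ℤ) - 5) ∧
      lapZ (hn m1 s A u n) v ≤ 6 * (d : ℤ) ∧
      (v ∈ seedS A → lapZ (hn m1 s A u n) v ≤ -1) := by
  have key := hes1_key m1 s A u hu n v hv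
  have cX := hes1_cnt_le (lowS m1 A) v
  have cY := hes1_cnt_le (manyS (2 * s) (lowS m1 A)) v
  have hG : Gf m1 s A v = (ind (v ∈ lowS m1 A) : ℤ) + ind (v ∈ manyS (2 * s) (lowS m1 A)) := rfl
  have hG0 : 0 ≤ 2 * (d : ℤ) * Gf m1 s A v := by
    rw [hG]
    positivity
  refine ⟨fun hb => ?_, by omega, fun hsd => ?_⟩
  · have hb' : cnt (manyS (2 * s) (lowS m1 A)) v ≤ s := by
      by_contra h
      exact hb (not_le.1 h)
    by_cases hX : v ∈ lowS m1 A <;> by_cases hY : v ∈ manyS (2 * s) (lowS m1 A)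
    · rw [hG, ind_true hX, ind_true hY] at key
      push_cast at key
      omega
    · have h1 : cnt (lowS m1 A) v ≤ 2 * s := by
        by_contra h
        exact hY (not_le.1 h)
      rw [hG, ind_true hX, ind_false hY] at key
      push_cast at key
      omega
    · have h2 : m1 ≤ A v := by
        by_contra h
        exact hX (not_le.1 h)
      rw [hG, ind_false hX, ind_true hY] at key
      push_cast at key
      omega
    · have h1 : cnt (lowS m1 A) v ≤ 2 * s := by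
        by_contra h
        exact hY (not_le.1 h)
      have h2 : m1 ≤ A v := by
        by_contra h
        exact hX (not_le.1 h)
      rw [hG, ind_false hX, ind_false hY] at key
      push_cast at key
      omega
  · have h6 : 6 * d ≤ A v := hsd
    omega

end Pool.Agent.MP_f7f40d_pr.HD
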