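import Pool.Agent.MP_f7f40d_pr.HD.W2

set_option autoImplicit false

namespace Pool.Agent.MP_f7f40d_pr.HD

variable {d : ℕ}

theorem hz1b_aux (P : Par d) (X N : ℕ → Set (Fin d → ℤ)) (hC : Centres P X N) (x : Fin d → ℤ)
    (L M : ℕ) (hfar : ∀ n, L ≤ n → ∀ y ∈ X n, ¬ Nr (M + P.T (n + 1)) x y) (z : Fin d → ℤ)
    (hz : Nr M z x) (f g : ℕ → ℕ) (hf : ∀ n, f n ≤ P.T (n + 1))
    (hfg : ∀ n m, n ≤ m → f n + P.D m ≤ g m) (hmem : z ∈ zoneA X f) : z ∈ zone N g L := by
  obtain ⟨n, y, hy, hzy⟩ := hmem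
  have hxy : Nr (M + f n) x y := hz.symm.trans hzy
  have hn : n < L := by
    by_contra hcon
    have h1 := hf n
    exact hfar n (by omega) y hy (hxy.mono (by omega))
  have hyL : y ∉ X L := by
    intro hyL
    have h1 := hf n
    have h2 := P.mono_T (show n + 1 ≤ L + 1 by omega)
    exact hfar L le_rfl y hyL (hxy.mono (by omega))
  obtain ⟨m, hm1, hm2, hm3, hm4⟩ : ∃ m, n ≤ m ∧ m < L ∧ y ∈ X m ∧ y ∉ X (m + 1) := by
    by_contra hcon
    push Not at hcon
    have key : ∀ m, n ≤ m → m ≤ L → y ∈ X m := by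
      intro m hm
      induction m, hm using Nat.le_induction with
      | base => exact fun _ => hy
      | succ k hk ih => exact fun hkL => hcon k hk (by omega) (ih (by omega))
    exact hyL (key L hn.le le_rfl)
  obtain ⟨c, hc, hyc⟩ := hC.cover m y hm3 hm4
  exact ⟨m, hm2, c, hc, (hzy.trans hyc).mono (hfg n m hm1)⟩

/-- **[HD-Z1b]** Only finitely many levels are seen near `x`.

PROOF. Let `z ∈ zoneA X f` with `f n ≤ T (n+1)` (`f = R1` or `R + 1`, `Par.basic`), `Nr M z x`, say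
`Nr (f n) z y`, `y ∈ X n`.  Then `Nr (M + T (n+1)) x y`, so `n < L`.  If `y ∈ X L` then
`Nr (M + T (L+1)) x y` (`Par.mono_T`) contradicts `hfar` for `L`.  So there is `m`, `n ≤ m < L`, with
`y ∈ X m`, `y ∉ X (m+1)` (`Nat.le_induction`/`Nat.find`).  By `cover` there is `c ∈ N m` with
`Nr (D m) y c`, so `Nr (f n + D m) z c`; finally `R1 n + D m ≤ R1 m + D m = R2 m` and
`R n + 1 + D m ≤ R m + 1 + D m = Rb m` (`Par.mono_R1`, `Par.mono_R`). -/
theorem zone_loc (P : Par d) (X N : ℕ → Set (Fin d → ℤ)) (hC : Centres P X N) (x : Fin d → ℤ)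
    (L M : ℕ) (hfar : ∀ n, L ≤ n → ∀ y ∈ X n, ¬ Nr (M + P.T (n + 1)) x y) (z : Fin d → ℤ)
    (hz : Nr M z x) :
    (z ∈ Vz P X → z ∈ zone N P.R2 L) ∧ (z ∈ Obs P X → z ∈ zone N P.Rb L) := by
  constructor
  · refine hz1b_aux P X N hC x L M hfar z hz P.R1 P.R2 ?_ ?_
    · intro n
      have h := P.basic n
      omega
    · intro n m hnm
      have h := P.basic m
      have h1 := P.mono_R1 hnm
      omega
  · refine hz1b_aux P X N hC x L M hfar z hz (fun n => P.R n + 1) P.Rb ?_ ?_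
    · intro n
      have h := P.basic n
      show P.R n + 1 ≤ _
      omega
    · intro n m hnm
      have h1 := P.mono_R hnm
      show P.R n + 1 + P.D m ≤ P.R m + P.D m + 1
      omega

end Pool.Agent.MP_f7f40d_pr.HD
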