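import Pool.Agent.MP_f7f40d_pr.HD.W3
import Pool.Agent.MP_f7f40d_pr.HD.Z1

set_option autoImplicit false

namespace Pool.Agent.MP_f7f40d_pr.HD

variable {d : ℕ}

/-- **[HD-S2b]** The well lemma for functions with finite support and the bad set `B`.

PROOF. `X = XX P B`, so `X 0 = B`.  For every `x ∈ B` there is `n` with `x ∈ X n`, `x ∉ X (n+1)` (by `LF`
for `x`: `x ∉ X L` as `Nr _ x x`; `Nat.find`), so by `cover` `x` is within `D n` of `N n`.  Since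
`{1 ≤ h}` is finite there is `l` such that `act := B ∩ {1 ≤ h} ⊆ zone N P.D l`.  Apply
`well_all … l` with `t = fun _ => none`, `K = K2 = fun _ => ∅` (`SepK` is trivial, `cost = 0`).
`zone N P.R l ⊆ zoneA X P.R` as `N n ⊆ X n`. -/
theorem well_fin (hd : 2 ≤ d) (P : Par d) (B : Set (Fin d → ℤ)) (N : ℕ → Set (Fin d → ℤ))
    (hC : Centres P (XX P B) N)
    (LF : ∀ x : Fin d → ℤ, ∃ L, ∀ n, L ≤ n → ∀ y ∈ XX P B n, ¬ Nr (10 * P.T (n + 1)) x y)
    (h : (Fin d → ℤ) → ℤ) (h0 : ∀ x, 0 ≤ h x) (hfin : {x | 1 ≤ h x}.Finite)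
    (h1 : ∀ x, 1 ≤ h x → x ∉ B → lapZ h x ≤ (d : ℤ) - 5)
    (h2 : ∀ x, 1 ≤ h x → lapZ h x ≤ 6 * (d : ℤ)) : {x | 1 ≤ h x} ⊆ zoneA (XX P B) P.R := by
  have key : ∀ x ∈ B, ∃ n, ∃ y ∈ N n, Nr (P.D n) x y := by
    classical
    intro x hx
    obtain ⟨L, hL⟩ := LF x
    have hxL : x ∉ XX P B L := fun hxL => hL L le_rfl x hxL (Nr.refl _ x)
    have hex : ∃ n, x ∉ XX P B n := ⟨L, hxL⟩
    have hne : Nat.find hex ≠ 0 := by
      intro he
      have h3 := Nat.find_spec hex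
      rw [he] at h3
      exact h3 hx
    obtain ⟨m, hm⟩ := Nat.exists_eq_succ_of_ne_zero hne
    have h3 : x ∉ XX P B (m + 1) := by
      have h4 := Nat.find_spec hex
      rwa [hm] at h4
    have h4 : x ∈ XX P B m := by
      by_contra h5
      exact Nat.find_min hex (m := m) (by omega) h5
    obtain ⟨y, hy, hn⟩ := hC.cover m x h4 h3
    exact ⟨m, y, hy, hn⟩
  have hl : ∃ l, B ∩ {x | 1 ≤ h x} ⊆ zone N P.D l := by
    choose! f g hg using key
    have hf2 : (B ∩ {x | 1 ≤ h x}).Finite := hfin.subset Set.inter_subset_right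
    refine ⟨hf2.toFinset.sup f + 1, fun x hx => ?_⟩
    refine ⟨f x, ?_, g x, (hg x hx.1).1, (hg x hx.1).2⟩
    exact Nat.lt_succ_of_le (Finset.le_sup (f := f) (hf2.mem_toFinset.2 hx))
  obtain ⟨l, hl⟩ := hl
  have hw := well_all hd P N hC.sepa l h (B ∩ {x | 1 ≤ h x}) (fun _ => none) (fun _ => ∅)
    (fun _ => ∅) h0 hfin hl (Or.inr ⟨?_, ?_, ?_, ?_⟩) ?_ ?_
  · intro x hx
    obtain ⟨n, -, y, hy, hn⟩ := hw hx
    exact ⟨n, y, hC.sub n hy, hn⟩
  · rintro i p q (hp | hp)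
    · cases hp
    · exact hp.elim
  · intro i p hp
    cases hp
  · intro i p hp
    exact hp.elim
  · intro i p hp
    exact hp.elim
  · intro x hx hxa
    have h3 := h1 x hx fun hB => hxa ⟨hB, hx⟩
    have h4 : (0 : ℤ) ≤ (cost (fun _ => none) (fun _ => ∅) (fun _ => ∅) x : ℕ) := Int.natCast_nonneg _
    linarith
  · intro x hx
    have h3 := h2 x hx
    have h4 : (0 : ℤ) ≤ (cost (fun _ => none) (fun _ => ∅) (fun _ => ∅) x : ℕ) := Int.natCast_nonneg _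
    linarith

end Pool.Agent.MP_f7f40d_pr.HD
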