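import Pool.Agent.MP_f7f40d_pr.HD.Z1
import Pool.Agent.MP_f7f40d_pr.HD.I1

set_option autoImplicit false

namespace Pool.Agent.MP_f7f40d_pr.HD

variable {d : ℕ}

/-- **[HD-S2a]** Under local finiteness every point of `Vz` has a finite neighbourhood which is closed
under adjacency in `Vz`.

PROOF. Let `L` be given by `LF` for `x`; with `M = T L + 1`: for `n ≥ L`
`M + T (n+1) ≤ 10 T (n+1)` (`T L ≤ T (n+1)`, `1 ≤ T (n+1)`), so `zone_loc` applies with `M`.  By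
`zone_loc` (for `z = x`) `x ∈ zone N P.R2 L`.  Let `Q` be the set of `island` for the level `L`.  It is
bounded (within `T L` of `x`), hence finite.  If `y ∈ Q`, `z = stp y i s ∈ Vz P X`, then `Nr M z x`, so
`z ∈ zone N P.R2 L` and `z ∈ Q`. -/
theorem fin_island (P : Par d) (X N : ℕ → Set (Fin d → ℤ)) (hC : Centres P X N)
    (LF : ∀ x : Fin d → ℤ, ∃ L, ∀ n, L ≤ n → ∀ y ∈ X n, ¬ Nr (10 * P.T (n + 1)) x y)
    (x : Fin d → ℤ) (hx : x ∈ Vz P X) :
    ∃ Q : Set (Fin d → ℤ), Q.Finite ∧ x ∈ Q ∧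
      ∀ y ∈ Q, ∀ i s, Sg s → stp y i s ∈ Vz P X → stp y i s ∈ Q := by
  obtain ⟨L, hL⟩ := LF x
  have hfar : ∀ n, L ≤ n → ∀ y ∈ X n, ¬ Nr (P.T L + 1 + P.T (n + 1)) x y := by
    intro n hn y hy h
    refine hL n hn y hy (h.mono ?_)
    have h1 : P.T L ≤ P.T (n + 1) := P.mono_T (by omega)
    obtain ⟨-, -, -, -, -, -, -, h2⟩ := P.basic n
    omega
  have hz := zone_loc P X N hC x L (P.T L + 1) hfar
  have hx1 : x ∈ zone N P.R2 L := (hz x (Nr.refl _ x)).1 hx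
  obtain ⟨Q, hxQ, hQz, hQd, hQc, -⟩ :=
    island N P.R2 P.T P.ρ P.T0 (fun n => P.hT n) (fun n => P.hρT n) hC.sepa L x hx1
  refine ⟨Q, ?_, hxQ, ?_⟩
  · refine (Set.finite_Icc (fun i => x i - P.T L) (fun i => x i + P.T L)).subset ?_
    intro y hy
    have h1 := hQd y hy x hxQ
    refine ⟨fun i => ?_, fun i => ?_⟩
    · have h2 := abs_le.1 (h1 i)
      exact (by omega : x i - (P.T L : ℤ) ≤ y i)
    · have h2 := abs_le.1 (h1 i)
      exact (by omega : y i ≤ x i + (P.T L : ℤ))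
  · intro y hy i s hs hV
    refine hQc y hy i s hs ((hz _ ?_).1 hV)
    exact ((Nr_stp y i hs).trans (hQd y hy x hxQ)).mono (by omega)

end Pool.Agent.MP_f7f40d_pr.HD
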