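import Pool.Agent.MP_f7f40d_pr.HD.S1
import Pool.Agent.MP_f7f40d_pr.HD.S2a
import Pool.Agent.MP_f7f40d_pr.HD.S2b
import Pool.Agent.MP_f7f40d_pr.HD.G4

set_option autoImplicit false

namespace Pool.Agent.MP_f7f40d_pr.HD

variable {d : ℕ}

theorem hs2c_nonneg (m1 s : ℕ) (A : (Fin d → ℤ) → ℕ) (u : (Fin d → ℤ) → ℤ) (n : ℕ)
    (v : Fin d → ℤ) : 0 ≤ hn m1 s A u n v := le_max_right _ _

theorem hs2c_succ (m1 s : ℕ) (A : (Fin d → ℤ) → ℕ) (u : (Fin d → ℤ) → ℤ) (n : ℕ)
    (v : Fin d → ℤ) : hn m1 s A u (n + 1) v ≤ hn m1 s A u n v + 1 := by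
  unfold hn
  push_cast
  omega

theorem hs2c_inter (S Λ : Set (Fin d → ℤ)) (x : Fin d → ℤ) :
    cnt S x ≤ cnt (S ∩ Λ) x + cnt Λᶜ x := by
  have key : ∀ w : Fin d → ℤ, ind (w ∈ S) ≤ ind (w ∈ S ∩ Λ) + ind (w ∈ Λᶜ) := by
    intro w
    by_cases hw : w ∈ Λ
    · have h1 : ind (w ∈ S) ≤ ind (w ∈ S ∩ Λ) := ind_mono fun h => ⟨h, hw⟩
      omega
    · have h1 : ind (w ∈ Λᶜ) = 1 := ind_true hw
      have h2 := ind_le_one (w ∈ S)
      omega
  unfold cnt
  rw [← Finset.sum_add_distrib]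
  refine Finset.sum_le_sum fun i _ => ?_
  have h1 := key (stp x i 1)
  have h2 := key (stp x i (-1))
  omega

/-- The Laplacian of a function which is an indicator near `x`. -/
theorem hs2c_lap (h : (Fin d → ℤ) → ℤ) (x : Fin d → ℤ) (hx : h x = 1)
    (hw : ∀ i s, Sg s → 0 ≤ h (stp x i s) ∧ h (stp x i s) ≤ 1) :
    lapZ h x = (cnt {y | 1 ≤ h y}ᶜ x : ℤ) := by
  rw [lapZ_eq]
  unfold cnt
  push_cast
  refine Finset.sum_congr rfl fun i _ => ?_
  have key : ∀ w : Fin d → ℤ, 0 ≤ h w ∧ h w ≤ 1 → (ind (w ∈ ({y | 1 ≤ h y}ᶜ : Set (Fin d → ℤ))) : ℤ) =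
      1 - h w := by
    intro w hw
    by_cases h1 : 1 ≤ h w
    · rw [ind_false (fun h2 => h2 h1)]
      have : h w = 1 := le_antisymm hw.2 h1
      rw [this]; simp
    · rw [ind_true (show w ∈ ({y | 1 ≤ h y}ᶜ : Set (Fin d → ℤ)) from h1)]
      have : h w = 0 := by omega
      rw [this]; simp
  rw [key _ (hw i 1 (Or.inl rfl)), key _ (hw i (-1) (Or.inr rfl)), hx]
  ring

/-- **[HD-S2c]** The deterministic conclusion.

PROOF. Suppose `u ≥ 0` with `A v - lapZ u v ≤ 2d - 1` for all `v` (`Stab`).  Write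
`B = badS m1 s A`, `X = XX P B`, `Z = zoneA X P.R`, `h_n = hn m1 s A u n`.
CLAIM: `{1 ≤ h_n} ⊆ Z` for all `n`.  `n = 0`: `h_0 = 0` (`u, Gf ≥ 0`).  Step: let the claim hold for
`n` and `S := {1 ≤ h_{n+1}}`.
(1) Let `x ∈ S`, `x ∉ Obs P X`.  Then `x ∉ Z` and no neighbour of `x` is in `Z` (`Obs` has radius
`R + 1`), so `h_n = 0` at these points, i.e. `h_{n+1} ≤ 1` there, `h_{n+1} x = 1`.  `x ∉ B` (`B = X 0`,
`Nr _ x x`).  So `(cnt Sᶜ x : ℤ) = lapZ h_{n+1} x ≤ d - 5` (`red`), `cnt S x ≥ d + 5`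
(`cnt_add_compl`), and if `x` were a seed, `(cnt Sᶜ x : ℤ) ≤ -1`, absurd.
(2) For every box `Λ = Icc (-ℓ) ℓ` from `GR`: `S ∩ Λ` is stable for `Λ` (`Stb`):
`cnt (S ∩ Λ) x + cnt Λᶜ x ≥ cnt S x`.  By `fil_univ`, `S ∩ Λ ⊆ Vz P X`.  As `ℓ` is arbitrarily
large: `S ⊆ Vz P X`.
(3) Let `x ∈ S`; `Q` from `fin_island`; `h y := if y ∈ Q then h_{n+1} y else 0`.  If
`1 ≤ h y` then `y ∈ Q ∩ S`, every neighbour `w ∈ S` of `y` is in `Vz`, so in `Q`; so `h w = h_{n+1} w`
for all neighbours and `lapZ h y = lapZ h_{n+1} y`.  `well_fin` (with `red`) gives `x ∈ Z`.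
CONCLUSION: let `v ∉ Z` (`EX`).  Then `h_n v = 0`, so `u v ≥ n - Gf v ≥ n - 2` for all `n`: absurd. -/
theorem det_final (hd : 2 ≤ d) (P : Par d) (m1 s : ℕ) (hm1 : m1 = d + 3 * s + 4)
    (hs : 3 * s + 4 ≤ d) (A : (Fin d → ℤ) → ℕ) (N : ℕ → Set (Fin d → ℤ))
    (hC : Centres P (XX P (badS m1 s A)) N)
    (LF : ∀ x : Fin d → ℤ, ∃ L, ∀ n, L ≤ n → ∀ y ∈ XX P (badS m1 s A) n,
      ¬ Nr (10 * P.T (n + 1)) x y)
    (GR : ∀ M : ℕ, ∃ l : ℕ, M ≤ l ∧ Gr P (seedS A) (XX P (badS m1 s A)) Finset.univ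
      (fun _ => -(l : ℤ)) (fun _ => (l : ℤ)))
    (EX : ∃ v, v ∉ zoneA (XX P (badS m1 s A)) P.R) : ¬ Stab d fun v => (A v : ℤ) := by
  classical
  rintro ⟨u, hu0, hu⟩
  set B := badS m1 s A with hB
  set X := XX P B with hX
  have hR := red m1 s hm1 hs A u hu
  have claim : ∀ n, {v | 1 ≤ hn m1 s A u n v} ⊆ zoneA X P.R := by
    intro n
    induction n with
    | zero =>
      intro v hv
      exfalso
      have h1 : 1 ≤ hn m1 s A u 0 v := hv
      have h2 := hu0 v
      have h3 : 0 ≤ Gf m1 s A v := by unfold Gf; positivity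
      unfold hn at h1
      push_cast at h1
      omega
    | succ n ih =>
      set h := hn m1 s A u (n + 1) with hh
      have hnn : ∀ v, 0 ≤ h v := fun v => hs2c_nonneg m1 s A u (n + 1) v
      have hle1 : ∀ v, v ∉ zoneA X P.R → h v ≤ 1 := by
        intro v hv
        have h1 : ¬ 1 ≤ hn m1 s A u n v := fun h2 => hv (ih h2)
        have h2 := hs2c_succ m1 s A u n v
        have h3 : h v ≤ hn m1 s A u n v + 1 := h2
        omega
      -- (1)
      have step1 : ∀ x, 1 ≤ h x → x ∉ Obs P X → x ∉ seedS A ∧ d + 5 ≤ cnt {y | 1 ≤ h y} x := by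
        intro x hx hxO
        have hxZ : x ∉ zoneA X P.R := by
          rintro ⟨k, y, hy, hk⟩
          exact hxO ⟨k, y, hy, hk.mono (Nat.le_succ _)⟩
        have hwZ : ∀ i s, Sg s → stp x i s ∉ zoneA X P.R := by
          rintro i s' hs' ⟨k, y, hy, hk⟩
          refine hxO ⟨k, y, hy, ?_⟩
          have h1 := (Nr_stp x i hs').symm.trans hk
          exact h1.mono (le_of_eq (Nat.add_comm _ _))
        have hxB : x ∉ B := by
          intro hxB
          exact hxO ⟨0, x, hxB, Nr.refl _ _⟩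
        have hx1 : h x = 1 := le_antisymm (hle1 x hxZ) hx
        have hlap := hs2c_lap h x hx1 fun i s' hs' => ⟨hnn _, hle1 _ (hwZ i s' hs')⟩
        obtain ⟨r1, _, r3⟩ := hR (n + 1) x hx
        have r1' : lapZ h x ≤ (d : ℤ) - 5 := r1 hxB
        rw [hlap] at r1'
        refine ⟨?_, ?_⟩
        · intro hsd
          have r3' : lapZ h x ≤ -1 := r3 hsd
          rw [hlap] at r3'
          omega
        · have := cnt_add_compl {y | 1 ≤ h y} x
          omega
      -- (2)
      have step2 : {y | 1 ≤ h y} ⊆ Vz P X := by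
        intro x hx
        obtain ⟨l, hl, hGr⟩ := GR (∑ i, (x i).natAbs)
        have hfil := fil_univ (by omega) P (seedS A) X N hC hGr
        have hst : Stb P (seedS A) X (Set.Icc (fun _ => -(l : ℤ)) (fun _ => (l : ℤ)))
            ({y | 1 ≤ h y} ∩ Set.Icc (fun _ => -(l : ℤ)) (fun _ => (l : ℤ))) := by
          refine ⟨Set.inter_subset_right, ?_⟩
          intro y hy hyO
          obtain ⟨h1, h2⟩ := step1 y hy.1 hyO
          exact ⟨h1, h2.trans (hs2c_inter _ _ y)⟩
        refine hfil _ hst ⟨hx, ?_⟩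
        have hb : ∀ i, ((x i).natAbs : ℤ) ≤ l := by
          intro i
          have h1 : (x i).natAbs ≤ ∑ i, (x i).natAbs :=
            Finset.single_le_sum (f := fun i => (x i).natAbs) (fun _ _ => Nat.zero_le _)
              (Finset.mem_univ i)
          exact_mod_cast h1.trans hl
        constructor
        · intro i
          have := hb i
          show -(l : ℤ) ≤ x i
          omega
        · intro i
          have := hb i
          show x i ≤ (l : ℤ)
          omega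
      -- (3)
      intro x hx
      obtain ⟨Q, hQf, hxQ, hQ⟩ := fin_island P X N hC LF x (step2 hx)
      have hg := well_fin hd P B N hC LF (fun y => if y ∈ Q then h y else 0) (by
        intro y
        show 0 ≤ if y ∈ Q then h y else 0
        split_ifs
        · exact hnn y
        · exact le_refl _) (by
        refine hQf.subset ?_
        intro y hy
        by_contra hyQ
        have h1 : 1 ≤ if y ∈ Q then h y else 0 := hy
        rw [if_neg hyQ] at h1
        omega)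
      have hcongr : ∀ y, 1 ≤ (if y ∈ Q then h y else 0) →
          y ∈ Q ∧ 1 ≤ h y ∧ lapZ (fun y => if y ∈ Q then h y else 0) y = lapZ h y := by
        intro y hy
        have hyQ : y ∈ Q := by
          by_contra hyQ
          rw [if_neg hyQ] at hy
          omega
        rw [if_pos hyQ] at hy
        refine ⟨hyQ, hy, ?_⟩
        have hw : ∀ i s', Sg s' → (if stp y i s' ∈ Q then h (stp y i s') else 0) = h (stp y i s') := by
          intro i s' hs'
          by_cases hwQ : stp y i s' ∈ Q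
          · rw [if_pos hwQ]
          · rw [if_neg hwQ]
            have h1 : ¬ 1 ≤ h (stp y i s') := fun h2 => hwQ (hQ y hyQ i s' hs' (step2 h2))
            have h2 := hnn (stp y i s')
            omega
        rw [lapZ_eq, lapZ_eq]
        refine Finset.sum_congr rfl fun i _ => ?_
        show 2 * (if y ∈ Q then h y else 0) - (if stp y i 1 ∈ Q then h (stp y i 1) else 0) -
          (if stp y i (-1) ∈ Q then h (stp y i (-1)) else 0) = _
        rw [hw i 1 (Or.inl rfl), hw i (-1) (Or.inr rfl), if_pos hyQ]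
      have hfin2 := hg (by
        intro y hy hyB
        obtain ⟨_, h2, h3⟩ := hcongr y hy
        rw [h3]
        exact (hR (n + 1) y h2).1 hyB) (by
        intro y hy
        obtain ⟨_, h2, h3⟩ := hcongr y hy
        rw [h3]
        exact (hR (n + 1) y h2).2.1)
      refine hfin2 ?_
      show 1 ≤ if x ∈ Q then h x else 0
      rw [if_pos hxQ]
      exact hx
  obtain ⟨v, hv⟩ := EX
  have h1 : ¬ 1 ≤ hn m1 s A u ((u v).toNat + 3) v := fun h => hv (claim _ h)
  have h2 : Gf m1 s A v ≤ 2 := by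
    unfold Gf
    have h3 := ind_le_one (v ∈ lowS m1 A)
    have h4 := ind_le_one (v ∈ manyS (2 * s) (lowS m1 A))
    omega
  have h3 := hu0 v
  unfold hn at h1
  push_cast at h1
  rw [Int.toNat_of_nonneg h3] at h1
  omega

end Pool.Agent.MP_f7f40d_pr.HD
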