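import Pool.Agent.MP_f7f40d_pr.HD.Defs

set_option autoImplicit false

namespace Pool.Agent.MP_f7f40d_pr.HD

variable {d : ℕ}

/-- Axis data for the sheets `t`: a sheet is a two-sided special position. -/
def axT (t : Fin d → Option ℤ) : Ax d where
  T := fun i => (t i).elim ∅ fun p => {p}
  two := fun i => (t i).isSome
  σ := fun _ => 1

theorem hw1_mem (t : Fin d → Option ℤ) (i : Fin d) (p : ℤ) :
    p ∈ (axT t).T i ↔ t i = some p := by
  change p ∈ (t i).elim (∅ : Finset ℤ) (fun p => {p}) ↔ t i = some p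
  cases t i with
  | none => simp
  | some q =>
    rw [Option.elim_some, Finset.mem_singleton, Option.some.injEq]
    exact eq_comm

theorem hw1_card (t : Fin d → Option ℤ) (i : Fin d) : ((axT t).T i).card ≤ 1 := by
  change ((t i).elim (∅ : Finset ℤ) (fun p => {p})).card ≤ 1
  cases t i with
  | none => simp
  | some q => simp

theorem hw1_two (t : Fin d → Option ℤ) (i : Fin d) (p : ℤ) (h : t i = some p) :
    (axT t).two i = true := by
  change (t i).isSome = true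
  rw [h]
  rfl

/-- **[HD-W1a]** PROOF. Cases on `t i`. -/
theorem axT_ok (t : Fin d → Option ℤ) :
    (axT t).Ok ∧ (∀ i, ((axT t).T i).card ≤ 1) ∧ (∀ i p, p ∈ (axT t).T i ↔ t i = some p) ∧
      ∀ i p, p ∈ (axT t).T i → (axT t).two i = true := by
  refine ⟨⟨fun i => Or.inl rfl, fun i _ => hw1_card t i⟩, hw1_card t, hw1_mem t, fun i p hp => ?_⟩
  exact hw1_two t i p ((hw1_mem t i p).1 hp)

theorem hw1_zone {N : ℕ → Set (Fin d → ℤ)} {f g : ℕ → ℕ} {n : ℕ} (h : ∀ k, f k ≤ g k) :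
    zone N f n ⊆ zone N g n := by
  rintro x ⟨k, hk, y, hy, hN⟩
  exact ⟨k, hk, y, hy, hN.mono (h k)⟩

/-- neighbours of points outside the larger zone are outside the zone -/
theorem hw1_nb (P : Par d) (N : ℕ → Set (Fin d → ℤ)) (n : ℕ) {x : Fin d → ℤ}
    (hx : x ∉ zone N P.Rb n) (i : Fin d) {s : ℤ} (hs : Sg s) : stp x i s ∉ zone N P.R n := by
  rintro ⟨k, hk, y, hy, hN⟩
  apply hx
  refine ⟨k, hk, y, hy, ?_⟩
  have h1 : Nr (1 + P.R k) x y := (Nr_stp x i hs).symm.trans hN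
  refine h1.mono ?_
  unfold Par.Rb
  omega

/-- **[HD-W1b]** The set where `h` is at least its maximal value `μ` outside the zones has at least
three allowed neighbours off the obstacles.

PROOF. Let `x` with `μ ≤ h x`, `x ∉ zone N P.Rb n`, and signs `ε`.  Write `F = {x | μ ≤ h x}`.
As `P.R k ≤ P.Rb k`, `P.D k ≤ P.Rb k`: `x ∉ zone N P.R n`, so `h x = μ`; `x ∉ act`.  A neighbour
`w = stp x i s` is not in `zone N P.R n` either (`Nr (P.R k) w y` implies `Nr (P.R k + 1) x y`, and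
`P.R k + 1 ≤ P.Rb k`), so `h w ≤ μ`, and `h w ≤ μ - 1` if `w ∉ F`.  Hence (`lapZ_eq`)
`(cnt Fᶜ x : ℤ) ≤ lapZ h x ≤ d - 5 + cost t K K2 x ≤ d - 5 + C₀ + 2`, `C₀ = ∑ i, ind (t i = some (x i))`,
so by `cnt_add_compl`: `cnt F x ≥ d + 3 - C₀`.  In `acnt (axT t) F ε x` an axis with `t i = some (x i)`
contributes both neighbours and every other axis only the neighbour `stp x i (ε i)`; so
`cnt F x ≤ acnt (axT t) F ε x + (d - C₀)` (sum over `i`; for `ε i = ±1` the two signs `1`, `-1` are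
`ε i` and `-ε i`).  Therefore `acnt ≥ 3`. -/
theorem top_three (P : Par d) (N : ℕ → Set (Fin d → ℤ)) (n : ℕ) (h : (Fin d → ℤ) → ℤ)
    (act : Set (Fin d → ℤ)) (t : Fin d → Option ℤ) (K K2 : Fin d → Set ℤ) (μ : ℤ) (hμ : 1 ≤ μ)
    (hact : act ⊆ zone N P.D n) (htop : ∀ x, x ∉ zone N P.R n → h x ≤ μ)
    (h1 : ∀ x, 1 ≤ h x → x ∉ act → lapZ h x ≤ (d : ℤ) - 5 + cost t K K2 x) :
    Three (axT t) {x | μ ≤ h x} (zone N P.Rb n) := by
  intro x hxF hxO ε hε
  have hxR : x ∉ zone N P.R n := fun hx => hxO (hw1_zone (fun k => by unfold Par.Rb; omega) hx)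
  have hxa : x ∉ act := fun hx =>
    hxO (hw1_zone (fun k => by unfold Par.Rb; omega) (hact hx))
  have hxμ : h x = μ := le_antisymm (htop x hxR) hxF
  have hx1 : 1 ≤ h x := by rw [hxμ]; exact hμ
  have hlap := h1 x hx1 hxa
  -- one neighbour
  have hnb : ∀ i s, Sg s →
      ((ind (stp x i s ∈ ({x | μ ≤ h x} : Set (Fin d → ℤ))ᶜ) : ℕ) : ℤ) ≤ h x - h (stp x i s) := by
    intro i s hs
    have h2 : h (stp x i s) ≤ μ := htop _ (hw1_nb P N n hxO i hs)
    by_cases h3 : μ ≤ h (stp x i s)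
    · rw [ind_false (fun hc => hc h3)]
      rw [hxμ]
      push_cast
      linarith
    · rw [ind_true (show stp x i s ∈ ({x | μ ≤ h x} : Set (Fin d → ℤ))ᶜ from h3)]
      rw [hxμ]
      push_cast
      omega
  have hcnt : ((cnt ({x | μ ≤ h x} : Set (Fin d → ℤ))ᶜ x : ℕ) : ℤ) ≤ lapZ h x := by
    rw [lapZ_eq]
    unfold cnt
    push_cast
    refine Finset.sum_le_sum fun i _ => ?_
    have h2 := hnb i 1 (Or.inl rfl)
    have h3 := hnb i (-1) (Or.inr rfl)
    linarith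
  have hcost : cost t K K2 x ≤ (∑ i, ind (t i = some (x i))) + 2 := by
    unfold cost
    have h2 := ind_le_one (∃ i, x i ∈ K i)
    have h3 := ind_le_one (∃ i, x i ∈ K2 i)
    omega
  have hcompl := cnt_add_compl ({x | μ ≤ h x} : Set (Fin d → ℤ)) x
  -- comparison of the two counts
  have hac : cnt ({x | μ ≤ h x} : Set (Fin d → ℤ)) x + ∑ i, ind (t i = some (x i)) ≤
      acnt (axT t) {x | μ ≤ h x} ε x + d := by
    have hsum : ∀ i ∈ (Finset.univ : Finset (Fin d)),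
        (ind (stp x i 1 ∈ ({x | μ ≤ h x} : Set (Fin d → ℤ))) +
          ind (stp x i (-1) ∈ ({x | μ ≤ h x} : Set (Fin d → ℤ)))) +
            ind (t i = some (x i)) ≤
        (if x i ∈ (axT t).T i then
          (if (axT t).two i = true then
            ind (stp x i 1 ∈ ({x | μ ≤ h x} : Set (Fin d → ℤ))) +
              ind (stp x i (-1) ∈ ({x | μ ≤ h x} : Set (Fin d → ℤ)))
            else ind (stp x i ((axT t).σ i) ∈ ({x | μ ≤ h x} : Set (Fin d → ℤ))))
          else ind (stp x i (ε i) ∈ ({x | μ ≤ h x} : Set (Fin d → ℤ)))) + 1 := by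
      intro i _
      by_cases hi : t i = some (x i)
      · rw [if_pos ((hw1_mem t i (x i)).2 hi), if_pos (hw1_two t i (x i) hi), ind_true hi]
      · rw [if_neg (fun hc => hi ((hw1_mem t i (x i)).1 hc)), ind_false hi]
        rcases hε i with he | he
        · rw [he]
          have := ind_le_one (stp x i (-1) ∈ ({x | μ ≤ h x} : Set (Fin d → ℤ)))
          omega
        · rw [he]
          have := ind_le_one (stp x i 1 ∈ ({x | μ ≤ h x} : Set (Fin d → ℤ)))
          omega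
    have h2 := Finset.sum_le_sum hsum
    have h3 : ∑ _i : Fin d, 1 = d := by simp
    have h5 : ∀ f : Fin d → ℕ, (∑ i, f i) + d = ∑ i, (f i + 1) := fun f => by
      rw [Finset.sum_add_distrib, h3]
    unfold cnt acnt
    rw [← Finset.sum_add_distrib, h5]
    exact h2
  have hfin : (d : ℤ) + 3 ≤ (cnt ({x | μ ≤ h x} : Set (Fin d → ℤ)) x : ℤ) +
      ((∑ i, ind (t i = some (x i)) : ℕ) : ℤ) := by
    have h2 : ((cost t K K2 x : ℕ) : ℤ) ≤ ((∑ i, ind (t i = some (x i)) : ℕ) : ℤ) + 2 := by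
      exact_mod_cast hcost
    have h3 : ((cnt ({x | μ ≤ h x} : Set (Fin d → ℤ)) x : ℕ) : ℤ) +
        ((cnt ({x | μ ≤ h x} : Set (Fin d → ℤ))ᶜ x : ℕ) : ℤ) = 2 * (d : ℤ) := by
      exact_mod_cast hcompl
    linarith
  have hac' : (cnt ({x | μ ≤ h x} : Set (Fin d → ℤ)) x : ℤ) +
      ((∑ i, ind (t i = some (x i)) : ℕ) : ℤ) ≤
      (acnt (axT t) {x | μ ≤ h x} ε x : ℤ) + (d : ℤ) := by
    exact_mod_cast hac
  have : (3 : ℤ) ≤ (acnt (axT t) {x | μ ≤ h x} ε x : ℤ) := by linarith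
  exact_mod_cast this

end Pool.Agent.MP_f7f40d_pr.HD
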