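import Pool.Agent.MP_f7f40d_pr.HD.Defs

set_option autoImplicit false

namespace Pool.Agent.MP_f7f40d_pr.HD

variable {d : ℕ}

/-- Consequences of the inequalities in `Par`.

**[HD-W2a]** PROOF. `T` is monotone and unbounded by `hT9`; `R1 (n+1) ≥ b (n+1) ≥ R1 n` by `hb`;
the others from `hT`; `r n ≤ T (n+1)` since `2 r n < D n` and `2 D n ≤ T (n+1)`. -/
theorem Par.mono_T (P : Par d) {m n : ℕ} (h : m ≤ n) : P.T m ≤ P.T n := by
  refine monotone_nat_of_le_succ (fun k => ?_) h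
  have := P.hT9 k
  omega

theorem Par.mono_R1 (P : Par d) {m n : ℕ} (h : m ≤ n) : P.R1 m ≤ P.R1 n := by
  refine monotone_nat_of_le_succ (fun k => ?_) h
  have h1 := P.hb k
  have h2 : P.R k + P.D k + 1 + P.b k ≤ (32 * d + 16) * (P.R k + P.D k + 1 + P.b k) :=
    Nat.le_mul_of_pos_left _ (by omega)
  unfold Par.R1
  omega

theorem Par.mono_R (P : Par d) {m n : ℕ} (h : m ≤ n) : P.R m ≤ P.R n := by
  refine monotone_nat_of_le_succ (fun k => ?_) h
  have h1 := P.hR (k + 1)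
  have h2 := P.hD (k + 1)
  have h3 := P.hr k
  have h4 := P.hρ k
  generalize 10 * (P.T (k + 1 - 1) + 1) * (4 * d * (2 * P.D (k + 1) + 1)) = z at h1
  omega

theorem Par.basic (P : Par d) (n : ℕ) :
    P.R n + 1 ≤ P.Rb n ∧ P.D n ≤ P.Rb n ∧ P.Rb n ≤ P.R1 n ∧ P.R1 n + P.D n = P.R2 n ∧
      2 * P.R2 n + 2 ≤ P.T (n + 1) ∧ 2 * P.r n < P.T (n + 1) ∧ n ≤ P.T n ∧ 9 ≤ P.T (n + 1) := by
  have h1 := P.hT n
  have h2 := P.hD n
  have h3 := P.hT9 n
  have h4 : ∀ k, k ≤ P.T k := by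
    intro k
    induction k with
    | zero => exact Nat.zero_le _
    | succ k ih =>
      have := P.hT9 k
      omega
  have h5 := h4 n
  unfold Par.Rb Par.R1 Par.R2
  refine ⟨?_, ?_, ?_, ?_, ?_, ?_, h5, ?_⟩ <;> omega

end Pool.Agent.MP_f7f40d_pr.HD
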