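import Pool.Agent.MP_f7f40d_pr.HD.P6
import Pool.Agent.MP_f7f40d_pr.HD.I1
import Pool.Agent.MP_f7f40d_pr.HD.B2
import Pool.Agent.MP_f7f40d_pr.HD.B3
import Pool.Agent.MP_f7f40d_pr.HD.W1
import Pool.Agent.MP_f7f40d_pr.HD.W2

set_option autoImplicit false

namespace Pool.Agent.MP_f7f40d_pr.HD

variable {d : ℕ}

/-- **[HD-W3]** The induction step of the well lemma (uses P6, I1, B2, B3, W1, W2).

PROOF. Let `h, act, t, K, K2` be as in `Well P N n`; suppose some `y` with `1 ≤ h y` is not in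
`zone N P.R n`.  The set `{h y' : 1 ≤ h y', y' ∉ zone N P.R n}` is finite and non-empty: let `μ ≥ 1`
be its maximum and let `y` attain it (`Set.exists_max_image`).  So `h x ≤ μ` for all
`x ∉ zone N P.R n`.  `F = {x | μ ≤ h x}` is finite.  By `top_three` and `path_par`
(`axT_ok`; `1 ≤ 2 d`): `F ⊆ zone N P.R1 n ⊆ zone N P.R2 n`.  Let `Q`, `m < n`, `c ∈ N m` be given by
`island` (with `R2`, `T`, `ρ` of `P`) for the point `y ∈ F`.  If `x ∈ Q ∩ F` and `stp x i s ∈ F` then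
`stp x i s ∈ zone N P.R2 n`, so `stp x i s ∈ Q`: hypothesis of `lapZ_local`; define
`hK x = if x ∈ Q ∧ μ ≤ h x then h x - μ + 1 else 0`.

New data: `n ≥ 1` (as `m < n`), so `SepK P n t K K2` holds.  `t' := newT t K2 Q`.
If `m ≥ 1`: apply `kinks (c i) (P.D m) (P.T (m-1) + 1) (4*d*(2*P.D m + 1))` with
`Γ = {p | t' i = some p ∨ p ∈ K i}`; its points are `> T (n-1) ≥ T m ≥ 9 (T (m-1) + 1)` apart
(third and fourth clause of `SepK`, `newT_spec`, `hT9`).  If `m = 0` apply it with `Γ = ∅`.  In both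
cases we get `qs i`.  `K' i := {p | ∃ q ∈ qs i, p = c i + q ∨ p = c i - q}`.  Let `ψ` be given by
`barrier` (with `D = P.D m`) and `g x := max (hK x - ψ x) 0`.

Apply `ih m` to `g`, `act' := {x | x ∈ act ∧ x ∈ Q ∧ ¬ Nr (P.D m) x c}`, `t'`, `K'`, `K`:
 * `0 ≤ g`; `{1 ≤ g} ⊆ {1 ≤ hK} ⊆ F` finite.
 * `act' ⊆ zone N P.D m`: `x ∈ act ∩ Q` is within `P.D j ≤ P.R2 j` of some `z ∈ N j`, `j < n`; by the
   last clause of `island` `j < m` or (`j = m`, `z = c`), the latter excluded by `¬ Nr (P.D m) x c`.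
 * `m = 0 ∨ SepK P m t' K' K`: `new_sepK`.
 * let `1 ≤ g x`; then `1 ≤ hK x - ψ x`, so `1 ≤ hK x`, `x ∈ Q`, `μ ≤ h x`, and by `lapZ_sub_le`,
   `lapZ_local`: `lapZ g x ≤ lapZ h x - lapZ ψ x`.  By `newT_spec`
   `cost t K K2 x + ind (∃ i, x i ∈ K' i) ≤ cost t' K' K x`.  By `barrier`
   `- lapZ ψ x ≤ ind (∃ i, x i ∈ K' i)`, and `- lapZ ψ x ≤ - 8 d` if `Nr (P.D m) x c`.
   - `lapZ g x ≤ 6 d + cost t' K' K x`: clear.
   - `x ∉ act'`: if `x ∉ act`: `lapZ g x ≤ d - 5 + cost t K K2 x + ind …`, fine; if `x ∈ act` then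
     (`x ∈ Q`) `Nr (P.D m) x c`, so `lapZ g x ≤ 6 d + cost t K K2 x - 8 d ≤ d - 5 + cost t' K' K x`
     as `2 ≤ d`.
Hence `{1 ≤ g} ⊆ zone N P.R m ⊆ zone N P.R n`, so `g y ≤ 0`, i.e. `1 = hK y ≤ ψ y` (`h y = μ`).
By `barrier` for every `i` there is `q ∈ qs i` with `|y i - c i| < q ≤ 2 D m + 10 (T (m-1)+1)(4d(2D m+1))
≤ R m` (`hR`).  So `Nr (P.R m) y c`, `y ∈ zone N P.R n`: contradiction. -/
theorem well_step (hd : 2 ≤ d) (P : Par d) (N : ℕ → Set (Fin d → ℤ)) (hs : Sepa N P.ρ) (n : ℕ)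
    (ih : ∀ m, m < n → Well P N m) : Well P N n := by
  intro h act t K K2 h0 hfin hact hsep hL1 hL2
  by_contra hcon
  rw [Set.not_subset] at hcon
  obtain ⟨y0, hy0, hy0z⟩ := hcon
  have hSfin : {x | 1 ≤ h x ∧ x ∉ zone N P.R n}.Finite := hfin.subset (fun x hx => hx.1)
  obtain ⟨y, ⟨hy1, hyz⟩, hymax⟩ := Set.exists_max_image _ h hSfin ⟨y0, hy0, hy0z⟩
  have htop : ∀ x, x ∉ zone N P.R n → h x ≤ h y := by
    intro x hx
    by_cases h1 : 1 ≤ h x
    · exact hymax x ⟨h1, hx⟩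
    · omega
  have hFfin : {x | h y ≤ h x}.Finite := hfin.subset (fun x hx => le_trans hy1 hx)
  have hthree := top_three P N n h act t K K2 (h y) hy1 hact htop hL1
  obtain ⟨haxok, haxcard, -, -⟩ := axT_ok t
  have hF1 : {x | h y ≤ h x} ⊆ zone N P.R1 n :=
    path_par (by omega) P (axT t) haxok (fun i => (haxcard i).trans (by omega)) _ hFfin N hs n
      hthree
  have hF2 : ∀ x, h y ≤ h x → x ∈ zone N P.R2 n := by
    intro x hx
    obtain ⟨k, hk, z, hz, hn⟩ := hF1 hx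
    refine ⟨k, hk, z, hz, hn.mono ?_⟩
    unfold Par.R1 Par.R2
    omega
  obtain ⟨Q, hyQ, -, hQdiam, hQcl, m, hmn, c, hc, -, hQlast⟩ :=
    island N P.R2 P.T P.ρ P.T0 (fun k => by
      have := P.hT k
      unfold Par.R2
      omega) (fun k => by
      have := P.hρT k
      unfold Par.R2
      omega) hs n y (hF2 y le_rfl)
  have hsep' : SepK P n t K K2 := by
    rcases hsep with h1 | h1
    · omega
    · exact h1
  obtain ⟨hnt1, hnt2⟩ := newT_spec P n t K K2 Q hsep' hQdiam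
  have hq : ∀ i, ∃ qs : Finset ℕ, qs.card = 4 * d * (2 * P.D m + 1) ∧
      (∀ q ∈ qs, 2 * P.D m + 1 ≤ q ∧ P.T (m - 1) + 1 ≤ q ∧
        q ≤ 2 * P.D m + 10 * (P.T (m - 1) + 1) * (4 * d * (2 * P.D m + 1))) ∧
      (∀ q ∈ qs, ∀ q' ∈ qs, q ≠ q' → ((P.T (m - 1) + 1 : ℕ) : ℤ) ≤ |(q : ℤ) - q'|) ∧
      (m ≠ 0 → ∀ q ∈ qs, ∀ p, (newT t K2 Q i = some p ∨ p ∈ K i) →
        ((P.T (m - 1) + 1 : ℕ) : ℤ) ≤ |c i + q - p| ∧
        ((P.T (m - 1) + 1 : ℕ) : ℤ) ≤ |c i - q - p|) := by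
    intro i
    by_cases hm0 : m = 0
    · obtain ⟨qs, h1, h2, h3, -⟩ := kinks (c i) (P.D m) (P.T (m - 1) + 1)
        (4 * d * (2 * P.D m + 1)) (by omega) ∅ (by simp)
      exact ⟨qs, h1, h2, h3, fun h4 => absurd hm0 h4⟩
    · have hΓ : ∀ p ∈ {p | newT t K2 Q i = some p ∨ p ∈ K i},
          ∀ q ∈ {p | newT t K2 Q i = some p ∨ p ∈ K i}, p ≠ q →
            (9 * ((P.T (m - 1) + 1 : ℕ) : ℤ)) ≤ |p - q| := by
        have hbig : 9 * (P.T (m - 1) + 1) ≤ P.T (n - 1) := by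
          have h1 := P.hT9 (m - 1)
          have h2 : m - 1 + 1 = m := by omega
          rw [h2] at h1
          exact h1.trans (P.mono_T (by omega))
        have hbig' : (9 * ((P.T (m - 1) + 1 : ℕ) : ℤ)) ≤ (P.T (n - 1) : ℤ) := by
          exact_mod_cast hbig
        obtain ⟨-, -, hc3, hc4⟩ := hsep'
        rintro p (hp | hp) q (hq | hq) hpq
        · rw [hp] at hq
          exact absurd (Option.some.inj hq) hpq
        · have h1 := hc4 i q hq p (hnt1 i p hp)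
          rw [abs_sub_comm] at h1
          omega
        · have h1 := hc4 i p hp q (hnt1 i q hq)
          omega
        · have h1 := hc3 i p hp q hq hpq
          omega
      obtain ⟨qs, h1, h2, h3, h4⟩ := kinks (c i) (P.D m) (P.T (m - 1) + 1)
        (4 * d * (2 * P.D m + 1)) (by omega) {p | newT t K2 Q i = some p ∨ p ∈ K i} hΓ
      exact ⟨qs, h1, h2, h3, fun _ q hq p hp => h4 q hq p hp⟩
  choose qs hqcard hqb hqsep hqΓ using hq
  obtain ⟨ψ, hψ0, hψ1, hψ2, hψ3⟩ := barrier (by omega) c (P.D m) qs hqcard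
    (fun i q hq => (hqb i q hq).1)
  classical
  let K' : Fin d → Set ℤ := fun i => {p | ∃ q ∈ qs i, p = c i + q ∨ p = c i - q}
  let hK : (Fin d → ℤ) → ℤ := fun x => if x ∈ Q ∧ h y ≤ h x then h x - h y + 1 else 0
  have hK1 : ∀ x, x ∈ Q → h y ≤ h x → hK x = h x - h y + 1 := fun x h1 h2 => if_pos ⟨h1, h2⟩
  have hK2 : ∀ x, ¬ (x ∈ Q ∧ h y ≤ h x) → hK x = 0 := fun x h1 => if_neg h1
  let g : (Fin d → ℤ) → ℤ := fun x => max (hK x - ψ x) 0
  have hQ' : ∀ x ∈ Q, h y ≤ h x → ∀ i s, Sg s → h y ≤ h (stp x i s) → stp x i s ∈ Q :=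
    fun x hx _ i s hsg hst => hQcl x hx i s hsg (hF2 _ hst)
  -- facts at the points of the support of `g`
  have hg : ∀ x, 1 ≤ g x → 1 ≤ hK x - ψ x ∧ x ∈ Q ∧ h y ≤ h x ∧ 1 ≤ h x ∧
      lapZ g x ≤ lapZ h x - lapZ ψ x := by
    intro x hx
    have h1 : 1 ≤ hK x - ψ x := by
      rcases le_max_iff.mp hx with h2 | h2
      · exact h2
      · omega
    have h2 : x ∈ Q ∧ h y ≤ h x := by
      by_contra h3
      rw [hK2 x h3] at h1
      have := hψ0 x
      omega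
    refine ⟨h1, h2.1, h2.2, le_trans hy1 h2.2, ?_⟩
    have h3 := lapZ_sub_le hK ψ x h1
    have h4 := lapZ_local h (h y) Q hQ' hK hK1 hK2 x h2.1 h2.2
    exact h3.trans (by omega)
  have hcost : ∀ x ∈ Q, cost t K K2 x + ind (∃ i, x i ∈ K' i) ≤
      cost (newT t K2 Q) K' K x := by
    intro x hx
    have h1 := hnt2 x hx
    unfold cost
    omega
  have hψ2' : ∀ x, -(ind (∃ i, x i ∈ K' i) : ℤ) ≤ lapZ ψ x := hψ2
  let act' : Set (Fin d → ℤ) := {x | x ∈ act ∧ x ∈ Q ∧ ¬ Nr (P.D m) x c}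
  have hres := ih m hmn g act' (newT t K2 Q) K' K (fun x => le_max_right _ _)
    (hfin.subset fun x hx => (hg x hx).2.2.2.1)
    (by
      rintro x ⟨hxa, hxQ, hxn⟩
      obtain ⟨j, hj, z, hz, hjn⟩ := hact hxa
      have h1 : Nr (P.R2 j) x z := hjn.mono (by unfold Par.R2; omega)
      rcases hQlast j hj z hz ⟨x, hxQ, h1⟩ with h2 | ⟨h2, h3⟩
      · exact ⟨j, h2, z, hz, hjn⟩
      · exfalso
        apply hxn
        rw [← h3, ← h2]
        exact hjn)
    (by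
      by_cases hm0 : m = 0
      · exact Or.inl hm0
      · exact Or.inr (new_sepK P n m t (newT t K2 Q) K K2 c qs hmn hsep' hnt1
          (fun i q hq => (hqb i q hq).2.1) hqsep (fun i q hq p hp => hqΓ i hm0 q hq p hp)))
    (by
      intro x hx hxa
      obtain ⟨-, hxQ, -, hx1, hlap⟩ := hg x hx
      have h1 := hcost x hxQ
      have h1' : (cost t K K2 x : ℤ) + (ind (∃ i, x i ∈ K' i) : ℤ) ≤
          (cost (newT t K2 Q) K' K x : ℤ) := by exact_mod_cast h1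
      have h2 := hψ2' x
      by_cases hxact : x ∈ act
      · have h3 : Nr (P.D m) x c := by
          by_contra h4
          exact hxa ⟨hxact, hxQ, h4⟩
        have h4 := hψ3 x h3
        have h5 := hL2 x hx1
        have h6 : (0 : ℤ) ≤ (ind (∃ i, x i ∈ K' i) : ℤ) := Int.natCast_nonneg _
        have h7 : (2 : ℤ) ≤ d := by exact_mod_cast hd
        omega
      · have h3 := hL1 x hx1 hxact
        omega)
    (by
      intro x hx
      obtain ⟨-, hxQ, -, hx1, hlap⟩ := hg x hx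
      have h1 := hcost x hxQ
      have h1' : (cost t K K2 x : ℤ) + (ind (∃ i, x i ∈ K' i) : ℤ) ≤
          (cost (newT t K2 Q) K' K x : ℤ) := by exact_mod_cast h1
      have h2 := hψ2' x
      have h3 := hL2 x hx1
      omega)
  have hgy : ¬ 1 ≤ g y := by
    intro h1
    obtain ⟨k, hk, z, hz, hn⟩ := hres h1
    exact hyz ⟨k, lt_trans hk hmn, z, hz, hn⟩
  have hψy : 1 ≤ ψ y := by
    have h1 : hK y = h y - h y + 1 := hK1 y hyQ le_rfl
    have h2 : hK y - ψ y ≤ g y := le_max_left _ _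
    omega
  apply hyz
  refine ⟨m, hmn, c, hc, fun i => ?_⟩
  obtain ⟨q, hq, hlt⟩ := hψ1 y hψy i
  have h1 := (hqb i q hq).2.2
  have h2 := P.hR m
  have h3 : (q : ℤ) ≤ (P.R m : ℤ) := by exact_mod_cast h1.trans h2
  omega

theorem well_all (hd : 2 ≤ d) (P : Par d) (N : ℕ → Set (Fin d → ℤ)) (hs : Sepa N P.ρ) (n : ℕ) :
    Well P N n :=
  Nat.strong_induction_on n fun n ih => well_step hd P N hs n ih

end Pool.Agent.MP_f7f40d_pr.HD
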