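import Pool.Agent.MP_f7f40d_pr.HD.W2

set_option autoImplicit false

namespace Pool.Agent.MP_f7f40d_pr.HD

variable {d : ℕ}

/-- **[HD-Z1a]** Existence of centres.

PROOF. `anti` is clear from the definition.  For `x, y ∈ X n \ X (n+1)` (`X = XX P B`) the relation
`Nr (P.D n) x y` is an equivalence relation: reflexive, symmetric, and if `Nr (D n) x y`,
`Nr (D n) y z` then `Nr (2 D n) x z`, so `Nr (ρ n) x z` (`hDρ`), and `¬ Nr (D n) x z` would give
`x ∈ X (n+1)`.  Let `N n` be a set of representatives (e.g. `Quotient.out` of the setoid on the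
subtype, or `Classical.choose` of a maximal subset with pairwise `¬ Nr (D n)`).  `sepa`: if
`x, y ∈ N n`, `Nr (ρ n) x y`, then `Nr (D n) x y` (otherwise `x ∈ X (n+1)`), so `x = y`.  `cover`:
representatives. -/
theorem exists_centres (P : Par d) (B : Set (Fin d → ℤ)) :
    ∃ N : ℕ → Set (Fin d → ℤ), Centres P (XX P B) N := by
  classical
  have htr : ∀ n, ∀ x y z : {x // x ∈ XX P B n ∧ x ∉ XX P B (n + 1)},
      Nr (P.D n) x.1 y.1 → Nr (P.D n) y.1 z.1 → Nr (P.D n) x.1 z.1 := by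
    intro n x y z hxy hyz
    by_contra hcon
    apply x.2.2
    refine ⟨x.2.1, z.1, z.2.1, hcon, ?_⟩
    refine (hxy.trans hyz).mono ?_
    have := P.hDρ n
    omega
  let st : ∀ n, Setoid {x // x ∈ XX P B n ∧ x ∉ XX P B (n + 1)} := fun n =>
    { r := fun x y => Nr (P.D n) x.1 y.1
      iseqv := ⟨fun x => Nr.refl _ _, fun h => h.symm, fun h h' => htr n _ _ _ h h'⟩ }
  refine ⟨fun n => Set.range (fun q : Quotient (st n) => (Quotient.out q).1), ?_, ?_, ?_, ?_⟩
  · intro n x hx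
    exact hx.1
  · rintro n _ ⟨q, rfl⟩
    exact (Quotient.out q).2.1
  · rintro n _ ⟨q, rfl⟩ _ ⟨q', rfl⟩ h
    have h1 : Nr (P.D n) (Quotient.out q).1 (Quotient.out q').1 := by
      by_contra hcon
      exact (Quotient.out q).2.2 ⟨(Quotient.out q).2.1, _, (Quotient.out q').2.1, hcon, h⟩
    have h2 : q = q' := by
      rw [← Quotient.out_eq q, ← Quotient.out_eq q']
      exact Quotient.sound h1
    rw [h2]
  · intro n x hx hx'
    have h1 := Quotient.mk_out (s := st n) ⟨x, hx, hx'⟩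
    exact ⟨_, ⟨Quotient.mk (st n) ⟨x, hx, hx'⟩, rfl⟩, Nr.symm h1⟩

end Pool.Agent.MP_f7f40d_pr.HD
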