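import Pool.Agent.MP_f7f40d_pr.HD.Z2a
import Pool.Agent.MP_f7f40d_pr.HD.E5
import Pool.Agent.MP_f7f40d_pr.HD.E3
import Pool.Agent.MP_f7f40d_pr.HD.E4

set_option autoImplicit false

namespace Pool.Agent.MP_f7f40d_pr.HD

open MeasureTheory ProbabilityTheory Filter Topology
open scoped ENNReal NNReal Nat

variable {d : ℕ}

/-- **[HD-Z3]** High dimension.

PROOF. `d0` from `tail_num`; `lam' = lam.toNNReal`; `s` from `tail_num`, `m1 = d + 3s + 4`, `P` from
`par_explicit`, `q0` = the bound of `prob_bad`, `q = qseq P q0`.  `Qb`: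
`nonneg`: induction on `n`; `pr`: `prob_XX`; `sm`, `lt`: `qseq_sum`.  Then `perc_one`; `percProb` unfolds
to `muP d lam.toNNReal (perc d)` (see `percProb_gt`). -/
theorem percProb_large (ε : ℝ) (hε : 0 < ε) : ∃ d0 : ℕ, 2 ≤ d0 ∧ ∀ d : ℕ, d0 ≤ d → ∀ lam : ℝ,
    (d : ℝ) + (1 + ε) * Real.sqrt (d * Real.log d) ≤ lam → percProb d lam = 1 := by
  obtain ⟨d0, hd0, H⟩ := tail_num ε hε
  refine ⟨d0, by omega, fun d hd lam hlam => ?_⟩
  have hd2 : 2 ≤ d := by omega
  have hdpos : (0 : ℝ) < d := by exact_mod_cast (by omega : 0 < d)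
  have hlam0 : 0 < lam := by
    have h1 := Real.sqrt_nonneg ((d : ℝ) * Real.log d)
    have h2 := mul_nonneg (by linarith : (0 : ℝ) ≤ 1 + ε) h1
    linarith
  have hlc : ((lam.toNNReal : ℝ≥0) : ℝ) = lam := Real.coe_toNNReal _ hlam0.le
  obtain ⟨s, hs, hq⟩ := H d hd lam.toNNReal (by rw [hlc]; exact hlam)
  obtain ⟨P, hPR, hPT, hPρ⟩ := par_explicit d (by omega)
  set m1 : ℕ := d + 3 * s + 4 with hm1
  set q0 : ℝ := (2 * (d : ℝ) * (2 * (d : ℝ) * (poissonMeasure lam.toNNReal).real {n | n < m1}) ^ s /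
    (s ! : ℝ)) ^ (s + 1) with hq0
  have hq00 : 0 ≤ q0 := by
    rw [hq0]
    refine pow_nonneg (div_nonneg (mul_nonneg (by positivity) (pow_nonneg (mul_nonneg
      (by positivity) measureReal_nonneg) _)) (by positivity)) _
  have hsum := qseq_sum d (by omega) P hPR hPT hPρ q0 hq00 hq
  have hnn : ∀ n, 0 ≤ qseq P q0 n := by
    intro n
    cases n with
    | zero => exact hq00
    | succ n =>
      show 0 ≤ ((2 * P.ρ n + 1 : ℕ) : ℝ) ^ d * qseq P q0 n ^ 2
      positivity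
  have hQ : Qb P m1 s lam.toNNReal (qseq P q0) :=
    ⟨hnn, fun n x => prob_XX P m1 s lam.toNNReal q0 (fun x => prob_bad m1 s lam.toNNReal x) n x,
      hsum.1, hsum.2⟩
  exact perc_one hd2 P m1 s rfl hs (Real.toNNReal_pos.2 hlam0) hQ

end Pool.Agent.MP_f7f40d_pr.HD
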