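import Pool.Agent.MP_f7f40d_pr.HD.Z3

set_option autoImplicit false

namespace Pool.Agent.MP_f7f40d_pr.HD

open MeasureTheory ProbabilityTheory Filter Topology
open scoped ENNReal NNReal

variable {d : ℕ}

theorem upper_all : ∃ C : ℝ, 0 < C ∧ ∀ d : ℕ, 2 ≤ d →
    (∀ lam : ℝ, (d : ℝ) + C * Real.sqrt (d * Real.log d) ≤ lam → percProb d lam = 1) ∧
      critDensity d ≤ (d : ℝ) + C * Real.sqrt (d * Real.log d) := by
  obtain ⟨d0, hd0, H⟩ := percProb_large 7 (by norm_num)
  set C : ℝ := max 8 d0 with hC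
  have hC8 : 8 ≤ C := le_max_left _ _
  have hCd : (d0 : ℝ) ≤ C := le_max_right _ _
  have hC0 : 0 < C := by linarith
  have key : ∀ d : ℕ, 2 ≤ d → ∀ lam : ℝ,
      (d : ℝ) + C * Real.sqrt (d * Real.log d) ≤ lam → percProb d lam = 1 := by
    intro d hd lam hlam
    have hs0 := Real.sqrt_nonneg ((d : ℝ) * Real.log d)
    by_cases hdd : d0 ≤ d
    · refine H d hdd lam (le_trans ?_ hlam)
      have := mul_le_mul_of_nonneg_right hC8 hs0
      linarith
    · have hd2 : (2 : ℝ) ≤ d := by exact_mod_cast hd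
      have hlog2 : (1 : ℝ) / 2 ≤ Real.log d := by
        have h1 : Real.log 2 ≤ Real.log d := Real.log_le_log (by norm_num) hd2
        have h2 := Real.log_two_gt_d9
        linarith
      have h1 : (1 : ℝ) ≤ Real.sqrt (d * Real.log d) := by
        rw [Real.one_le_sqrt]
        nlinarith
      have h2 : (d : ℝ) ≤ d0 := by exact_mod_cast (by omega : d ≤ d0)
      have h3 : C * 1 ≤ C * Real.sqrt (d * Real.log d) := mul_le_mul_of_nonneg_left h1 hC0.le
      refine percProb_gt d (by omega) ?_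
      linarith
  refine ⟨C, hC0, fun d hd => ⟨key d hd, critDensity_le ?_ (key d hd _ le_rfl)⟩⟩
  have hd2 : (2 : ℝ) ≤ d := by exact_mod_cast hd
  have hs0 := Real.sqrt_nonneg ((d : ℝ) * Real.log d)
  have := mul_nonneg hC0.le hs0
  linarith

end Pool.Agent.MP_f7f40d_pr.HD
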