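import Pool.Agent.MP_f7f40d_pr.HD.Defs
import Pool.Agent.MP_f7f40d_pr.DuMain
import Pool.Agent.MP_f7f40d_pr.LowMain

set_option autoImplicit false

namespace Pool.Agent.MP_f7f40d_pr.HD

open MeasureTheory ProbabilityTheory Filter Topology
open scoped ENNReal NNReal

variable {d : ℕ}

theorem hz4b_step (η : (Fin d → ℤ) → ℤ) :
    Pool.MP_f7f40d_pr.step (d := d) η = Pool.Agent.MP_f7f40d_pr.step d η := by
  funext v
  unfold Pool.MP_f7f40d_pr.step Pool.Agent.MP_f7f40d_pr.step
  congr 1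
  rw [Fintype.sum_prod_type]
  refine Finset.sum_congr rfl fun i _ => ?_
  rw [Fintype.sum_bool, add_single, sub_single]
  rfl

theorem hz4b_perc (A : (Fin d → ℤ) → ℤ) :
    Pool.MP_f7f40d_pr.Percolates (d := d) A ↔ Pool.Agent.MP_f7f40d_pr.Percolates d A := by
  have h : (Pool.MP_f7f40d_pr.step (d := d)) = Pool.Agent.MP_f7f40d_pr.step d :=
    funext fun η => hz4b_step η
  unfold Pool.MP_f7f40d_pr.Percolates Pool.Agent.MP_f7f40d_pr.Percolates
  rw [h]

/-- **[HD-Z4b]** The lower bound `d`, from `Pool.MP_f7f40d_pr.lower_bound`.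

PROOF. The two versions of `step` are equal: `∑ e : Fin d × Bool, …` is
`∑ i, (… v + e_i … + … v - e_i …)` (`Fintype.sum_prod_type`, `Fintype.sum_bool`;
`Function.update v i (v i ± 1) = v ± Pi.single i 1`, cf. `add_single`, `sub_single` in `Defs.lean`), so
the two versions of `Percolates` agree.  If `0 < lam`, `percProb d lam = 1` then `lower_bound` (file
`LowMain.lean`) gives `d + gain d ≤ lam`, so `d ≤ lam`; `le_csInf` (the set is non-empty by
`percProb_gt`). -/
theorem lower_all (d : ℕ) (hd : 2 ≤ d) : (d : ℝ) ≤ critDensity d := by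
  refine le_csInf ⟨3 * (d : ℝ) / 2 + 1, by positivity, percProb_gt d (by omega) (by linarith)⟩ ?_
  rintro lam ⟨hlam, hp⟩
  have h1 := Pool.MP_f7f40d_pr.lower_bound hd lam.toNNReal (by
    have h2 : {A : Pool.MP_f7f40d_pr.Site d → ℕ |
        Pool.MP_f7f40d_pr.Percolates (fun v => (A v : ℤ))} =
        {A : (Fin d → ℤ) → ℕ | Pool.Agent.MP_f7f40d_pr.Percolates d fun v => (A v : ℤ)} := by
      ext A
      exact hz4b_perc _
    rw [h2]
    exact hp)
  rw [Real.coe_toNNReal _ hlam.le] at h1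
  have h3 := Pool.MP_f7f40d_pr.gain_pos hd
  linarith

end Pool.Agent.MP_f7f40d_pr.HD
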