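import Pool.Agent.MP_f7f40d_pr.HD.Z4a
import Pool.Agent.MP_f7f40d_pr.HD.Z4b

set_option autoImplicit false

namespace Pool.Agent.MP_f7f40d_pr.HD

open MeasureTheory ProbabilityTheory Filter Topology
open scoped ENNReal NNReal

variable {d : ℕ}

/-- **[HD-Z4c]** PROOF. `1 ≤ critDensity d / d ≤ 1 + C √(log d / d)`, squeeze. -/
theorem tendsto_ratio : Tendsto (fun d : ℕ => critDensity d / d) atTop (𝓝 1) := by
  obtain ⟨C, hC, hup⟩ := upper_all
  have hlog : Tendsto (fun n : ℕ => Real.log (n : ℝ) / (n : ℝ)) atTop (𝓝 0) :=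
    (Real.isLittleO_log_id_atTop.tendsto_div_nhds_zero).comp tendsto_natCast_atTop_atTop
  have hsq : Tendsto (fun n : ℕ => 1 + C * Real.sqrt (Real.log (n : ℝ) / (n : ℝ))) atTop
      (𝓝 1) := by
    have h1 : Tendsto (fun n : ℕ => Real.sqrt (Real.log (n : ℝ) / (n : ℝ))) atTop (𝓝 0) := by
      have := (Real.continuous_sqrt.tendsto 0).comp hlog
      rwa [Real.sqrt_zero] at this
    have h2 := (h1.const_mul C).const_add 1
    simpa using h2
  refine tendsto_of_tendsto_of_tendsto_of_le_of_le' tendsto_const_nhds hsq ?_ ?_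
  · filter_upwards [eventually_ge_atTop 2] with n hn
    have hn0 : (0 : ℝ) < n := by exact_mod_cast (by omega : 0 < n)
    rw [le_div_iff₀ hn0, one_mul]
    exact lower_all n hn
  · filter_upwards [eventually_ge_atTop 2] with n hn
    have hn0 : (0 : ℝ) < n := by exact_mod_cast (by omega : 0 < n)
    rw [div_le_iff₀ hn0]
    refine ((hup n hn).2).trans (le_of_eq ?_)
    have hs : Real.sqrt ((n : ℝ) * Real.log n) =
        Real.sqrt (Real.log (n : ℝ) / (n : ℝ)) * n := by
      have hlog0 : 0 ≤ Real.log (n : ℝ) := Real.log_natCast_nonneg n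
      have e : (n : ℝ) * Real.log n = (Real.log (n : ℝ) / (n : ℝ)) * ((n : ℝ) * n) := by
        field_simp
      rw [e, Real.sqrt_mul (by positivity), Real.sqrt_mul_self hn0.le]
    rw [hs]
    ring

end Pool.Agent.MP_f7f40d_pr.HD
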