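import Pool.Agent.MP_f7f40d_pr.HD.F6
import Pool.Agent.MP_f7f40d_pr.HD.S2
import Pool.Agent.MP_f7f40d_pr.DuMain

set_option autoImplicit false

namespace Pool.Agent.MP_f7f40d_pr.HD

open MeasureTheory ProbabilityTheory Filter Topology
open scoped ENNReal NNReal

variable {d : ℕ}

/-- **[HD-Z2]** Percolation with probability one.

PROOF. By `zero_one` (with `meas_perc`, `perc_shf`, as in `perc_gt`) suppose `P(perc) = 0`.  Almost surely:
`A ∉ perc`, `ae_LF`, `ae_EX`.  `E` from `final_event` (`m1 = d + 3s + 4 ≤ 6 d`) has positive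
probability, so some `A ∈ E` has the three properties (if not, `E` is contained in a null set).
`N` from `exists_centres`.  `GR`: from `A ∈ E` and `gr_of_trunc` (`GrE` unfolds to `Gr`).
`det_final`: `¬ Stab d A`; but `stab_of_not_percolates`: contradiction. -/
theorem perc_one (hd : 2 ≤ d) (P : Par d) (m1 s : ℕ) (hm1 : m1 = d + 3 * s + 4)
    (hs : 3 * s + 4 ≤ d) {lam : ℝ≥0} (hlam : 0 < lam) {q : ℕ → ℝ} (hQ : Qb P m1 s lam q) :
    muP d lam (perc d) = 1 := by
  have hd1 : 1 ≤ d := by omega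
  rcases zero_one lam hd1 meas_perc (fun a A => perc_shf a A) with h0 | h1
  swap
  · exact h1
  exfalso
  obtain ⟨E, _, hEpos, hEA⟩ := final_event hd1 hlam (by omega : m1 ≤ 6 * d) hQ
  have hae : ∀ᵐ A ∂(muP d lam), A ∉ perc d := measure_eq_zero_iff_ae_notMem.1 h0
  have hfreq : ∃ᵐ A ∂(muP d lam), A ∈ E := frequently_ae_mem_iff.2 hEpos.ne'
  obtain ⟨A, hAE, ⟨hAp, hLF⟩, hEX⟩ :=
    (hfreq.and_eventually ((hae.and (ae_LF hQ)).and (ae_EX hd1 hQ))).exists
  obtain ⟨N, hN⟩ := exists_centres P (badS m1 s A)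
  refine det_final hd P m1 s hm1 hs A N hN hLF ?_ hEX (stab_of_not_percolates hAp)
  intro M
  obtain ⟨l, hMl, hl⟩ := hEA A hAE M
  exact ⟨l, hMl, gr_of_trunc P _ _ hLF _ _ _ fun L => hl L⟩

end Pool.Agent.MP_f7f40d_pr.HD
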